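import Pool.Agent.FS.Defs
import Pool.Agent.TN.Bas
import Pool.Agent.H68.VD.Flux

/-! # FS-2: the group of symplectic diffeomorphisms -/

set_option autoImplicit false

open MeasureTheory Set Pool.Agent.H68.VD TN SVT
open scoped ENNReal ContDiff

namespace FS

noncomputable section

variable {n : ℕ} {P : Set (Eu (n + n) → Eu (n + n))}

private theorem Sgp_ip (hP : SpDeck P) {φ : ℝ → Eu (n + n) → Eu (n + n)} (h : SPathP P φ) :
    IsPath (TrA.sub hP.deck) φ :=
  (TrA.path_iff hP.deck φ).1 h.path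

private theorem Sgp_smooth {φ : ℝ → Eu (n + n) → Eu (n + n)}
    (h : ContDiff ℝ ∞ (fun q : ℝ × Eu (n + n) => φ q.1 q.2)) (t : ℝ) : ContDiff ℝ ∞ (φ t) :=
  h.comp (contDiff_const.prodMk contDiff_id)

private theorem Sgp_diff {φ : ℝ → Eu (n + n) → Eu (n + n)}
    (h : ContDiff ℝ ∞ (fun q : ℝ × Eu (n + n) => φ q.1 q.2)) (t : ℝ) : Differentiable ℝ (φ t) :=
  (Sgp_smooth h t).differentiable (by simp)

/-- composition of symplectic maps -/
private theorem Sgp_comp {f g : Eu (n + n) → Eu (n + n)} (hf : Differentiable ℝ f)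
    (hg : Differentiable ℝ g)
    (sf : ∀ x v w, om (fderiv ℝ f x v) (fderiv ℝ f x w) = om v w)
    (sg : ∀ x v w, om (fderiv ℝ g x v) (fderiv ℝ g x w) = om v w) (x v w : Eu (n + n)) :
    om (fderiv ℝ (fun x => f (g x)) x v) (fderiv ℝ (fun x => f (g x)) x w) = om v w := by
  have h1 : fderiv ℝ (fun x => f (g x)) x = (fderiv ℝ f (g x)).comp (fderiv ℝ g x) :=
    fderiv_comp x (hf _) (hg _)
  rw [h1]
  show om (fderiv ℝ f (g x) (fderiv ℝ g x v)) (fderiv ℝ f (g x) (fderiv ℝ g x w)) = om v w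
  rw [sf, sg]

/-- the inverse of a symplectic map -/
private theorem Sgp_inv {f g : Eu (n + n) → Eu (n + n)} (hf : Differentiable ℝ f)
    (hg : Differentiable ℝ g) (hfg : ∀ x, f (g x) = x)
    (sf : ∀ x v w, om (fderiv ℝ f x v) (fderiv ℝ f x w) = om v w) (x v w : Eu (n + n)) :
    om (fderiv ℝ g x v) (fderiv ℝ g x w) = om v w := by
  have h1 : fderiv ℝ (fun x => f (g x)) x = (fderiv ℝ f (g x)).comp (fderiv ℝ g x) :=
    fderiv_comp x (hf _) (hg _)
  have h2 : (fun x => f (g x)) = fun x => x := funext hfg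
  rw [h2] at h1
  have h3 : ∀ v, fderiv ℝ f (g x) (fderiv ℝ g x v) = v := by
    intro v
    have h4 := congrArg (fun L : Eu (n + n) →L[ℝ] Eu (n + n) => L v) h1
    have h5 : fderiv ℝ (fun x : Eu (n + n) => x) x v = v := by
      rw [fderiv_fun_id]; rfl
    exact h4.symm.trans h5
  rw [← sf (g x), h3, h3]

theorem spp_sp (hP : SpDeck P) {φ : ℝ → Eu (n + n) → Eu (n + n)} (h : SPathP P φ) : SPath φ := by
  refine ⟨⟨h.path.smooth, h.path.bij, h.path.det, ?_⟩, h.symp⟩
  rintro t _ ⟨k, rfl⟩ x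
  exact h.path.equi t _ (hP.deck.trans k) x

theorem spp_comp (hP : SpDeck P) {φ ψ : ℝ → Eu (n + n) → Eu (n + n)} (h : SPathP P φ)
    (k : SPathP P ψ) : SPathP P (fun t x => φ t (ψ t x)) := by
  refine ⟨(TrA.path_iff hP.deck _).2 (FamA.isFamComp (Sgp_ip hP h) (Sgp_ip hP k)), ?_⟩
  intro t
  exact Sgp_comp (Sgp_diff h.path.smooth t) (Sgp_diff k.path.smooth t) (h.symp t) (k.symp t)

theorem spp_inv (hP : SpDeck P) {φ : ℝ → Eu (n + n) → Eu (n + n)} (h : SPathP P φ) :
    SPathP P (fun t => Function.invFun (φ t)) := by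
  have h1 : FPath P (fun t => Function.invFun (φ t)) :=
    (TrA.path_iff hP.deck _).2 (FamA.isFamInv (Sgp_ip hP h))
  refine ⟨h1, ?_⟩
  intro t
  exact Sgp_inv (Sgp_diff h.path.smooth t)
    (Sgp_diff (φ := fun t => Function.invFun (φ t)) h1.smooth t)
    (fun x => Function.rightInverse_invFun (h.path.bij t).2 x) (h.symp t)

theorem spp_time {φ : ℝ → Eu (n + n) → Eu (n + n)} (h : SPathP P φ) {τ : ℝ → ℝ}
    (hτ : ContDiff ℝ ∞ τ) : SPathP P (fun t => φ (τ t)) := by
  refine ⟨⟨?_, fun t => h.path.bij _, fun t => h.path.det _, fun t => h.path.equi _⟩,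
    fun t => h.symp _⟩
  exact h.path.smooth.comp ((hτ.comp contDiff_fst).prodMk contDiff_snd)

theorem sgp_sg (hP : SpDeck P) {f : Eu (n + n) → Eu (n + n)} (hf : SGP P f) : SG f := by
  obtain ⟨φ, h, h0, h1⟩ := hf
  exact ⟨φ, spp_sp hP h, h0, h1⟩

theorem sgp_equi {f : Eu (n + n) → Eu (n + n)} (hf : SGP P f) {g : Eu (n + n) → Eu (n + n)}
    (hg : g ∈ P) (x : Eu (n + n)) : f (g x) = g (f x) := by
  obtain ⟨φ, h, -, rfl⟩ := hf
  exact h.path.equi 1 g hg x

theorem spp_trans (hP : SpDeck P) {w : Eu (n + n)} (hw : FInv P w) :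
    SPathP P (fun t x => x + t • w) := by
  have hfd : ∀ (t : ℝ) (x : Eu (n + n)), fderiv ℝ (fun x : Eu (n + n) => x + t • w) x =
      ContinuousLinearMap.id ℝ (Eu (n + n)) := by
    intro t x
    rw [fderiv_add_const]
    exact fderiv_fun_id
  refine ⟨⟨?_, ?_, ?_, ?_⟩, ?_⟩
  · exact contDiff_snd.add (contDiff_fst.smul contDiff_const)
  · intro t
    constructor
    · intro x y hxy
      exact add_right_cancel hxy
    · intro y
      exact ⟨y - t • w, sub_add_cancel _ _⟩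
  · intro t x
    show (fderiv ℝ (fun x : Eu (n + n) => x + t • w) x).det = 1
    rw [hfd]
    exact LinearMap.det_id
  · intro t g hg x
    obtain ⟨a, rfl⟩ := TrA.exists_aff hP.deck hg
    have h1 := (TrA.finv_iff hP.deck w).1 hw a hg
    show a x + t • w = a (x + t • w)
    rw [TrA.add_map, map_smul, h1]
  · intro t x v u
    show om (fderiv ℝ (fun x : Eu (n + n) => x + t • w) x v)
      (fderiv ℝ (fun x : Eu (n + n) => x + t • w) x u) = om v u
    rw [hfd]
    rfl

theorem sgp_id (hP : SpDeck P) : SGP P id := by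
  have h0 : FInv P 0 := fun g _ x => by rw [add_zero, add_zero]
  refine ⟨fun t x => x + t • 0, spp_trans hP h0, ?_, ?_⟩
  · funext x
    show x + (0 : ℝ) • (0 : Eu (n + n)) = x
    rw [smul_zero, add_zero]
  · funext x
    show x + (1 : ℝ) • (0 : Eu (n + n)) = x
    rw [smul_zero, add_zero]

theorem sgp_comp (hP : SpDeck P) {f g : Eu (n + n) → Eu (n + n)} (hf : SGP P f) (hg : SGP P g) :
    SGP P (fun x => f (g x)) := by
  obtain ⟨φ, h, h0, h1⟩ := hf
  obtain ⟨ψ, k, k0, k1⟩ := hg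
  refine ⟨fun t x => φ t (ψ t x), spp_comp hP h k, ?_, ?_⟩
  · funext x
    show φ 0 (ψ 0 x) = x
    rw [h0, k0]
    rfl
  · funext x
    show φ 1 (ψ 1 x) = f (g x)
    rw [h1, k1]

theorem sgp_inv (hP : SpDeck P) {f : Eu (n + n) → Eu (n + n)} (hf : SGP P f) :
    SGP P (Function.invFun f) := by
  obtain ⟨φ, h, h0, h1⟩ := hf
  refine ⟨fun t => Function.invFun (φ t), spp_inv hP h, ?_, ?_⟩
  · show Function.invFun (φ 0) = id
    rw [h0]
    funext x
    exact Function.leftInverse_invFun Function.injective_id x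
  · show Function.invFun (φ 1) = Function.invFun f
    rw [h1]

theorem spp_sgp {φ : ℝ → Eu (n + n) → Eu (n + n)} (h : SPathP P φ) (h0 : φ 0 = id) (t : ℝ) :
    SGP P (φ t) := by
  refine ⟨fun s => φ (s * t), spp_time h (contDiff_id.mul contDiff_const), ?_, ?_⟩
  · show φ (0 * t) = id
    rw [zero_mul, h0]
  · show φ (1 * t) = φ t
    rw [one_mul]

theorem spp_const (hP : SpDeck P) {f : Eu (n + n) → Eu (n + n)} (hf : SGP P f) :
    SPathP P (fun _ => f) := by
  obtain ⟨φ, h, -, rfl⟩ := hf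
  exact spp_time h (τ := fun _ => 1) contDiff_const

/-- the mean displacement is an invariant vector -/
theorem finv_flux (hP : SpDeck P) {f : Eu (n + n) → Eu (n + n)} (hf : SGP P f) :
    FInv P (∫ x in cube (n + n), (f x - x)) := by
  have hc : Continuous f := by
    obtain ⟨φ, h, -, rfl⟩ := hf
    exact (Sgp_smooth h.path.smooth 1).continuous
  rw [TrA.finv_iff hP.deck]
  intro a ha
  exact FluxA.invt_gen (TrA.deck hP.deck) hc
    (fun g hg x => sgp_equi hf ((TrA.mem_sub hP.deck g).1 hg) x) ha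

end

end FS
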