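import Pool.Agent.FS.Defs
import Pool.Agent.H68.VD.Tr

/-! # Project FS (MP_b0bf68_gt), row FS-3: sums of translates -/

set_option autoImplicit false
set_option linter.all false

open MeasureTheory Set Pool.Agent.H68.VD TN SVT
open scoped ENNReal ContDiff

namespace FS

noncomputable section

variable {n : ℕ} {P : Set (Eu (n + n) → Eu (n + n))}

theorem sym_at {c : Eu (n + n)} {ρ : ℝ} (hP : SpDeck P) (hs : SepP P c ρ) {u : Eu (n + n) → ℝ}
    (hu : ∀ x, ρ ≤ dist x c → u x = 0) {x : Eu (n + n)} (hx : dist x c < ρ) : sym P u x = u x := by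
  unfold sym
  rw [finsum_eq_single _ (⟨id, hP.deck.one⟩ : P)]
  · rfl
  · intro g hg
    have h1 : g.1 ≠ id := fun h => hg (Subtype.ext h)
    exact hu _ (not_lt.1 (hs.2 g.1 g.2 h1 x hx))

theorem sym_out {c : Eu (n + n)} {r : ℝ} {u : Eu (n + n) → ℝ}
    (hu : ∀ x, r ≤ dist x c → u x = 0) {x : Eu (n + n)} (hx : x ∉ orb P c r) : sym P u x = 0 := by
  unfold sym
  have h1 : ∀ g : P, u (g.1 x) = 0 := fun g =>
    hu _ (not_lt.1 fun h => hx ⟨g.1, g.2, h⟩)
  rw [finsum_congr h1, finsum_zero]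

theorem sym_inv (hP : SpDeck P) (u : Eu (n + n) → ℝ) : PI P (sym P u) := by
  intro h hh x
  obtain ⟨k, hk, h1, h2⟩ := hP.deck.inv h hh
  let e : P ≃ P :=
    { toFun := fun g => ⟨g.1 ∘ h, hP.deck.mul _ g.2 _ hh⟩
      invFun := fun g => ⟨g.1 ∘ k, hP.deck.mul _ g.2 _ hk⟩
      left_inv := by
        intro g
        apply Subtype.ext
        show (g.1 ∘ h) ∘ k = g.1
        rw [Function.comp_assoc, h1, Function.comp_id]
      right_inv := by
        intro g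
        apply Subtype.ext
        show (g.1 ∘ k) ∘ h = g.1
        rw [Function.comp_assoc, h2, Function.comp_id] }
  unfold sym
  exact finsum_comp_equiv e (f := fun g : P => u (g.1 x))

/-- the two cases -/
theorem symA_cases (hP : SpDeck P) (c : Eu (n + n)) {ρ r : ℝ} (hr : r < ρ) (x : Eu (n + n)) :
    (∃ a ∈ TrA.sub hP.deck, dist (a x) c < ρ) ∨
      ∃ U : Set (Eu (n + n)), IsOpen U ∧ x ∈ U ∧ ∀ y ∈ U, y ∉ orb P c r := by
  by_cases h : ∀ a ∈ TrA.sub hP.deck, ρ ≤ dist (a x) c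
  · right
    obtain ⟨U, h1, h2, h3⟩ := ExtKA.away (TrA.sub hP.deck) (TrA.deck hP.deck) c ρ r hr x h
    refine ⟨U, h1, h2, fun y hy hy2 => ?_⟩
    obtain ⟨g, hg, hgy⟩ := hy2
    obtain ⟨a, rfl⟩ := TrA.exists_aff hP.deck hg
    exact absurd hgy (not_lt.2 (h3 y hy a hg))
  · left
    push Not at h
    exact h

theorem symA_in (hP : SpDeck P) {c : Eu (n + n)} {ρ : ℝ} (hs : SepP P c ρ) {u : Eu (n + n) → ℝ}
    (hu : ∀ x, ρ ≤ dist x c → u x = 0) {a : Eu (n + n) ≃ᵃ[ℝ] Eu (n + n)} (ha : a ∈ TrA.sub hP.deck)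
    {x : Eu (n + n)} (hx : dist (a x) c < ρ) : sym P u x = u (a x) := by
  rw [← sym_at hP hs hu hx]
  exact (sym_inv hP u _ ((TrA.mem_sub hP.deck a).1 ha) x).symm

theorem sym_smooth {c : Eu (n + n)} {ρ r : ℝ} (hP : SpDeck P) (hs : SepP P c ρ) (hr : r < ρ)
    {E : Type} [NormedAddCommGroup E] [NormedSpace ℝ E] {u : E → Eu (n + n) → ℝ}
    (hu : ContDiff ℝ ∞ (fun z : E × Eu (n + n) => u z.1 z.2))
    (h0 : ∀ e x, r ≤ dist x c → u e x = 0) :
    ContDiff ℝ ∞ (fun z : E × Eu (n + n) => sym P (u z.1) z.2) := by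
  rw [contDiff_iff_contDiffAt]
  rintro ⟨e, x⟩
  rcases symA_cases hP c hr x with ⟨a, ha, hx⟩ | ⟨U, hU, hxU, hU'⟩
  · have h1 : ContDiff ℝ ∞ (fun q : E × Eu (n + n) => u q.1 (a q.2)) :=
      hu.comp (contDiff_fst.prodMk ((ExtKA.smoothAff a).comp contDiff_snd))
    refine h1.contDiffAt.congr_of_eventuallyEq ?_
    have h3 : IsOpen {q : E × Eu (n + n) | dist (a q.2) c < ρ} :=
      isOpen_lt (((ExtKA.cont a).comp continuous_snd).dist continuous_const) continuous_const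
    filter_upwards [h3.mem_nhds (show (e, x) ∈ {q : E × Eu (n + n) | dist (a q.2) c < ρ} from hx)]
      with q hq
    exact symA_in hP hs (fun y hy => h0 q.1 y (hr.le.trans hy)) ha hq
  · have h1 : ContDiff ℝ ∞ (fun _ : E × Eu (n + n) => (0 : ℝ)) := contDiff_const
    refine h1.contDiffAt.congr_of_eventuallyEq ?_
    have h3 : IsOpen {q : E × Eu (n + n) | q.2 ∈ U} := hU.preimage continuous_snd
    filter_upwards [h3.mem_nhds (show (e, x) ∈ {q : E × Eu (n + n) | q.2 ∈ U} from hxU)] with q hq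
    exact sym_out (h0 q.1) (hU' _ hq)

theorem symA_L {a b : Eu (n + n) ≃ᵃ[ℝ] Eu (n + n)} {k : Fin (n + n) → ℤ}
    (h : ∀ x, a x = b x + iv k) : ExtKA.L a = ExtKA.L b := by
  ext1 v
  have h1 := ExtKA.aff_eq a v
  have h2 := ExtKA.aff_eq b v
  have h3 := h v
  have h4 := h 0
  have h5 : ExtKA.L a v = a v - a 0 := by rw [h1]; abel
  have h6 : ExtKA.L b v = b v - b 0 := by rw [h2]; abel
  rw [h5, h6, h3, h4]
  abel

theorem sym_bd (hP : SpDeck P) : ∃ L : ℝ, 1 ≤ L ∧ ∀ (c : Eu (n + n)) (ρ r : ℝ), SepP P c ρ → r < ρ →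
    ∀ u : Eu (n + n) → ℝ, ContDiff ℝ ∞ u → (∀ x, r ≤ dist x c → u x = 0) → ∀ a b : ℝ,
      0 ≤ a → 0 ≤ b → (∀ x, |u x| ≤ a) → (∀ x, ‖fderiv ℝ u x‖ ≤ b) →
      (∀ x, |sym P u x| ≤ a) ∧ ∀ x, ‖fderiv ℝ (sym P u) x‖ ≤ L * b := by
  obtain ⟨R, hR⟩ := (TrA.deck hP.deck).fin
  refine ⟨1 + ∑ s ∈ R, ‖ExtKA.L s‖, ?_, ?_⟩
  · have : 0 ≤ ∑ s ∈ R, ‖ExtKA.L s‖ := Finset.sum_nonneg fun _ _ => norm_nonneg _
    linarith
  · intro c ρ r hs hr u hu h0 a b ha hb hua hub
    have h0' : ∀ x, ρ ≤ dist x c → u x = 0 := fun x hx => h0 x (hr.le.trans hx)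
    have hnn : 0 ≤ ∑ s ∈ R, ‖ExtKA.L s‖ := Finset.sum_nonneg fun _ _ => norm_nonneg _
    refine ⟨fun x => ?_, fun x => ?_⟩
    · rcases symA_cases hP c hr x with ⟨g, hg, hx⟩ | ⟨U, hU, hxU, hU'⟩
      · rw [symA_in hP hs h0' hg hx]
        exact hua _
      · rw [sym_out h0 (hU' x hxU), abs_zero]
        exact ha
    · rcases symA_cases hP c hr x with ⟨g, hg, hx⟩ | ⟨U, hU, hxU, hU'⟩
      · have h3 : IsOpen {y : Eu (n + n) | dist (g y) c < ρ} :=
          isOpen_lt ((ExtKA.cont g).dist continuous_const) continuous_const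
        have h5 : sym P u =ᶠ[nhds x] fun y => u (g y) := by
          filter_upwards [h3.mem_nhds (show x ∈ {y : Eu (n + n) | dist (g y) c < ρ} from hx)]
            with q hq
          exact symA_in hP hs h0' hg hq
        have h6 : HasFDerivAt (fun y => u (g y)) ((fderiv ℝ u (g x)).comp (ExtKA.L g)) x :=
          ((hu.differentiable (by simp)) (g x)).hasFDerivAt.comp x (ExtKA.hasFDeriv g x)
        rw [h5.fderiv_eq, h6.fderiv]
        obtain ⟨s, hsR, k, hk⟩ := hR g hg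
        have h7 : ‖ExtKA.L g‖ ≤ 1 + ∑ s ∈ R, ‖ExtKA.L s‖ := by
          rw [symA_L hk]
          have := Finset.single_le_sum (f := fun s => ‖ExtKA.L s‖) (fun _ _ => norm_nonneg _) hsR
          linarith
        calc ‖(fderiv ℝ u (g x)).comp (ExtKA.L g)‖ ≤ ‖fderiv ℝ u (g x)‖ * ‖ExtKA.L g‖ :=
              ContinuousLinearMap.opNorm_comp_le _ _
          _ ≤ b * (1 + ∑ s ∈ R, ‖ExtKA.L s‖) :=
              mul_le_mul (hub _) h7 (norm_nonneg _) hb
          _ = _ := mul_comm _ _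
      · have h5 : sym P u =ᶠ[nhds x] fun _ => 0 := by
          filter_upwards [hU.mem_nhds hxU] with q hq
          exact sym_out h0 (hU' q hq)
        rw [h5.fderiv_eq]
        simp only [fderiv_fun_const, Pi.zero_apply, norm_zero]
        positivity

theorem symA_cube : MeasurableSet (cube (n + n)) := by
  have h : cube (n + n) = ⋂ i, {x : Eu (n + n) | x i ∈ Set.Ico (0 : ℝ) 1} := by
    ext x
    simp [cube]
  rw [h]
  refine MeasurableSet.iInter fun i => ?_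
  have h1 : Measurable fun x : Eu (n + n) => x i :=
    (EuclideanSpace.proj i : Eu (n + n) →L[ℝ] ℝ).continuous.measurable
  exact h1 measurableSet_Ico

/-- the cubes tile -/
theorem symA_tile {S : Set (Eu (n + n))} (hS : MeasurableSet S) :
    ∑' l : Fin (n + n) → ℤ, volume ({x | x + iv l ∈ S} ∩ cube (n + n)) ≤ volume S := by
  have hm : Measurable fun p : Eu (n + n) => p := measurable_id
  let T : (Fin (n + n) → ℤ) → Set (Eu (n + n)) := fun l => {y | y - iv l ∈ cube (n + n)} ∩ S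
  have hT : ∀ l, MeasurableSet (T l) := fun l =>
    ((measurable_id.sub_const (iv l)) symA_cube).inter hS
  have hd : Pairwise (Function.onFun Disjoint T) := by
    intro l l' hne
    rw [Function.onFun, Set.disjoint_left]
    rintro y ⟨h1, -⟩ ⟨h2, -⟩
    apply hne
    funext i
    have h3 : (y - iv l) i ∈ Set.Ico (0 : ℝ) 1 := h1 i
    have h4 : (y - iv l') i ∈ Set.Ico (0 : ℝ) 1 := h2 i
    have e1 : (y - iv l) i = y i - l i := by simp [iv]
    have e2 : (y - iv l') i = y i - l' i := by simp [iv]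
    rw [e1] at h3
    rw [e2] at h4
    have h5 : ⌊y i⌋ = l i := by
      rw [Int.floor_eq_iff]
      constructor <;> linarith [h3.1, h3.2]
    have h6 : ⌊y i⌋ = l' i := by
      rw [Int.floor_eq_iff]
      constructor <;> linarith [h4.1, h4.2]
    rw [← h5, ← h6]
  have he : ∀ l, volume ({x | x + iv l ∈ S} ∩ cube (n + n)) = volume (T l) := by
    intro l
    have h1 : {x | x + iv l ∈ S} ∩ cube (n + n) = (fun x => x + iv l) ⁻¹' (T l) := by
      ext x
      simp only [T, mem_inter_iff, mem_ofPred_eq, mem_preimage, add_sub_cancel_right]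
      exact and_comm
    rw [h1, measure_preimage_add_right]
  calc ∑' l : Fin (n + n) → ℤ, volume ({x | x + iv l ∈ S} ∩ cube (n + n))
      = ∑' l, volume (T l) := tsum_congr he
    _ = volume (⋃ l, T l) := (measure_iUnion hd hT).symm
    _ ≤ volume S := measure_mono (iUnion_subset fun l => inter_subset_right)

theorem symA_det (a : Eu (n + n) ≃ᵃ[ℝ] Eu (n + n)) :
    LinearMap.det (a.linear : Eu (n + n) →ₗ[ℝ] Eu (n + n)) ≠ 0 :=
  (LinearEquiv.isUnit_det' a.linear).ne_zero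

theorem symA_pre (a : Eu (n + n) ≃ᵃ[ℝ] Eu (n + n)) (S : Set (Eu (n + n))) :
    volume (a ⁻¹' S) =
      ENNReal.ofReal |(LinearMap.det (a.linear : Eu (n + n) →ₗ[ℝ] Eu (n + n)))⁻¹| * volume S := by
  have h1 : (a : Eu (n + n) → Eu (n + n)) ⁻¹' S =
      (a.linear : Eu (n + n) →ₗ[ℝ] Eu (n + n)) ⁻¹' ((fun y => y + a 0) ⁻¹' S) := by
    ext x
    have h2 : a x = a.linear x + a 0 := by rw [ExtKA.aff_eq a x, ExtKA.L_ap]
    simp only [mem_preimage, LinearEquiv.coe_coe]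
    rw [h2]
  rw [h1, Measure.addHaar_preimage_linearMap volume (symA_det a), measure_preimage_add_right]

theorem sym_vol (hP : SpDeck P) : ∃ K : ℝ, 0 ≤ K ∧ ∀ S : Set (Eu (n + n)), MeasurableSet S →
    volume ({x | ∃ g ∈ P, g x ∈ S} ∩ cube (n + n)) ≤ ENNReal.ofReal K * volume S := by
  obtain ⟨R, hR⟩ := (TrA.deck hP.deck).fin
  refine ⟨∑ s ∈ R, |(LinearMap.det (s.linear : Eu (n + n) →ₗ[ℝ] Eu (n + n)))⁻¹|,
    Finset.sum_nonneg fun _ _ => abs_nonneg _, ?_⟩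
  intro S hS
  have hsub : {x | ∃ g ∈ P, g x ∈ S} ∩ cube (n + n) ⊆
      ⋃ s ∈ R, ⋃ l : Fin (n + n) → ℤ, {x | x + iv l ∈ s ⁻¹' S} ∩ cube (n + n) := by
    rintro x ⟨⟨g, hg, hx⟩, hc⟩
    obtain ⟨a, rfl⟩ := TrA.exists_aff hP.deck hg
    obtain ⟨s, hs, k, hk⟩ := hR a hg
    obtain ⟨l, hl⟩ := (TrA.deck hP.deck).int a⁻¹ ((TrA.sub hP.deck).inv_mem hg) k
    simp only [mem_iUnion]
    refine ⟨s, hs, l, ?_, hc⟩
    have h1 : s (x + iv l) = a x := by
      have h2 : ExtKA.L a = ExtKA.L s := symA_L hk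
      have h3 : s.linear (iv l) = iv k := by
        rw [← ExtKA.L_ap, ← h2, ExtKA.L_ap, ← hl, ← ExtKA.lin_mul, mul_inv_cancel, ExtKA.lin_one]
      rw [ExtKA.aff_add, h3, hk]
    show s (x + iv l) ∈ S
    rw [h1]
    exact hx
  calc volume ({x | ∃ g ∈ P, g x ∈ S} ∩ cube (n + n))
      ≤ volume (⋃ s ∈ R, ⋃ l : Fin (n + n) → ℤ, {x | x + iv l ∈ s ⁻¹' S} ∩ cube (n + n)) :=
        measure_mono hsub
    _ ≤ ∑ s ∈ R, volume (⋃ l : Fin (n + n) → ℤ, {x | x + iv l ∈ s ⁻¹' S} ∩ cube (n + n)) :=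
        measure_biUnion_finset_le _ _
    _ ≤ ∑ s ∈ R, ENNReal.ofReal |(LinearMap.det (s.linear : Eu (n + n) →ₗ[ℝ] Eu (n + n)))⁻¹| *
          volume S := by
        refine Finset.sum_le_sum fun s _ => ?_
        refine (measure_iUnion_le _).trans ?_
        rw [← symA_pre s S]
        exact symA_tile ((ExtKA.cont s).measurable hS)
    _ = _ := by
        rw [← Finset.sum_mul, ENNReal.ofReal_sum_of_nonneg fun _ _ => abs_nonneg _]

end

end FS
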