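import Pool.Agent.FS.Dk
import Pool.Agent.FS.Sgp
import Pool.Agent.FS.Sym
import Pool.Agent.SVT.Cut

/-!
# FS-16: the interpolation quantity is a price functional
-/

set_option autoImplicit false

open MeasureTheory Set Pool.Agent.H68.VD TN SVT
open scoped ENNReal ContDiff

namespace FS

noncomputable section

variable {n : ℕ} {P : Set (Eu (n + n) → Eu (n + n))}

/-- `EE_comp` with an explicit constant -/
private theorem CfE_comp {p σ : ℝ} (hp : 1 < p) (hσ : 0 ≤ σ) (hσ1 : σ < 1)
    {g : Eu (n + n) → Eu (n + n)} (hg : SG g) {C : ℝ} (hC1 : 1 ≤ C) (hC : ∀ x, ‖fderiv ℝ g x‖ ≤ C)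
    {G : Eu (n + n) → ℝ} (hG : ContDiff ℝ ∞ G) (hGp : Per G) :
    EE p σ (fun x => G (g x)) ≤ ENNReal.ofReal C * EE p σ G := by
  have hfp : Per (fderiv ℝ G) := by
    intro x k
    have e : (fun y => G (y + iv k)) = G := funext fun y => hGp y k
    have h := fderiv_comp_add_right (𝕜 := ℝ) (f := G) (x := x) (iv k)
    rw [e] at h
    exact h.symm
  have h1 : nH p (fun x => G (g x)) = nH p G := by
    unfold nH
    congr 1
    exact sg_cov hg (F := fun y => ‖G y‖ₑ ^ p) (hG.continuous.enorm.measurable.pow_const p)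
      fun x k => by
        change ‖G (x + iv k)‖ₑ ^ p = ‖G x‖ₑ ^ p
        rw [hGp]
  have h2 : nD p (fun x => G (g x)) ≤ ENNReal.ofReal C * nD p G := by
    have e : nD p G = (∫⁻ x in cube (n + n), ‖fderiv ℝ G (g x)‖ₑ ^ p) ^ (1 / p) := by
      unfold nD
      congr 1
      exact (sg_cov hg (F := fun y => ‖fderiv ℝ G y‖ₑ ^ p)
        ((hG.continuous_fderiv (by simp)).enorm.measurable.pow_const p) fun x k => by
          change ‖fderiv ℝ G (x + iv k)‖ₑ ^ p = ‖fderiv ℝ G x‖ₑ ^ p
          rw [hfp]).symm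
    rw [e]
    refine EE_aux_le hp (fun x => ?_) ?_
    · have e2 : fderiv ℝ (fun x => G (g x)) x = (fderiv ℝ G (g x)).comp (fderiv ℝ g x) :=
        fderiv_comp x (hG.differentiable (by simp) _) ((sg_smooth hg).differentiable (by simp) x)
      rw [e2, ← ofReal_norm, ← ofReal_norm, ← ENNReal.ofReal_mul (by linarith)]
      refine ENNReal.ofReal_le_ofReal ?_
      calc ‖(fderiv ℝ G (g x)).comp (fderiv ℝ g x)‖
          ≤ ‖fderiv ℝ G (g x)‖ * ‖fderiv ℝ g x‖ := ContinuousLinearMap.opNorm_comp_le _ _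
        _ ≤ ‖fderiv ℝ G (g x)‖ * C := by gcongr; exact hC x
        _ = _ := mul_comm _ _
    · exact ((hG.continuous_fderiv (by simp)).comp (sg_smooth hg).continuous).enorm.measurable
  unfold EE
  rw [h1]
  have hC' : ENNReal.ofReal C ^ σ ≤ ENNReal.ofReal C := by
    calc ENNReal.ofReal C ^ σ ≤ ENNReal.ofReal C ^ (1 : ℝ) :=
          ENNReal.rpow_le_rpow_of_exponent_le (by
            rw [← ENNReal.ofReal_one]
            exact ENNReal.ofReal_le_ofReal hC1) hσ1.le
      _ = _ := ENNReal.rpow_one _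
  calc nH p G ^ (1 - σ) * nD p (fun x => G (g x)) ^ σ
      ≤ nH p G ^ (1 - σ) * (ENNReal.ofReal C * nD p G) ^ σ := by gcongr
    _ = ENNReal.ofReal C ^ σ * (nH p G ^ (1 - σ) * nD p G ^ σ) := by
        rw [ENNReal.mul_rpow_of_nonneg _ _ hσ]
        ring
    _ ≤ ENNReal.ofReal C * (nH p G ^ (1 - σ) * nD p G ^ σ) := by gcongr

/-- the deck transformations are uniformly Lipschitz -/
private theorem CfE_lip (hP : SpDeck P) : ∃ Λ : ℝ, 0 ≤ Λ ∧ ∀ g ∈ P, ∀ x y,
    dist (g x) (g y) ≤ Λ * dist x y := by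
  obtain ⟨R, hRP, hR, -⟩ := dk_fin hP
  classical
  choose! L hL using fun r (hr : r ∈ R) => dk_aff hP (hRP r hr)
  refine ⟨∑ r ∈ R, ‖L r‖, Finset.sum_nonneg fun r _ => norm_nonneg _, ?_⟩
  intro g hg x y
  obtain ⟨r, hr, k, hk⟩ := hR g hg
  have h1 : g x - g y = L r (x - y) := by
    rw [hk, hk]
    have h2 := (hL r hr).1 y (x - y)
    rw [add_sub_cancel] at h2
    rw [h2]
    abel
  rw [dist_eq_norm, h1, dist_eq_norm]
  refine ((L r).le_opNorm _).trans ?_
  exact mul_le_mul_of_nonneg_right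
    (Finset.single_le_sum (f := fun r => ‖L r‖) (fun r _ => norm_nonneg _) hr) (norm_nonneg _)

/-- a periodic set meets a separated ball in a set which is not larger than in the cube -/
private theorem CfE_vol (hP : SpDeck P) {c : Eu (n + n)} {ρ : ℝ} (hs : SepP P c ρ)
    {S : Set (Eu (n + n))} (hS : MeasurableSet S)
    (hSp : ∀ x (k : Fin (n + n) → ℤ), x + iv k ∈ S ↔ x ∈ S) :
    volume (S ∩ Metric.ball c ρ) ≤ volume (S ∩ cube (n + n)) := by
  have hinv : VAddInvariantMeasure (FluxA.Lt (n + n)) (Eu (n + n)) volume :=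
    inferInstanceAs (VAddInvariantMeasure (FluxA.Lt (n + n)).toAddSubgroup (Eu (n + n)) volume)
  have hm : MeasurableSet (S ∩ Metric.ball c ρ) := hS.inter measurableSet_ball
  have h1 : volume (S ∩ Metric.ball c ρ) =
      ∫⁻ x, (S ∩ Metric.ball c ρ).indicator (1 : Eu (n + n) → ℝ≥0∞) x :=
    (lintegral_indicator_one hm).symm
  have h2 : volume (S ∩ cube (n + n)) = ∫⁻ x in cube (n + n), S.indicator (1 : Eu (n + n) → ℝ≥0∞) x := by
    rw [lintegral_indicator_one hS, Measure.restrict_apply hS]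
  rw [h1, h2, HsA.cube_dom.lintegral_eq_tsum' (μ := volume)]
  rw [← lintegral_tsum]
  swap
  · intro g
    exact ((measurable_one.indicator hm).comp (measurable_const_vadd (-g))).aemeasurable
  refine lintegral_mono fun x => ?_
  have hmem : ∀ g : FluxA.Lt (n + n), (-g +ᵥ x ∈ S ↔ x ∈ S) := by
    intro g
    obtain ⟨k, rfl⟩ := (FluxA.eqv (n + n)).surjective g
    have e : (-(FluxA.eqv (n + n) k) +ᵥ x) + iv k = x := by
      show (-(iv k : Eu (n + n)) + x) + iv k = x
      abel
    rw [← hSp (-(FluxA.eqv (n + n) k) +ᵥ x) k, e]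
  by_cases hx : x ∈ S
  · rw [indicator_of_mem hx]
    by_cases hex : ∃ g : FluxA.Lt (n + n), -g +ᵥ x ∈ Metric.ball c ρ
    · obtain ⟨g₀, hg₀⟩ := hex
      rw [tsum_eq_single g₀]
      · refine indicator_le_self' ?_ _ |>.trans ?_
        · intro _ _
          exact zero_le_one
        · exact le_rfl
      · intro g hg
        refine indicator_of_notMem ?_ _
        rintro ⟨-, hgb⟩
        obtain ⟨k₀, rfl⟩ := (FluxA.eqv (n + n)).surjective g₀
        obtain ⟨k, rfl⟩ := (FluxA.eqv (n + n)).surjective g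
        have hne : k₀ - k ≠ 0 := by
          intro h0
          exact hg (by rw [sub_eq_zero.1 h0])
        have ht := hP.deck.trans (k₀ - k)
        have hid : (fun x : Eu (n + n) => x + iv (k₀ - k)) ≠ id := by
          intro h0
          have h3 := congrFun h0 0
          have h4 : (iv (k₀ - k) : Eu (n + n)) = iv 0 := by
            have h5 : (iv (0 : Fin (n + n) → ℤ) : Eu (n + n)) = 0 := by
              ext i
              simp [HsA.iv_apply]
            rw [h5]
            simpa using h3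
          exact hne (FluxA.iv_inj h4)
        refine hs.2 _ ht hid _ (Metric.mem_ball.1 hg₀) ?_
        have e : (-(FluxA.eqv (n + n) k₀) +ᵥ x) + iv (k₀ - k) = -(FluxA.eqv (n + n) k) +ᵥ x := by
          show (-(iv k₀ : Eu (n + n)) + x) + iv (k₀ - k) = -(iv k : Eu (n + n)) + x
          have h6 : (iv (k₀ - k) : Eu (n + n)) = iv k₀ - iv k := by
            ext i
            simp [HsA.iv_apply]
          rw [h6]
          abel
        show dist ((-(FluxA.eqv (n + n) k₀) +ᵥ x) + iv (k₀ - k)) c < ρ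
        rw [e]
        exact Metric.mem_ball.1 hgb
    · have h0 : ∀ g : FluxA.Lt (n + n),
          (S ∩ Metric.ball c ρ).indicator (1 : Eu (n + n) → ℝ≥0∞) (-g +ᵥ x) = 0 := fun g =>
        indicator_of_notMem (fun h => hex ⟨g, h.2⟩) _
      simp only [h0, tsum_zero]
      exact zero_le
  · have h0 : ∀ g : FluxA.Lt (n + n),
        (S ∩ Metric.ball c ρ).indicator (1 : Eu (n + n) → ℝ≥0∞) (-g +ᵥ x) = 0 := fun g =>
      indicator_of_notMem (fun h => hx ((hmem g).1 h.1)) _
    simp only [h0, tsum_zero]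
    exact zero_le

/-- off the translates of the support, the sum of the translates is zero -/
private theorem CfE_zero (hP : SpDeck P) {c : Eu (n + n)} {ρ r : ℝ} (hs : SepP P c ρ) (hr : r < ρ)
    {A X : Eu (n + n) → ℝ} {S : Set (Eu (n + n))} (hA : ∀ x, r ≤ dist x c → A x = 0)
    (hX : ∀ x ∉ S, ∀ᶠ y in nhds x, X y = 0) {x : Eu (n + n)}
    (hx : x ∉ {x | ∃ g ∈ P, g x ∈ S ∩ Metric.ball c ρ}) :
    ∀ᶠ y in nhds x, sym P (fun x => A x * X x) y = 0 := by
  obtain ⟨Λ, hΛ0, hΛ⟩ := CfE_lip hP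
  by_cases hex : ∃ g ∈ P, dist (g x) c < ρ
  · obtain ⟨g, hg, hgx⟩ := hex
    have hgc : Continuous g := by
      refine (LipschitzWith.of_dist_le_mul (K := ⟨Λ, hΛ0⟩) fun a b => ?_).continuous
      exact hΛ g hg a b
    have hgS : g x ∉ S := fun h => hx ⟨g, hg, h, Metric.mem_ball.2 hgx⟩
    have h1 : ∀ᶠ y in nhds x, X (g y) = 0 := hgc.continuousAt.eventually (hX _ hgS)
    have h2 : ∀ᶠ y in nhds x, dist (g y) c < ρ :=
      (hgc.dist continuous_const).continuousAt.eventually_lt continuousAt_const hgx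
    filter_upwards [h1, h2] with y hy1 hy2
    rw [← sym_inv hP (fun x => A x * X x) g hg y, sym_at hP hs (fun z hz => ?_) hy2]
    · show A (g y) * X (g y) = 0
      rw [hy1, mul_zero]
    · show A z * X z = 0
      rw [hA z (hr.le.trans hz), zero_mul]
  · push Not at hex
    have hδ : 0 < (ρ - r) / (Λ + 1) := div_pos (by linarith) (by linarith)
    filter_upwards [Metric.ball_mem_nhds x hδ] with y hy
    refine sym_out (r := r) (c := c) (fun z hz => ?_) ?_
    · show A z * X z = 0
      rw [hA z hz, zero_mul]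
    · rintro ⟨g, hg, hgy⟩
      have h1 := hex g hg
      have h2 := hΛ g hg x y
      have h3 : dist x y < (ρ - r) / (Λ + 1) := by
        rw [dist_comm]
        exact Metric.mem_ball.1 hy
      have h4 : Λ * dist x y ≤ ρ - r := by
        have h5 : (Λ + 1) * dist x y ≤ ρ - r := by
          rw [lt_div_iff₀ (by linarith)] at h3
          linarith
        nlinarith [dist_nonneg (x := x) (y := y)]
      have h6 := dist_triangle (g x) (g y) c
      linarith

theorem cf_ee (hn : 0 < n) (hP : SpDeck P) {p σ : ℝ} (hp : 1 < p) (hσ : 0 ≤ σ) (hσ1 : σ < 1)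
    (hσn : σ < n / p) : CF P (EE p σ) where
  smul c G hG := EE_smul hp hσ hσ1 hG c
  meas H hH := EE_meas hH
  comp φ hφ h0 := by
    obtain ⟨C, hC1, hC⟩ := path_bd (spp_sp hP hφ)
    refine ⟨C, hC1, fun t ht G hG hI => ?_⟩
    exact CfE_comp hp hσ hσ1 (sgp_sg hP (spp_sgp hφ h0 t)) hC1 (hC t ht) hG (pi_per hP hI)
  small := ⟨1, zero_le_one, fun G _ _ a ha h1 h2 => by
    rw [one_mul]
    exact EE_small hp hσ hσ1 ha h1 h2⟩
  weak B ε hε := by
    obtain ⟨δ, hδ0, hδ1, hδ⟩ := cut_small (K := max B 0 ^ σ) (e := 1 - σ) (by positivity)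
      (by linarith) hε
    refine ⟨δ, hδ0, fun G hG hI h1 h2 => ?_⟩
    have h := EE_supp hp hσ hσ1 hδ0.le (le_max_right B 0) zero_le_one MeasurableSet.univ h1
      (fun x => (h2 x).trans (le_max_left _ _))
      (fun x hx => absurd (mem_univ x) hx) (by rw [univ_inter, WPosA.cube_vol, ENNReal.ofReal_one])
    refine h.trans (ENNReal.ofReal_le_ofReal ?_)
    rw [Real.one_rpow, mul_one, mul_comm]
    exact hδ δ hδ0 le_rfl
  cap c ρ r hs hr M hM B ε hε := by
    obtain ⟨C, hC, hgrid⟩ := grid (n := n)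
    obtain ⟨L, hL1, hL⟩ := sym_bd hP
    obtain ⟨K, hK0, hK⟩ := sym_vol hP
    have he : 0 < (n : ℝ) / p - σ := by linarith
    have hL0 : 0 ≤ L := by linarith
    have hBm : 0 ≤ max B 0 := le_max_right _ _
    obtain ⟨η₀, hη0, hη1, hsm⟩ := cut_small
      (K := (L * max B 0) ^ (1 - σ) * (L * max B 0 + L * max B 0 * (C * M) * 1) ^ σ *
        (K * C) ^ (1 / p)) (by positivity) he hε
    refine ⟨η₀, hη0, fun η h1 h2 => ?_⟩
    obtain ⟨X, S, hX, hXp, hX01, hXd, hXR, hS, hSp, hS0, hSv⟩ := hgrid M hM η h1 (by linarith)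
    refine ⟨X, hX, hXR, fun A hA hA0 hAB hAD => ?_⟩
    have hu : ContDiff ℝ ∞ (fun x => A x * X x) := hA.mul hX
    have hu0 : ∀ x, r ≤ dist x c → A x * X x = 0 := fun x hx => by rw [hA0 x hx, zero_mul]
    have hXa : ∀ x, |X x| ≤ 1 := fun x => by
      rw [abs_of_nonneg (hX01 x).1]
      exact (hX01 x).2
    have hAm : ∀ x, |A x| ≤ max B 0 := fun x => (hAB x).trans (le_max_left _ _)
    have hDm : ∀ x, ‖fderiv ℝ A x‖ ≤ max B 0 := fun x => (hAD x).trans (le_max_left _ _)
    have hua : ∀ x, |A x * X x| ≤ max B 0 := by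
      intro x
      rw [abs_mul]
      calc |A x| * |X x| ≤ max B 0 * 1 := mul_le_mul (hAm x) (hXa x) (abs_nonneg _) hBm
        _ = _ := mul_one _
    have hud : ∀ x, ‖fderiv ℝ (fun x => A x * X x) x‖ ≤ max B 0 + max B 0 * (C * M / η) := by
      intro x
      have d3 : fderiv ℝ (fun x => A x * X x) x = A x • fderiv ℝ X x + X x • fderiv ℝ A x :=
        fderiv_fun_mul (hA.differentiable (by simp) x) (hX.differentiable (by simp) x)
      rw [d3]
      calc ‖A x • fderiv ℝ X x + X x • fderiv ℝ A x‖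
          ≤ |A x| * ‖fderiv ℝ X x‖ + |X x| * ‖fderiv ℝ A x‖ := by
            refine (norm_add_le _ _).trans ?_
            rw [norm_smul, norm_smul, Real.norm_eq_abs, Real.norm_eq_abs]
        _ ≤ max B 0 * (C * M / η) + 1 * max B 0 := by
            gcongr
            · exact hAm x
            · exact hXd x
            · exact hXa x
            · exact hDm x
        _ = _ := by ring
    obtain ⟨s1, s2⟩ := hL c ρ r hs hr _ hu hu0 (max B 0) (max B 0 + max B 0 * (C * M / η)) hBm
      (by positivity) hua hud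
    have hLB : max B 0 ≤ L * max B 0 := le_mul_of_one_le_left hBm hL1
    set T : Set (Eu (n + n)) := {x | ∃ g ∈ P, g x ∈ S ∩ Metric.ball c ρ} with hT
    set T' : Set (Eu (n + n)) := toMeasurable (volume.restrict (cube (n + n))) T with hT'
    have hTm : MeasurableSet T' := measurableSet_toMeasurable _ _
    have hTv : volume (T' ∩ cube (n + n)) ≤ ENNReal.ofReal (K * C * η ^ n) := by
      have a1 : volume (T' ∩ cube (n + n)) = volume (T ∩ cube (n + n)) := by
        rw [← Measure.restrict_apply hTm, hT', measure_toMeasurable,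
          Measure.restrict_apply' HsA.cube_meas]
      rw [a1]
      refine (hK _ (hS.inter measurableSet_ball)).trans ?_
      rw [mul_assoc, ENNReal.ofReal_mul hK0]
      exact mul_le_mul' le_rfl ((CfE_vol hP hs hS hSp).trans hSv)
    have hz : ∀ x ∉ T', sym P (fun x => A x * X x) x = 0 ∧
        fderiv ℝ (sym P (fun x => A x * X x)) x = 0 := by
      intro x hx
      have hxT : x ∉ T := fun h => hx (subset_toMeasurable _ _ h)
      have ev := CfE_zero hP hs hr hA0 hS0 hxT
      refine ⟨ev.self_of_nhds, ?_⟩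
      have ev' : sym P (fun x => A x * X x) =ᶠ[nhds x] fun _ => (0 : ℝ) := ev
      rw [ev'.fderiv_eq]
      simp
    have hE := EE_supp (p := p) (σ := σ) (a := L * max B 0)
      (b := L * max B 0 + L * max B 0 * (C * M / η) * 1) (μ := K * C * η ^ n) hp hσ hσ1
      (by positivity) (by positivity) (by positivity) hTm (fun x => (s1 x).trans hLB)
      (fun x => (s2 x).trans (le_of_eq (by ring))) hz hTv
    refine hE.trans (ENNReal.ofReal_le_ofReal ?_)
    exact (cut_num (n := n) (p := p) (by positivity) zero_le_one (by positivity) (by positivity)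
      hσ h1 (by linarith)).trans (hsm η h1 h2)

end

end FS
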