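import Pool.Agent.FS.Defs
import Pool.Agent.H68.VD.Tr
import Pool.Agent.H68.VD.Flux
import Pool.Agent.H68.VD.SepU

/-! # FS-1: deck groups -/

set_option autoImplicit false

open MeasureTheory Set Pool.Agent.H68.VD TN SVT
open scoped ENNReal ContDiff

namespace FS

noncomputable section

variable {n : ℕ} {P : Set (Eu (n + n) → Eu (n + n))}

theorem dk_aff (hP : SpDeck P) {g : Eu (n + n) → Eu (n + n)} (hg : g ∈ P) :
    ∃ L : Eu (n + n) →L[ℝ] Eu (n + n), (∀ x v, g (x + v) = g x + L v) ∧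
      ∀ v w, om (L v) (L w) = om v w := by
  obtain ⟨a, rfl⟩ := TrA.exists_aff hP.deck hg
  refine ⟨LinearMap.toContinuousLinearMap (a.linear : Eu (n + n) →ₗ[ℝ] Eu (n + n)),
    fun x v => FluxA.add_apply' a x v, fun v w => ?_⟩
  have h := hP.symp _ hg 0 v w
  rw [FluxA.add_apply', FluxA.add_apply', add_sub_cancel_left, add_sub_cancel_left] at h
  exact h

theorem dk_inv (hP : SpDeck P) {g : Eu (n + n) → Eu (n + n)} (hg : g ∈ P) :
    ∃ h ∈ P, (∀ x, h (g x) = x) ∧ ∀ x, g (h x) = x := by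
  obtain ⟨h, hh, h1, h2⟩ := hP.deck.inv g hg
  exact ⟨h, hh, fun x => congrFun h2 x, fun x => congrFun h1 x⟩

/-- a set of maps that represents all cosets of the lattice -/
private def Dk_cov (P : Set (Eu (n + n) → Eu (n + n))) (R : Finset (Eu (n + n) → Eu (n + n))) :
    Prop :=
  (∀ r ∈ R, r ∈ P) ∧ ∀ g ∈ P, ∃ r ∈ R, ∃ k : Fin (n + n) → ℤ, ∀ x, g x = r x + iv k

private theorem Dk_iv_add (k l : Fin (n + n) → ℤ) : (iv (k + l) : Eu (n + n)) = iv k + iv l := by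
  ext i
  simp [iv]

private theorem Dk_cov_exists (hP : SpDeck P) : ∃ R, Dk_cov P R := by
  classical
  obtain ⟨R, hR, h⟩ := hP.deck.fin
  refine ⟨hR.toFinset.filter (fun r => r ∈ P), fun r hr => (Finset.mem_filter.1 hr).2, ?_⟩
  intro g hg
  obtain ⟨r, hr, k, hk⟩ := h g hg
  have hrP : r ∈ P := by
    have h1 : r = (fun x => x + iv (-k)) ∘ g := by
      funext x
      simp only [Function.comp, hk x, TrA.iv_neg]
      abel
    rw [h1]
    exact hP.deck.mul _ (hP.deck.trans (-k)) _ hg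
  exact ⟨r, Finset.mem_filter.2 ⟨hR.mem_toFinset.2 hr, hrP⟩, k, hk⟩

theorem dk_fin (hP : SpDeck P) : ∃ R : Finset (Eu (n + n) → Eu (n + n)), (∀ r ∈ R, r ∈ P) ∧
    (∀ g ∈ P, ∃ r ∈ R, ∃ k : Fin (n + n) → ℤ, ∀ x, g x = r x + iv k) ∧
    ∀ r ∈ R, ∀ r' ∈ R, ∀ k : Fin (n + n) → ℤ, (∀ x, r x = r' x + iv k) → r = r' := by
  classical
  have hex : ∃ c : ℕ, ∃ R : Finset (Eu (n + n) → Eu (n + n)), R.card = c ∧ Dk_cov P R := by
    obtain ⟨R, hR⟩ := Dk_cov_exists hP
    exact ⟨R.card, R, rfl, hR⟩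
  obtain ⟨R, hc, hR1, hR2⟩ := Nat.find_spec hex
  refine ⟨R, hR1, hR2, ?_⟩
  intro r hr r' hr' k hk
  by_contra hne
  have hlt : (R.erase r).card < Nat.find hex := by
    rw [← hc]
    exact Finset.card_erase_lt_of_mem hr
  refine Nat.find_min hex hlt ⟨R.erase r, rfl, fun s hs => hR1 s (Finset.mem_of_mem_erase hs), ?_⟩
  intro g hg
  obtain ⟨s, hs, l, hl⟩ := hR2 g hg
  by_cases hsr : s = r
  · subst hsr
    refine ⟨r', Finset.mem_erase.2 ⟨fun h => hne h.symm, hr'⟩, k + l, fun x => ?_⟩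
    rw [hl x, hk x, Dk_iv_add, add_assoc]
  · exact ⟨s, Finset.mem_erase.2 ⟨hsr, hs⟩, l, hl⟩

/-- the lattice is mapped to the lattice -/
theorem dk_iv (hP : SpDeck P) {g : Eu (n + n) → Eu (n + n)} (hg : g ∈ P) (k : Fin (n + n) → ℤ) :
    ∃ l : Fin (n + n) → ℤ, ∀ x, g (x + iv k) = g x + iv l := by
  obtain ⟨L, h1, -, h3⟩ := hP.deck.aff g hg
  obtain ⟨l, hl⟩ := h3 k
  exact ⟨l, fun x => by rw [h1, hl]⟩

theorem dk_sep (hP : SpDeck P) : ∃ ρ : ℝ, 0 < ρ ∧ ∀ c, SepP P c ρ := by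
  obtain ⟨r, hr, h⟩ := sepU (n + n) _ (TrA.deck hP.deck)
  refine ⟨r, hr, fun c => ⟨hr, fun g hg hne x hx => ?_⟩⟩
  obtain ⟨a, rfl⟩ := TrA.exists_aff hP.deck hg
  refine (h c).2 a ((TrA.mem_sub hP.deck a).2 hg) ?_ x hx
  rintro rfl
  exact hne rfl

/-- the permutation of the lattice -/
private theorem Dk_perm (hP : SpDeck P) {g : Eu (n + n) → Eu (n + n)} (hg : g ∈ P) :
    ContDiff ℝ ∞ g ∧ Function.Bijective g ∧ (∀ x, |(fderiv ℝ g x).det| = 1) ∧
    ∃ σ : (Fin (n + n) → ℤ) ≃ (Fin (n + n) → ℤ), ∀ x k, g (x + iv k) = g x + iv (σ k) := by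
  obtain ⟨a, rfl⟩ := TrA.exists_aff hP.deck hg
  have ha : a ∈ TrA.sub hP.deck := (TrA.mem_sub hP.deck a).2 hg
  obtain ⟨σ, hσ⟩ := FluxA.perm_lattice (TrA.deck hP.deck) ha
  refine ⟨(FluxA.aff_smooth a).1, a.bijective, fun x => ?_, σ, fun x k => ?_⟩
  · have h1 := (FluxA.aff_smooth a).2 x
    have h2 : fderiv ℝ (⇑a) x = fderiv ℝ (fun x => a x) x := rfl
    rw [h2, h1]
    exact FluxA.abs_det_linear (TrA.deck hP.deck) ha
  · rw [FluxA.add_apply', hσ]

theorem dk_int (hP : SpDeck P) {g : Eu (n + n) → Eu (n + n)} (hg : g ∈ P) {F : Eu (n + n) → ℝ≥0∞}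
    (hF : Measurable F) (hp : Per F) :
    ∫⁻ x in cube (n + n), F (g x) = ∫⁻ x in cube (n + n), F x := by
  obtain ⟨hf, hb, hd, σ, hσ⟩ := Dk_perm hP hg
  have hemb : MeasurableEmbedding g := hf.continuous.measurableEmbedding hb.1
  have hmp : MeasurePreserving g (volume : Measure (Eu (n + n))) volume := by
    refine ⟨hf.continuous.measurable, ?_⟩
    have h1 := map_withDensity_abs_det_fderiv_eq_addHaar (volume : Measure (Eu (n + n)))
      (f := g) (s := Set.univ) (f' := fun x => fderiv ℝ g x) MeasurableSet.univ.nullMeasurableSet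
      (fun x _ => (hf.differentiable (by simp) x).hasFDerivAt.hasFDerivWithinAt) hb.1.injOn
    simp only [hd, ENNReal.ofReal_one, Measure.restrict_univ, Set.image_univ,
      hb.2.range_eq] at h1
    have h2 : (volume : Measure (Eu (n + n))).withDensity (fun _ => (1 : ℝ≥0∞)) = volume :=
      withDensity_one
    rwa [h2] at h1
  have hfd : IsAddFundamentalDomain (FluxA.Lt (n + n)) (g ⁻¹' cube (n + n))
      (volume : Measure (Eu (n + n))) := by
    refine HsA.cube_dom.preimage_of_equiv hmp.quasiMeasurePreserving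
      (e := fun z => FluxA.eqv (n + n) (σ.symm ((FluxA.eqv (n + n)).symm z))) ?_ ?_
    · exact (((FluxA.eqv (n + n)).symm.trans (σ.symm.trans (FluxA.eqv (n + n))))).bijective
    · intro z x
      obtain ⟨k, rfl⟩ := (FluxA.eqv (n + n)).surjective z
      show g (((FluxA.eqv (n + n) (σ.symm ((FluxA.eqv (n + n)).symm
        (FluxA.eqv (n + n) k))) : FluxA.Lt (n + n)) : Eu (n + n)) + x) = (iv k : Eu (n + n)) + g x
      rw [Equiv.symm_apply_apply]
      show g (iv (σ.symm k) + x) = (iv k : Eu (n + n)) + g x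
      rw [add_comm (iv (σ.symm k) : Eu (n + n)) x, hσ, Equiv.apply_symm_apply,
        add_comm (iv k : Eu (n + n)) (g x)]
  have hinv : VAddInvariantMeasure (FluxA.Lt (n + n)) (Eu (n + n)) volume :=
    inferInstanceAs (VAddInvariantMeasure (FluxA.Lt (n + n)).toAddSubgroup (Eu (n + n)) volume)
  have hper : Per (fun x => F (g x)) := by
    intro x k
    show F (g (x + iv k)) = F (g x)
    rw [hσ, hp]
  have h3 : ∫⁻ x in cube (n + n), F (g x) = ∫⁻ x in g ⁻¹' cube (n + n), F (g x) :=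
    HsA.cube_dom.setLIntegral_eq hfd _ fun z x => HsA.per_vadd (fun x => F (g x)) hper z x
  rw [h3]
  exact hmp.setLIntegral_comp_preimage HsA.cube_meas hF

theorem dk_intR (hP : SpDeck P) {g : Eu (n + n) → Eu (n + n)} (hg : g ∈ P) {F : Eu (n + n) → ℝ}
    (hF : Continuous F) (hp : Per F) :
    ∫ x in cube (n + n), F (g x) = ∫ x in cube (n + n), F x := by
  obtain ⟨hf, hb, hd, σ, hσ⟩ := Dk_perm hP hg
  exact FluxA.cov_gen g hf hb hd σ hσ F hp

theorem pi_per (hP : SpDeck P) {G : Eu (n + n) → ℝ} (hG : PI P G) : Per G := by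
  intro x k
  exact hG _ (hP.deck.trans k) x

end

end FS
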