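import Pool.Agent.FS.Defs
import Pool.Agent.SVT.Sg
import Pool.Agent.SVT.IntW

/-!
# Project FS, row EP-4: change of coordinates in the norm of `W^{s,p}`, `-1 < s < 0`
-/

set_option autoImplicit false
set_option linter.all false

open MeasureTheory Set Pool.Agent.H68.VD TN SVT
open scoped ENNReal ContDiff

namespace FS

noncomputable section

variable {n : ℕ}

/-! ### Symplectic linear maps have determinant of absolute value one -/

private theorem psh_JJ (u : Eu (n + n)) : JL n (JL n u) = -u := by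
  rw [JL_apply, JL_apply]
  apply ext_qp
  · simp [Jm]
  · simp [Jm]

private theorem psh_det_adj (A : Eu (n + n) →L[ℝ] Eu (n + n)) :
    (ContinuousLinearMap.adjoint A).det = A.det := by
  have h1 : ((ContinuousLinearMap.adjoint A : Eu (n + n) →L[ℝ] Eu (n + n)) :
      Eu (n + n) →ₗ[ℝ] Eu (n + n)) = LinearMap.adjoint (A : Eu (n + n) →ₗ[ℝ] Eu (n + n)) := by
    rfl
  simp only [ContinuousLinearMap.det]
  rw [h1]
  have b := EuclideanSpace.basisFun (Fin (n + n)) ℝ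
  rw [← LinearMap.det_toMatrix b.toBasis, LinearMap.toMatrix_adjoint b b, Matrix.det_conjTranspose,
    LinearMap.det_toMatrix]
  simp

private theorem psh_det_c (A B : Eu (n + n) →L[ℝ] Eu (n + n)) : (A ∘L B).det = A.det * B.det :=
  LinearMap.det_comp (A : Eu (n + n) →ₗ[ℝ] Eu (n + n)) (B : Eu (n + n) →ₗ[ℝ] Eu (n + n))

private theorem psh_det (A : Eu (n + n) →L[ℝ] Eu (n + n)) (hA : ∀ v w, om (A v) (A w) = om v w) :
    |A.det| = 1 := by
  have h1 : (ContinuousLinearMap.adjoint A) ∘L (JL n) ∘L A = JL n := by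
    ext1 u
    apply ext_inner_right ℝ
    intro v
    show inner ℝ (ContinuousLinearMap.adjoint A (JL n (A u))) v = inner ℝ (JL n u) v
    rw [ContinuousLinearMap.adjoint_inner_left, JL_apply, JL_apply, ← om_J, ← om_J, hA]
  have h2 : (JL n) ∘L (JL n) = -ContinuousLinearMap.id ℝ (Eu (n + n)) := by
    ext1 u
    exact psh_JJ u
  have h3 : ((JL n).det) ≠ 0 := by
    intro h
    have h4 : ((JL n) ∘L (JL n)).det = (JL n).det * (JL n).det := psh_det_c _ _
    rw [h, h2] at h4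
    have h5 : ((-ContinuousLinearMap.id ℝ (Eu (n + n)) : Eu (n + n) →L[ℝ] Eu (n + n)).det) *
        ((-ContinuousLinearMap.id ℝ (Eu (n + n)) : Eu (n + n) →L[ℝ] Eu (n + n)).det) = 1 := by
      simp only [ContinuousLinearMap.det]
      rw [← LinearMap.det_comp]
      have h6 : ((-ContinuousLinearMap.id ℝ (Eu (n + n)) : Eu (n + n) →L[ℝ] Eu (n + n)) :
          Eu (n + n) →ₗ[ℝ] Eu (n + n)) ∘ₗ
          ((-ContinuousLinearMap.id ℝ (Eu (n + n)) : Eu (n + n) →L[ℝ] Eu (n + n)) :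
          Eu (n + n) →ₗ[ℝ] Eu (n + n)) = LinearMap.id := by
        ext1 u
        simp
      rw [h6, LinearMap.det_id]
    rw [h4] at h5
    simp at h5
  have h4 : A.det * ((JL n).det * A.det) = (JL n).det := by
    have h5 := congrArg ContinuousLinearMap.det h1
    rw [psh_det_c, psh_det_c, psh_det_adj] at h5
    exact h5
  have h5 : A.det * A.det = 1 := by
    have h6 : (JL n).det * (A.det * A.det) = (JL n).det * 1 := by
      rw [mul_one]
      linarith [h4, mul_comm A.det ((JL n).det * A.det), mul_assoc (JL n).det A.det A.det]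
    exact mul_left_cancel₀ h3 h6
  have h6 : |A.det| * |A.det| = 1 := by rw [← abs_mul, h5, abs_one]
  nlinarith [abs_nonneg A.det]

/-! ### Change of variables -/

private theorem psh_mp {ψ χ : Eu (n + n) → Eu (n + n)} (hψ : ContDiff ℝ ∞ ψ)
    (h1 : ∀ x, χ (ψ x) = x) (h2 : ∀ x, ψ (χ x) = x)
    (hs : ∀ x v w, om (fderiv ℝ ψ x v) (fderiv ℝ ψ x w) = om v w) :
    MeasurableEmbedding ψ ∧ MeasurePreserving ψ (volume : Measure (Eu (n + n))) volume := by
  have hinj : Function.Injective ψ := Function.LeftInverse.injective h1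
  have hsur : Function.Surjective ψ := Function.RightInverse.surjective h2
  refine ⟨hψ.continuous.measurableEmbedding hinj, hψ.continuous.measurable, ?_⟩
  have h3 := map_withDensity_abs_det_fderiv_eq_addHaar (volume : Measure (Eu (n + n)))
    (f := ψ) (s := Set.univ) (f' := fun x => fderiv ℝ ψ x) MeasurableSet.univ.nullMeasurableSet
    (fun x _ => (hψ.differentiable (by simp) x).hasFDerivAt.hasFDerivWithinAt) hinj.injOn
  simp only [psh_det _ (hs _), ENNReal.ofReal_one, Measure.restrict_univ, Set.image_univ,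
    hsur.range_eq] at h3
  have h4 : (volume : Measure (Eu (n + n))).withDensity (fun _ => (1 : ℝ≥0∞)) = volume :=
    withDensity_one
  rwa [h4] at h3

private theorem psh_fd {ψ χ : Eu (n + n) → Eu (n + n)} (hψ : ContDiff ℝ ∞ ψ)
    (h1 : ∀ x, χ (ψ x) = x) (h2 : ∀ x, ψ (χ x) = x)
    (hs : ∀ x v w, om (fderiv ℝ ψ x v) (fderiv ℝ ψ x w) = om v w)
    (hl : ∀ k : Fin (n + n) → ℤ, ∃ l : Fin (n + n) → ℤ, ∀ x, ψ (x + iv k) = ψ x + iv l)
    (hl' : ∀ k : Fin (n + n) → ℤ, ∃ l : Fin (n + n) → ℤ, ∀ x, χ (x + iv k) = χ x + iv l) :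
    IsAddFundamentalDomain (FluxA.Lt (n + n)) (ψ ⁻¹' cube (n + n))
      (volume : Measure (Eu (n + n))) := by
  have hmp := (psh_mp hψ h1 h2 hs).2
  choose e he using hl'
  have he' : ∀ k x, ψ (x + iv (e k)) = ψ x + iv k := by
    intro k x
    have h3 := he k (ψ x)
    rw [h1] at h3
    rw [← h3, h2]
  have hinj : Function.Injective e := by
    intro k k' hk
    have h3 := he' k 0
    rw [hk, he' k' 0] at h3
    exact (FluxA.iv_inj (add_left_cancel h3)).symm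
  have hsur : Function.Surjective e := by
    intro l
    obtain ⟨k, hk⟩ := hl l
    refine ⟨k, ?_⟩
    have h3 : ψ (0 + iv (e k)) = ψ (0 + iv l) := by rw [he', hk]
    have h4 : Function.Injective ψ := Function.LeftInverse.injective h1
    have h5 := h4 h3
    exact FluxA.iv_inj (add_left_cancel h5)
  set E : FluxA.Lt (n + n) → FluxA.Lt (n + n) :=
    fun g => FluxA.eqv (n + n) (e ((FluxA.eqv (n + n)).symm g)) with hE
  have hEb : Function.Bijective E := by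
    refine (FluxA.eqv (n + n)).bijective.comp (Function.Bijective.comp ⟨hinj, hsur⟩ ?_)
    exact (FluxA.eqv (n + n)).symm.bijective
  refine HsA.cube_dom.preimage_of_equiv hmp.quasiMeasurePreserving hEb ?_
  intro g x
  obtain ⟨k, rfl⟩ := (FluxA.eqv (n + n)).surjective g
  have h3 : E (FluxA.eqv (n + n) k) = FluxA.eqv (n + n) (e k) := by
    rw [hE]
    simp
  rw [h3]
  show ψ ((iv (e k) : Eu (n + n)) + x) = (iv k : Eu (n + n)) + ψ x
  rw [add_comm (iv (e k) : Eu (n + n)) x, he', add_comm (ψ x) (iv k : Eu (n + n))]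

private theorem psh_cov {ψ χ : Eu (n + n) → Eu (n + n)} (hψ : ContDiff ℝ ∞ ψ)
    (h1 : ∀ x, χ (ψ x) = x) (h2 : ∀ x, ψ (χ x) = x)
    (hs : ∀ x v w, om (fderiv ℝ ψ x v) (fderiv ℝ ψ x w) = om v w)
    (hl : ∀ k : Fin (n + n) → ℤ, ∃ l : Fin (n + n) → ℤ, ∀ x, ψ (x + iv k) = ψ x + iv l)
    (hl' : ∀ k : Fin (n + n) → ℤ, ∃ l : Fin (n + n) → ℤ, ∀ x, χ (x + iv k) = χ x + iv l)
    {F : Eu (n + n) → ℝ≥0∞} (hF : Measurable F) (hp : Per F) :
    ∫⁻ x in cube (n + n), F (ψ x) = ∫⁻ x in cube (n + n), F x := by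
  have hinv : VAddInvariantMeasure (FluxA.Lt (n + n)) (Eu (n + n)) volume :=
    inferInstanceAs (VAddInvariantMeasure (FluxA.Lt (n + n)).toAddSubgroup (Eu (n + n)) volume)
  have hper : Per (fun x => F (ψ x)) := by
    intro x k
    obtain ⟨l, hl⟩ := hl k
    show F (ψ (x + iv k)) = F (ψ x)
    rw [hl, hp]
  have h3 : ∫⁻ x in cube (n + n), F (ψ x) = ∫⁻ x in ψ ⁻¹' cube (n + n), F (ψ x) :=
    HsA.cube_dom.setLIntegral_eq (psh_fd hψ h1 h2 hs hl hl') _
      fun g x => HsA.per_vadd (fun x => F (ψ x)) hper g x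
  rw [h3]
  exact (psh_mp hψ h1 h2 hs).2.setLIntegral_comp_preimage HsA.cube_meas hF

private theorem psh_covR {ψ χ : Eu (n + n) → Eu (n + n)} (hψ : ContDiff ℝ ∞ ψ)
    (h1 : ∀ x, χ (ψ x) = x) (h2 : ∀ x, ψ (χ x) = x)
    (hs : ∀ x v w, om (fderiv ℝ ψ x v) (fderiv ℝ ψ x w) = om v w)
    (hl : ∀ k : Fin (n + n) → ℤ, ∃ l : Fin (n + n) → ℤ, ∀ x, ψ (x + iv k) = ψ x + iv l)
    (hl' : ∀ k : Fin (n + n) → ℤ, ∃ l : Fin (n + n) → ℤ, ∀ x, χ (x + iv k) = χ x + iv l)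
    {F : Eu (n + n) → ℝ} (hp : Per F) :
    ∫ x in cube (n + n), F (ψ x) = ∫ x in cube (n + n), F x := by
  have hinv : VAddInvariantMeasure (FluxA.Lt (n + n)) (Eu (n + n)) volume :=
    inferInstanceAs (VAddInvariantMeasure (FluxA.Lt (n + n)).toAddSubgroup (Eu (n + n)) volume)
  have hper : Per (fun x => F (ψ x)) := by
    intro x k
    obtain ⟨l, hl⟩ := hl k
    show F (ψ (x + iv k)) = F (ψ x)
    rw [hl, hp]
  have h3 : ∫ x in cube (n + n), F (ψ x) = ∫ x in ψ ⁻¹' cube (n + n), F (ψ x) :=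
    HsA.cube_dom.setIntegral_eq (psh_fd hψ h1 h2 hs hl hl')
      fun g x => HsA.per_vadd (fun x => F (ψ x)) hper g x
  rw [h3]
  exact (psh_mp hψ h1 h2 hs).2.setIntegral_preimage_emb (psh_mp hψ h1 h2 hs).1 F _

/-- translations -/
private theorem psh_tr (a : Eu (n + n)) {F : Eu (n + n) → ℝ≥0∞} (hF : Measurable F) (hp : Per F) :
    ∫⁻ x in cube (n + n), F (x + a) = ∫⁻ x in cube (n + n), F x := by
  refine psh_cov (ψ := fun x => x + a) (χ := fun x => x - a) (contDiff_id.add contDiff_const)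
    (fun x => by simp) (fun x => by simp) (fun x v w => ?_) (fun k => ⟨k, fun x => ?_⟩)
    (fun k => ⟨k, fun x => ?_⟩) hF hp
  · have h1 : fderiv ℝ (fun x : Eu (n + n) => x + a) x = ContinuousLinearMap.id ℝ _ := by
      rw [fderiv_add_const]
      exact fderiv_id
    rw [h1]
    rfl
  · show x + iv k + a = x + a + iv k
    abel
  · show x + iv k - a = x - a + iv k
    abel

/-! ### Hamiltonian fields -/

private theorem psh_om (G : Eu (n + n) → ℝ) (x w : Eu (n + n)) :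
    om (sgr G x) w = fderiv ℝ G x w := by
  have h1 : Jm (sgr G x) = gradient G x := by
    show JL n (-(JL n (gradient G x))) = _
    rw [map_neg, psh_JJ, neg_neg]
  rw [om_J, h1]
  unfold gradient
  exact InnerProductSpace.toDual_symm_apply

private theorem psh_nd {a b : Eu (n + n)} (h : ∀ w, om a w = om b w) : a = b := by
  have h1 : ∀ w, inner ℝ (JL n (a - b)) w = (0 : ℝ) := by
    intro w
    rw [map_sub, inner_sub_left, JL_apply, JL_apply, ← om_J, ← om_J, h w, sub_self]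
  have h2 := h1 (JL n (a - b))
  rw [real_inner_self_eq_norm_sq, JL_apply, norm_Jm] at h2
  exact sub_eq_zero.1 (norm_eq_zero.1 (pow_eq_zero_iff two_ne_zero |>.1 h2))

private theorem psh_chain {ψ χ : Eu (n + n) → Eu (n + n)} (hψ : ContDiff ℝ ∞ ψ)
    (hχ : ContDiff ℝ ∞ χ) (h2 : ∀ x, ψ (χ x) = x) (y v : Eu (n + n)) :
    fderiv ℝ ψ (χ y) (fderiv ℝ χ y v) = v := by
  have h3 : HasFDerivAt (fun y => ψ (χ y)) ((fderiv ℝ ψ (χ y)).comp (fderiv ℝ χ y)) y :=
    ((hψ.differentiable (by simp) _).hasFDerivAt).comp y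
      ((hχ.differentiable (by simp) _).hasFDerivAt)
  have h4 : HasFDerivAt (fun y => ψ (χ y)) (ContinuousLinearMap.id ℝ _) y := by
    have : (fun y => ψ (χ y)) = id := funext h2
    rw [this]
    exact hasFDerivAt_id y
  have h5 := h3.unique h4
  have h6 := congrArg (fun L : Eu (n + n) →L[ℝ] Eu (n + n) => L v) h5
  simpa using h6

private theorem psh_sgr {ψ χ : Eu (n + n) → Eu (n + n)} (hψ : ContDiff ℝ ∞ ψ)
    (hχ : ContDiff ℝ ∞ χ) (h1 : ∀ x, χ (ψ x) = x) (h2 : ∀ x, ψ (χ x) = x)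
    (hs : ∀ x v w, om (fderiv ℝ ψ x v) (fderiv ℝ ψ x w) = om v w)
    {G : Eu (n + n) → ℝ} (hG : ContDiff ℝ ∞ G) (x : Eu (n + n)) :
    sgr (fun x => G (ψ x)) x = fderiv ℝ χ (ψ x) (sgr G (ψ x)) := by
  apply psh_nd
  intro w
  rw [psh_om]
  have h3 : HasFDerivAt (fun x => G (ψ x)) ((fderiv ℝ G (ψ x)).comp (fderiv ℝ ψ x)) x :=
    ((hG.differentiable (by simp) _).hasFDerivAt).comp x
      ((hψ.differentiable (by simp) _).hasFDerivAt)
  rw [h3.fderiv]
  show fderiv ℝ G (ψ x) (fderiv ℝ ψ x w) = _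
  rw [← psh_om, ← hs x (fderiv ℝ χ (ψ x) (sgr G (ψ x))) w]
  have h4 := psh_chain hψ hχ h2 (ψ x) (sgr G (ψ x))
  rw [h1] at h4
  rw [h4]

/-! ### The seminorm -/

private theorem psh_slob {m : ℕ} {τ q : ℝ} (h0 : 0 < τ) (h1 : τ < 1) (v : Eu m → Eu m) :
    slobP τ q v = (∫⁻ x in cube m, ‖v x‖ₑ ^ q) + ∫⁻ x in cube m,
      ∫⁻ h in Metric.ball (0 : Eu m) 1, ‖v (x + h) - v x‖ₑ ^ q / ‖h‖ₑ ^ ((m : ℝ) + τ * q) := by
  have hf : ⌊τ⌋₊ = 0 := Nat.floor_eq_zero.2 h1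
  have hd : ∀ (f : Eu m → Eu m) (x : Eu m), dnorm 0 f x = ‖f x‖ₑ := by
    intro f x
    rw [dnorm, norm_iteratedFDeriv_zero, ofReal_norm]
  unfold slobP gag
  rw [hf]
  simp only [zero_add, Finset.sum_range_one, hd, Nat.cast_zero, h0, if_true, sub_zero]

private theorem psh_sc {m : ℕ} {τ q : ℝ} (h0 : 0 < τ) (h1 : τ < 1) (hq : 1 < q) (v : Eu m → Eu m)
    {c : ℝ} (hc : 0 < c) : slobP τ q (fun x => c • v x) = ENNReal.ofReal c ^ q * slobP τ q v := by
  have hq0 : 0 ≤ q := by linarith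
  have hct : ENNReal.ofReal c ^ q ≠ ⊤ := ENNReal.rpow_ne_top_of_nonneg hq0 ENNReal.ofReal_ne_top
  have e1 : ∀ y : Eu m, ‖c • y‖ₑ ^ q = ENNReal.ofReal c ^ q * ‖y‖ₑ ^ q := by
    intro y
    rw [enorm_smul, ENNReal.mul_rpow_of_nonneg _ _ hq0]
    congr 2
    rw [← ofReal_norm, Real.norm_of_nonneg hc.le]
  rw [psh_slob h0 h1, psh_slob h0 h1, mul_add]
  simp only [← smul_sub, e1, mul_div_assoc]
  rw [lintegral_const_mul' _ _ hct]
  simp only [lintegral_const_mul' _ _ hct]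

private theorem psh_meas {m : ℕ} {v : Eu m → Eu m} (hv : Continuous v) (q e : ℝ) :
    Measurable (fun z : Eu m × Eu m => ‖v (z.1 + z.2) - v z.1‖ₑ ^ q / ‖z.2‖ₑ ^ e) := by
  have h1 : Measurable (fun z : Eu m × Eu m => v (z.1 + z.2) - v z.1) :=
    ((hv.comp (continuous_fst.add continuous_snd)).sub (hv.comp continuous_fst)).measurable
  exact (h1.enorm.pow_const q).div ((measurable_snd.enorm).pow_const e)

/-- the integral of the kernel -/
private theorem psh_ker {m : ℕ} {τ q : ℝ} (h0 : 0 < τ) (h1 : τ < 1) (hq : 1 < q) :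
    ∫⁻ h in Metric.ball (0 : Eu m) 1, ‖h‖ₑ ^ q / ‖h‖ₑ ^ ((m : ℝ) + τ * q) < ⊤ := by
  rcases Nat.eq_zero_or_pos m with hm | hm
  · subst hm
    have h2 : ∀ h : Eu 0, ‖h‖ₑ ^ q / ‖h‖ₑ ^ (((0 : ℕ) : ℝ) + τ * q) = 0 := by
      intro h
      have h3 : h = 0 := Subsingleton.elim _ _
      rw [h3, enorm_zero, ENNReal.zero_rpow_of_pos (by linarith), ENNReal.zero_div]
    simp only [h2, lintegral_zero]
    exact ENNReal.zero_lt_top
  · haveI : Nontrivial (Eu m) := by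
      haveI : Nonempty (Fin m) := ⟨⟨0, hm⟩⟩
      infer_instance
    have h2 : Integrable (fun x : Eu m => (Ioo (0 : ℝ) 1).indicator
        (fun y => y ^ (q - ((m : ℝ) + τ * q))) ‖x‖) volume := by
      rw [integrable_fun_norm_addHaar (volume : Measure (Eu m)) (f := (Ioo (0 : ℝ) 1).indicator
        (fun y => y ^ (q - ((m : ℝ) + τ * q))))]
      have hd : Module.finrank ℝ (Eu m) = m := by simp
      rw [hd]
      have h3 : IntegrableOn (fun y : ℝ => y ^ ((1 - τ) * q - 1)) (Ioo 0 1) volume := by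
        have h4 := (intervalIntegrable_iff_integrableOn_Ioo_of_le zero_le_one).1
          (intervalIntegral.intervalIntegrable_rpow' (a := 0) (b := 1) (r := (1 - τ) * q - 1)
            (by nlinarith))
        exact h4
      have h5 : (fun y : ℝ => y ^ (m - 1) • (Ioo (0 : ℝ) 1).indicator
          (fun y => y ^ (q - ((m : ℝ) + τ * q))) y) =
          (Ioo (0 : ℝ) 1).indicator (fun y => y ^ ((1 - τ) * q - 1)) := by
        funext y
        by_cases hy : y ∈ Ioo (0 : ℝ) 1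
        · rw [indicator_of_mem hy, indicator_of_mem hy, smul_eq_mul, ← Real.rpow_natCast,
            ← Real.rpow_add hy.1]
          congr 1
          rw [Nat.cast_sub hm]
          push_cast
          ring
        · rw [indicator_of_notMem hy, indicator_of_notMem hy, smul_zero]
      rw [h5]
      exact ((integrable_indicator_iff measurableSet_Ioo).2 h3).integrableOn
    have h3 : ∫⁻ x : Eu m, ENNReal.ofReal ((Ioo (0 : ℝ) 1).indicator
        (fun y => y ^ (q - ((m : ℝ) + τ * q))) ‖x‖) < ⊤ := by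
      have h4 := h2.lintegral_lt_top
      exact h4
    refine lt_of_le_of_lt ?_ h3
    rw [← lintegral_indicator measurableSet_ball]
    refine lintegral_mono fun x => ?_
    by_cases hx : x ∈ Metric.ball (0 : Eu m) 1
    · rw [indicator_of_mem hx]
      rcases eq_or_ne x 0 with rfl | hx0
      · rw [enorm_zero, ENNReal.zero_rpow_of_pos (by linarith), ENNReal.zero_div]
        exact zero_le
      · have hn : 0 < ‖x‖ := norm_pos_iff.2 hx0
        have h4 : ‖x‖ ∈ Ioo (0 : ℝ) 1 := ⟨hn, by simpa using hx⟩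
        rw [indicator_of_mem h4, Real.rpow_sub hn, ENNReal.ofReal_div_of_pos
          (Real.rpow_pos_of_pos hn _), ← ENNReal.ofReal_rpow_of_pos hn,
          ← ENNReal.ofReal_rpow_of_pos hn, ofReal_norm]
    · rw [indicator_of_notMem hx]
      exact zero_le

/-- the seminorm with a larger ball -/
private theorem psh_big {τ q K : ℝ} (h0 : 0 < τ) (h1 : τ < 1) (hq : 1 < q) (hK : 1 ≤ K)
    {v : Eu (n + n) → Eu (n + n)} (hv : Continuous v) (hp : Per v) (hv1 : slobP τ q v ≤ 1) :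
    ∫⁻ x in cube (n + n), ∫⁻ h in Metric.ball (0 : Eu (n + n)) K,
      ‖v (x + h) - v x‖ₑ ^ q / ‖h‖ₑ ^ (((n + n : ℕ) : ℝ) + τ * q) ≤
      1 + 2 ^ q * volume (Metric.ball (0 : Eu (n + n)) K) := by
  set e : ℝ := ((n + n : ℕ) : ℝ) + τ * q with he
  have he0 : 0 < e := by positivity
  rw [psh_slob h0 h1] at hv1
  have hsub : ∀ x : Eu (n + n), ∫⁻ h in Metric.ball (0 : Eu (n + n)) K,
      ‖v (x + h) - v x‖ₑ ^ q / ‖h‖ₑ ^ e ≤ (∫⁻ h in Metric.ball (0 : Eu (n + n)) 1,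
      ‖v (x + h) - v x‖ₑ ^ q / ‖h‖ₑ ^ e) + ∫⁻ h in Metric.ball (0 : Eu (n + n)) K,
        2 ^ (q - 1) * (‖v (x + h)‖ₑ ^ q + ‖v x‖ₑ ^ q) := by
    intro x
    rw [← lintegral_indicator measurableSet_ball, ← lintegral_indicator measurableSet_ball,
      ← lintegral_indicator measurableSet_ball, ← lintegral_add_left]
    · refine lintegral_mono fun h => ?_
      by_cases hK' : h ∈ Metric.ball (0 : Eu (n + n)) K
      · rw [indicator_of_mem hK', indicator_of_mem hK']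
        by_cases h1' : h ∈ Metric.ball (0 : Eu (n + n)) 1
        · rw [indicator_of_mem h1']
          exact le_self_add
        · rw [indicator_of_notMem h1', zero_add]
          have h2 : (1 : ℝ≥0∞) ≤ ‖h‖ₑ ^ e := by
            have h3 : (1 : ℝ≥0∞) ≤ ‖h‖ₑ := by
              rw [← ofReal_norm, ← ENNReal.ofReal_one]
              refine ENNReal.ofReal_le_ofReal ?_
              simpa using h1'
            calc (1 : ℝ≥0∞) = 1 ^ e := (ENNReal.one_rpow _).symm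
              _ ≤ ‖h‖ₑ ^ e := ENNReal.rpow_le_rpow h3 he0.le
          calc ‖v (x + h) - v x‖ₑ ^ q / ‖h‖ₑ ^ e ≤ ‖v (x + h) - v x‖ₑ ^ q / 1 :=
                ENNReal.div_le_div_left h2 _
            _ = ‖v (x + h) - v x‖ₑ ^ q := by rw [div_one]
            _ ≤ (‖v (x + h)‖ₑ + ‖v x‖ₑ) ^ q :=
                ENNReal.rpow_le_rpow (enorm_sub_le) (by linarith)
            _ ≤ _ := ENNReal.rpow_add_le_mul_rpow_add_rpow _ _ hq.le
      · rw [indicator_of_notMem hK', indicator_of_notMem hK']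
        exact zero_le
    · exact ((psh_meas hv q e).comp (measurable_const.prodMk measurable_id)).indicator
        measurableSet_ball
  have hvq : Measurable (fun x => ‖v x‖ₑ ^ q) := hv.measurable.enorm.pow_const q
  have hm1 : Measurable (fun x : Eu (n + n) => ∫⁻ h in Metric.ball (0 : Eu (n + n)) 1,
      ‖v (x + h) - v x‖ₑ ^ q / ‖h‖ₑ ^ e) := (psh_meas hv q e).lintegral_prod_right'
  have h2 : (2 : ℝ≥0∞) ^ (q - 1) ≠ ⊤ :=
    ENNReal.rpow_ne_top_of_nonneg (by linarith) ENNReal.ofNat_ne_top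
  have hsum : ∫⁻ x in cube (n + n), ∫⁻ h in Metric.ball (0 : Eu (n + n)) K,
      2 ^ (q - 1) * (‖v (x + h)‖ₑ ^ q + ‖v x‖ₑ ^ q) ≤
      2 ^ q * volume (Metric.ball (0 : Eu (n + n)) K) := by
    rw [lintegral_lintegral_swap]
    · have h3 : ∀ h : Eu (n + n), ∫⁻ x in cube (n + n), 2 ^ (q - 1) *
          (‖v (x + h)‖ₑ ^ q + ‖v x‖ₑ ^ q) ≤ 2 ^ q := by
        intro h
        rw [lintegral_const_mul' _ _ h2, lintegral_add_right _ hvq,
          psh_tr h hvq (fun x k => by show ‖v (x + iv k)‖ₑ ^ q = _; rw [hp])]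
        have h4 : ∫⁻ x in cube (n + n), ‖v x‖ₑ ^ q ≤ 1 := le_self_add.trans hv1
        calc 2 ^ (q - 1) * ((∫⁻ x in cube (n + n), ‖v x‖ₑ ^ q) +
              ∫⁻ x in cube (n + n), ‖v x‖ₑ ^ q) ≤ 2 ^ (q - 1) * (1 + 1) := by gcongr
          _ = 2 ^ (q - 1) * 2 ^ (1 : ℝ) := by rw [ENNReal.rpow_one, one_add_one_eq_two]
          _ = 2 ^ q := by
              rw [← ENNReal.rpow_add _ _ two_ne_zero ENNReal.ofNat_ne_top]
              congr 1
              ring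
      calc ∫⁻ h in Metric.ball (0 : Eu (n + n)) K, ∫⁻ x in cube (n + n), 2 ^ (q - 1) *
            (‖v (x + h)‖ₑ ^ q + ‖v x‖ₑ ^ q)
          ≤ ∫⁻ h in Metric.ball (0 : Eu (n + n)) K, 2 ^ q := lintegral_mono h3
        _ = _ := by rw [setLIntegral_const]
    · have h3 : Measurable (fun z : Eu (n + n) × Eu (n + n) => v (z.1 + z.2)) :=
        (hv.comp (continuous_fst.add continuous_snd)).measurable
      have h4 : Measurable (fun z : Eu (n + n) × Eu (n + n) =>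
          2 ^ (q - 1) * (‖v (z.1 + z.2)‖ₑ ^ q + ‖v z.1‖ₑ ^ q)) :=
        ((h3.enorm.pow_const q).add (hvq.comp measurable_fst)).const_mul _
      exact h4.aemeasurable
  calc ∫⁻ x in cube (n + n), ∫⁻ h in Metric.ball (0 : Eu (n + n)) K,
        ‖v (x + h) - v x‖ₑ ^ q / ‖h‖ₑ ^ e
      ≤ ∫⁻ x in cube (n + n), ((∫⁻ h in Metric.ball (0 : Eu (n + n)) 1,
        ‖v (x + h) - v x‖ₑ ^ q / ‖h‖ₑ ^ e) + ∫⁻ h in Metric.ball (0 : Eu (n + n)) K,
        2 ^ (q - 1) * (‖v (x + h)‖ₑ ^ q + ‖v x‖ₑ ^ q)) := lintegral_mono hsub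
    _ = (∫⁻ x in cube (n + n), ∫⁻ h in Metric.ball (0 : Eu (n + n)) 1,
        ‖v (x + h) - v x‖ₑ ^ q / ‖h‖ₑ ^ e) + ∫⁻ x in cube (n + n),
        ∫⁻ h in Metric.ball (0 : Eu (n + n)) K,
        2 ^ (q - 1) * (‖v (x + h)‖ₑ ^ q + ‖v x‖ₑ ^ q) := lintegral_add_left hm1 _
    _ ≤ 1 + 2 ^ q * volume (Metric.ball (0 : Eu (n + n)) K) :=
        add_le_add (le_add_self.trans hv1) hsum

/-- the adjoint as a continuous linear map -/
private def psh_adj (n : ℕ) :
    (Eu (n + n) →L[ℝ] Eu (n + n)) →L[ℝ] (Eu (n + n) →L[ℝ] Eu (n + n)) :=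
  LinearMap.toContinuousLinearMap
    { toFun := fun A => ContinuousLinearMap.adjoint A
      map_add' := fun A B => map_add _ A B
      map_smul' := fun c A => by simp }

private theorem psh_adj_norm (A : Eu (n + n) →L[ℝ] Eu (n + n)) :
    ‖ContinuousLinearMap.adjoint A‖ = ‖A‖ := ContinuousLinearMap.adjoint.norm_map A

/-- the integral of the difference of `v` after the change of coordinates -/
private theorem psh_in {τ q K : ℝ} (h0 : 0 < τ) (hq : 1 < q) (hK : 1 ≤ K)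
    {ψ χ : Eu (n + n) → Eu (n + n)} (hχ : ContDiff ℝ ∞ χ)
    (h1 : ∀ x, χ (ψ x) = x) (h2 : ∀ x, ψ (χ x) = x)
    (hs : ∀ x v w, om (fderiv ℝ χ x v) (fderiv ℝ χ x w) = om v w)
    (hχK : ∀ x, ‖fderiv ℝ χ x‖ ≤ K) {v : Eu (n + n) → Eu (n + n)} (hv : Continuous v)
    (y : Eu (n + n)) :
    ∫⁻ h in Metric.ball (0 : Eu (n + n)) 1,
      ‖v (χ (y + h)) - v (χ y)‖ₑ ^ q / ‖h‖ₑ ^ (((n + n : ℕ) : ℝ) + τ * q) ≤
      ENNReal.ofReal K ^ (((n + n : ℕ) : ℝ) + τ * q) *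
        ∫⁻ h in Metric.ball (0 : Eu (n + n)) K,
          ‖v (χ y + h) - v (χ y)‖ₑ ^ q / ‖h‖ₑ ^ (((n + n : ℕ) : ℝ) + τ * q) := by
  set e : ℝ := ((n + n : ℕ) : ℝ) + τ * q with he
  have he0 : 0 < e := by positivity
  have hK0 : 0 < K := by linarith
  have hKt : ENNReal.ofReal K ^ e ≠ ⊤ := ENNReal.rpow_ne_top_of_nonneg he0.le ENNReal.ofReal_ne_top
  have hK1 : ENNReal.ofReal K ^ e ≠ 0 := by
    rw [ENNReal.ofReal_rpow_of_pos hK0]
    exact (ENNReal.ofReal_pos.2 (Real.rpow_pos_of_pos hK0 _)).ne'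
  have hlip : ∀ a b, ‖χ a - χ b‖ ≤ K * ‖a - b‖ := by
    intro a b
    exact Convex.norm_image_sub_le_of_norm_fderiv_le (𝕜 := ℝ) (f := χ) (s := Set.univ)
      (fun x _ => hχ.differentiable (by simp) x) (fun x _ => hχK x) convex_univ (mem_univ b)
      (mem_univ a)
  set T : Eu (n + n) → Eu (n + n) := fun h => χ (y + h) - χ y with hT
  have hTm : MeasurePreserving T (volume : Measure (Eu (n + n))) volume := by
    have a1 : MeasurePreserving (fun h : Eu (n + n) => y + h) volume volume :=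
      measurePreserving_add_left volume y
    have a2 := (psh_mp hχ h2 h1 hs).2
    have a3 : MeasurePreserving (fun x : Eu (n + n) => x - χ y) volume volume :=
      measurePreserving_sub_right volume (χ y)
    exact a3.comp (a2.comp a1)
  set f : Eu (n + n) → ℝ≥0∞ := (Metric.ball (0 : Eu (n + n)) K).indicator
    (fun h => ‖v (χ y + h) - v (χ y)‖ₑ ^ q / ‖h‖ₑ ^ e) with hf
  have hfm : Measurable f :=
    ((psh_meas hv q e).comp (measurable_const.prodMk measurable_id)).indicator measurableSet_ball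
  have h3 : ∫⁻ h, f (T h) = ∫⁻ h, f h := hTm.lintegral_comp hfm
  rw [← lintegral_indicator measurableSet_ball, ← lintegral_indicator measurableSet_ball]
  rw [show (∫⁻ h, (Metric.ball (0 : Eu (n + n)) K).indicator
    (fun h => ‖v (χ y + h) - v (χ y)‖ₑ ^ q / ‖h‖ₑ ^ e) h) = ∫⁻ h, f h from rfl, ← h3,
    ← lintegral_const_mul' _ _ hKt]
  refine lintegral_mono fun h => ?_
  by_cases hh : h ∈ Metric.ball (0 : Eu (n + n)) 1
  · rw [indicator_of_mem hh]
    have h4 : ‖T h‖ ≤ K * ‖h‖ := by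
      have := hlip (y + h) y
      rw [add_sub_cancel_left] at this
      exact this
    have h5 : T h ∈ Metric.ball (0 : Eu (n + n)) K := by
      have h6 : ‖h‖ < 1 := by simpa using hh
      rw [mem_ball_zero_iff]
      nlinarith
    show _ ≤ ENNReal.ofReal K ^ e * f (T h)
    rw [hf, indicator_of_mem h5]
    have h6 : χ y + T h = χ (y + h) := by
      rw [hT]
      simp
    rw [h6]
    have h7 : ‖T h‖ₑ ^ e ≤ ENNReal.ofReal K ^ e * ‖h‖ₑ ^ e := by
      rw [← ENNReal.mul_rpow_of_nonneg _ _ he0.le]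
      refine ENNReal.rpow_le_rpow ?_ he0.le
      rw [← ofReal_norm, ← ofReal_norm, ← ENNReal.ofReal_mul hK0.le]
      exact ENNReal.ofReal_le_ofReal h4
    calc ‖v (χ (y + h)) - v (χ y)‖ₑ ^ q / ‖h‖ₑ ^ e
        = (ENNReal.ofReal K ^ e * ‖v (χ (y + h)) - v (χ y)‖ₑ ^ q) /
          (ENNReal.ofReal K ^ e * ‖h‖ₑ ^ e) := (ENNReal.mul_div_mul_left _ _ hK1 hKt).symm
      _ ≤ (ENNReal.ofReal K ^ e * ‖v (χ (y + h)) - v (χ y)‖ₑ ^ q) / ‖T h‖ₑ ^ e :=
          ENNReal.div_le_div_left h7 _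
      _ = _ := by rw [mul_div_assoc]
  · rw [indicator_of_notMem hh]
    exact zero_le

/-- the test fields after the change of coordinates -/
private theorem psh_test {τ q : ℝ} (h0 : 0 < τ) (h1' : τ < 1) (hq : 1 < q) {K : ℝ} (hK : 1 ≤ K) :
    ∃ C : ℝ≥0∞, C ≠ ⊤ ∧ ∀ ψ χ : Eu (n + n) → Eu (n + n), ContDiff ℝ ∞ ψ → ContDiff ℝ ∞ χ →
    (∀ x, χ (ψ x) = x) → (∀ x, ψ (χ x) = x) →
    (∀ x v w, om (fderiv ℝ ψ x v) (fderiv ℝ ψ x w) = om v w) →
    (∀ x v w, om (fderiv ℝ χ x v) (fderiv ℝ χ x w) = om v w) →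
    (∀ k : Fin (n + n) → ℤ, ∃ l : Fin (n + n) → ℤ, ∀ x, ψ (x + iv k) = ψ x + iv l) →
    (∀ k : Fin (n + n) → ℤ, ∃ l : Fin (n + n) → ℤ, ∀ x, χ (x + iv k) = χ x + iv l) →
    (∀ x, ‖fderiv ℝ ψ x‖ ≤ K) → (∀ x, ‖fderiv ℝ χ x‖ ≤ K) →
    (∀ x y, ‖fderiv ℝ ψ x - fderiv ℝ ψ y‖ ≤ K * ‖x - y‖) →
    ∀ v : Eu (n + n) → Eu (n + n), ContDiff ℝ ∞ v → Per v → slobP τ q v ≤ 1 →
      slobP τ q (fun y => ContinuousLinearMap.adjoint (fderiv ℝ χ y) (v (χ y))) ≤ C := by
  have hK0 : 0 < K := by linarith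
  have hq0 : 0 < q := by linarith
  set e : ℝ := ((n + n : ℕ) : ℝ) + τ * q with he
  have he0 : 0 < e := by positivity
  set I : ℝ≥0∞ := ∫⁻ h in Metric.ball (0 : Eu (n + n)) 1, ‖h‖ₑ ^ q / ‖h‖ₑ ^ e with hI
  have hIt : I ≠ ⊤ := (psh_ker h0 h1' hq).ne
  have h2t : (2 : ℝ≥0∞) ^ (q - 1) ≠ ⊤ :=
    ENNReal.rpow_ne_top_of_nonneg (by linarith) ENNReal.ofNat_ne_top
  have h2t' : (2 : ℝ≥0∞) ^ q ≠ ⊤ := ENNReal.rpow_ne_top_of_nonneg hq0.le ENNReal.ofNat_ne_top
  have hKq : ENNReal.ofReal K ^ q ≠ ⊤ := ENNReal.rpow_ne_top_of_nonneg hq0.le ENNReal.ofReal_ne_top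
  have hKe : ENNReal.ofReal K ^ e ≠ ⊤ := ENNReal.rpow_ne_top_of_nonneg he0.le ENNReal.ofReal_ne_top
  have hK4 : ENNReal.ofReal (K ^ 4) ^ q ≠ ⊤ :=
    ENNReal.rpow_ne_top_of_nonneg hq0.le ENNReal.ofReal_ne_top
  have hvol : volume (Metric.ball (0 : Eu (n + n)) K) ≠ ⊤ := measure_ball_lt_top.ne
  refine ⟨ENNReal.ofReal K ^ q + (2 ^ (q - 1) * (ENNReal.ofReal K ^ q * (ENNReal.ofReal K ^ e *
    (1 + 2 ^ q * volume (Metric.ball (0 : Eu (n + n)) K)))) +
    2 ^ (q - 1) * (ENNReal.ofReal (K ^ 4) ^ q * I)), ?_, ?_⟩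
  · exact ENNReal.add_ne_top.2 ⟨hKq, ENNReal.add_ne_top.2 ⟨ENNReal.mul_ne_top h2t
      (ENNReal.mul_ne_top hKq (ENNReal.mul_ne_top hKe (ENNReal.add_ne_top.2
        ⟨ENNReal.one_ne_top, ENNReal.mul_ne_top h2t' hvol⟩))),
      ENNReal.mul_ne_top h2t (ENNReal.mul_ne_top hK4 hIt)⟩⟩
  intro ψ χ hψ hχ h1 h2 hs hs' hl hl' hψK hχK hLip v hv hp hv1
  have hv0 : ∫⁻ x in cube (n + n), ‖v x‖ₑ ^ q ≤ 1 := intw_L0 hv1
  have hvc : Continuous v := hv.continuous
  have hvq : Measurable (fun x => ‖v x‖ₑ ^ q) := hvc.measurable.enorm.pow_const q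
  have hvqp : Per (fun x => ‖v x‖ₑ ^ q) := fun x k => by
    show ‖v (x + iv k)‖ₑ ^ q = _
    rw [hp]
  have hcov : ∫⁻ y in cube (n + n), ‖v (χ y)‖ₑ ^ q ≤ 1 := by
    rw [psh_cov hχ h2 h1 hs' hl' hl hvq hvqp]
    exact hv0
  have hadj : ∀ (A : Eu (n + n) →L[ℝ] Eu (n + n)) (u : Eu (n + n)) (b : ℝ), ‖A‖ ≤ b →
      ‖ContinuousLinearMap.adjoint A u‖ₑ ≤ ENNReal.ofReal b * ‖u‖ₑ := by
    intro A u b hb
    have hb0 : 0 ≤ b := (norm_nonneg _).trans hb
    rw [← ofReal_norm, ← ofReal_norm, ← ENNReal.ofReal_mul hb0]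
    refine ENNReal.ofReal_le_ofReal ((ContinuousLinearMap.le_opNorm _ _).trans ?_)
    rw [psh_adj_norm]
    exact mul_le_mul_of_nonneg_right hb (norm_nonneg _)
  have hlip : ∀ a b, ‖χ a - χ b‖ ≤ K * ‖a - b‖ := by
    intro a b
    exact Convex.norm_image_sub_le_of_norm_fderiv_le (𝕜 := ℝ) (f := χ) (s := Set.univ)
      (fun x _ => hχ.differentiable (by simp) x) (fun x _ => hχK x) convex_univ (mem_univ b)
      (mem_univ a)
  -- the derivative of the inverse is Lipschitz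
  have hD : ∀ a b, ‖fderiv ℝ χ a - fderiv ℝ χ b‖ ≤ K ^ 4 * ‖a - b‖ := by
    intro a b
    have h3 : fderiv ℝ χ a - fderiv ℝ χ b = fderiv ℝ χ a ∘L
        (fderiv ℝ ψ (χ b) - fderiv ℝ ψ (χ a)) ∘L fderiv ℝ χ b := by
      ext1 w
      show fderiv ℝ χ a w - fderiv ℝ χ b w = fderiv ℝ χ a
        (fderiv ℝ ψ (χ b) (fderiv ℝ χ b w) - fderiv ℝ ψ (χ a) (fderiv ℝ χ b w))
      rw [psh_chain hψ hχ h2 b w, map_sub]
      congr 1
      have h4 := psh_chain hχ hψ h1 (χ a) (fderiv ℝ χ b w)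
      rw [h2] at h4
      exact h4.symm
    rw [h3]
    calc ‖fderiv ℝ χ a ∘L (fderiv ℝ ψ (χ b) - fderiv ℝ ψ (χ a)) ∘L fderiv ℝ χ b‖
        ≤ ‖fderiv ℝ χ a‖ * (‖fderiv ℝ ψ (χ b) - fderiv ℝ ψ (χ a)‖ * ‖fderiv ℝ χ b‖) :=
          (ContinuousLinearMap.opNorm_comp_le _ _).trans
            (mul_le_mul_of_nonneg_left (ContinuousLinearMap.opNorm_comp_le _ _) (norm_nonneg _))
      _ ≤ K * ((K * (K * ‖a - b‖)) * K) := by
          have h5 : ‖fderiv ℝ ψ (χ b) - fderiv ℝ ψ (χ a)‖ ≤ K * (K * ‖a - b‖) := by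
            refine (hLip _ _).trans (mul_le_mul_of_nonneg_left ?_ hK0.le)
            rw [norm_sub_rev]
            exact hlip a b
          have h6 : 0 ≤ K * (K * ‖a - b‖) := by positivity
          exact mul_le_mul (hχK a) (mul_le_mul h5 (hχK b) (norm_nonneg _) h6)
            (mul_nonneg (norm_nonneg _) (norm_nonneg _)) hK0.le
      _ = K ^ 4 * ‖a - b‖ := by ring
  rw [psh_slob h0 h1']
  refine add_le_add ?_ ?_
  · calc ∫⁻ y in cube (n + n), ‖ContinuousLinearMap.adjoint (fderiv ℝ χ y) (v (χ y))‖ₑ ^ q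
        ≤ ∫⁻ y in cube (n + n), ENNReal.ofReal K ^ q * ‖v (χ y)‖ₑ ^ q := by
          refine lintegral_mono fun y => ?_
          rw [← ENNReal.mul_rpow_of_nonneg _ _ hq0.le]
          exact ENNReal.rpow_le_rpow (hadj _ _ _ (hχK y)) hq0.le
      _ = ENNReal.ofReal K ^ q * ∫⁻ y in cube (n + n), ‖v (χ y)‖ₑ ^ q :=
          lintegral_const_mul' _ _ hKq
      _ ≤ ENNReal.ofReal K ^ q * 1 := by gcongr
      _ = _ := mul_one _
  · have hpt : ∀ y h : Eu (n + n), ‖ContinuousLinearMap.adjoint (fderiv ℝ χ (y + h))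
        (v (χ (y + h))) - ContinuousLinearMap.adjoint (fderiv ℝ χ y) (v (χ y))‖ₑ ^ q /
        ‖h‖ₑ ^ e ≤ 2 ^ (q - 1) * (ENNReal.ofReal K ^ q *
          (‖v (χ (y + h)) - v (χ y)‖ₑ ^ q / ‖h‖ₑ ^ e)) +
        2 ^ (q - 1) * (ENNReal.ofReal (K ^ 4) ^ q * ‖v (χ y)‖ₑ ^ q) *
          (‖h‖ₑ ^ q / ‖h‖ₑ ^ e) := by
      intro y h
      have e1 : ContinuousLinearMap.adjoint (fderiv ℝ χ (y + h)) (v (χ (y + h))) -
          ContinuousLinearMap.adjoint (fderiv ℝ χ y) (v (χ y)) =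
          ContinuousLinearMap.adjoint (fderiv ℝ χ (y + h)) (v (χ (y + h)) - v (χ y)) +
          ContinuousLinearMap.adjoint (fderiv ℝ χ (y + h) - fderiv ℝ χ y) (v (χ y)) := by
        rw [map_sub, map_sub]
        show _ = _ + (ContinuousLinearMap.adjoint (fderiv ℝ χ (y + h)) (v (χ y)) -
          ContinuousLinearMap.adjoint (fderiv ℝ χ y) (v (χ y)))
        abel
      have e2 : ‖ContinuousLinearMap.adjoint (fderiv ℝ χ (y + h))
          (v (χ (y + h))) - ContinuousLinearMap.adjoint (fderiv ℝ χ y) (v (χ y))‖ₑ ≤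
          ENNReal.ofReal K * ‖v (χ (y + h)) - v (χ y)‖ₑ +
          (ENNReal.ofReal (K ^ 4) * ‖h‖ₑ) * ‖v (χ y)‖ₑ := by
        rw [e1]
        refine (enorm_add_le _ _).trans (add_le_add (hadj _ _ _ (hχK _)) ?_)
        have h3 := hD (y + h) y
        rw [add_sub_cancel_left] at h3
        refine (hadj _ _ _ h3).trans (le_of_eq ?_)
        rw [ENNReal.ofReal_mul (by positivity), ofReal_norm]
      calc _ ≤ (2 ^ (q - 1) * ((ENNReal.ofReal K * ‖v (χ (y + h)) - v (χ y)‖ₑ) ^ q +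
            ((ENNReal.ofReal (K ^ 4) * ‖h‖ₑ) * ‖v (χ y)‖ₑ) ^ q)) / ‖h‖ₑ ^ e := by
            refine ENNReal.div_le_div_right ?_ _
            exact (ENNReal.rpow_le_rpow e2 hq0.le).trans
              (ENNReal.rpow_add_le_mul_rpow_add_rpow _ _ hq.le)
        _ = _ := by
            rw [ENNReal.mul_rpow_of_nonneg _ _ hq0.le, ENNReal.mul_rpow_of_nonneg _ _ hq0.le,
              ENNReal.mul_rpow_of_nonneg _ _ hq0.le]
            simp only [div_eq_mul_inv]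
            ring
    have hms : Measurable (fun z : Eu (n + n) × Eu (n + n) =>
        ‖v (χ (z.1 + z.2)) - v (χ z.1)‖ₑ ^ q / ‖z.2‖ₑ ^ e) :=
      psh_meas (v := fun y => v (χ y)) (hvc.comp hχ.continuous) q e
    have hin : ∀ y : Eu (n + n), ∫⁻ h in Metric.ball (0 : Eu (n + n)) 1,
        ‖ContinuousLinearMap.adjoint (fderiv ℝ χ (y + h)) (v (χ (y + h))) -
          ContinuousLinearMap.adjoint (fderiv ℝ χ y) (v (χ y))‖ₑ ^ q / ‖h‖ₑ ^ e ≤
        2 ^ (q - 1) * (ENNReal.ofReal K ^ q * (ENNReal.ofReal K ^ e *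
          ∫⁻ h in Metric.ball (0 : Eu (n + n)) K,
            ‖v (χ y + h) - v (χ y)‖ₑ ^ q / ‖h‖ₑ ^ e)) +
        2 ^ (q - 1) * (ENNReal.ofReal (K ^ 4) ^ q * ‖v (χ y)‖ₑ ^ q) * I := by
      intro y
      have hvt : ‖v (χ y)‖ₑ ^ q ≠ ⊤ := ENNReal.rpow_ne_top_of_nonneg hq0.le enorm_ne_top
      have hm1 : Measurable (fun h : Eu (n + n) => 2 ^ (q - 1) * (ENNReal.ofReal K ^ q *
          (‖v (χ (y + h)) - v (χ y)‖ₑ ^ q / ‖h‖ₑ ^ e))) :=
        ((hms.comp (measurable_const.prodMk measurable_id)).const_mul _).const_mul _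
      refine (lintegral_mono (hpt y)).trans ?_
      rw [lintegral_add_left hm1, lintegral_const_mul' _ _ h2t, lintegral_const_mul' _ _ hKq,
        lintegral_const_mul' _ _ (ENNReal.mul_ne_top h2t (ENNReal.mul_ne_top hK4 hvt))]
      refine add_le_add ?_ le_rfl
      gcongr
      exact psh_in h0 hq hK hχ h1 h2 hs' hχK hvc y
    have hbig := psh_big h0 h1' hq hK hvc hp hv1
    have hΦm : Measurable (fun x : Eu (n + n) => ∫⁻ h in Metric.ball (0 : Eu (n + n)) K,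
        ‖v (x + h) - v x‖ₑ ^ q / ‖h‖ₑ ^ e) := (psh_meas hvc q e).lintegral_prod_right'
    have hΦp : Per (fun x : Eu (n + n) => ∫⁻ h in Metric.ball (0 : Eu (n + n)) K,
        ‖v (x + h) - v x‖ₑ ^ q / ‖h‖ₑ ^ e) := by
      intro x k
      show (∫⁻ h in Metric.ball (0 : Eu (n + n)) K,
        ‖v (x + iv k + h) - v (x + iv k)‖ₑ ^ q / ‖h‖ₑ ^ e) = _
      have : ∀ h, v (x + iv k + h) = v (x + h) := by
        intro h
        rw [show x + iv k + h = x + h + iv k by abel, hp]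
      simp only [this, hp x k]
    have hΦ : ∫⁻ y in cube (n + n), ∫⁻ h in Metric.ball (0 : Eu (n + n)) K,
        ‖v (χ y + h) - v (χ y)‖ₑ ^ q / ‖h‖ₑ ^ e ≤
        1 + 2 ^ q * volume (Metric.ball (0 : Eu (n + n)) K) := by
      have h3 := psh_cov hχ h2 h1 hs' hl' hl hΦm hΦp
      rw [h3]
      exact hbig
    refine (lintegral_mono hin).trans ?_
    have hm2 : Measurable (fun y : Eu (n + n) => 2 ^ (q - 1) * (ENNReal.ofReal K ^ q *
        (ENNReal.ofReal K ^ e * ∫⁻ h in Metric.ball (0 : Eu (n + n)) K,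
          ‖v (χ y + h) - v (χ y)‖ₑ ^ q / ‖h‖ₑ ^ e))) :=
      (((hΦm.comp hχ.continuous.measurable).const_mul _).const_mul _).const_mul _
    rw [lintegral_add_left hm2, lintegral_const_mul' _ _ h2t, lintegral_const_mul' _ _ hKq,
      lintegral_const_mul' _ _ hKe]
    refine add_le_add ?_ ?_
    · gcongr
    · calc ∫⁻ y in cube (n + n), 2 ^ (q - 1) * (ENNReal.ofReal (K ^ 4) ^ q * ‖v (χ y)‖ₑ ^ q) * I
          = (2 ^ (q - 1) * (ENNReal.ofReal (K ^ 4) ^ q *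
              ∫⁻ y in cube (n + n), ‖v (χ y)‖ₑ ^ q)) * I := by
            rw [lintegral_mul_const' _ _ hIt, lintegral_const_mul' _ _ h2t,
              lintegral_const_mul' _ _ hK4]
        _ ≤ (2 ^ (q - 1) * (ENNReal.ofReal (K ^ 4) ^ q * 1)) * I := by gcongr
        _ = _ := by rw [mul_one, mul_assoc]

theorem push_w {s p : ℝ} (hs : -1 < s) (hs0 : s < 0) (hp : 1 < p) (K : ℝ) : ∃ C : ℝ, 1 ≤ C ∧
    ∀ ψ χ : Eu (n + n) → Eu (n + n), ContDiff ℝ ∞ ψ → ContDiff ℝ ∞ χ → (∀ x, χ (ψ x) = x) →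
    (∀ x, ψ (χ x) = x) → (∀ x v w, om (fderiv ℝ ψ x v) (fderiv ℝ ψ x w) = om v w) →
    (∀ k : Fin (n + n) → ℤ, ∃ l : Fin (n + n) → ℤ, ∀ x, ψ (x + iv k) = ψ x + iv l) →
    (∀ k : Fin (n + n) → ℤ, ∃ l : Fin (n + n) → ℤ, ∀ x, χ (x + iv k) = χ x + iv l) →
    (∀ x, ‖fderiv ℝ ψ x‖ ≤ K) → (∀ x, ‖fderiv ℝ χ x‖ ≤ K) →
    (∀ x y, ‖fderiv ℝ ψ x - fderiv ℝ ψ y‖ ≤ K * ‖x - y‖) →
    ∀ G : Eu (n + n) → ℝ, ContDiff ℝ ∞ G → Per G →
      wspP s p (sgr (fun x => G (ψ x))) ≤ ENNReal.ofReal C * wspP s p (sgr G) := by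
  have hp1 : 0 < p - 1 := by linarith
  set q : ℝ := p / (p - 1) with hqdef
  have hq : 1 < q := by rw [hqdef, lt_div_iff₀ hp1]; linarith
  have hq0 : 0 < q := by linarith
  set L : ℝ := max K 1 with hL
  have hL1 : 1 ≤ L := le_max_right _ _
  have hKL : K ≤ L := le_max_left _ _
  obtain ⟨C0, hC0, hC⟩ := psh_test (n := n) (τ := -s) (q := q) (by linarith) (by linarith) hq hL1
  set c : ℝ := (C0.toReal + 1) ^ (1 / q) with hc
  have hc1 : 1 ≤ c := Real.one_le_rpow (by linarith [ENNReal.toReal_nonneg (a := C0)])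
    (by positivity)
  have hc0 : 0 < c := by linarith
  have hcq : C0 ≤ ENNReal.ofReal c ^ q := by
    rw [ENNReal.ofReal_rpow_of_pos hc0, hc, ← Real.rpow_mul (by positivity),
      one_div_mul_cancel hq0.ne', Real.rpow_one]
    refine (ENNReal.le_ofReal_iff_toReal_le hC0 (by positivity)).2 (by linarith)
  refine ⟨c, hc1, ?_⟩
  intro ψ χ hψ hχ h1 h2 hsy hl hl' hψK hχK hLip G hG hGp
  have hsy' : ∀ x v w, om (fderiv ℝ χ x v) (fderiv ℝ χ x w) = om v w := by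
    intro x v w
    rw [← hsy (χ x), psh_chain hψ hχ h2 x v, psh_chain hψ hχ h2 x w]
  have hψL : ∀ x, ‖fderiv ℝ ψ x‖ ≤ L := fun x => (hψK x).trans hKL
  have hχL : ∀ x, ‖fderiv ℝ χ x‖ ≤ L := fun x => (hχK x).trans hKL
  have hLL : ∀ x y, ‖fderiv ℝ ψ x - fderiv ℝ ψ y‖ ≤ L * ‖x - y‖ := fun x y =>
    (hLip x y).trans (mul_le_mul_of_nonneg_right hKL (norm_nonneg _))
  unfold wspP
  rw [if_neg (not_le.2 hs0), if_neg (not_le.2 hs0)]
  refine iSup₂_le fun v hv => ?_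
  obtain ⟨hvs, hvp, hv1⟩ := hv
  set w : Eu (n + n) → Eu (n + n) :=
    fun y => ContinuousLinearMap.adjoint (fderiv ℝ χ y) (v (χ y)) with hw
  have hDper : ∀ (y : Eu (n + n)) (k : Fin (n + n) → ℤ), fderiv ℝ χ (y + iv k) = fderiv ℝ χ y := by
    intro y k
    obtain ⟨l, hl⟩ := hl' k
    have h3 : (fun z => χ (z + iv k)) = fun z => χ z + iv l := funext hl
    rw [← fderiv_comp_add_right, h3, fderiv_add_const]
  have hws : ContDiff ℝ ∞ w := by
    have h3 : ContDiff ℝ ∞ (fderiv ℝ χ) := hχ.fderiv_right (by simp)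
    have h4 : ContDiff ℝ ∞ (fun y => psh_adj n (fderiv ℝ χ y)) := (psh_adj n).contDiff.comp h3
    exact h4.clm_apply (hvs.comp hχ)
  have hwp : Per w := by
    intro y k
    obtain ⟨l, hl⟩ := hl' k
    show ContinuousLinearMap.adjoint (fderiv ℝ χ (y + iv k)) (v (χ (y + iv k))) = _
    rw [hDper, hl, hvp]
  have hw1 : slobP (-s) q w ≤ C0 :=
    hC ψ χ hψ hχ h1 h2 hsy hsy' hl hl' hψL hχL hLL v hvs hvp hv1
  have hint : ∫ x in cube (n + n), (inner ℝ (sgr (fun x => G (ψ x)) x) (v x) : ℝ) =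
      ∫ y in cube (n + n), (inner ℝ (sgr G y) (w y) : ℝ) := by
    have hper : Per (fun y => (inner ℝ (sgr G y) (w y) : ℝ)) := by
      intro y k
      show (inner ℝ (sgr G (y + iv k)) (w (y + iv k)) : ℝ) = _
      rw [hwp]
      have h3 : sgr G (y + iv k) = sgr G y := by
        apply psh_nd
        intro z
        rw [psh_om, psh_om, ← fderiv_comp_add_right]
        have : (fun z => G (z + iv k)) = G := funext fun z => hGp z k
        rw [this]
      rw [h3]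
    rw [← psh_covR hψ h1 h2 hsy hl hl' hper]
    refine integral_congr_ae (Filter.Eventually.of_forall fun x => ?_)
    show (inner ℝ (sgr (fun x => G (ψ x)) x) (v x) : ℝ) = inner ℝ (sgr G (ψ x)) (w (ψ x))
    rw [psh_sgr hψ hχ h1 h2 hsy hG x, hw]
    show _ = (inner ℝ (sgr G (ψ x))
      (ContinuousLinearMap.adjoint (fderiv ℝ χ (ψ x)) (v (χ (ψ x)))) : ℝ)
    rw [ContinuousLinearMap.adjoint_inner_right, h1]
  rw [hint]
  have hci : 0 < c⁻¹ := inv_pos.2 hc0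
  set z : Eu (n + n) → Eu (n + n) := fun y => c⁻¹ • w y with hz
  have hz1 : slobP (-s) q z ≤ 1 := by
    rw [hz, psh_sc (by linarith) (by linarith) hq w hci]
    calc ENNReal.ofReal c⁻¹ ^ q * slobP (-s) q w
        ≤ ENNReal.ofReal c⁻¹ ^ q * ENNReal.ofReal c ^ q := by
          gcongr
          exact hw1.trans hcq
      _ = 1 := by
          rw [← ENNReal.mul_rpow_of_nonneg _ _ hq0.le, ← ENNReal.ofReal_mul hci.le,
            inv_mul_cancel₀ hc0.ne', ENNReal.ofReal_one, ENNReal.one_rpow]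
  have hzw : ∫ y in cube (n + n), (inner ℝ (sgr G y) (w y) : ℝ) =
      c * ∫ y in cube (n + n), (inner ℝ (sgr G y) (z y) : ℝ) := by
    rw [← integral_const_mul]
    congr 1
    funext y
    rw [hz]
    simp only [inner_smul_right]
    rw [← mul_assoc, mul_inv_cancel₀ hc0.ne', one_mul]
  rw [hzw, abs_mul, abs_of_pos hc0, ENNReal.ofReal_mul hc0.le]
  gcongr
  exact le_iSup₂ (f := fun (v : Eu (n + n) → Eu (n + n))
    (_ : ContDiff ℝ ∞ v ∧ Per v ∧ slobP (-s) q v ≤ 1) =>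
    ENNReal.ofReal |∫ x in cube (n + n), (inner ℝ (sgr G x) (v x) : ℝ)|) z
    ⟨hws.const_smul c⁻¹, fun y k => by show c⁻¹ • w (y + iv k) = c⁻¹ • w y; rw [hwp], hz1⟩

end

end FS
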