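import Pool.Agent.FS.Cpt
import Pool.Agent.FS.Psh
import Pool.Agent.FS.Sym
import Pool.Agent.FS.Sgp
import Pool.Agent.FS.Dk
import Pool.Agent.SVT.IntW
import Pool.Agent.SVT.EE
import Pool.Agent.TN.Bas

/-!
# Project FS (MP_b0bf68_gt), row EP-5: the critical norm is a price functional
-/

set_option autoImplicit false

open MeasureTheory Set Pool.Agent.H68.VD TN SVT
open scoped ENNReal ContDiff

namespace FS

noncomputable section

variable {n : ℕ} {P : Set (Eu (n + n) → Eu (n + n))}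

/-! ### the field of a Hamiltonian -/

theorem CfN_JJ (x : Eu (n + n)) : Jm (Jm x) = -x := by
  refine ext_qp ?_ ?_ <;> simp [Jm]

/-- the linear map from the differential to the field -/
def CfN_L (n : ℕ) : (Eu (n + n) →L[ℝ] ℝ) →L[ℝ] Eu (n + n) :=
  -(JL n).comp (InnerProductSpace.toDual ℝ (Eu (n + n))).symm.toContinuousLinearEquiv.toContinuousLinearMap

theorem CfN_L_eq (G : Eu (n + n) → ℝ) (x : Eu (n + n)) : sgr G x = CfN_L n (fderiv ℝ G x) := rfl

theorem CfN_d {G : Eu (n + n) → ℝ} (hG : ContDiff ℝ ∞ G) (x : Eu (n + n)) :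
    HasFDerivAt G (innerSL ℝ (Jm (sgr G x))) x := by
  have h : HasFDerivAt G (fderiv ℝ G x) x := (hG.differentiable (by simp) x).hasFDerivAt
  have e : innerSL ℝ (Jm (sgr G x)) = fderiv ℝ G x := by
    have h1 : Jm (sgr G x) = gradient G x := by
      unfold sgr
      have h2 : Jm (-Jm (gradient G x)) = -Jm (Jm (gradient G x)) := by
        rw [← JL_apply, map_neg, JL_apply]
      rw [h2, CfN_JJ, neg_neg]
    rw [h1]
    ext v
    rw [innerSL_apply_apply, gradient]
    exact InnerProductSpace.toDual_symm_apply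
  rwa [e]

theorem CfN_c {G : Eu (n + n) → ℝ} (hG : ContDiff ℝ ∞ G) : Continuous (sgr G) := by
  have e : sgr G = fun x => CfN_L n (fderiv ℝ G x) := rfl
  rw [e]
  exact (CfN_L n).continuous.comp (hG.continuous_fderiv (by simp))

theorem CfN_sgr_smul {G : Eu (n + n) → ℝ} (hG : ContDiff ℝ ∞ G) (c : ℝ) :
    sgr (fun x => c * G x) = fun x => c • sgr G x := by
  funext x
  rw [CfN_L_eq, CfN_L_eq, fderiv_const_mul (hG.differentiable (by simp) x), map_smul]

theorem CfN_sgr_sum {ι : Type*} (R : Finset ι) {G : ι → Eu (n + n) → ℝ}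
    (hG : ∀ i ∈ R, ContDiff ℝ ∞ (G i)) :
    sgr (fun x => ∑ i ∈ R, G i x) = fun x => ∑ i ∈ R, sgr (G i) x := by
  funext x
  rw [CfN_L_eq, fderiv_fun_sum fun i hi => (hG i hi).differentiable (by simp) x, map_sum]
  rfl

/-! ### the dual norm -/

theorem CfN_smul {m : ℕ} {s p : ℝ} (hs : s < 0) (c : ℝ) (u : Eu m → Eu m) :
    wspP s p (fun x => c • u x) = ENNReal.ofReal |c| * wspP s p u := by
  unfold wspP
  rw [if_neg (not_le.2 hs), if_neg (not_le.2 hs), ENNReal.mul_iSup]
  congr 1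
  funext v
  rw [ENNReal.mul_iSup]
  congr 1
  funext _
  rw [← ENNReal.ofReal_mul (abs_nonneg _), ← abs_mul, ← integral_const_mul]
  simp only [real_inner_smul_left]

theorem CfN_sum {m : ℕ} {s p : ℝ} (hs : s < 0) {ι : Type*} (R : Finset ι) {u : ι → Eu m → Eu m}
    (hu : ∀ i ∈ R, Continuous (u i)) :
    wspP s p (fun x => ∑ i ∈ R, u i x) ≤ ∑ i ∈ R, wspP s p (u i) := by
  unfold wspP
  simp only [if_neg (not_le.2 hs)]
  refine iSup₂_le fun v hv => ?_
  have e : (∫ x in cube m, inner ℝ (∑ i ∈ R, u i x) (v x)) =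
      ∑ i ∈ R, ∫ x in cube m, inner ℝ (u i x) (v x) := by
    rw [← integral_finsetSum R fun i hi => intw_int (hu i hi) hv.1.continuous]
    simp only [sum_inner]
  rw [e]
  calc ENNReal.ofReal |∑ i ∈ R, ∫ x in cube m, inner ℝ (u i x) (v x)|
      ≤ ENNReal.ofReal (∑ i ∈ R, |∫ x in cube m, inner ℝ (u i x) (v x)|) :=
        ENNReal.ofReal_le_ofReal (Finset.abs_sum_le_sum_abs _ _)
    _ = ∑ i ∈ R, ENNReal.ofReal |∫ x in cube m, inner ℝ (u i x) (v x)| :=
        ENNReal.ofReal_sum_of_nonneg fun _ _ => abs_nonneg _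
    _ ≤ _ := Finset.sum_le_sum fun i _ => le_iSup₂_of_le v hv le_rfl

/-! ### smooth families -/

/-- the differential in space of a smooth family is a smooth family -/
theorem CfN_fd {F' : Type} [NormedAddCommGroup F'] [NormedSpace ℝ F']
    {g : ℝ → Eu (n + n) → F'} (hg : ContDiff ℝ ∞ (fun z : ℝ × Eu (n + n) => g z.1 z.2)) :
    ContDiff ℝ ∞ (fun z : ℝ × Eu (n + n) => fderiv ℝ (g z.1) z.2) := by
  have h1 : (fun z : ℝ × Eu (n + n) => fderiv ℝ (g z.1) z.2) = fun z : ℝ × Eu (n + n) =>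
      (fderiv ℝ (fun z : ℝ × Eu (n + n) => g z.1 z.2) z).comp
        (ContinuousLinearMap.inr ℝ ℝ (Eu (n + n))) := by
    funext z
    have h2 : HasFDerivAt (fun x : Eu (n + n) => ((z.1, x) : ℝ × Eu (n + n)))
        (ContinuousLinearMap.inr ℝ ℝ (Eu (n + n))) z.2 := hasFDerivAt_prodMk_right z.1 z.2
    have h3 : HasFDerivAt (fun z : ℝ × Eu (n + n) => g z.1 z.2)
        (fderiv ℝ (fun z : ℝ × Eu (n + n) => g z.1 z.2) (z.1, z.2)) (z.1, z.2) :=
      (hg.differentiable (by simp) _).hasFDerivAt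
    exact (h3.comp z.2 h2).fderiv
  rw [h1]
  exact (hg.fderiv_right (m := ∞) (by simp)).clm_comp contDiff_const

theorem CfN_bdd {g : ℝ × Eu (n + n) → ℝ} (hg : Continuous g)
    (hp : ∀ t x (k : Fin (n + n) → ℤ), g (t, x + iv k) = g (t, x)) :
    ∃ C : ℝ, 0 ≤ C ∧ ∀ t ∈ Icc (0 : ℝ) 1, ∀ x, |g (t, x)| ≤ C := by
  have hK : IsCompact ((Set.Icc (0 : ℝ) 1) ×ˢ Metric.closedBall (0 : Eu (n + n))
      (Real.sqrt ((n + n : ℕ) : ℝ))) := isCompact_Icc.prod (isCompact_closedBall _ _)
  obtain ⟨C, hC⟩ := hK.exists_bound_of_continuousOn hg.continuousOn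
  refine ⟨max C 0, le_max_right _ _, fun t ht x => ?_⟩
  set y : Eu (n + n) := WithLp.toLp 2 (fun j => Int.fract (x j)) with hy
  have hxy : x = y + iv (fun j => ⌊x j⌋) := by
    ext j
    simp [hy, iv]
  have hyc : y ∈ cube (n + n) := fun i => ⟨Int.fract_nonneg _, Int.fract_lt_one _⟩
  rw [hxy, hp]
  have h1 := hC (t, y) ⟨ht, intw_sub (n + n) hyc⟩
  exact (le_of_eq (Real.norm_eq_abs _).symm).trans (h1.trans (le_max_left _ _))

/-- the differentials of a path are uniformly Lipschitz -/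
theorem CfN_lip {φ : ℝ → Eu (n + n) → Eu (n + n)} (h : SPath φ) :
    ∃ C : ℝ, 0 ≤ C ∧ ∀ t ∈ Icc (0 : ℝ) 1, ∀ x y,
      ‖fderiv ℝ (φ t) x - fderiv ℝ (φ t) y‖ ≤ C * ‖x - y‖ := by
  have hg : ContDiff ℝ ∞ (fun z : ℝ × Eu (n + n) => fderiv ℝ (φ z.1) z.2) := CfN_fd h.path.smooth
  have hper : ∀ t x (k : Fin (n + n) → ℤ), fderiv ℝ (φ t) (x + iv k) = fderiv ℝ (φ t) x := by
    intro t x k
    rw [← fderiv_comp_add_right]
    have h2 : (fun y => φ t (y + iv k)) = fun y => φ t y + iv k := by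
      funext y
      exact h.path.equi t _ ⟨k, rfl⟩ y
    rw [h2, fderiv_add_const]
  obtain ⟨C, hC, hb⟩ := CfN_bdd (n := n)
    (g := fun z => ‖fderiv ℝ (fun y => fderiv ℝ (φ z.1) y) z.2‖)
    (CfN_fd (g := fun t y => fderiv ℝ (φ t) y) hg).continuous.norm (fun t x k => by
      show ‖fderiv ℝ (fun y => fderiv ℝ (φ t) y) (x + iv k)‖ =
        ‖fderiv ℝ (fun y => fderiv ℝ (φ t) y) x‖
      rw [← fderiv_comp_add_right]
      simp only [hper])
  refine ⟨C, hC, fun t ht x y => ?_⟩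
  have hd : Differentiable ℝ (fun y => fderiv ℝ (φ t) y) :=
    (hg.comp (contDiff_const.prodMk contDiff_id)).differentiable (by simp)
  exact Convex.norm_image_sub_le_of_norm_fderiv_le (𝕜 := ℝ) (s := univ) (fun z _ => hd z)
    (fun z _ => (le_abs_self _).trans (hb t ht z)) convex_univ (mem_univ y) (mem_univ x)

/-- continuity of the pairing with a test field -/
theorem CfN_pair {H : ℝ → Eu (n + n) → ℝ}
    (hH : ContDiff ℝ ∞ (fun z : ℝ × Eu (n + n) => H z.1 z.2)) {v : Eu (n + n) → Eu (n + n)}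
    (hv : Continuous v) :
    Continuous (fun t => ∫ x in cube (n + n), inner ℝ (sgr (H t) x) (v x)) := by
  have hc : Continuous (fun z : ℝ × Eu (n + n) => inner ℝ (sgr (H z.1) z.2) (v z.2)) := by
    have e : (fun z : ℝ × Eu (n + n) => sgr (H z.1) z.2) =
        fun z => CfN_L n (fderiv ℝ (H z.1) z.2) := rfl
    have h1 : Continuous (fun z : ℝ × Eu (n + n) => sgr (H z.1) z.2) := by
      rw [e]
      exact (CfN_L n).continuous.comp (CfN_fd hH).continuous
    exact h1.inner (hv.comp continuous_snd)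
  rw [continuous_iff_continuousAt]
  intro t0
  have hK : IsCompact (Set.Icc (t0 - 1) (t0 + 1) ×ˢ Metric.closedBall (0 : Eu (n + n))
      (Real.sqrt ((n + n : ℕ) : ℝ))) := isCompact_Icc.prod (isCompact_closedBall _ _)
  obtain ⟨C, hC⟩ := hK.exists_bound_of_continuousOn hc.continuousOn
  apply continuousAt_of_dominated (bound := fun _ => C)
  · exact Filter.Eventually.of_forall fun t =>
      (hc.comp (continuous_const.prodMk continuous_id)).aestronglyMeasurable
  · filter_upwards [Icc_mem_nhds (show t0 - 1 < t0 by linarith) (show t0 < t0 + 1 by linarith)]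
      with t ht
    refine (ae_restrict_iff' (intw_meas (n + n))).mpr (Filter.Eventually.of_forall fun x hx => ?_)
    exact hC (t, x) ⟨ht, intw_sub (n + n) hx⟩
  · have : volume (cube (n + n)) ≠ ⊤ := ((measure_mono (intw_sub (n + n))).trans_lt
      (isCompact_closedBall (0 : Eu (n + n)) _).measure_lt_top).ne
    exact integrableOn_const this
  · exact Filter.Eventually.of_forall fun x =>
      (hc.comp (continuous_id.prodMk continuous_const)).continuousAt

/-! ### the lattice -/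

theorem CfN_lat (n : ℕ) : SpDeck (lat (n + n)) where
  deck := lat_deck (n + n)
  symp := by
    rintro g ⟨k, rfl⟩ x v w
    have e : ∀ u : Eu (n + n), x + u + iv k - (x + iv k) = u := fun u => by abel
    simp only [e]

/-- in a lattice class every function is the sum over representatives -/
theorem CfN_dec (hP : SpDeck P) {c : Eu (n + n)} {ρ r : ℝ} (hs : SepP P c ρ) (hr : r < ρ)
    {R : Finset (Eu (n + n) → Eu (n + n))} (hR : ∀ g ∈ R, g ∈ P)
    (hR1 : ∀ g ∈ P, ∃ q ∈ R, ∃ k : Fin (n + n) → ℤ, ∀ x, g x = q x + iv k)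
    (hR2 : ∀ q ∈ R, ∀ q' ∈ R, ∀ k : Fin (n + n) → ℤ, (∀ x, q x = q' x + iv k) → q = q')
    {A X : Eu (n + n) → ℝ} (hA : ∀ x, r ≤ dist x c → A x = 0) (hX : Per X) (x : Eu (n + n)) :
    sym P (fun y => A y * X y) x = ∑ q ∈ R, sym (lat (n + n)) A (q x) * X (q x) := by
  classical
  have hsub : lat (n + n) ⊆ P := by
    rintro g ⟨k, rfl⟩
    exact hP.deck.trans k
  have hsl : SepP (lat (n + n)) c ρ := ⟨hs.1, fun g hg => hs.2 g (hsub hg)⟩
  have hAρ : ∀ y, ρ ≤ dist y c → A y = 0 := fun y hy => hA y (hr.le.trans hy)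
  have hAX : ∀ y, ρ ≤ dist y c → A y * X y = 0 := fun y hy => by rw [hAρ y hy, zero_mul]
  by_cases hx : ∃ g ∈ P, dist (g x) c < ρ
  · obtain ⟨g, hg, hgx⟩ := hx
    obtain ⟨q, hq, k, hqk⟩ := hR1 g hg
    -- the left side
    have hl : sym P (fun y => A y * X y) x = A (g x) * X (g x) := by
      rw [← sym_at hP hs hAX hgx, sym_inv hP _ g hg x]
    -- the term of q
    have hpl : PI (lat (n + n)) (sym (lat (n + n)) A) := sym_inv (CfN_lat n) A
    have h1 : sym (lat (n + n)) A (q x) * X (q x) = A (g x) * X (g x) := by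
      have e1 : sym (lat (n + n)) A (g x) = sym (lat (n + n)) A (q x) := by
        rw [hqk x]
        exact hpl (fun y => y + iv k) ⟨k, rfl⟩ (q x)
      have e2 : X (g x) = X (q x) := by rw [hqk x, hX]
      rw [← e1, ← e2, sym_at (CfN_lat n) hsl hAρ hgx]
    rw [hl, ← h1]
    symm
    refine Finset.sum_eq_single q (fun q' hq' hne => ?_) fun h => absurd hq h
    have h2 : sym (lat (n + n)) A (q' x) = 0 := by
      refine sym_out (c := c) (r := ρ) hAρ ?_
      rintro ⟨u, ⟨l, rfl⟩, hu⟩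
      -- both maps bring x into the ball
      obtain ⟨h, hh, hh1, hh2⟩ := dk_inv hP hg
      have hq'P : (fun y => q' y + iv l) ∈ P := hP.deck.mul _ (hP.deck.trans l) _ (hR q' hq')
      have hcomp : (fun y => q' y + iv l) ∘ h ∈ P := hP.deck.mul _ hq'P _ hh
      by_cases hid : (fun y => q' y + iv l) ∘ h = id
      · apply hne
        refine hR2 q' hq' q hq (k - l) fun y => ?_
        have h3 : q' y + iv l = g y := by
          have h4 := congrFun hid (g y)
          simp only [Function.comp, hh1, id] at h4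
          exact h4
        have h5 : q' y = g y - iv l := by rw [← h3]; abel
        have h6 : (iv (k - l) : Eu (n + n)) = iv k - iv l := by
          ext j
          simp [iv]
        rw [h5, hqk y, h6]
        abel
      · have h7 := hs.2 _ hcomp hid (g x) hgx
        apply h7
        simp only [Function.comp, hh1]
        exact hu
    rw [h2, zero_mul]
  · have hl : sym P (fun y => A y * X y) x = 0 := by
      refine sym_out (c := c) (r := ρ) hAX ?_
      rintro ⟨g, hg, h⟩
      exact hx ⟨g, hg, h⟩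
    rw [hl]
    symm
    refine Finset.sum_eq_zero fun q hq => ?_
    have h2 : sym (lat (n + n)) A (q x) = 0 := by
      refine sym_out (c := c) (r := ρ) hAρ ?_
      rintro ⟨u, ⟨l, rfl⟩, hu⟩
      exact hx ⟨fun y => q y + iv l, hP.deck.mul _ (hP.deck.trans l) _ (hR q hq), hu⟩
    rw [h2, zero_mul]

/-- an element of the deck group is smooth with constant differential -/
theorem CfN_aff (hP : SpDeck P) {g : Eu (n + n) → Eu (n + n)} (hg : g ∈ P) :
    ContDiff ℝ ∞ g ∧ ∃ L : Eu (n + n) →L[ℝ] Eu (n + n), (∀ x, fderiv ℝ g x = L) ∧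
      ∀ v w, om (L v) (L w) = om v w := by
  obtain ⟨L, hL, hom⟩ := dk_aff hP hg
  have e : g = fun x => g 0 + L x := by
    funext x
    have := hL 0 x
    rwa [zero_add] at this
  have hs : ContDiff ℝ ∞ g := by
    rw [e]
    exact contDiff_const.add L.contDiff
  refine ⟨hs, L, fun x => ?_, hom⟩
  rw [e]
  exact (L.hasFDerivAt.const_add (g 0)).fderiv

theorem cf_w (hn : 0 < n) (hP : SpDeck P) {p : ℝ} (hp : (n : ℝ) < p) :
    CF P (fun G => wspP (-1 + n / p) p (sgr G)) := by
  have hn1 : (1 : ℝ) ≤ n := by exact_mod_cast hn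
  have hp1 : 1 < p := by linarith
  have hp0 : 0 < p := by linarith
  have hnp : (n : ℝ) / p < 1 := (div_lt_one hp0).2 hp
  have hnp0 : 0 < (n : ℝ) / p := by positivity
  have hs0 : -1 + (n : ℝ) / p < 0 := by linarith
  have hs : -1 < -1 + (n : ℝ) / p := by linarith
  obtain ⟨C₁, hC₁, hint⟩ := interp_w (n := n) hp1 hs0
  have hσ : max (-1 + (n : ℝ) / p + 1) 0 = n / p := by
    rw [max_eq_left (by linarith)]
    ring
  rw [hσ] at hint
  have hEE : ∀ G : Eu (n + n) → ℝ, ContDiff ℝ ∞ G → PI P G →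
      wspP (-1 + n / p) p (sgr G) ≤ ENNReal.ofReal C₁ * EE p (n / p) G := fun G hG hGP =>
    hint G (sgr G) hG (pi_per hP hGP) (CfN_c hG) (CfN_d hG)
  refine ⟨fun c G hG => ?_, fun H hH => ?_, fun φ hφ _ => ?_, ⟨C₁, hC₁, fun G hG hGP a ha h1 h2 => ?_⟩,
    fun B ε hε => ?_, fun c ρ r hsep hr M hM B ε hε => ?_⟩
  · -- smul
    rw [CfN_sgr_smul hG, CfN_smul hs0]
  · -- meas
    unfold wspP
    simp only [if_neg (not_le.2 hs0)]
    refine LowerSemicontinuous.measurable ?_
    refine lowerSemicontinuous_iSup fun v => lowerSemicontinuous_iSup fun hv => ?_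
    exact (ENNReal.continuous_ofReal.comp
      (continuous_abs.comp (CfN_pair hH hv.1.continuous))).lowerSemicontinuous
  · -- comp
    have hsp := spp_sp hP hφ
    have hinv := spp_inv hP hφ
    have hspi := spp_sp hP hinv
    obtain ⟨K₁, -, h1⟩ := path_bd hsp
    obtain ⟨K₂, -, h2⟩ := path_bd hspi
    obtain ⟨K₃, -, h3⟩ := CfN_lip hsp
    obtain ⟨C, hC, hpush⟩ := push_w (n := n) hs hs0 hp1 (max K₁ (max K₂ K₃))
    refine ⟨C, hC, fun t ht G hG hGP => ?_⟩
    refine hpush (φ t) (Function.invFun (φ t))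
      (hφ.path.smooth.comp (contDiff_const.prodMk contDiff_id))
      (hinv.path.smooth.comp (contDiff_const.prodMk contDiff_id))
      (fun x => Function.leftInverse_invFun (hφ.path.bij t).1 x)
      (fun x => Function.rightInverse_invFun (hφ.path.bij t).2 x) (hφ.symp t)
      (fun k => ⟨k, fun x => hφ.path.equi t _ (hP.deck.trans k) x⟩)
      (fun k => ⟨k, fun x => hinv.path.equi t _ (hP.deck.trans k) x⟩)
      (fun x => (h1 t ht x).trans (le_max_left _ _))
      (fun x => (h2 t ht x).trans ((le_max_left _ _).trans (le_max_right _ _)))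
      (fun x y => (h3 t ht x y).trans ?_) G hG (pi_per hP hGP)
    gcongr
    exact (le_max_right _ _).trans (le_max_right _ _)
  · -- small
    calc wspP (-1 + n / p) p (sgr G) ≤ ENNReal.ofReal C₁ * EE p (n / p) G := hEE G hG hGP
      _ ≤ ENNReal.ofReal C₁ * ENNReal.ofReal a := by
          gcongr
          exact EE_small hp1 hnp0.le hnp ha h1 h2
      _ = ENNReal.ofReal (C₁ * a) := (ENNReal.ofReal_mul hC₁).symm
  · -- weak
    set B' := max B 0 with hB'
    have hB0 : 0 ≤ B' := le_max_right _ _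
    set D := C₁ * B' ^ ((n : ℝ) / p) + 1 with hD
    have hD0 : 0 < D := by positivity
    have h1σ : 0 < 1 - (n : ℝ) / p := by linarith
    refine ⟨(ε / D) ^ (1 / (1 - (n : ℝ) / p)), by positivity, fun G hG hGP h1 h2 => ?_⟩
    have hδ : ((ε / D) ^ (1 / (1 - (n : ℝ) / p))) ^ (1 - (n : ℝ) / p) = ε / D := by
      rw [← Real.rpow_mul (by positivity), one_div_mul_cancel h1σ.ne', Real.rpow_one]
    have h3 := EE_supp (n := n) hp1 hnp0.le hnp (a := (ε / D) ^ (1 / (1 - (n : ℝ) / p))) (b := B')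
      (μ := 1) (by positivity) hB0 zero_le_one MeasurableSet.univ h1
      (fun x => (h2 x).trans (le_max_left _ _)) (fun x hx => absurd (mem_univ x) hx)
      (by rw [univ_inter, WPosA.cube_vol, ENNReal.ofReal_one])
    rw [Real.one_rpow, mul_one, hδ] at h3
    calc wspP (-1 + n / p) p (sgr G) ≤ ENNReal.ofReal C₁ * EE p (n / p) G := hEE G hG hGP
      _ ≤ ENNReal.ofReal C₁ * ENNReal.ofReal (ε / D * B' ^ ((n : ℝ) / p)) := by gcongr
      _ = ENNReal.ofReal (C₁ * (ε / D * B' ^ ((n : ℝ) / p))) := (ENNReal.ofReal_mul hC₁).symm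
      _ ≤ ENNReal.ofReal ε := by
          refine ENNReal.ofReal_le_ofReal ?_
          have h4 : C₁ * (ε / D * B' ^ ((n : ℝ) / p)) = ε * (C₁ * B' ^ ((n : ℝ) / p)) / D := by
            field_simp
          rw [h4, div_le_iff₀ hD0]
          have h5 : C₁ * B' ^ ((n : ℝ) / p) ≤ D := by rw [hD]; linarith
          exact mul_le_mul_of_nonneg_left h5 hε.le
  · -- cap
    obtain ⟨R, hR, hR1, hR2⟩ := dk_fin hP
    obtain ⟨L₀, hL₀, hsb⟩ := sym_bd (CfN_lat n)
    -- a common bound for the linear parts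
    have hbd : ∃ K : ℝ, ∀ q ∈ R, ∀ x, ‖fderiv ℝ q x‖ ≤ K := by
      refine ⟨∑ q ∈ R, ‖fderiv ℝ q 0‖, fun q hq x => ?_⟩
      obtain ⟨-, L, hL, -⟩ := CfN_aff hP (hR q hq)
      have h1 : fderiv ℝ q x = fderiv ℝ q 0 := by rw [hL, hL]
      rw [h1]
      exact Finset.single_le_sum (f := fun q => ‖fderiv ℝ q 0‖) (fun _ _ => norm_nonneg _) hq
    obtain ⟨K₁, hK₁⟩ := hbd
    choose! h hh hh1 hh2 using fun q (hq : q ∈ P) => dk_inv hP hq
    have hbd2 : ∃ K : ℝ, ∀ q ∈ R, ∀ x, ‖fderiv ℝ (h q) x‖ ≤ K := by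
      refine ⟨∑ q ∈ R, ‖fderiv ℝ (h q) 0‖, fun q hq x => ?_⟩
      obtain ⟨-, L, hL, -⟩ := CfN_aff hP (hh q (hR q hq))
      have h1 : fderiv ℝ (h q) x = fderiv ℝ (h q) 0 := by rw [hL, hL]
      rw [h1]
      exact Finset.single_le_sum (f := fun q => ‖fderiv ℝ (h q) 0‖) (fun _ _ => norm_nonneg _) hq
    obtain ⟨K₂, hK₂⟩ := hbd2
    obtain ⟨C, hC, hpush⟩ := push_w (n := n) hs hs0 hp1 (max 0 (max K₁ K₂))
    set B' := max B 0 with hB'
    have hB0 : 0 ≤ B' := le_max_right _ _
    have hcard : 0 < (R.card : ℝ) * C + 1 := by positivity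
    obtain ⟨η₀, hη₀, hcap⟩ := cap_t hn hp M hM (L₀ * B') (ε / ((R.card : ℝ) * C + 1))
      (by positivity)
    refine ⟨η₀, hη₀, fun η hη hηl => ?_⟩
    obtain ⟨X, hXs, hXp, hX1, hXA⟩ := hcap η hη hηl
    refine ⟨X, hXs, hX1, fun A hA hAs hAB hAD => ?_⟩
    have hsub : lat (n + n) ⊆ P := by
      rintro g ⟨k, rfl⟩
      exact hP.deck.trans k
    have hsl : SepP (lat (n + n)) c ρ := ⟨hsep.1, fun g hg => hsep.2 g (hsub hg)⟩
    set Al := sym (lat (n + n)) A with hAl
    have hAls : ContDiff ℝ ∞ Al := by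
      have h1 := sym_smooth (CfN_lat n) hsl hr (E := ℝ) (u := fun _ => A)
        (hA.comp contDiff_snd) (fun _ x hx => hAs x hx)
      exact h1.comp (contDiff_const (c := (0 : ℝ)).prodMk contDiff_id)
    have hAlp : Per Al := fun x k => sym_inv (CfN_lat n) A _ ⟨k, rfl⟩ x
    obtain ⟨hb1, hb2⟩ := hsb c ρ r hsl hr A hA hAs B' B' hB0 hB0
      (fun x => (hAB x).trans (le_max_left _ _)) (fun x => (hAD x).trans (le_max_left _ _))
    have hb1' : ∀ x, |Al x| ≤ L₀ * B' := fun x =>
      (hb1 x).trans (le_mul_of_one_le_left hB0 hL₀)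
    have key := hXA Al hAls hAlp hb1' hb2
    have hAXs : ContDiff ℝ ∞ fun x => Al x * X x := hAls.mul hXs
    have hAXp : Per fun x => Al x * X x := fun x k => by
      change Al (x + iv k) * X (x + iv k) = Al x * X x
      rw [hAlp, hXp]
    have hdec : (sym P fun x => A x * X x) = fun x => ∑ q ∈ R, (fun y => Al y * X y) (q x) := by
      funext x
      exact CfN_dec hP hsep hr hR hR1 hR2 hAs hXp x
    have hqs : ∀ q ∈ R, ContDiff ℝ ∞ fun x => (fun y => Al y * X y) (q x) := fun q hq =>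
      hAXs.comp (CfN_aff hP (hR q hq)).1
    rw [hdec, CfN_sgr_sum R hqs]
    calc wspP (-1 + n / p) p (fun x => ∑ q ∈ R, sgr (fun x => (fun y => Al y * X y) (q x)) x)
        ≤ ∑ q ∈ R, wspP (-1 + n / p) p (sgr (fun x => (fun y => Al y * X y) (q x))) :=
          CfN_sum hs0 R fun q hq => CfN_c (hqs q hq)
      _ ≤ ∑ q ∈ R, ENNReal.ofReal C * ENNReal.ofReal (ε / ((R.card : ℝ) * C + 1)) := by
          refine Finset.sum_le_sum fun q hq => ?_
          obtain ⟨hqc, L, hL, hom⟩ := CfN_aff hP (hR q hq)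
          obtain ⟨hqc', L', hL', hom'⟩ := CfN_aff hP (hh q (hR q hq))
          refine (hpush q (h q) hqc hqc' (hh1 q (hR q hq)) (hh2 q (hR q hq))
            (fun x v w => by rw [hL]; exact hom v w)
            (fun k => dk_iv hP (hR q hq) k) (fun k => dk_iv hP (hh q (hR q hq)) k)
            (fun x => (hK₁ q hq x).trans ((le_max_left _ _).trans (le_max_right _ _)))
            (fun x => (hK₂ q hq x).trans ((le_max_right _ _).trans (le_max_right _ _)))
            (fun x y => by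
              rw [hL, hL, sub_self, norm_zero]
              exact mul_nonneg (le_max_left _ _) (norm_nonneg _))
            (fun y => Al y * X y) hAXs hAXp).trans ?_
          gcongr
      _ = ENNReal.ofReal ((R.card : ℝ) * (C * (ε / ((R.card : ℝ) * C + 1)))) := by
          rw [Finset.sum_const, nsmul_eq_mul, ENNReal.ofReal_mul (Nat.cast_nonneg _),
            ENNReal.ofReal_mul (p := C) (by linarith), ENNReal.ofReal_natCast]
      _ ≤ ENNReal.ofReal ε := by
          refine ENNReal.ofReal_le_ofReal ?_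
          have h4 : (R.card : ℝ) * (C * (ε / ((R.card : ℝ) * C + 1))) =
              ε * ((R.card : ℝ) * C) / ((R.card : ℝ) * C + 1) := by
            field_simp
          rw [h4, div_le_iff₀ hcard]
          exact mul_le_mul_of_nonneg_left (by linarith) hε.le

end

end FS
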