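import Pool.Agent.FS.Defs
import Pool.Agent.FS.Sym
import Pool.Agent.SVT.Hp
import Pool.Agent.H68.VD.Tr

/-! # Project FS (MP_b0bf68_gt), row FS-4: calculus of Hamiltonian paths -/

set_option autoImplicit false
set_option linter.all false

open MeasureTheory Set Pool.Agent.H68.VD TN SVT
open scoped ENNReal ContDiff

namespace FS

noncomputable section

variable {n : ℕ} {P : Set (Eu (n + n) → Eu (n + n))}

/-! ### the deck group -/

private theorem fs4_lat (hP : SpDeck P) {g : Eu (n + n) → Eu (n + n)} (hg : g ∈ lat (n + n)) :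
    g ∈ P := by
  obtain ⟨k, rfl⟩ := hg
  exact hP.deck.trans k

private theorem fs4_per (hP : SpDeck P) {G : Eu (n + n) → ℝ} (hG : PI P G) : Per G :=
  fun x k => hG _ (hP.deck.trans k) x

private theorem fs4_sp (hP : SpDeck P) {φ : ℝ → Eu (n + n) → Eu (n + n)} (h : SPathP P φ) :
    SPath φ :=
  ⟨⟨h.path.smooth, h.path.bij, h.path.det, fun t g hg x => h.path.equi t g (fs4_lat hP hg) x⟩,
    h.symp⟩

private theorem fs4_sg (hP : SpDeck P) {f : Eu (n + n) → Eu (n + n)} (hf : SGP P f) : SG f := by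
  obtain ⟨φ, h, h0, h1⟩ := hf
  exact ⟨φ, fs4_sp hP h, h0, h1⟩

private theorem fs4_bij {f : Eu (n + n) → Eu (n + n)} (hf : SGP P f) : Function.Bijective f := by
  obtain ⟨φ, h, h0, h1⟩ := hf
  rw [← h1]
  exact h.path.bij 1

private theorem fs4_equi {f : Eu (n + n) → Eu (n + n)} (hf : SGP P f)
    {g : Eu (n + n) → Eu (n + n)} (hg : g ∈ P) (x : Eu (n + n)) : f (g x) = g (f x) := by
  obtain ⟨φ, h, h0, h1⟩ := hf
  rw [← h1]
  exact h.path.equi 1 g hg x

/-- the inverse of an equivariant bijection is equivariant -/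
private theorem fs4_einv {f g : Eu (n + n) → Eu (n + n)} (hb : Function.Bijective f)
    (he : ∀ x, f (g x) = g (f x)) (x : Eu (n + n)) :
    Function.invFun f (g x) = g (Function.invFun f x) := by
  apply hb.1
  rw [Function.rightInverse_invFun hb.2, he, Function.rightInverse_invFun hb.2]

/-! ### the calculus -/

theorem HPP.path {φ : ℝ → Eu (n + n) → Eu (n + n)} {H : ℝ → Eu (n + n) → ℝ} (h : HPP P φ H) :
    SPathP P φ :=
  ⟨⟨h.hp.sp.path.smooth, h.hp.sp.path.bij, h.hp.sp.path.det, h.equi⟩, h.hp.sp.symp⟩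

theorem HPP.inverse {φ : ℝ → Eu (n + n) → Eu (n + n)} {H : ℝ → Eu (n + n) → ℝ} (h : HPP P φ H) :
    HPP P (fun t => Function.invFun (φ t)) (fun t x => -H t (φ t x)) := by
  refine ⟨h.hp.inv, fun t g hg x => ?_, fun t g hg x => ?_⟩
  · exact fs4_einv (h.hp.sp.path.bij t) (h.equi t g hg) x
  · show -H t (φ t (g x)) = -H t (φ t x)
    rw [h.equi t g hg, h.inv t g hg]

theorem HPP.comp {φ ψ : ℝ → Eu (n + n) → Eu (n + n)} {H K : ℝ → Eu (n + n) → ℝ} (h : HPP P φ H)
    (k : HPP P ψ K) :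
    HPP P (fun t x => φ t (ψ t x)) (fun t x => H t x + K t (Function.invFun (φ t) x)) := by
  refine ⟨h.hp.comp k.hp, fun t g hg x => ?_, fun t g hg x => ?_⟩
  · show φ t (ψ t (g x)) = g (φ t (ψ t x))
    rw [k.equi t g hg, h.equi t g hg]
  · show H t (g x) + K t (Function.invFun (φ t) (g x)) = H t x + K t (Function.invFun (φ t) x)
    rw [h.inv t g hg, fs4_einv (h.hp.sp.path.bij t) (h.equi t g hg), k.inv t g hg]

theorem HPP.time {φ : ℝ → Eu (n + n) → Eu (n + n)} {H : ℝ → Eu (n + n) → ℝ} (h : HPP P φ H)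
    {τ : ℝ → ℝ} (hτ : ContDiff ℝ ∞ τ) :
    HPP P (fun t => φ (τ t)) (fun t x => deriv τ t * H (τ t) x) := by
  refine ⟨h.hp.time hτ, fun t g hg x => h.equi (τ t) g hg x, fun t g hg x => ?_⟩
  show deriv τ t * H (τ t) (g x) = deriv τ t * H (τ t) x
  rw [h.inv (τ t) g hg]

theorem HPP.addc {φ : ℝ → Eu (n + n) → Eu (n + n)} {H : ℝ → Eu (n + n) → ℝ} (h : HPP P φ H)
    {c : ℝ → ℝ} (hc : ContDiff ℝ ∞ c) : HPP P φ (fun t x => H t x + c t) := by
  refine ⟨h.hp.addc hc, h.equi, fun t g hg x => ?_⟩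
  show H t (g x) + c t = H t x + c t
  rw [h.inv t g hg]

theorem HPP.cst (hP : SpDeck P) {f : Eu (n + n) → Eu (n + n)} (hf : SGP P f) :
    HPP P (fun _ => f) (fun _ _ => 0) :=
  ⟨HP.cst (fs4_sg hP hf), fun t g hg x => fs4_equi hf hg x, fun t g hg x => rfl⟩

theorem HPP.left (hP : SpDeck P) {φ : ℝ → Eu (n + n) → Eu (n + n)} {H : ℝ → Eu (n + n) → ℝ}
    (h : HPP P φ H) {f : Eu (n + n) → Eu (n + n)} (hf : SGP P f) :
    HPP P (fun t x => f (φ t (Function.invFun f x))) (fun t x => H t (Function.invFun f x)) := by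
  refine ⟨h.hp.left (fs4_sg hP hf), fun t g hg x => ?_, fun t g hg x => ?_⟩
  · show f (φ t (Function.invFun f (g x))) = g (f (φ t (Function.invFun f x)))
    rw [fs4_einv (fs4_bij hf) (fs4_equi hf hg), h.equi t g hg, fs4_equi hf hg]
  · show H t (Function.invFun f (g x)) = H t (Function.invFun f x)
    rw [fs4_einv (fs4_bij hf) (fs4_equi hf hg), h.inv t g hg]

theorem HPP.sgp {φ : ℝ → Eu (n + n) → Eu (n + n)} {H : ℝ → Eu (n + n) → ℝ} (h : HPP P φ H)
    (h0 : φ 0 = id) (t : ℝ) : SGP P (φ t) := by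
  refine ⟨fun s => φ (s * t), (h.time (contDiff_id.mul contDiff_const)).path, ?_, ?_⟩
  · show φ (0 * t) = id
    rw [zero_mul, h0]
  · show φ (1 * t) = φ t
    rw [one_mul]

/-! ### existence -/

private theorem fs4_om_ext {a b : Eu (n + n)} (h : ∀ w, om a w = om b w) : a = b := by
  have h1 : Jm a = Jm b := by
    refine ext_inner_right ℝ fun v => ?_
    rw [← om_J, ← om_J]
    exact h v
  have h2 : Jm (a - b) = 0 := by
    have h3 : Jm (a - b) = Jm a - Jm b := map_sub (JL n) a b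
    rw [h3, h1, sub_self]
  have h3 := norm_Jm (a - b)
  rw [h2, norm_zero] at h3
  exact sub_eq_zero.1 (norm_eq_zero.1 h3.symm)

/-- the field of an invariant Hamiltonian is invariant -/
private theorem fs4_vel (hP : SpDeck P) {φ : ℝ → Eu (n + n) → Eu (n + n)}
    {H : ℝ → Eu (n + n) → ℝ} (h : HP φ H) {a : Eu (n + n) ≃ᵃ[ℝ] Eu (n + n)}
    (ha : (a : Eu (n + n) → Eu (n + n)) ∈ P) (t : ℝ) (hI : ∀ x, H t (a x) = H t x)
    (y : Eu (n + n)) : vel φ t (a y) = ExtKA.L a (vel φ t y) := by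
  have hL : ∀ x v, a (x + v) - a x = ExtKA.L a v := by
    intro x v
    rw [TrA.add_map a x v, ExtKA.L_ap]
    abel
  have hsy : ∀ v w, om (ExtKA.L a v) (ExtKA.L a w) = om v w := by
    intro v w
    have := hP.symp _ ha 0 v w
    rw [hL, hL] at this
    exact this
  have h1 : HasFDerivAt (fun x => H t (a x)) ((innerSL ℝ (Jm (vel φ t (a y)))).comp (ExtKA.L a)) y :=
    (h.Hd t (a y)).comp y (ExtKA.hasFDeriv a y)
  have h2 : (fun x => H t (a x)) = H t := funext hI
  rw [h2] at h1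
  have h3 := h1.unique (h.Hd t y)
  refine fs4_om_ext fun z => ?_
  obtain ⟨w, hw⟩ : ∃ w, ExtKA.L a w = z := by
    obtain ⟨w, hw⟩ := a.surjective (a 0 + z)
    refine ⟨w, ?_⟩
    have := hL 0 w
    rw [zero_add, hw] at this
    rw [← this]
    abel
  have h4 := congrArg (fun D : Eu (n + n) →L[ℝ] ℝ => D w) h3
  have h5 : (inner ℝ (Jm (vel φ t (a y))) (ExtKA.L a w) : ℝ) = inner ℝ (Jm (vel φ t y)) w := h4
  rw [← hw, om_J, h5, hsy, om_J]

theorem exists_hpp (hP : SpDeck P) {H : ℝ → Eu (n + n) → ℝ}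
    (hH : ContDiff ℝ ∞ (fun z : ℝ × Eu (n + n) => H z.1 z.2)) (hI : ∀ t, PI P (H t)) :
    ∃ φ : ℝ → Eu (n + n) → Eu (n + n), HPP P φ H ∧ φ 0 = id := by
  obtain ⟨φ, h, h0⟩ := exists_hp hH fun t => fs4_per hP (hI t)
  refine ⟨φ, ⟨h, fun t g hg x => ?_, hI⟩, h0⟩
  obtain ⟨a, rfl⟩ := TrA.exists_aff hP.deck hg
  refine h.orbit (T := |t| + 1) (γ := fun s => a (φ s x))
    (γ' := fun s => ExtKA.L a (vel φ s (φ s x))) ?_ (fun s _ => ?_) (fun s _ => ?_) t ⟨?_, ?_⟩
  · show φ 0 (a x) = a (φ 0 x)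
    rw [h0]
    rfl
  · exact (ExtKA.hasFDeriv a (φ s x)).comp_hasDerivAt s (vel_eq h.sp s x)
  · have h1 := h.Hd s (a (φ s x))
    rw [fs4_vel hP h hg s (hI s _ hg) (φ s x)] at h1
    exact h1
  · have := neg_abs_le t
    linarith
  · have := le_abs_self t
    linarith

/-! ### the support -/

/-- a function which vanishes on a half space near a point has derivative zero there -/
private theorem fs4_zero {G : Eu (n + n) → ℝ} {D : Eu (n + n) →L[ℝ] ℝ} {x : Eu (n + n)}
    (h : HasFDerivAt G D x) {v : Eu (n + n)}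
    (h0 : ∀ᶠ s in nhdsWithin (0 : ℝ) (Ici 0), G (x + s • v) = 0) : D v = 0 := by
  have h1 : HasDerivAt (fun s : ℝ => x + s • v) v 0 := by
    have := ((hasDerivAt_id (0 : ℝ)).smul_const v).const_add x
    simpa using this
  have hx : x + (0 : ℝ) • v = x := by rw [zero_smul, add_zero]
  have h2 : HasFDerivAt G D (x + (0 : ℝ) • v) := by rw [hx]; exact h
  have h3 : HasDerivAt (fun s : ℝ => G (x + s • v)) (D v) 0 :=
    h2.comp_hasDerivAt (0 : ℝ) h1
  have h4 : HasDerivWithinAt (fun s : ℝ => G (x + s • v)) 0 (Ici 0) 0 := by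
    refine (hasDerivWithinAt_const (0 : ℝ) (Ici 0) (0 : ℝ)).congr_of_eventuallyEq h0 ?_
    exact h0.self_of_nhdsWithin (mem_Ici.2 le_rfl)
  exact (uniqueDiffWithinAt_Ici (0 : ℝ)).eq_deriv _ h3.hasDerivWithinAt h4

/-- the points near `a⁻¹ c` which are in the orbit of the ball -/
private theorem fs4_orb (hP : SpDeck P) {c : Eu (n + n)} {ρ r : ℝ} (hs : SepP P c ρ) (hr : r < ρ)
    {a : Eu (n + n) ≃ᵃ[ℝ] Eu (n + n)} (ha : (a : Eu (n + n) → Eu (n + n)) ∈ P)
    {y : Eu (n + n)} (hy : dist (a y) c < ρ) (hy2 : r ≤ dist (a y) c) : y ∉ orb P c r := by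
  rintro ⟨g, hg, hgy⟩
  obtain ⟨k, hk, h1, h2⟩ := hP.deck.inv _ ha
  have h3 : k (a y) = y := congrFun h2 y
  by_cases he : g ∘ k = id
  · have h4 : g y = a y := by
      have := congrFun he (a y)
      simpa [Function.comp, h3] using this
    rw [h4] at hgy
    exact absurd hgy (not_lt.2 hy2)
  · refine hs.2 (g ∘ k) (hP.deck.mul _ hg _ hk) he (a y) hy ?_
    show dist (g (k (a y))) c < ρ
    rw [h3]
    exact hgy.trans hr

/-- a Hamiltonian zero off the orbit of a ball: the flow is the identity there -/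
theorem HPP.fix {φ : ℝ → Eu (n + n) → Eu (n + n)} {H : ℝ → Eu (n + n) → ℝ} (h : HPP P φ H)
    (hP : SpDeck P) (h0 : φ 0 = id) {c : Eu (n + n)} {ρ r : ℝ} (hs : SepP P c ρ) (hr : r < ρ)
    (hH : ∀ t x, x ∉ orb P c r → H t x = 0) : ∀ t x, x ∉ orb P c r → φ t x = x := by
  intro t x hx
  have key : ∀ s, HasFDerivAt (H s) (0 : Eu (n + n) →L[ℝ] ℝ) x := by
    intro s
    have hD := h.hp.Hd s x
    suffices hz : (innerSL ℝ (Jm (vel φ s x)) : Eu (n + n) →L[ℝ] ℝ) = 0 by
      rw [hz] at hD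
      exact hD
    rcases symA_cases hP c hr x with ⟨a, ha, hax⟩ | ⟨U, hU, hxU, hU'⟩
    · have ha' : (a : Eu (n + n) → Eu (n + n)) ∈ P := (TrA.mem_sub hP.deck a).1 ha
      have hrx : r ≤ dist (a x) c := not_lt.1 fun hlt => hx ⟨a, ha', hlt⟩
      have half : ∀ v : Eu (n + n), 0 ≤ (inner ℝ (a x - c) (ExtKA.L a v) : ℝ) →
          (innerSL ℝ (Jm (vel φ s x)) : Eu (n + n) →L[ℝ] ℝ) v = 0 := by
        intro v hv
        refine fs4_zero hD ?_
        have hopen : ∀ᶠ q in nhds (0 : ℝ), dist (a (x + q • v)) c < ρ := by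
          have hc : Continuous fun q : ℝ => dist (a (x + q • v)) c :=
            ((ExtKA.cont a).comp (by fun_prop)).dist continuous_const
          refine hc.continuousAt.eventually_lt continuousAt_const ?_
          rw [zero_smul, add_zero]
          exact hax
        filter_upwards [nhdsWithin_le_nhds hopen, self_mem_nhdsWithin] with q hq hq0
        refine hH s _ (fs4_orb hP hs hr ha' hq (hrx.trans ?_))
        have e1 : a (x + q • v) - c = (a x - c) + q • ExtKA.L a v := by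
          rw [TrA.add_map a x, ← ExtKA.L_ap, map_smul]
          abel
        rw [dist_eq_norm, dist_eq_norm, e1]
        refine le_of_sq_le_sq ?_ (norm_nonneg _)
        rw [norm_add_sq_real, real_inner_smul_right]
        have h6 : 0 ≤ q * (inner ℝ (a x - c) (ExtKA.L a v) : ℝ) := mul_nonneg hq0 hv
        nlinarith [sq_nonneg ‖q • ExtKA.L a v‖]
      ext v
      rcases le_total 0 (inner ℝ (a x - c) (ExtKA.L a v) : ℝ) with hv | hv
      · exact half v hv
      · have h7 := half (-v) (by rw [map_neg, inner_neg_right]; linarith)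
        rw [map_neg, neg_eq_zero] at h7
        exact h7
    · have h1 : HasFDerivAt (H s) (0 : Eu (n + n) →L[ℝ] ℝ) x := by
        refine (hasFDerivAt_const (0 : ℝ) x).congr_of_eventuallyEq ?_
        filter_upwards [hU.mem_nhds hxU] with y hy
        exact hH s y (hU' y hy)
      exact hD.unique h1
  have hz0 : (innerSL ℝ (Jm (0 : Eu (n + n))) : Eu (n + n) →L[ℝ] ℝ) = 0 := by
    have : Jm (0 : Eu (n + n)) = 0 := map_zero (JL n)
    rw [this, map_zero]
  refine h.hp.orbit (T := |t| + 1) (γ := fun _ => x) (γ' := fun _ => 0) ?_ (fun s _ => ?_)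
    (fun s _ => ?_) t ⟨?_, ?_⟩
  · show φ 0 x = x
    rw [h0]
    rfl
  · exact hasDerivAt_const s x
  · rw [hz0]
    exact key s
  · have := neg_abs_le t
    linarith
  · have := le_abs_self t
    linarith

end

end FS
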