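import Pool.Agent.FS.Defs
import Pool.Agent.FS.Sgp
import Pool.Agent.FS.Sym
import Pool.Agent.FS.Hpp
import Pool.Agent.SVT.Sg
import Pool.Agent.SVT.Hp

/-!
# FS-8: neighbourhoods of the grid are cheap to move (MP_b0bf68_gt)
-/

set_option autoImplicit false
set_option linter.all false

open MeasureTheory Set Pool.Agent.H68.VD TN SVT
open scoped ENNReal ContDiff

namespace FS

noncomputable section

variable {n : ℕ} {P : Set (Eu (n + n) → Eu (n + n))}

/-- points of the orbit of the small ball in the large ball -/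
theorem CutP_orb {c : Eu (n + n)} {ρ r : ℝ} (hs : SepP P c ρ) (hr : r < ρ) {x : Eu (n + n)}
    (hx : dist x c < ρ) (hxr : r ≤ dist x c) : x ∉ orb P c r := by
  rintro ⟨g, hg, hgx⟩
  by_cases h : g = id
  · rw [h] at hgx
    exact absurd hgx (not_lt.2 hxr)
  · exact hs.2 g hg h x hx (hgx.trans hr)

/-- continuity of the derivative in the space variable -/
theorem CutP_fd {g : ℝ → Eu (n + n) → ℝ} (hg : ContDiff ℝ ∞ (fun z : ℝ × Eu (n + n) => g z.1 z.2)) :
    Continuous (fun z : ℝ × Eu (n + n) => fderiv ℝ (g z.1) z.2) := by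
  have h1 : (fun z : ℝ × Eu (n + n) => fderiv ℝ (g z.1) z.2) = fun z : ℝ × Eu (n + n) =>
      (fderiv ℝ (fun z : ℝ × Eu (n + n) => g z.1 z.2) z).comp
        (ContinuousLinearMap.inr ℝ ℝ (Eu (n + n))) := by
    funext z
    have h2 : HasFDerivAt (fun x : Eu (n + n) => ((z.1, x) : ℝ × Eu (n + n)))
        (ContinuousLinearMap.inr ℝ ℝ (Eu (n + n))) z.2 := hasFDerivAt_prodMk_right z.1 z.2
    have h3 : HasFDerivAt (fun z : ℝ × Eu (n + n) => g z.1 z.2)
        (fderiv ℝ (fun z : ℝ × Eu (n + n) => g z.1 z.2) (z.1, z.2)) (z.1, z.2) :=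
      (hg.differentiable (by simp) _).hasFDerivAt
    exact (h3.comp z.2 h2).fderiv
  rw [h1]
  exact (hg.continuous_fderiv (by simp)).clm_comp continuous_const

/-- bounds of a smooth family with supports in one ball -/
theorem CutP_bd {c : Eu (n + n)} {r : ℝ} {g : ℝ → Eu (n + n) → ℝ}
    (hg : ContDiff ℝ ∞ (fun z : ℝ × Eu (n + n) => g z.1 z.2))
    (h0 : ∀ t x, r ≤ dist x c → g t x = 0) :
    ∃ B : ℝ, 0 ≤ B ∧ ∀ t ∈ Icc (0 : ℝ) 1, ∀ x, |g t x| ≤ B ∧ ‖fderiv ℝ (g t) x‖ ≤ B := by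
  have hK : IsCompact (Icc (0 : ℝ) 1 ×ˢ Metric.closedBall c r) :=
    isCompact_Icc.prod (isCompact_closedBall c r)
  obtain ⟨B₁, hB₁⟩ := hK.exists_bound_of_continuousOn hg.continuous.continuousOn
  obtain ⟨B₂, hB₂⟩ := hK.exists_bound_of_continuousOn (CutP_fd hg).continuousOn
  refine ⟨max (max B₁ B₂) 0, le_max_right _ _, fun t ht x => ?_⟩
  by_cases hx : dist x c ≤ r
  · have h1 := hB₁ (t, x) ⟨ht, hx⟩
    have h2 := hB₂ (t, x) ⟨ht, hx⟩
    refine ⟨?_, ?_⟩
    · rw [← Real.norm_eq_abs]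
      exact h1.trans ((le_max_left _ _).trans (le_max_left _ _))
    · exact h2.trans ((le_max_right _ _).trans (le_max_left _ _))
  · push Not at hx
    have h1 : g t x = 0 := h0 t x hx.le
    have h2 : g t =ᶠ[nhds x] fun _ => (0 : ℝ) := by
      have ho : IsOpen {y : Eu (n + n) | r < dist y c} :=
        isOpen_lt continuous_const (continuous_id.dist continuous_const)
      filter_upwards [ho.mem_nhds hx] with y hy
      exact h0 t y (le_of_lt hy)
    have h3 : fderiv ℝ (g t) x = 0 := by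
      rw [h2.fderiv_eq]
      simp
    rw [h1, h3]
    simp

/-- the localized Hamiltonian along the flow -/
theorem CutP_loc {c : Eu (n + n)} {ρ r : ℝ} (hs : SepP P c ρ) (hrρ : r < ρ)
    {f : ℝ → Eu (n + n) → Eu (n + n)} {F : ℝ → Eu (n + n) → ℝ}
    (hf : ContDiff ℝ ∞ (fun z : ℝ × Eu (n + n) => f z.1 z.2))
    (hFs : ContDiff ℝ ∞ (fun z : ℝ × Eu (n + n) => F z.1 z.2))
    (hF : ∀ t x, x ∉ orb P c r → F t x = 0) (hfix : ∀ t x, x ∉ orb P c r → f t x = x) :
    ∃ A : ℝ → Eu (n + n) → ℝ, ContDiff ℝ ∞ (fun z : ℝ × Eu (n + n) => A z.1 z.2) ∧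
      (∀ t x, r ≤ dist x c → A t x = 0) ∧ ∀ t x, dist x c < ρ → A t x = F t (f t x) := by
  classical
  refine ⟨fun t x => if dist x c < ρ then F t (f t x) else 0, ?_, ?_, ?_⟩
  · rw [contDiff_iff_contDiffAt]
    rintro ⟨t, x⟩
    by_cases hx : dist x c < ρ
    · have h1 : ContDiff ℝ ∞ (fun z : ℝ × Eu (n + n) => F z.1 (f z.1 z.2)) :=
        hFs.comp (contDiff_fst.prodMk hf)
      refine h1.contDiffAt.congr_of_eventuallyEq ?_
      have ho : IsOpen {z : ℝ × Eu (n + n) | dist z.2 c < ρ} :=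
        isOpen_lt (continuous_snd.dist continuous_const) continuous_const
      filter_upwards [ho.mem_nhds (show (t, x) ∈ {z : ℝ × Eu (n + n) | dist z.2 c < ρ} from hx)]
        with z hz
      exact if_pos hz
    · have h1 : ContDiff ℝ ∞ (fun _ : ℝ × Eu (n + n) => (0 : ℝ)) := contDiff_const
      refine h1.contDiffAt.congr_of_eventuallyEq ?_
      have ho : IsOpen {z : ℝ × Eu (n + n) | r < dist z.2 c} :=
        isOpen_lt continuous_const (continuous_snd.dist continuous_const)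
      have hx' : (t, x) ∈ {z : ℝ × Eu (n + n) | r < dist z.2 c} :=
        lt_of_lt_of_le hrρ (not_lt.1 hx)
      filter_upwards [ho.mem_nhds hx'] with z hz
      show (if dist z.2 c < ρ then F z.1 (f z.1 z.2) else 0) = 0
      by_cases h2 : dist z.2 c < ρ
      · have h3 := CutP_orb hs hrρ h2 (le_of_lt hz)
        rw [if_pos h2, hfix z.1 z.2 h3, hF z.1 z.2 h3]
      · rw [if_neg h2]
  · intro t x hx
    show (if dist x c < ρ then F t (f t x) else 0) = 0
    by_cases h2 : dist x c < ρ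
    · have h3 := CutP_orb hs hrρ h2 hx
      rw [if_pos h2, hfix t x h3, hF t x h3]
    · rw [if_neg h2]
  · intro t x hx
    exact if_pos hx

theorem cutP {E : (Eu (n + n) → ℝ) → ℝ≥0∞} (hP : SpDeck P) (hE : CF P E) {c : Eu (n + n)} {ρ r r' : ℝ} (hs : SepP P c ρ)
    (hr : 0 < r) (hrr : r < r') (hr' : r' < ρ) {f : ℝ → Eu (n + n) → Eu (n + n)}
    {F : ℝ → Eu (n + n) → ℝ} (h : HPP P f F) (h0 : f 0 = id)
    (hF : ∀ t x, x ∉ orb P c r → F t x = 0) (M : ℕ) (hM : 0 < M) {ε : ℝ} (hε : 0 < ε) :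
    ∃ η₀ : ℝ, 0 < η₀ ∧ ∀ η : ℝ, 0 < η → η ≤ η₀ → ∃ g : Equiv.Perm (Eu (n + n)), SGP P ⇑g ∧
      rhoP P E ⇑g ≤ ENNReal.ofReal ε ∧ (∀ x, dist x c < ρ → x ∈ RR M η → g x = f 1 x) ∧
      ∀ x ∉ orb P c r', g x = x := by
  have hrρ : r < ρ := hrr.trans hr'
  have hfix : ∀ t x, x ∉ orb P c r → f t x = x := HPP.fix h hP h0 hs hrρ hF
  have hsg : ∀ t, SGP P (f t) := fun t => h.sgp h0 t
  have hbij : ∀ t, Function.Bijective (f t) := fun t => sg_bij (sgp_sg hP (hsg t))
  have hri : ∀ t y, f t (Function.invFun (f t) y) = y := fun t y =>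
    Function.rightInverse_invFun (hbij t).surjective y
  have hli : ∀ t y, Function.invFun (f t) (f t y) = y := fun t y =>
    Function.leftInverse_invFun (hbij t).injective y
  have hinv : ∀ t, SGP P (Function.invFun (f t)) := fun t => sgp_inv hP (hsg t)
  have hci : ∀ t, Continuous (Function.invFun (f t)) := fun t =>
    (sg_smooth (sgp_sg hP (hinv t))).continuous
  obtain ⟨A, hAs, hA0, hA⟩ := CutP_loc hs hrρ h.hp.sp.path.smooth h.hp.Hs hF hfix
  obtain ⟨B, hB0, hB⟩ := CutP_bd hAs hA0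
  have hi0 : Function.invFun (f 0) = id := by
    funext x
    have h3 := hli 0 x
    rw [h0] at h3 ⊢
    exact h3
  obtain ⟨C, hC1, hC⟩ := hE.comp (fun t => Function.invFun (f t)) (spp_inv hP h.path) hi0
  have hC0 : 0 < C := by linarith
  obtain ⟨η₀, hη0, hcap⟩ := hE.cap c ρ r hs hrρ M hM B (ε / C) (div_pos hε hC0)
  refine ⟨η₀, hη0, fun η h1 h2 => ?_⟩
  obtain ⟨X, hX, hXR, hXE⟩ := hcap η h1 h2
  have hus : ContDiff ℝ ∞ (fun z : ℝ × Eu (n + n) => A z.1 z.2 * X z.2) :=
    hAs.mul (hX.comp contDiff_snd)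
  have hu0 : ∀ t x, r ≤ dist x c → A t x * X x = 0 := by
    intro t x hx
    rw [hA0 t x hx, zero_mul]
  have hSs : ContDiff ℝ ∞ (fun z : ℝ × Eu (n + n) => sym P (fun x => A z.1 x * X x) z.2) :=
    sym_smooth (u := fun t x => A t x * X x) hP hs hrρ hus hu0
  have hGs : ContDiff ℝ ∞ (fun z : ℝ × Eu (n + n) =>
      sym P (fun x => A z.1 x * X x) (Function.invFun (f z.1) z.2)) :=
    hSs.comp (contDiff_fst.prodMk (inv_smooth h.hp.sp))
  have hGI : ∀ t, PI P (fun y => sym P (fun x => A t x * X x) (Function.invFun (f t) y)) := by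
    intro t g hg x
    show sym P (fun x => A t x * X x) (Function.invFun (f t) (g x)) =
      sym P (fun x => A t x * X x) (Function.invFun (f t) x)
    rw [sgp_equi (hinv t) hg]
    exact sym_inv hP (fun x => A t x * X x) g hg _
  have hG0 : ∀ t x, x ∉ orb P c r →
      sym P (fun x => A t x * X x) (Function.invFun (f t) x) = 0 := by
    intro t x hx
    have h3 : Function.invFun (f t) x = x := by
      have h4 := hli t x
      rwa [hfix t x hx] at h4
    rw [h3]
    exact sym_out (fun y hy => hu0 t y hy) hx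
  obtain ⟨φ, hφ, hφ0⟩ := exists_hpp (H := fun t y =>
    sym P (fun x => A t x * X x) (Function.invFun (f t) y)) hP hGs hGI
  have hφsg : SGP P (φ 1) := hφ.sgp hφ0 1
  refine ⟨Equiv.ofBijective (φ 1) (sg_bij (sgp_sg hP hφsg)), hφsg, ?_, ?_, ?_⟩
  · show rhoP P E (φ 1) ≤ _
    have hle : rhoP P E (φ 1) ≤ cstE E (fun t y =>
        sym P (fun x => A t x * X x) (Function.invFun (f t) y)) :=
      iInf_le_of_le φ (iInf_le_of_le _ (iInf_le_of_le ⟨hφ, hφ0, rfl⟩ le_rfl))
    refine hle.trans ?_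
    have hEt : ∀ t ∈ Icc (0 : ℝ) 1, E (fun y =>
        sym P (fun x => A t x * X x) (Function.invFun (f t) y)) ≤ ENNReal.ofReal ε := by
      intro t ht
      have hAt : ContDiff ℝ ∞ (A t) := hAs.comp (contDiff_const.prodMk contDiff_id)
      have hSt : ContDiff ℝ ∞ (sym P (fun x => A t x * X x)) :=
        hSs.comp (contDiff_const.prodMk contDiff_id)
      have e1 := hC t ht (sym P (fun x => A t x * X x)) hSt (sym_inv hP (fun x => A t x * X x))
      have e2 : E (sym P (fun x => A t x * X x)) ≤ ENNReal.ofReal (ε / C) :=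
        hXE (A t) hAt (hA0 t) (fun x => (hB t ht x).1) (fun x => (hB t ht x).2)
      refine e1.trans ((mul_le_mul_right e2 _).trans (le_of_eq ?_))
      rw [← ENNReal.ofReal_mul hC0.le, mul_div_cancel₀ _ hC0.ne']
    have e3 : cstE E (fun t y => sym P (fun x => A t x * X x) (Function.invFun (f t) y)) ≤
        ∫⁻ _ in Icc (0 : ℝ) 1, ENNReal.ofReal ε := setLIntegral_mono' measurableSet_Icc hEt
    refine e3.trans (le_of_eq ?_)
    simp
  · intro x hxρ hx
    show φ 1 x = f 1 x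
    refine HP.agree h.hp hφ.hp (x := x) (by rw [h0, hφ0]) (fun t => ?_) 1
    have ht' : Filter.Tendsto (Function.invFun (f t)) (nhds (f t x)) (nhds x) := by
      have h3 := (hci t).continuousAt (x := f t x)
      rw [ContinuousAt, hli t x] at h3
      exact h3
    have ho : ∀ᶠ y in nhds x, dist y c < ρ :=
      (isOpen_lt (continuous_id.dist continuous_const) continuous_const).mem_nhds hxρ
    filter_upwards [ht'.eventually (hXR x hx), ht'.eventually ho] with y hy hy2
    rw [sym_at (u := fun x => A t x * X x) hP hs (fun z hz => hu0 t z (hrρ.le.trans hz)) hy2]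
    rw [hy, mul_one, hA t _ hy2, hri t y]
  · intro x hx
    show φ 1 x = x
    have hx' : x ∉ orb P c r := by
      rintro ⟨g, hg, hgx⟩
      exact hx ⟨g, hg, hgx.trans hrr⟩
    exact HPP.fix hφ hP hφ0 hs hrρ hG0 1 x hx'

end

end FS
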