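import Pool.Agent.FS.Sgp
import Pool.Agent.FS.Hpp
import Pool.Agent.SVT.Stp

/-!
# FS-6: the cost of a Hamiltonian diffeomorphism of a closed flat symplectic manifold
-/

set_option autoImplicit false

open MeasureTheory Set Pool.Agent.H68.VD TN SVT
open scoped ENNReal ContDiff

namespace FS

noncomputable section

variable {n : ℕ} {P : Set (Eu (n + n) → Eu (n + n))}

variable {E : (Eu (n + n) → ℝ) → ℝ≥0∞}

theorem rhoP_aux_smooth {φ : ℝ → Eu (n + n) → Eu (n + n)} {H : ℝ → Eu (n + n) → ℝ}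
    (h : HPP P φ H) (t : ℝ) : ContDiff ℝ ∞ (H t) :=
  h.hp.Hs.comp (contDiff_prodMk_right t)

theorem rhoP_aux_le {f : Eu (n + n) → Eu (n + n)} {φ : ℝ → Eu (n + n) → Eu (n + n)}
    {H : ℝ → Eu (n + n) → ℝ} (h : HPP P φ H) (h0 : φ 0 = id) (h1 : φ 1 = f) :
    rhoP P E f ≤ cstE E H :=
  iInf_le_of_le φ (iInf_le_of_le H (iInf_le_of_le ⟨h, h0, h1⟩ le_rfl))

theorem rhoP_aux_inv (f : Equiv.Perm (Eu (n + n))) : Function.invFun ⇑f = ⇑(f⁻¹) := by
  funext y
  have h := Function.leftInverse_invFun f.injective (f⁻¹ y)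
  have h2 : f (f⁻¹ y) = y := f.apply_symm_apply y
  rwa [h2] at h

theorem rhoP_aux_invid : Function.invFun (id : Eu (n + n) → Eu (n + n)) = id := by
  funext y
  exact Function.leftInverse_invFun Function.injective_id y

theorem rhoP_id (hP : SpDeck P) (hE : CF P E) : rhoP P E id = 0 := by
  refine le_antisymm ?_ zero_le
  refine (rhoP_aux_le (HPP.cst hP (sgp_id hP)) rfl rfl).trans ?_
  have h1 : E (fun _ => (0 : ℝ)) = 0 := by
    have h := hE.smul 0 (fun _ => 0) contDiff_const
    simpa using h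
  unfold cstE
  simp only [h1]
  simp

theorem rhoP_mul (_hP : SpDeck P) (hE : CF P E) (f g : Equiv.Perm (Eu (n + n))) :
    rhoP P E ⇑(f * g) ≤ rhoP P E ⇑f + rhoP P E ⇑g := by
  have key : ∀ (φ : ℝ → Eu (n + n) → Eu (n + n)) (H : ℝ → Eu (n + n) → ℝ)
      (_ : HPP P φ H ∧ φ 0 = id ∧ φ 1 = ⇑f) (ψ : ℝ → Eu (n + n) → Eu (n + n))
      (K : ℝ → Eu (n + n) → ℝ) (_ : HPP P ψ K ∧ ψ 0 = id ∧ ψ 1 = ⇑g),
      rhoP P E ⇑(f * g) ≤ cstE E H + cstE E K := by
    rintro φ H ⟨h, h0, h1⟩ ψ K ⟨k, k0, k1⟩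
    obtain ⟨a, b, ha, hb, a0, a1, b0, b1, ha', hb', hat, hbt, hF⟩ := steps
    have hc := (h.time ha).comp (k.time hb)
    refine (rhoP_aux_le hc ?_ ?_).trans ?_
    · funext x
      simp [a0, b0, h0, k0]
    · funext x
      simp [a1, b1, h1, k1]
    · have hle : ∀ t, E (fun x => deriv a t * H (a t) x +
          deriv b t * K (b t) (Function.invFun (φ (a t)) x)) ≤
          ENNReal.ofReal (deriv a t) * E (H (a t)) +
            ENNReal.ofReal (deriv b t) * E (K (b t)) := by
        intro t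
        rcases le_total t (1 / 2) with ht | ht
        · obtain ⟨e1, e2⟩ := hat t ht
          have : (fun x => deriv a t * H (a t) x +
              deriv b t * K (b t) (Function.invFun (φ (a t)) x)) =
              fun x => deriv b t * K (b t) x := by
            funext x
            rw [e2, e1, h0, rhoP_aux_invid]
            simp
          rw [this, hE.smul _ _ (rhoP_aux_smooth k _), abs_of_nonneg (hb' t)]
          exact le_add_self
        · obtain ⟨e1, e2⟩ := hbt t ht
          have : (fun x => deriv a t * H (a t) x +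
              deriv b t * K (b t) (Function.invFun (φ (a t)) x)) =
              fun x => deriv a t * H (a t) x := by
            funext x
            rw [e2]
            simp
          rw [this, hE.smul _ _ (rhoP_aux_smooth h _), abs_of_nonneg (ha' t)]
          exact le_self_add
      unfold cstE
      refine (lintegral_mono hle).trans ?_
      have m1 : Measurable (fun t => ENNReal.ofReal (deriv a t) * E (H (a t))) := by
        have h2 : Measurable (fun t => E (H t)) := hE.meas H h.hp.Hs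
        have c : Continuous (deriv a) := ha.continuous_deriv (by simp)
        exact (ENNReal.measurable_ofReal.comp c.measurable).mul (h2.comp ha.continuous.measurable)
      rw [lintegral_add_left m1, (hF _ (hE.meas H h.hp.Hs)).1, (hF _ (hE.meas K k.hp.Hs)).2]
  unfold rhoP at key ⊢
  simp only [ENNReal.iInf_add, ENNReal.add_iInf]
  refine le_iInf fun ψ => le_iInf fun K => le_iInf fun hK => le_iInf fun φ => le_iInf fun H =>
    le_iInf fun hH => ?_
  exact key φ H hH ψ K hK

theorem rhoP_aux_flip (F : ℝ → ℝ≥0∞) :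
    ∫⁻ t in Icc (0 : ℝ) 1, F (1 - t) = ∫⁻ t in Icc (0 : ℝ) 1, F t := by
  rw [← lintegral_indicator measurableSet_Icc, ← lintegral_indicator measurableSet_Icc,
    ← lintegral_sub_left_eq_self (fun t => (Icc (0 : ℝ) 1).indicator (fun t => F t) t) 1]
  refine lintegral_congr fun t => ?_
  by_cases ht : t ∈ Icc (0 : ℝ) 1
  · rw [indicator_of_mem ht, indicator_of_mem]
    exact ⟨by linarith [ht.2], by linarith [ht.1]⟩
  · rw [indicator_of_notMem ht, indicator_of_notMem]
    exact fun h => ht ⟨by linarith [h.2], by linarith [h.1]⟩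

theorem rhoP_inv (hP : SpDeck P) (hE : CF P E) (f : Equiv.Perm (Eu (n + n))) :
    rhoP P E ⇑(f⁻¹) ≤ rhoP P E ⇑f := by
  conv_rhs => unfold rhoP
  refine le_iInf fun φ => le_iInf fun H => le_iInf fun hH => ?_
  obtain ⟨h, h0, h1⟩ := hH
  have hτ : ContDiff ℝ ∞ (fun t : ℝ => 1 - t) := contDiff_const.sub contDiff_id
  have hs : SGP P ⇑(f⁻¹) := by
    have := sgp_inv hP (h.sgp h0 1)
    rwa [h1, rhoP_aux_inv] at this
  have hc := (h.time hτ).comp (HPP.cst hP hs)
  refine (rhoP_aux_le hc ?_ ?_).trans ?_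
  · funext x
    simp [h1]
  · funext x
    simp [h0]
  · have hd : ∀ t : ℝ, deriv (fun t : ℝ => 1 - t) t = -1 := fun t => by
      have : HasDerivAt (fun t : ℝ => 1 - t) (-1) t := by
        simpa using (hasDerivAt_id t).const_sub 1
      exact this.deriv
    have he : ∀ t : ℝ, E (fun x => deriv (fun t : ℝ => 1 - t) t * H (1 - t) x + 0) =
        E (H (1 - t)) := fun t => by
      simp only [hd, add_zero]
      rw [hE.smul _ _ (rhoP_aux_smooth h _)]
      simp
    unfold cstE
    simp only [he]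
    exact (rhoP_aux_flip (fun t => E (H t))).le

theorem rhoP_conj (hP : SpDeck P) (hE : CF P E) (g : Equiv.Perm (Eu (n + n))) (hg : SGP P ⇑g) :
    ∃ C : ℝ, 1 ≤ C ∧ ∀ f : Equiv.Perm (Eu (n + n)),
      rhoP P E ⇑(g * f * g⁻¹) ≤ ENNReal.ofReal C * rhoP P E ⇑f := by
  obtain ⟨ψ, hψ, ψ0, ψ1⟩ := sgp_inv hP hg
  obtain ⟨C, hC, hE'⟩ := hE.comp ψ hψ ψ0
  refine ⟨C, hC, fun f => ?_⟩
  have hC0 : ENNReal.ofReal C ≠ 0 := by
    simp only [ne_eq, ENNReal.ofReal_eq_zero, not_le]
    linarith
  conv_rhs => unfold rhoP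
  simp only [ENNReal.mul_iInf_of_ne hC0 ENNReal.ofReal_ne_top]
  refine le_iInf fun φ => le_iInf fun H => le_iInf fun hH => ?_
  obtain ⟨h, h0, h1⟩ := hH
  have hc := h.left hP hg
  refine (rhoP_aux_le hc ?_ ?_).trans ?_
  · funext x
    rw [h0, rhoP_aux_inv]
    simp
  · funext x
    rw [h1, rhoP_aux_inv]
    simp
  · unfold cstE
    rw [← lintegral_const_mul' _ _ ENNReal.ofReal_ne_top]
    refine lintegral_mono fun t => ?_
    have h2 := hE' 1 ⟨zero_le_one, le_rfl⟩ (H t) (rhoP_aux_smooth h t) (h.inv t)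
    rwa [ψ1] at h2

end

end FS
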