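import Pool.Agent.FS.Sym
import Pool.Agent.FS.RhoP
import Pool.Agent.SVT.Saw

/-! # Project FS (MP_b0bf68_gt), row FS-7: the sawtooth in a small ball -/

set_option autoImplicit false

open MeasureTheory Set Pool.Agent.H68.VD TN SVT
open scoped ENNReal ContDiff

namespace FS

noncomputable section

variable {n : ℕ} {P : Set (Eu (n + n) → Eu (n + n))}

variable {E : (Eu (n + n) → ℝ) → ℝ≥0∞}

/-- the derivative of a bump function is bounded -/
theorem sawP_bump {m : ℕ} (c : Eu m) (b : ContDiffBump c) :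
    ∃ C : ℝ, 0 ≤ C ∧ ∀ x, ‖fderiv ℝ (b : Eu m → ℝ) x‖ ≤ C := by
  have h1 : HasCompactSupport (fderiv ℝ (b : Eu m → ℝ)) := b.hasCompactSupport.fderiv ℝ
  have h2 : Continuous (fderiv ℝ (b : Eu m → ℝ)) :=
    (b.contDiff (n := 1)).continuous_fderiv (by simp)
  obtain ⟨C, hC⟩ := h2.bounded_above_of_compact_support h1
  exact ⟨max C 0, le_max_right _ _, fun x => (hC x).trans (le_max_left _ _)⟩

/-- the local Hamiltonian -/
theorem sawP_fun (c : Eu (n + n)) {r : ℝ} (hr : 0 < r) :
    ∃ B : ℝ, 0 ≤ B ∧ ∀ (η : ℝ) (M : ℕ), 0 < M → ∃ u : Eu (n + n) → ℝ, ContDiff ℝ ∞ u ∧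
      (∀ x, (6 * n + 2) * r ≤ dist x c → u x = 0) ∧
      (∀ x, dist x c < (6 * n + 1) * r → u x = 12 * r * saw_auxK η M x) ∧
      (∀ x, |u x| ≤ 3 * n * r * (M : ℝ)⁻¹) ∧ ∀ x, ‖fderiv ℝ u x‖ ≤ B := by
  have hn : (0 : ℝ) ≤ n := Nat.cast_nonneg n
  let b : ContDiffBump c := ⟨(6 * n + 1) * r, (6 * n + 2) * r, by positivity, by nlinarith⟩
  obtain ⟨C, hC, hb⟩ := sawP_bump c b
  refine ⟨3 * n * r + 3 * n * r * C, by positivity, fun η M hM => ?_⟩
  have hM1 : (M : ℝ)⁻¹ ≤ 1 := inv_le_one_of_one_le₀ (by exact_mod_cast hM)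
  have hM0 : (0 : ℝ) ≤ (M : ℝ)⁻¹ := by positivity
  have hK : ∀ x : Eu (n + n), |12 * r * saw_auxK η M x| ≤ 3 * n * r * (M : ℝ)⁻¹ := by
    intro x
    rw [abs_mul, abs_of_pos (by positivity : (0 : ℝ) < 12 * r)]
    have h := mul_le_mul_of_nonneg_left (saw_auxK_abs η M x) (by positivity : (0 : ℝ) ≤ 12 * r)
    refine h.trans (le_of_eq ?_)
    ring
  have hd : ∀ x, HasFDerivAt (fun y => 12 * r * saw_auxK (n := n) η M y)
      ((12 * r) • innerSL ℝ (pt 0 (saw_auxv η M x))) x := fun x =>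
    (saw_auxK_deriv η hM x).const_mul (12 * r)
  have hdn : ∀ x : Eu (n + n), ‖(12 * r) • innerSL ℝ (pt 0 (saw_auxv η M x))‖ ≤ 3 * n * r := by
    intro x
    rw [norm_smul, innerSL_apply_norm, Real.norm_eq_abs, abs_of_pos (by positivity : (0 : ℝ) < 12 * r)]
    have h1 := norm_pt_le (0 : Eu n) (saw_auxv η M x)
    rw [norm_zero, zero_add] at h1
    have h2 := h1.trans (saw_auxv_norm η M x)
    have h := mul_le_mul_of_nonneg_left h2 (by positivity : (0 : ℝ) ≤ 12 * r)
    refine h.trans (le_of_eq ?_)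
    ring
  refine ⟨fun x => b x * (12 * r * saw_auxK η M x), ?_, ?_, ?_, ?_, ?_⟩
  · exact b.contDiff.mul (contDiff_const.mul (saw_auxK_smooth η M))
  · intro x hx
    have h : b x = 0 := b.zero_of_le_dist hx
    show b x * _ = 0
    rw [h, zero_mul]
  · intro x hx
    have h : b x = 1 := b.one_of_mem_closedBall (Metric.mem_closedBall.2 hx.le)
    show b x * _ = _
    rw [h, one_mul]
  · intro x
    show |b x * _| ≤ _
    rw [abs_mul, abs_of_nonneg b.nonneg]
    exact (mul_le_of_le_one_left (abs_nonneg _) b.le_one).trans (hK x)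
  · intro x
    have h1 : HasFDerivAt (b : Eu (n + n) → ℝ) (fderiv ℝ (b : Eu (n + n) → ℝ) x) x :=
      ((b.contDiff (n := 1)).differentiable (by simp) x).hasFDerivAt
    have h2 := (h1.mul (hd x)).fderiv
    have h3 : fderiv ℝ (fun x => b x * (12 * r * saw_auxK η M x)) x =
        b x • ((12 * r) • innerSL ℝ (pt 0 (saw_auxv η M x))) +
          (12 * r * saw_auxK η M x) • fderiv ℝ (b : Eu (n + n) → ℝ) x := h2
    rw [h3]
    refine (norm_add_le _ _).trans (add_le_add ?_ ?_)
    · rw [norm_smul, Real.norm_eq_abs, abs_of_nonneg b.nonneg]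
      exact (mul_le_of_le_one_left (norm_nonneg _) b.le_one).trans (hdn x)
    · rw [norm_smul, Real.norm_eq_abs]
      refine mul_le_mul ((hK x).trans ?_) (hb x) (norm_nonneg _) (by positivity)
      exact mul_le_of_le_one_right (by positivity) hM1

theorem sawP (hP : SpDeck P) (hE : CF P E) : ∃ Λ : ℝ, 1 ≤ Λ ∧ ∀ (c : Eu (n + n)) (ρ r : ℝ),
    SepP P c ρ → 0 < r → Λ * r ≤ ρ → ∀ ε : ℝ, 0 < ε → ∃ M : ℕ, 0 < M ∧ ∀ η : ℝ, 0 < η →
    ∃ ψ : Equiv.Perm (Eu (n + n)), SGP P ⇑ψ ∧ rhoP P E ⇑ψ ≤ ENNReal.ofReal ε ∧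
      ∀ x, dist x c < r → x ∉ RR M η → ψ x ∉ orb P c r := by
  have hn : (0 : ℝ) ≤ n := Nat.cast_nonneg n
  obtain ⟨L, hL, hLb⟩ := sym_bd hP
  refine ⟨6 * n + 3, by linarith, fun c ρ r hs hr hρ ε hε => ?_⟩
  have hr2 : (6 * n + 2) * r < ρ := by nlinarith
  obtain ⟨B, hB, hu⟩ := sawP_fun c hr
  obtain ⟨δ, hδ, hw⟩ := hE.weak (L * B) ε hε
  obtain ⟨M, hM⟩ := exists_nat_gt (3 * n * r / δ)
  have hM0 : 0 < M + 1 := Nat.succ_pos M
  refine ⟨M + 1, hM0, fun η hη => ?_⟩
  obtain ⟨u, hus, hu0, hu1, hu2, hu3⟩ := hu η (M + 1) hM0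
  obtain ⟨hb1, hb2⟩ := hLb c ρ ((6 * n + 2) * r) hs hr2 u hus hu0 (3 * n * r * ((M + 1 : ℕ) : ℝ)⁻¹) B
    (by positivity) hB hu2 hu3
  have hMδ : 3 * n * r * ((M + 1 : ℕ) : ℝ)⁻¹ ≤ δ := by
    rw [← div_eq_mul_inv, div_le_iff₀ (by positivity)]
    have h1 : 3 * n * r < M * δ := (div_lt_iff₀ hδ).1 hM
    push_cast
    nlinarith
  have hsm : ContDiff ℝ ∞ (fun z : ℝ × Eu (n + n) => sym P u z.2) :=
    sym_smooth (E := ℝ) (u := fun _ => u) hP hs hr2 (hus.comp contDiff_snd) (fun _ => hu0)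
  have hsm' : ContDiff ℝ ∞ (sym P u) := hsm.comp (contDiff_prodMk_right (0 : ℝ))
  have hEu : E (sym P u) ≤ ENNReal.ofReal ε :=
    hw _ hsm' (sym_inv hP u) (fun x => (hb1 x).trans hMδ) hb2
  obtain ⟨φ, hφ, h0⟩ := exists_hpp (H := fun _ => sym P u) hP hsm (fun _ => sym_inv hP u)
  have hsg : SGP P (φ 1) := hφ.sgp h0 1
  have hv12 : ∀ x : Eu (n + n), ‖(12 * r) • pt (saw_auxv η (M + 1) x) (0 : Eu n)‖ ≤ 3 * n * r := by
    intro x
    rw [norm_smul, Real.norm_eq_abs, abs_of_pos (by positivity : (0 : ℝ) < 12 * r)]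
    have h1 := norm_pt_le (saw_auxv η (M + 1) x) (0 : Eu n)
    rw [norm_zero, add_zero] at h1
    have h2 := h1.trans (saw_auxv_norm η (M + 1) x)
    have h := mul_le_mul_of_nonneg_left h2 (by positivity : (0 : ℝ) ≤ 12 * r)
    refine h.trans (le_of_eq ?_)
    ring
  have hval : ∀ x, dist x c < r → φ 1 x = x + (12 * r) • pt (saw_auxv η (M + 1) x) 0 := by
    intro x hx
    set v : Eu (n + n) := (12 * r) • pt (saw_auxv η (M + 1) x) 0 with hv
    have h := HP.orbit hφ.hp (T := 2) (γ := fun t => x + t • v) (γ' := fun _ => v) (x := x)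
      (by rw [h0]; simp)
      (fun t _ => by
        have h1 := ((hasDerivAt_id t).smul_const v).const_add x
        simpa using h1)
      (fun t ht => by
        have hn2 : dist (x + t • v) c < (6 * n + 1) * r := by
          have h1 : ‖t • v‖ ≤ 2 * (3 * n * r) := by
            rw [norm_smul, Real.norm_eq_abs]
            exact mul_le_mul (abs_lt.2 ht).le (hv12 x) (norm_nonneg _) (by norm_num)
          have h2 : dist (x + t • v) c ≤ dist (x + t • v) x + dist x c := dist_triangle _ _ _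
          have h3 : dist (x + t • v) x = ‖t • v‖ := by
            rw [dist_eq_norm, add_sub_cancel_left]
          nlinarith
        have hpp : pp (x + t • v) = pp x := by
          rw [hv]
          simp
        have h3 : HasFDerivAt (fun y => 12 * r * saw_auxK (n := n) η (M + 1) y)
            (innerSL ℝ (Jm v)) (x + t • v) := by
          have h1 := (saw_auxK_deriv (n := n) η hM0 (x + t • v)).const_mul (12 * r)
          have h2 : saw_auxv η (M + 1) (x + t • v) = saw_auxv η (M + 1) x := by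
            unfold saw_auxv
            rw [hpp]
          rw [h2] at h1
          have h4 : Jm v = (12 * r) • pt 0 (saw_auxv η (M + 1) x) := by
            have h5 : Jm v = (12 * r) • Jm (pt (saw_auxv η (M + 1) x) (0 : Eu n)) :=
              map_smul (JL n) (12 * r) _
            rw [h5]
            congr 1
            unfold Jm
            simp
          rw [h4, map_smul]
          exact h1
        refine h3.congr_of_eventuallyEq ?_
        have h4 : ∀ᶠ y in nhds (x + t • v), dist y c < (6 * n + 1) * r :=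
          ((continuous_id.dist continuous_const).isOpen_preimage _ isOpen_Iio).mem_nhds hn2
        filter_upwards [h4] with y hy
        rw [sym_at hP hs (fun z hz => hu0 z (by linarith)) (by nlinarith : dist y c < ρ)]
        exact hu1 y hy)
      1 (by constructor <;> norm_num)
    rw [h, one_smul]
  refine ⟨Equiv.ofBijective (φ 1) (hφ.hp.sp.path.bij 1), hsg, ?_, ?_⟩
  · refine (rhoP_aux_le (f := φ 1) hφ h0 rfl).trans ?_
    unfold cstE
    rw [setLIntegral_const, Real.volume_Icc]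
    simp only [sub_zero, ENNReal.ofReal_one, mul_one]
    exact hEu
  · intro x hx hR hx'
    obtain ⟨g, hg, hgx⟩ := hx'
    have hgx' : dist (g (φ 1 x)) c < r := hgx
    rw [hval x hx] at hgx'
    set v : Eu (n + n) := (12 * r) • pt (saw_auxv η (M + 1) x) 0 with hv
    have hρr : r ≤ ρ := by nlinarith
    have hd : dist (x + v) c < ρ := by
      have h2 : dist (x + v) c ≤ dist (x + v) x + dist x c := dist_triangle _ _ _
      have h3 : dist (x + v) x = ‖v‖ := by
        rw [dist_eq_norm, add_sub_cancel_left]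
      have h4 := hv12 x
      rw [← hv] at h4
      nlinarith
    rcases eq_or_ne g id with rfl | hgi
    · simp only [RR, Set.mem_ofPred_eq, not_forall, not_exists, not_lt] at hR
      obtain ⟨i, hi⟩ := hR
      have h3 : |saw_auxt η (((M + 1 : ℕ) : ℝ) * pp x i)| = 1 / 4 := saw_auxt_one hη hi
      have h4 : v (Fin.castAdd n i) = 12 * r * saw_auxt η (((M + 1 : ℕ) : ℝ) * pp x i) := by
        have : (pt (saw_auxv η (M + 1) x) (0 : Eu n)) (Fin.castAdd n i) =
            saw_auxt η (((M + 1 : ℕ) : ℝ) * pp x i) := by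
          simp only [pt, Fin.addCases_left, saw_auxv]
        rw [← this, hv]
        rfl
      have h5 : ‖v (Fin.castAdd n i)‖ ≤ ‖v‖ := PiLp.norm_apply_le v _
      have h6 : ‖v‖ < 2 * r := by
        have h7 : ‖v‖ = dist (x + v) x := by
          rw [dist_eq_norm, add_sub_cancel_left]
        have h8 : dist (x + v) x ≤ dist (x + v) c + dist x c := dist_triangle_right _ _ _
        have h9 : dist (x + v) c < r := hgx'
        linarith
      rw [h4, Real.norm_eq_abs, abs_mul, h3, abs_of_pos (by positivity : (0 : ℝ) < 12 * r)] at h5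
      linarith
    · exact hs.2 g hg hgi (x + v) hd (hgx'.trans_le hρr)

end

end FS
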