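import Pool.Agent.FS.Sgp
import Pool.Agent.FS.Hpp
import Pool.Agent.FS.RhoP
import Pool.Agent.FS.SawP
import Pool.Agent.FS.CutP
import Pool.Agent.SVT.Alg

/-! # Project FS (MP_b0bf68_gt), row FS-9: commutators cost nothing -/

set_option autoImplicit false

open MeasureTheory Set Pool.Agent.H68.VD TN SVT
open scoped ENNReal ContDiff

namespace FS

noncomputable section

variable {n : ℕ} {P : Set (Eu (n + n) → Eu (n + n))}
variable {E : (Eu (n + n) → ℝ) → ℝ≥0∞}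

theorem ComP_invFun (f : Equiv.Perm (Eu (n + n))) : Function.invFun ⇑f = ⇑(f⁻¹) := by
  funext x
  apply f.injective
  rw [Function.invFun_eq ⟨f⁻¹ x, f.apply_symm_apply x⟩]
  exact (f.apply_symm_apply x).symm

/-- the quotient of the map and its cheap copy moves only points of the bad set -/
theorem ComP_move (hP : SpDeck P) {c : Eu (n + n)} {ρ r : ℝ} (hs : SepP P c ρ) (hr : 0 < r)
    (hr' : 2 * r < ρ) {f : ℝ → Eu (n + n) → Eu (n + n)} {F : ℝ → Eu (n + n) → ℝ} (hf : HPP P f F)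
    (f0 : f 0 = id) (hF : ∀ t x, x ∉ orb P c r → F t x = 0) {M : ℕ} {η : ℝ}
    (fE : Equiv.Perm (Eu (n + n))) (hfE : ∀ x, fE x = f 1 x) (g : Equiv.Perm (Eu (n + n)))
    (hg : SGP P ⇑g) (h1 : ∀ x, dist x c < ρ → x ∈ RR M η → g x = f 1 x)
    (h2 : ∀ x ∉ orb P c (2 * r), g x = x) {x : Eu (n + n)}
    (hx : ¬ ∃ γ ∈ P, dist (γ x) c < 2 * r ∧ γ x ∉ RR M η) : (g⁻¹ * fE) x = x := by
  rw [Equiv.Perm.mul_apply, Equiv.Perm.inv_eq_iff_eq, hfE]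
  by_cases hxo : x ∈ orb P c (2 * r)
  · obtain ⟨γ, hγ, hd⟩ := hxo
    have hR : γ x ∈ RR M η := by
      by_contra hR
      exact hx ⟨γ, hγ, hd, hR⟩
    have e1 : g (γ x) = f 1 (γ x) := h1 _ (lt_trans hd hr') hR
    rw [sgp_equi hg hγ, hf.equi 1 γ hγ] at e1
    obtain ⟨δ, hδ, h3, h4⟩ := hP.deck.inv γ hγ
    have e2 := congrArg δ e1
    have h5 : ∀ y, δ (γ y) = y := fun y => congrFun h4 y
    rw [h5, h5] at e2
    exact e2.symm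
  · have h3 : x ∉ orb P c r := by
      rintro ⟨γ, hγ, hd⟩
      exact hxo ⟨γ, hγ, by linarith⟩
    rw [hf.fix hP f0 hs (by linarith) hF 1 x h3, h2 x hxo]

theorem ComP_zero {a C : ℝ≥0∞} (hC : C ≠ ⊤)
    (h : ∀ δ : ℝ, 0 < δ → a ≤ C * ENNReal.ofReal δ) : a = 0 := by
  by_contra ha
  rcases eq_or_ne C 0 with h0 | h0
  · have := h 1 one_pos
    rw [h0, zero_mul] at this
    exact ha (le_antisymm this bot_le)
  · have hCt : 0 < C.toReal := ENNReal.toReal_pos h0 hC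
    have hat : a ≠ ⊤ := ne_top_of_le_ne_top
      (ENNReal.mul_ne_top hC ENNReal.ofReal_ne_top) (h 1 one_pos)
    have hapos : 0 < a.toReal := ENNReal.toReal_pos ha hat
    have h1 := h (a.toReal / C.toReal / 2) (by positivity)
    rw [← ENNReal.ofReal_toReal hC, ← ENNReal.ofReal_mul hCt.le, ← ENNReal.ofReal_toReal hat,
      ENNReal.ofReal_le_ofReal_iff (by positivity), ENNReal.toReal_ofReal hapos.le,
      ENNReal.toReal_ofReal hCt.le] at h1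
    have h2 : C.toReal * (a.toReal / C.toReal / 2) = a.toReal / 2 := by
      field_simp
    rw [h2] at h1
    linarith

/-! ## FS-9 (ComP.lean): commutators cost nothing -/

theorem comP (hP : SpDeck P) (hE : CF P E) : ∃ Λ : ℝ, 1 ≤ Λ ∧ ∀ (c : Eu (n + n)) (ρ r : ℝ),
    SepP P c ρ → 0 < r → Λ * r ≤ ρ → ∀ (f h : ℝ → Eu (n + n) → Eu (n + n))
    (F H : ℝ → Eu (n + n) → ℝ), HPP P f F → f 0 = id → (∀ t x, x ∉ orb P c r → F t x = 0) →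
    HPP P h H → h 0 = id → (∀ t x, x ∉ orb P c r → H t x = 0) →
    rhoP P E (fun x => f 1 (h 1 (Function.invFun (f 1) (Function.invFun (h 1) x)))) = 0 := by
  obtain ⟨Λ, hΛ, hsaw⟩ := sawP (P := P) hP hE
  refine ⟨2 * Λ + 1, by linarith, ?_⟩
  intro c ρ r hs hr hρ f h F H hf f0 hF hh h0 hH
  have hr2 : 2 * r < ρ := by nlinarith
  have hr3 : Λ * (2 * r) ≤ ρ := by nlinarith
  obtain ⟨fE, hfE⟩ : ∃ fE : Equiv.Perm (Eu (n + n)), ⇑fE = f 1 :=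
    ⟨Equiv.ofBijective (f 1) (hf.hp.sp.path.bij 1), rfl⟩
  obtain ⟨gE, hgE⟩ : ∃ gE : Equiv.Perm (Eu (n + n)), ⇑gE = h 1 :=
    ⟨Equiv.ofBijective (h 1) (hh.hp.sp.path.bij 1), rfl⟩
  have hgoal : (fun x => f 1 (h 1 (Function.invFun (f 1) (Function.invFun (h 1) x)))) =
      ⇑(fE * gE * fE⁻¹ * gE⁻¹) := by
    rw [← hfE, ← hgE, ComP_invFun, ComP_invFun]
    rfl
  rw [hgoal]
  obtain ⟨Cf, hCf, hcf⟩ := rhoP_conj hP hE fE (by rw [hfE]; exact hf.sgp f0 1)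
  obtain ⟨Cg, hCg, hcg⟩ := rhoP_conj hP hE gE (by rw [hgE]; exact hh.sgp h0 1)
  have hcf' : ∀ a : Equiv.Perm (Eu (n + n)), rhoP P E ⇑(fE * a * fE⁻¹) ≤
      ENNReal.ofReal (max Cf Cg) * rhoP P E ⇑a := fun a => (hcf a).trans
    (mul_le_mul_left (ENNReal.ofReal_le_ofReal (le_max_left _ _)) _)
  have hcg' : ∀ a : Equiv.Perm (Eu (n + n)), rhoP P E ⇑(gE * a * gE⁻¹) ≤
      ENNReal.ofReal (max Cf Cg) * rhoP P E ⇑a := fun a => (hcg a).trans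
    (mul_le_mul_left (ENNReal.ofReal_le_ofReal (le_max_right _ _)) _)
  set C : ℝ≥0∞ := ENNReal.ofReal (max Cf Cg) with hC
  have hCt : C ≠ ⊤ := ENNReal.ofReal_ne_top
  refine ComP_zero (C := (5 + 3 * C + C ^ 2) * 3) ?_ ?_
  · refine ENNReal.mul_ne_top (ENNReal.add_ne_top.2 ⟨ENNReal.add_ne_top.2 ⟨by norm_num,
      ENNReal.mul_ne_top (by norm_num) hCt⟩, ENNReal.pow_ne_top hCt⟩) (by norm_num)
  intro δ hδ
  obtain ⟨M, hM, hM'⟩ := hsaw c ρ (2 * r) hs (by linarith) hr3 δ hδ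
  obtain ⟨η₁, hη₁, hc1⟩ := cutP hP hE hs hr (by linarith) hr2 hf f0 hF M hM hδ
  obtain ⟨η₂, hη₂, hc2⟩ := cutP hP hE hs hr (by linarith) hr2 hh h0 hH M hM hδ
  have hη : 0 < min η₁ η₂ := lt_min hη₁ hη₂
  obtain ⟨fZ, hfZ, hfZ1, hfZ2, hfZ3⟩ := hc1 _ hη (min_le_left _ _)
  obtain ⟨hZ, hhZ, hhZ1, hhZ2, hhZ3⟩ := hc2 _ hη (min_le_right _ _)
  obtain ⟨ψ, hψ, hψ1, hψ2⟩ := hM' _ hη
  set η := min η₁ η₂ with hηd
  have m1 : ∀ x, (¬ ∃ γ ∈ P, dist (γ x) c < 2 * r ∧ γ x ∉ RR M η) → (fZ⁻¹ * fE) x = x :=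
    fun x hx => ComP_move hP hs hr hr2 hf f0 hF fE (fun y => congrFun hfE y) fZ hfZ hfZ2 hfZ3 hx
  have m2 : ∀ x, (¬ ∃ γ ∈ P, dist (γ x) c < 2 * r ∧ γ x ∉ RR M η) → (hZ⁻¹ * gE) x = x :=
    fun x hx => ComP_move hP hs hr hr2 hh h0 hH gE (fun y => congrFun hgE y) hZ hhZ hhZ2 hhZ3 hx
  have hcom : Commute (ψ * (fZ⁻¹ * fE)⁻¹ * ψ⁻¹) (hZ⁻¹ * gE) := by
    apply Equiv.Perm.Disjoint.commute
    intro x
    by_contra hcon
    push Not at hcon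
    obtain ⟨ha, hb⟩ := hcon
    have hb' : ∃ γ ∈ P, dist (γ x) c < 2 * r ∧ γ x ∉ RR M η := by
      by_contra h'
      exact hb (m2 x h')
    have ha' : ∃ γ ∈ P, dist (γ (ψ⁻¹ x)) c < 2 * r ∧ γ (ψ⁻¹ x) ∉ RR M η := by
      by_contra h'
      apply ha
      have h3 := m1 _ h'
      rw [Equiv.Perm.mul_apply, Equiv.Perm.mul_apply]
      have h4 : (fZ⁻¹ * fE)⁻¹ (ψ⁻¹ x) = ψ⁻¹ x := by
        rw [Equiv.Perm.inv_eq_iff_eq]
        exact h3.symm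
      rw [h4]
      exact ψ.apply_symm_apply x
    obtain ⟨γ, hγ, hd, hR⟩ := ha'
    obtain ⟨γ', hγ', hd', -⟩ := hb'
    have h5 := hψ2 _ hd hR
    rw [sgp_equi hψ hγ, show ψ (ψ⁻¹ x) = x from ψ.apply_symm_apply x] at h5
    apply h5
    obtain ⟨ι, hι, h6, h7⟩ := hP.deck.inv γ hγ
    refine ⟨γ' ∘ ι, hP.deck.mul _ hγ' _ hι, ?_⟩
    have h8 : ι (γ x) = x := congrFun h7 x
    show dist (γ' (ι (γ x))) c < 2 * r
    rw [h8]
    exact hd'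
  have key := SVT.alg (fun a : Equiv.Perm (Eu (n + n)) => rhoP P E ⇑a) (rhoP_mul hP hE)
    (rhoP_inv hP hE) fE gE C hcf' hcg' fZ hZ ψ hcom
  refine key.trans ?_
  rw [mul_assoc]
  refine mul_le_mul_right ?_ _
  calc rhoP P E ⇑fZ + rhoP P E ⇑hZ + rhoP P E ⇑ψ
      ≤ ENNReal.ofReal δ + ENNReal.ofReal δ + ENNReal.ofReal δ :=
        add_le_add (add_le_add hfZ1 hhZ1) hψ1
    _ = 3 * ENNReal.ofReal δ := by ring

end

end FS
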