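import Pool.Agent.FS.Defs
import Pool.Agent.SVT.Mol

/-!
# Project FS: mollification at one scale (MP_b0bf68_gt)
-/

set_option autoImplicit false

open MeasureTheory Set Pool.Agent.H68.VD TN
open scoped ENNReal ContDiff

namespace FS

noncomputable section

/-- the estimate of an average of differences -/
theorem mls_est {m : ℕ} {q ρ B D : ℝ} (hq : 1 < q) (hρ : 0 < ρ) (hB : 0 ≤ B) (hD : 0 ≤ D)
    (hBD : B ^ q * (ρ ^ m * (volume (Metric.ball (0 : Eu m) 1)).toReal) ^ (q - 1) ≤ D)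
    {v : Eu m → Eu m} (hv : Continuous v) {F' : Type*} [NormedAddCommGroup F'] (F : Eu m → F')
    (hF : ∀ x, ‖F x‖ₑ ≤ ENNReal.ofReal B *
      ∫⁻ t in Metric.ball (0 : Eu m) ρ, ‖v (x - t) - v x‖ₑ) :
    (∫⁻ x in cube m, ‖F x‖ₑ ^ q) ≤
      ENNReal.ofReal D * ∫⁻ x in cube m, ∫⁻ h in Metric.ball (0 : Eu m) ρ, ‖v (x + h) - v x‖ₑ ^ q := by
  have hq0 : 0 < q := by linarith
  set c : ℝ := (volume (Metric.ball (0 : Eu m) 1)).toReal with hc
  have hc0 : 0 ≤ c := ENNReal.toReal_nonneg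
  have hvol : volume (Metric.ball (0 : Eu m) ρ) = ENNReal.ofReal (ρ ^ m * c) := by
    rw [Measure.addHaar_ball_of_pos _ _ hρ, ENNReal.ofReal_mul (by positivity), hc,
      ENNReal.ofReal_toReal measure_ball_lt_top.ne]
    simp
  have hneg : ∀ x, ∫⁻ t in Metric.ball (0 : Eu m) ρ, ‖v (x - t) - v x‖ₑ ^ q =
      ∫⁻ t in Metric.ball (0 : Eu m) ρ, ‖v (x + t) - v x‖ₑ ^ q := by
    intro x
    have h2 := (Measure.measurePreserving_neg (volume : Measure (Eu m))).setLIntegral_comp_preimage_emb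
      (MeasurableEquiv.neg (Eu m)).measurableEmbedding (fun t => ‖v (x + t) - v x‖ₑ ^ q)
      (Metric.ball (0 : Eu m) ρ)
    have h3 : (Neg.neg : Eu m → Eu m) ⁻¹' Metric.ball (0 : Eu m) ρ = Metric.ball (0 : Eu m) ρ := by
      ext y
      simp
    rw [h3] at h2
    rw [← h2]
    refine lintegral_congr fun t => ?_
    simp only [sub_eq_add_neg x t]
  rw [← lintegral_const_mul' _ _ ENNReal.ofReal_ne_top]
  refine lintegral_mono fun x => ?_
  have h2 := ENNReal.rpow_le_rpow (hF x) hq0.le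
  rw [ENNReal.mul_rpow_of_nonneg _ _ hq0.le] at h2
  refine h2.trans ?_
  have hc2 : Continuous fun t => v (x - t) - v x := by fun_prop
  have h3 := SVT.mol_hol (ρ := ρ) hq (a := fun t => ‖v (x - t) - v x‖ₑ) hc2.enorm.measurable
  rw [hneg x] at h3
  calc ENNReal.ofReal B ^ q * (∫⁻ t in Metric.ball (0 : Eu m) ρ, ‖v (x - t) - v x‖ₑ) ^ q
      ≤ ENNReal.ofReal B ^ q * (volume (Metric.ball (0 : Eu m) ρ) ^ (q - 1) *
        ∫⁻ t in Metric.ball (0 : Eu m) ρ, ‖v (x + t) - v x‖ₑ ^ q) := by gcongr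
    _ = (ENNReal.ofReal B ^ q * volume (Metric.ball (0 : Eu m) ρ) ^ (q - 1)) *
        ∫⁻ t in Metric.ball (0 : Eu m) ρ, ‖v (x + t) - v x‖ₑ ^ q := by ring
    _ ≤ ENNReal.ofReal D * ∫⁻ t in Metric.ball (0 : Eu m) ρ, ‖v (x + t) - v x‖ₑ ^ q := by
        gcongr
        rw [hvol, ENNReal.ofReal_rpow_of_nonneg hB hq0.le,
          ENNReal.ofReal_rpow_of_nonneg (by positivity) (by linarith),
          ← ENNReal.ofReal_mul (by positivity)]
        exact ENNReal.ofReal_le_ofReal hBD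

theorem mol_loc {m : ℕ} {q : ℝ} (hq : 1 < q) : ∃ C : ℝ, 0 ≤ C ∧
    ∀ v : Eu m → Eu m, ContDiff ℝ ∞ v → Per v → ∀ ρ : ℝ, 0 < ρ → ρ ≤ 1 →
    ∃ w : Eu m → Eu m, ContDiff ℝ ∞ w ∧ Per w ∧
      (∫⁻ x in cube m, ‖v x - w x‖ₑ ^ q) ≤ ENNReal.ofReal (C * ρ ^ (-(m : ℝ))) *
        ∫⁻ x in cube m, ∫⁻ h in Metric.ball (0 : Eu m) ρ, ‖v (x + h) - v x‖ₑ ^ q ∧
      (∫⁻ x in cube m, ‖fderiv ℝ w x‖ₑ ^ q) ≤ ENNReal.ofReal (C * ρ ^ (-(m : ℝ) - q)) *
        ∫⁻ x in cube m, ∫⁻ h in Metric.ball (0 : Eu m) ρ, ‖v (x + h) - v x‖ₑ ^ q := by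
  have hq0 : 0 < q := by linarith
  let φ : ContDiffBump (0 : Eu m) := ⟨1 / 4, 1 / 2, by norm_num, by norm_num⟩
  set k : Eu m → ℝ := φ.normed volume with hk
  have ks : ContDiff ℝ ∞ k := φ.contDiff_normed
  have kc : HasCompactSupport k := φ.hasCompactSupport_normed
  have ki : ∫ t, k t = 1 := φ.integral_normed
  have kt : tsupport k = Metric.closedBall 0 (1 / 2) := φ.tsupport_normed_eq
  have k0 : ∀ t, 1 ≤ ‖t‖ → k t = 0 := by
    intro t ht
    refine image_eq_zero_of_notMem_tsupport ?_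
    rw [kt, mem_closedBall_zero_iff]
    linarith
  have kd0 : ∀ t, 1 ≤ ‖t‖ → fderiv ℝ k t = 0 := by
    intro t ht
    by_contra h
    have h1 := support_fderiv_subset ℝ (f := k) h
    rw [kt, mem_closedBall_zero_iff] at h1
    linarith
  obtain ⟨A, hA⟩ := ks.continuous.bounded_above_of_compact_support kc
  obtain ⟨A', hA'⟩ := (ks.continuous_fderiv (by simp)).bounded_above_of_compact_support
    (kc.fderiv ℝ)
  have hA0 : 0 ≤ A := (norm_nonneg _).trans (hA 0)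
  have hA0' : 0 ≤ A' := (norm_nonneg _).trans (hA' 0)
  set c : ℝ := (volume (Metric.ball (0 : Eu m) 1)).toReal with hc
  have hc0 : 0 ≤ c := ENNReal.toReal_nonneg
  refine ⟨(A ^ q + A' ^ q) * c ^ (q - 1), by positivity, fun v hv hp ρ hρ _ => ?_⟩
  set K : Eu m → ℝ := fun t => (ρ ^ m)⁻¹ * k (ρ⁻¹ • t) with hK
  have hρm : 0 < ρ ^ m := by positivity
  have hbig : ∀ t : Eu m, ρ ≤ ‖t‖ → 1 ≤ ‖ρ⁻¹ • t‖ := by
    intro t ht
    rw [norm_smul, Real.norm_of_nonneg (by positivity), inv_mul_eq_div, le_div_iff₀ hρ]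
    linarith
  have Ks : ContDiff ℝ ∞ K := by fun_prop
  have K0 : ∀ t, ρ ≤ ‖t‖ → K t = 0 := by
    intro t ht
    rw [hK]
    simp only
    rw [k0 _ (hbig t ht), mul_zero]
  have Kc : HasCompactSupport K := by
    refine HasCompactSupport.intro (isCompact_closedBall 0 ρ) fun t ht => K0 t ?_
    rw [mem_closedBall_zero_iff, not_le] at ht
    exact ht.le
  have Ki : ∫ t, K t = 1 := by
    rw [hK, integral_const_mul, Measure.integral_comp_inv_smul_of_nonneg _ _ hρ.le, ki]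
    simp
    field_simp
  have Kd : ∀ t, HasFDerivAt K ((ρ ^ m)⁻¹ • ρ⁻¹ • fderiv ℝ k (ρ⁻¹ • t)) t := by
    intro t
    have h1 : HasFDerivAt k (fderiv ℝ k (ρ⁻¹ • t)) (ρ⁻¹ • t) :=
      ((ks.differentiable (by simp)) _).hasFDerivAt
    have h2 : HasFDerivAt (fun t : Eu m => ρ⁻¹ • t) (ρ⁻¹ • ContinuousLinearMap.id ℝ (Eu m)) t :=
      (hasFDerivAt_id t).const_smul ρ⁻¹
    have h3 := (h1.comp t h2).const_mul ((ρ ^ m)⁻¹)
    refine h3.congr_fderiv ?_
    ext z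
    simp
  have KB : ∀ t, ‖K t‖ ≤ A * (ρ ^ m)⁻¹ := by
    intro t
    rw [hK]
    simp only [norm_mul]
    rw [Real.norm_of_nonneg (inv_nonneg.2 hρm.le), mul_comm]
    exact mul_le_mul_of_nonneg_right (hA _) (inv_nonneg.2 hρm.le)
  have KdB : ∀ t, ‖fderiv ℝ K t‖ ≤ A' * ((ρ ^ m)⁻¹ * ρ⁻¹) := by
    intro t
    rw [(Kd t).fderiv, norm_smul, norm_smul, Real.norm_of_nonneg (inv_nonneg.2 hρm.le),
      Real.norm_of_nonneg (inv_nonneg.2 hρ.le), ← mul_assoc, mul_comm]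
    exact mul_le_mul_of_nonneg_right (hA' _) (by positivity)
  have Kd0 : ∀ t, ρ ≤ ‖t‖ → fderiv ℝ K t = 0 := by
    intro t ht
    rw [(Kd t).fderiv, kd0 _ (hbig t ht)]
    simp
  have hvc : Continuous v := hv.continuous
  set w : Eu m → Eu m := fun x => ∫ t, K t • v (x - t) with hw
  have hwc : w = convolution K v (ContinuousLinearMap.lsmul ℝ ℝ) volume := by
    ext1 x
    rfl
  have hint : ∀ u : Eu m → Eu m, Continuous u → Integrable (fun t => K t • u t) := fun u hu =>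
    (Ks.continuous.smul hu).integrable_of_hasCompactSupport Kc.smul_right
  have hw1 : ∀ x c, w x = c + ∫ t, K t • (v (x - t) - c) := by
    intro x c
    have h1 : ∫ t, K t • (v (x - t) - c) = (∫ t, K t • v (x - t)) - ∫ t, K t • c := by
      rw [← integral_sub (hint _ (by fun_prop)) (hint _ continuous_const)]
      refine integral_congr_ae (Filter.Eventually.of_forall fun t => ?_)
      simp only [smul_sub]
    rw [h1, integral_smul_const, Ki, one_smul]
    simp [hw]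
  have hρM : ρ ^ (m : ℝ) = ρ ^ m := Real.rpow_natCast ρ m
  have hρq : (ρ ^ m) ^ (q - 1) = (ρ ^ m) ^ q / ρ ^ m := by
    rw [Real.rpow_sub hρm, Real.rpow_one]
  have hρmq : 0 < (ρ ^ m) ^ q := Real.rpow_pos_of_pos hρm _
  refine ⟨w, ?_, ?_, ?_, ?_⟩
  · rw [hwc]
    exact Kc.contDiff_convolution_left _ Ks hvc.locallyIntegrable
  · intro x l
    simp only [hw]
    refine integral_congr_ae (Filter.Eventually.of_forall fun t => ?_)
    simp only
    rw [add_sub_right_comm, hp]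
  · refine mls_est (B := A * (ρ ^ m)⁻¹) hq hρ (by positivity) (by positivity) ?_ hvc
      (fun x => v x - w x) (fun x => ?_)
    · rw [← hc, Real.mul_rpow hA0 (by positivity), Real.mul_rpow hρm.le hc0,
        Real.inv_rpow hρm.le, hρq, Real.rpow_neg hρ.le, hρM]
      have h2 : A ^ q * ((ρ ^ m) ^ q)⁻¹ * ((ρ ^ m) ^ q / ρ ^ m * c ^ (q - 1)) =
          A ^ q * c ^ (q - 1) * (ρ ^ m)⁻¹ := by
        field_simp
      rw [h2]
      have h3 : 0 ≤ A' ^ q * c ^ (q - 1) * (ρ ^ m)⁻¹ := by positivity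
      nlinarith
    · rw [hw1 x (v x), sub_add_cancel_left, enorm_neg]
      refine (enorm_integral_le_lintegral_enorm _).trans ?_
      simp only [enorm_smul]
      exact SVT.mol_ker KB K0
  · have hd : ∀ x, ‖fderiv ℝ w x‖ₑ ≤ ∫⁻ t, ‖fderiv ℝ K t‖ₑ * ‖v (x - t) - v x‖ₑ := by
      intro x
      have h1 := Kc.hasFDerivAt_convolution_left (μ := volume) (ContinuousLinearMap.lsmul ℝ ℝ)
        (g := fun z => v z - v x) (Ks.of_le (by simp)) (by fun_prop : Continuous _).locallyIntegrable x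
      have h2 : w = fun y => v x + convolution K (fun z => v z - v x)
          (ContinuousLinearMap.lsmul ℝ ℝ) volume y := by
        ext1 y
        rw [hw1 y (v x)]
        rfl
      have h3 := h1.const_add (v x)
      rw [← h2] at h3
      rw [h3.fderiv, convolution_def]
      refine (enorm_integral_le_lintegral_enorm _).trans (lintegral_mono fun t => ?_)
      rw [← ofReal_norm, ← ofReal_norm, ← ofReal_norm, ← ENNReal.ofReal_mul (norm_nonneg _)]
      refine ENNReal.ofReal_le_ofReal ?_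
      refine (ContinuousLinearMap.le_opNorm₂ _ _ _).trans ?_
      have h4 : ‖ContinuousLinearMap.precompL (Eu m)
          (ContinuousLinearMap.lsmul ℝ ℝ : ℝ →L[ℝ] Eu m →L[ℝ] Eu m)‖ ≤ 1 :=
        (ContinuousLinearMap.norm_precompL_le (Eu m) _).trans ContinuousLinearMap.opNorm_lsmul_le
      calc _ ≤ 1 * ‖fderiv ℝ K t‖ * ‖v (x - t) - v x‖ := by gcongr
        _ = _ := by ring
    refine mls_est (B := A' * ((ρ ^ m)⁻¹ * ρ⁻¹)) hq hρ (by positivity) (by positivity) ?_ hvc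
      (fun x => fderiv ℝ w x) (fun x => (hd x).trans (SVT.mol_ker KdB Kd0))
    rw [← hc, Real.mul_rpow hA0' (by positivity), Real.mul_rpow (by positivity) (by positivity),
      Real.mul_rpow hρm.le hc0, Real.inv_rpow hρm.le, Real.inv_rpow hρ.le, hρq, Real.rpow_sub hρ,
      Real.rpow_neg hρ.le, hρM]
    have hρq' : 0 < ρ ^ q := Real.rpow_pos_of_pos hρ _
    have h2 : A' ^ q * (((ρ ^ m) ^ q)⁻¹ * (ρ ^ q)⁻¹) * ((ρ ^ m) ^ q / ρ ^ m * c ^ (q - 1)) =
        A' ^ q * c ^ (q - 1) * ((ρ ^ m)⁻¹ / ρ ^ q) := by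
      field_simp
    rw [h2]
    have h3 : 0 ≤ A ^ q * c ^ (q - 1) * ((ρ ^ m)⁻¹ / ρ ^ q) := by positivity
    nlinarith

end

end FS
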