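import Pool.Agent.FS.Defs
import Pool.Agent.FS.Mls
import Pool.Agent.H68.VD.Tr

/-!
# Project FS (MP_b0bf68_gt), EP-2: mollification of periodic fields at all dyadic scales
-/

set_option autoImplicit false

open MeasureTheory Set Pool.Agent.H68.VD TN SVT
open scoped ENNReal ContDiff

namespace FS

noncomputable section

/-- the sum over the dyadic scales above `a` -/
theorem scl_sum {E : ℝ} (hE : 0 < E) (a : ℝ) (J : ℕ) : ∀ η : ℝ, 0 < η →
    ∑ j ∈ Finset.range J, (if a < 2 ^ j * η then (2 ^ j * η : ℝ) ^ (-E) else 0) ≤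
      (1 - (2 : ℝ) ^ (-E))⁻¹ * (max a η) ^ (-E) := by
  have h2 : (2 : ℝ) ^ (-E) < 1 := Real.rpow_lt_one_of_one_lt_of_neg one_lt_two (by linarith)
  have hK : 0 < (1 - (2 : ℝ) ^ (-E))⁻¹ := inv_pos.2 (by linarith)
  induction J with
  | zero =>
    intro η hη
    have : 0 < max a η := lt_max_of_lt_right hη
    simp only [Finset.range_zero, Finset.sum_empty]
    positivity
  | succ J ih =>
    intro η hη
    rw [Finset.sum_range_succ']
    have h3 : ∑ j ∈ Finset.range J,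
        (if a < 2 ^ (j + 1) * η then (2 ^ (j + 1) * η : ℝ) ^ (-E) else 0) =
        ∑ j ∈ Finset.range J, (if a < 2 ^ j * (2 * η) then (2 ^ j * (2 * η) : ℝ) ^ (-E) else 0) := by
      refine Finset.sum_congr rfl fun j _ => ?_
      rw [pow_succ, mul_assoc]
    rw [h3]
    have h4 := ih (2 * η) (by linarith)
    simp only [pow_zero, one_mul]
    by_cases ha : a < η
    · rw [if_pos ha]
      have h5 : max a (2 * η) = 2 * η := max_eq_right (by linarith)
      have h6 : max a η = η := max_eq_right ha.le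
      rw [h5] at h4
      rw [h6]
      rw [Real.mul_rpow (by norm_num) hη.le] at h4
      have h7 : (1 - (2 : ℝ) ^ (-E))⁻¹ * (2 ^ (-E) * η ^ (-E)) + η ^ (-E) =
          (1 - (2 : ℝ) ^ (-E))⁻¹ * η ^ (-E) := by
        have h8 : (1 - (2 : ℝ) ^ (-E)) ≠ 0 := by linarith
        field_simp
        ring
      linarith
    · rw [if_neg ha, add_zero]
      rw [not_lt] at ha
      refine h4.trans ?_
      refine mul_le_mul_of_nonneg_left ?_ hK.le
      refine Real.rpow_le_rpow_of_nonpos (lt_max_of_lt_right hη) ?_ (by linarith)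
      rw [max_eq_left ha]
      exact le_max_left _ _

/-- a sum of lower integrals -/
theorem scl_add {α : Type*} [MeasurableSpace α] (μ : Measure α) (J : ℕ) (F : ℕ → α → ℝ≥0∞) :
    ∑ j ∈ Finset.range J, ∫⁻ x, F j x ∂μ ≤ ∫⁻ x, ∑ j ∈ Finset.range J, F j x ∂μ := by
  induction J with
  | zero => simp
  | succ J ih =>
    simp only [Finset.sum_range_succ]
    exact (add_le_add_left ih _).trans (le_lintegral_add _ _)

/-- the sum over the scales of the local integrals -/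
theorem scl_gag {m : ℕ} {τ q : ℝ} (hτ : 0 < τ) (hq : 1 < q) {D : ℝ} (hD : 0 ≤ D)
    {v : Eu m → Eu m} (J : ℕ) {η : ℝ} (hη : 0 < η) (hJ : 2 ^ J * η ≤ 1) :
    ∑ j ∈ Finset.range J, ENNReal.ofReal (D * (2 ^ j * η) ^ (-((m : ℝ) + τ * q))) *
      (∫⁻ x in cube m, ∫⁻ h in Metric.ball (0 : Eu m) (2 ^ j * η), ‖v (x + h) - v x‖ₑ ^ q) ≤
    ENNReal.ofReal (D * (1 - (2 : ℝ) ^ (-((m : ℝ) + τ * q)))⁻¹) * gag 0 τ q v := by
  have hE : 0 < (m : ℝ) + τ * q := by positivity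
  set E : ℝ := (m : ℝ) + τ * q with hEd
  have h2 : (2 : ℝ) ^ (-E) < 1 := Real.rpow_lt_one_of_one_lt_of_neg one_lt_two (by linarith)
  have hK : 0 < (1 - (2 : ℝ) ^ (-E))⁻¹ := inv_pos.2 (by linarith)
  have hρ : ∀ j ∈ Finset.range J, (2 : ℝ) ^ j * η ≤ 1 := by
    intro j hj
    refine le_trans ?_ hJ
    refine mul_le_mul_of_nonneg_right ?_ hη.le
    exact pow_le_pow_right₀ one_le_two (Finset.mem_range.1 hj).le
  have h3 : ∀ j ∈ Finset.range J, ENNReal.ofReal (D * (2 ^ j * η) ^ (-E)) *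
      (∫⁻ x in cube m, ∫⁻ h in Metric.ball (0 : Eu m) (2 ^ j * η), ‖v (x + h) - v x‖ₑ ^ q) =
      ∫⁻ x in cube m, ∫⁻ h in Metric.ball (0 : Eu m) 1,
        ENNReal.ofReal (D * if ‖h‖ < 2 ^ j * η then (2 ^ j * η) ^ (-E) else 0) *
          ‖v (x + h) - v x‖ₑ ^ q := by
    intro j hj
    rw [← lintegral_const_mul' _ _ ENNReal.ofReal_ne_top]
    refine lintegral_congr fun x => ?_
    rw [← lintegral_const_mul' _ _ ENNReal.ofReal_ne_top]
    rw [← lintegral_indicator measurableSet_ball, ← lintegral_indicator measurableSet_ball]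
    refine lintegral_congr fun h => ?_
    by_cases hh : ‖h‖ < 2 ^ j * η
    · rw [indicator_of_mem (by simpa using hh), indicator_of_mem
        (by simpa using hh.trans_le (hρ j hj)), if_pos hh]
    · rw [indicator_of_notMem (by simpa using hh)]
      symm
      by_cases h1 : h ∈ Metric.ball (0 : Eu m) 1
      · rw [indicator_of_mem h1, if_neg hh]
        simp
      · rw [indicator_of_notMem h1]
  rw [Finset.sum_congr rfl h3]
  refine (scl_add _ J _).trans ?_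
  unfold gag
  rw [← lintegral_const_mul' _ _ ENNReal.ofReal_ne_top]
  refine lintegral_mono fun x => ?_
  refine (scl_add _ J _).trans ?_
  rw [← lintegral_const_mul' _ _ ENNReal.ofReal_ne_top]
  refine lintegral_mono fun h => ?_
  simp only
  rw [← Finset.sum_mul, ← ENNReal.ofReal_sum_of_nonneg (fun j _ => by positivity), ← Finset.mul_sum]
  have hd : dnorm 0 (fun y => v (y + h) - v y) x = ‖v (x + h) - v x‖ₑ := by
    rw [dnorm, ← ofReal_norm, norm_iteratedFDeriv_zero]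
  rw [hd]
  rcases eq_or_ne h 0 with rfl | h0
  · simp only [add_zero, sub_self, enorm_zero]
    rw [ENNReal.zero_rpow_of_pos (by linarith)]
    simp
  · have h0' : 0 < ‖h‖ := norm_pos_iff.2 h0
    have h5 := scl_sum hE ‖h‖ J η hη
    have h6 : (1 - (2 : ℝ) ^ (-E))⁻¹ * (max ‖h‖ η) ^ (-E) ≤ (1 - (2 : ℝ) ^ (-E))⁻¹ * ‖h‖ ^ (-E) := by
      refine mul_le_mul_of_nonneg_left ?_ hK.le
      exact Real.rpow_le_rpow_of_nonpos h0' (le_max_left _ _) (by linarith)
    have h7 : ENNReal.ofReal (D * ∑ j ∈ Finset.range J,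
        (if ‖h‖ < 2 ^ j * η then (2 ^ j * η : ℝ) ^ (-E) else 0)) ≤
        ENNReal.ofReal (D * (1 - (2 : ℝ) ^ (-E))⁻¹) / ‖h‖ₑ ^ E := by
      rw [← ofReal_norm, ENNReal.ofReal_rpow_of_pos h0', ← ENNReal.ofReal_div_of_pos (by positivity)]
      refine ENNReal.ofReal_le_ofReal ?_
      calc D * _ ≤ D * ((1 - (2 : ℝ) ^ (-E))⁻¹ * ‖h‖ ^ (-E)) :=
            mul_le_mul_of_nonneg_left (h5.trans h6) hD
        _ = _ := by rw [Real.rpow_neg h0'.le]; ring
    calc _ ≤ ENNReal.ofReal (D * (1 - (2 : ℝ) ^ (-E))⁻¹) / ‖h‖ₑ ^ E * ‖v (x + h) - v x‖ₑ ^ q := by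
          gcongr
      _ = _ := by rw [div_eq_mul_inv, div_eq_mul_inv]; ring

theorem mol_sum {m : ℕ} {τ q : ℝ} (hτ : 0 < τ) (hτ1 : τ < 1) (hq : 1 < q) : ∃ C : ℝ, 0 ≤ C ∧
    ∀ v : Eu m → Eu m, ContDiff ℝ ∞ v → Per v → slobP τ q v ≤ 1 → ∀ (J : ℕ) (η : ℝ), 0 < η →
    2 ^ J * η ≤ 1 → ∃ w : ℕ → Eu m → Eu m, (∀ j, ContDiff ℝ ∞ (w j) ∧ Per (w j)) ∧
      ∑ j ∈ Finset.range J, (ENNReal.ofReal ((2 ^ j * η) ^ (-τ)) *
        (∫⁻ x in cube m, ‖v x - w j x‖ₑ ^ q) ^ (1 / q)) ^ q ≤ ENNReal.ofReal C ∧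
      ∑ j ∈ Finset.range J, (ENNReal.ofReal ((2 ^ j * η) ^ (1 - τ)) *
        (∫⁻ x in cube m, ‖fderiv ℝ (w j) x‖ₑ ^ q) ^ (1 / q)) ^ q ≤ ENNReal.ofReal C := by
  have hq0 : 0 < q := by linarith
  obtain ⟨D, hD, hmol⟩ := mol_loc (m := m) hq
  have hE : 0 < (m : ℝ) + τ * q := by positivity
  have h2 : (2 : ℝ) ^ (-((m : ℝ) + τ * q)) < 1 :=
    Real.rpow_lt_one_of_one_lt_of_neg one_lt_two (by linarith)
  have hK : 0 < (1 - (2 : ℝ) ^ (-((m : ℝ) + τ * q)))⁻¹ := inv_pos.2 (by linarith)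
  refine ⟨D * (1 - (2 : ℝ) ^ (-((m : ℝ) + τ * q)))⁻¹, by positivity,
    fun v hv hp hs J η hη hJ => ?_⟩
  have hg : gag 0 τ q v ≤ 1 := by
    have h1 : ⌊τ⌋₊ = 0 := Nat.floor_eq_zero.2 hτ1
    refine le_trans ?_ hs
    unfold slobP
    rw [h1]
    simp only [Nat.cast_zero, sub_zero, hτ, if_true]
    exact le_add_self
  have hρ : ∀ j, j < J → (2 : ℝ) ^ j * η ≤ 1 := by
    intro j hj
    refine le_trans ?_ hJ
    refine mul_le_mul_of_nonneg_right ?_ hη.le
    exact pow_le_pow_right₀ one_le_two hj.le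
  have hex : ∀ j, ∃ w : Eu m → Eu m, (ContDiff ℝ ∞ w ∧ Per w) ∧ (j < J →
      (∫⁻ x in cube m, ‖v x - w x‖ₑ ^ q) ≤ ENNReal.ofReal (D * (2 ^ j * η) ^ (-(m : ℝ))) *
        ∫⁻ x in cube m, ∫⁻ h in Metric.ball (0 : Eu m) (2 ^ j * η), ‖v (x + h) - v x‖ₑ ^ q ∧
      (∫⁻ x in cube m, ‖fderiv ℝ w x‖ₑ ^ q) ≤ ENNReal.ofReal (D * (2 ^ j * η) ^ (-(m : ℝ) - q)) *
        ∫⁻ x in cube m, ∫⁻ h in Metric.ball (0 : Eu m) (2 ^ j * η),
          ‖v (x + h) - v x‖ₑ ^ q) := by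
    intro j
    by_cases hj : j < J
    · obtain ⟨w, h1, h2, h3, h4⟩ := hmol v hv hp (2 ^ j * η) (by positivity) (hρ j hj)
      exact ⟨w, ⟨h1, h2⟩, fun _ => ⟨h3, h4⟩⟩
    · exact ⟨v, ⟨hv, hp⟩, fun h => absurd h hj⟩
  choose w hw1 hw2 using hex
  refine ⟨w, hw1, ?_, ?_⟩
  · calc _ ≤ ∑ j ∈ Finset.range J, ENNReal.ofReal (D * (2 ^ j * η) ^ (-((m : ℝ) + τ * q))) *
      (∫⁻ x in cube m, ∫⁻ h in Metric.ball (0 : Eu m) (2 ^ j * η), ‖v (x + h) - v x‖ₑ ^ q) := by
          refine Finset.sum_le_sum fun j hj => ?_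
          have hj' := Finset.mem_range.1 hj
          have hpos : (0 : ℝ) < 2 ^ j * η := by positivity
          rw [ENNReal.mul_rpow_of_nonneg _ _ hq0.le, ← ENNReal.rpow_mul,
            one_div_mul_cancel hq0.ne', ENNReal.rpow_one,
            ENNReal.ofReal_rpow_of_nonneg (by positivity) hq0.le, ← Real.rpow_mul hpos.le]
          refine (mul_le_mul_right (hw2 j hj').1 _).trans (le_of_eq ?_)
          rw [← mul_assoc, ← ENNReal.ofReal_mul (by positivity)]
          congr 2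
          rw [mul_left_comm, ← Real.rpow_add hpos]
          congr 2
          ring
      _ ≤ _ := scl_gag hτ hq hD J hη hJ
      _ ≤ _ := by
          refine (mul_le_mul_right hg _).trans ?_
          rw [mul_one]
  · calc _ ≤ ∑ j ∈ Finset.range J, ENNReal.ofReal (D * (2 ^ j * η) ^ (-((m : ℝ) + τ * q))) *
      (∫⁻ x in cube m, ∫⁻ h in Metric.ball (0 : Eu m) (2 ^ j * η), ‖v (x + h) - v x‖ₑ ^ q) := by
          refine Finset.sum_le_sum fun j hj => ?_
          have hj' := Finset.mem_range.1 hj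
          have hpos : (0 : ℝ) < 2 ^ j * η := by positivity
          rw [ENNReal.mul_rpow_of_nonneg _ _ hq0.le, ← ENNReal.rpow_mul,
            one_div_mul_cancel hq0.ne', ENNReal.rpow_one,
            ENNReal.ofReal_rpow_of_nonneg (by positivity) hq0.le, ← Real.rpow_mul hpos.le]
          refine (mul_le_mul_right (hw2 j hj').2 _).trans (le_of_eq ?_)
          rw [← mul_assoc, ← ENNReal.ofReal_mul (by positivity)]
          congr 2
          rw [mul_left_comm, ← Real.rpow_add hpos]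
          congr 2
          ring
      _ ≤ _ := scl_gag hτ hq hD J hη hJ
      _ ≤ _ := by
          refine (mul_le_mul_right hg _).trans ?_
          rw [mul_one]

end

end FS
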