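import Pool.Agent.FS.Defs
import Pool.Agent.FS.Scl
import Pool.Agent.SVT.Grd
import Pool.Agent.SVT.Ibp
import Pool.Agent.SVT.EE

/-!
# Project FS, row EP-3: the grid has capacity zero at the critical order
-/

set_option autoImplicit false

open MeasureTheory Set Pool.Agent.H68.VD TN SVT
open scoped ENNReal ContDiff

namespace FS

noncomputable section

variable {n : ℕ} {P : Set (Eu (n + n) → Eu (n + n))}

private theorem cpt_J (y : Eu (n + n)) : Jm (-(Jm y)) = y := by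
  refine ext_qp ?_ ?_
  · simp [Jm]
  · simp [Jm]

private theorem cpt_sgr {G : Eu (n + n) → ℝ} (hG : ContDiff ℝ ∞ G) (x : Eu (n + n)) :
    HasFDerivAt G (innerSL ℝ (Jm (sgr G x))) x := by
  have h1 : HasFDerivAt G (fderiv ℝ G x) x := (hG.differentiable (by simp) x).hasFDerivAt
  have h2 : innerSL ℝ (Jm (sgr G x)) = fderiv ℝ G x := by
    ext v
    show inner ℝ (Jm (-(Jm (gradient G x)))) v = fderiv ℝ G x v
    rw [cpt_J]
    exact InnerProductSpace.toDual_symm_apply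
  rw [h2]
  exact h1

private theorem cpt_cont {G : Eu (n + n) → ℝ} (hG : ContDiff ℝ ∞ G) : Continuous (sgr G) := by
  have h1 : Continuous (gradient G) :=
    (InnerProductSpace.toDual ℝ (Eu (n + n))).symm.continuous.comp
      (hG.continuous_fderiv (by simp))
  exact ((JL n).continuous.comp h1).neg

/-- the field is linear in the function -/
private theorem cpt_sum {J : ℕ} {c : ℝ} {G : ℕ → Eu (n + n) → ℝ} (hG : ∀ j ∈ Finset.range J, ContDiff ℝ ∞ (G j))
    (x : Eu (n + n)) : sgr (fun x => c * ∑ j ∈ Finset.range J, G j x) x =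
      c • ∑ j ∈ Finset.range J, sgr (G j) x := by
  have hd : ∀ j ∈ Finset.range J, DifferentiableAt ℝ (G j) x := fun j hj =>
    (hG j hj).differentiable (by simp) x
  have h1 : fderiv ℝ (fun x => c * ∑ j ∈ Finset.range J, G j x) x =
      c • ∑ j ∈ Finset.range J, fderiv ℝ (G j) x := by
    have h2 : HasFDerivAt (fun x => ∑ j ∈ Finset.range J, G j x)
        (∑ j ∈ Finset.range J, fderiv ℝ (G j) x) x :=
      HasFDerivAt.fun_sum fun j hj => (hd j hj).hasFDerivAt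
    exact (h2.const_mul c).fderiv
  have h3 : gradient (fun x => c * ∑ j ∈ Finset.range J, G j x) x =
      c • ∑ j ∈ Finset.range J, gradient (G j) x := by
    unfold gradient
    rw [h1, map_smul, map_sum]
  show -Jm _ = c • ∑ j ∈ Finset.range J, -Jm (gradient (G j) x)
  rw [h3, Finset.sum_neg_distrib, smul_neg]
  congr 1
  have h4 := (JL n).map_smul c (∑ j ∈ Finset.range J, gradient (G j) x)
  have h5 := map_sum (JL n) (fun j => gradient (G j) x) (Finset.range J)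
  rw [h5] at h4
  exact h4

/-- the norms of the product with a cut-off function -/
private theorem cpt_norms {p B D μ : ℝ} (hp : 1 < p) (hB : 0 ≤ B) (hD : 0 ≤ D) (hμ : 0 ≤ μ)
    {A X : Eu (n + n) → ℝ} {S : Set (Eu (n + n))} (hA : ContDiff ℝ ∞ A) (hX : ContDiff ℝ ∞ X)
    (hA1 : ∀ x, |A x| ≤ B) (hA2 : ∀ x, ‖fderiv ℝ A x‖ ≤ B) (hX1 : ∀ x, 0 ≤ X x ∧ X x ≤ 1)
    (hX2 : ∀ x, ‖fderiv ℝ X x‖ ≤ D) (hS : MeasurableSet S)
    (hS0 : ∀ x ∉ S, ∀ᶠ y in nhds x, X y = 0) (hv : volume (S ∩ cube (n + n)) ≤ ENNReal.ofReal μ) :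
    nH p (fun x => A x * X x) ≤ ENNReal.ofReal B * ENNReal.ofReal (μ ^ (1 / p)) ∧
      nD p (fun x => A x * X x) ≤ ENNReal.ofReal (B * (1 + D)) * ENNReal.ofReal (μ ^ (1 / p)) := by
  have hXa : ∀ x, |X x| ≤ 1 := fun x => abs_le.2 ⟨by linarith [(hX1 x).1], (hX1 x).2⟩
  constructor
  · refine EE_aux_supp hp hμ hS (fun x => ?_) (fun x hx => ?_) hv
    · rw [norm_mul, Real.norm_eq_abs, Real.norm_eq_abs]
      calc |A x| * |X x| ≤ B * 1 := mul_le_mul (hA1 x) (hXa x) (abs_nonneg _) hB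
        _ = B := mul_one B
    · rw [(hS0 x hx).self_of_nhds, mul_zero]
  · refine EE_aux_supp hp hμ hS (fun x => ?_) (fun x hx => ?_) hv
    · have h1 : fderiv ℝ (fun x => A x * X x) x = A x • fderiv ℝ X x + X x • fderiv ℝ A x :=
        fderiv_fun_mul (hA.differentiable (by simp) x) (hX.differentiable (by simp) x)
      rw [h1]
      refine (norm_add_le _ _).trans ?_
      rw [norm_smul, norm_smul, Real.norm_eq_abs, Real.norm_eq_abs]
      have h2 : |A x| * ‖fderiv ℝ X x‖ ≤ B * D :=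
        mul_le_mul (hA1 x) (hX2 x) (norm_nonneg _) hB
      have h3 : |X x| * ‖fderiv ℝ A x‖ ≤ 1 * B :=
        mul_le_mul (hXa x) (hA2 x) (norm_nonneg _) zero_le_one
      linarith
    · have h1 : (fun x => A x * X x) =ᶠ[nhds x] fun _ => 0 :=
        (hS0 x hx).mono fun y hy => by
          show A y * X y = 0
          rw [hy, mul_zero]
      rw [h1.fderiv_eq]
      exact fderiv_const_apply 0

/-- one scale -/
private theorem cpt_one {p B C CH a : ℝ} (hp : 1 < p) (hB : 0 ≤ B) (hC : 0 ≤ C) (hCH : 0 ≤ CH)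
    (hH : ∀ (H : Eu (n + n) → ℝ) (V v : Eu (n + n) → Eu (n + n)), ContDiff ℝ ∞ H → Per H →
      Continuous V → (∀ x, HasFDerivAt H (innerSL ℝ (Jm (V x))) x) → ContDiff ℝ ∞ v → Per v →
      ENNReal.ofReal |∫ x in cube (n + n), inner ℝ (V x) (v x)| ≤ ENNReal.ofReal CH * (nH p H *
        (∫⁻ x in cube (n + n), ‖fderiv ℝ v x‖ₑ ^ (p / (p - 1))) ^ (1 / (p / (p - 1)))))
    {M : ℕ} (ha : 0 < a) (ha1 : a ≤ 1)
    {A X : Eu (n + n) → ℝ} {S : Set (Eu (n + n))} (hA : ContDiff ℝ ∞ A) (hAp : Per A)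
    (hX : ContDiff ℝ ∞ X) (hXp : Per X)
    (hA1 : ∀ x, |A x| ≤ B) (hA2 : ∀ x, ‖fderiv ℝ A x‖ ≤ B) (hX1 : ∀ x, 0 ≤ X x ∧ X x ≤ 1)
    (hX2 : ∀ x, ‖fderiv ℝ X x‖ ≤ C * M / a) (hS : MeasurableSet S)
    (hS0 : ∀ x ∉ S, ∀ᶠ y in nhds x, X y = 0)
    (hv : volume (S ∩ cube (n + n)) ≤ ENNReal.ofReal (C * a ^ n))
    {v w : Eu (n + n) → Eu (n + n)} (hv1 : ContDiff ℝ ∞ v) (hw : ContDiff ℝ ∞ w) (hwp : Per w) :
    ENNReal.ofReal |∫ x in cube (n + n), inner ℝ (sgr (fun x => A x * X x) x) (v x)| ≤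
      ENNReal.ofReal ((1 + CH) * (B * (1 + C * M)) * C ^ (1 / p)) *
        (ENNReal.ofReal (a ^ (-(1 - (n : ℝ) / p))) *
          (∫⁻ x in cube (n + n), ‖v x - w x‖ₑ ^ (p / (p - 1))) ^ (1 / (p / (p - 1))) +
        ENNReal.ofReal (a ^ (1 - (1 - (n : ℝ) / p))) *
          (∫⁻ x in cube (n + n), ‖fderiv ℝ w x‖ₑ ^ (p / (p - 1))) ^ (1 / (p / (p - 1)))) := by
  have hAX : ContDiff ℝ ∞ (fun x => A x * X x) := hA.mul hX
  have hAXp : Per (fun x => A x * X x) := fun x k => by simp only [hAp x k, hXp x k]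
  have hμ : (0 : ℝ) ≤ C * a ^ n := by positivity
  obtain ⟨e1, e2⟩ := cpt_norms hp hB (by positivity : (0 : ℝ) ≤ C * M / a) hμ hA hX hA1 hA2 hX1 hX2
    hS hS0 hv
  have hc := cpt_cont hAX
  have hd := cpt_sgr hAX
  have h1 := pair_D (v := fun x => v x - w x) hp hAX hc hd (hv1.continuous.sub hw.continuous)
  have h2 := hH _ _ w hAX hAXp hc hd hw hwp
  have hi1 : IntegrableOn (fun x => inner ℝ (sgr (fun x => A x * X x) x) (v x - w x))
      (cube (n + n)) volume := HsA.int_cube (hc.inner (hv1.continuous.sub hw.continuous))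
  have hi2 : IntegrableOn (fun x => inner ℝ (sgr (fun x => A x * X x) x) (w x))
      (cube (n + n)) volume := HsA.int_cube (hc.inner hw.continuous)
  have h3 : ∫ x in cube (n + n), inner ℝ (sgr (fun x => A x * X x) x) (v x) =
      (∫ x in cube (n + n), inner ℝ (sgr (fun x => A x * X x) x) (v x - w x)) +
        ∫ x in cube (n + n), inner ℝ (sgr (fun x => A x * X x) x) (w x) := by
    rw [← integral_add hi1 hi2]
    refine integral_congr_ae (Filter.Eventually.of_forall fun x => ?_)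
    show inner ℝ _ _ = inner ℝ _ _ + inner ℝ _ _
    rw [← inner_add_right, sub_add_cancel]
  have h4 : ENNReal.ofReal |∫ x in cube (n + n), inner ℝ (sgr (fun x => A x * X x) x) (v x)| ≤
      ENNReal.ofReal |∫ x in cube (n + n), inner ℝ (sgr (fun x => A x * X x) x) (v x - w x)| +
        ENNReal.ofReal |∫ x in cube (n + n), inner ℝ (sgr (fun x => A x * X x) x) (w x)| := by
    rw [h3, ← ENNReal.ofReal_add (abs_nonneg _) (abs_nonneg _)]
    exact ENNReal.ofReal_le_ofReal (abs_add_le _ _)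
  have hp0 : (0 : ℝ) < 1 / p := by positivity
  have e3 : (C * a ^ n) ^ (1 / p) = C ^ (1 / p) * a ^ ((n : ℝ) / p) := by
    rw [Real.mul_rpow hC (by positivity), ← Real.rpow_natCast, ← Real.rpow_mul ha.le, mul_one_div]
  have hCp : 0 ≤ C ^ (1 / p) := Real.rpow_nonneg hC _
  have hCM : 0 ≤ C * (M : ℝ) := by positivity
  obtain ⟨K, hK⟩ : ∃ K, K = (1 + CH) * (B * (1 + C * M)) * C ^ (1 / p) := ⟨_, rfl⟩
  -- the bound of the derivative
  have h5 : nD p (fun x => A x * X x) ≤ ENNReal.ofReal K * ENNReal.ofReal (a ^ (-(1 - (n : ℝ) / p))) := by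
    refine e2.trans ?_
    rw [← ENNReal.ofReal_mul (by positivity), ← ENNReal.ofReal_mul (by rw [hK]; positivity)]
    apply ENNReal.ofReal_le_ofReal
    have e4 : a ^ (-(1 - (n : ℝ) / p)) = a⁻¹ * a ^ ((n : ℝ) / p) := by
      rw [neg_sub, Real.rpow_sub ha, Real.rpow_one]
      ring
    rw [e3, e4, hK]
    have h6 : 1 + C * M / a ≤ (1 + C * M) * a⁻¹ := by
      have h7 : 1 ≤ a⁻¹ := (one_le_inv₀ ha).2 ha1
      rw [div_eq_mul_inv]
      nlinarith
    have h8 : 0 ≤ a ^ ((n : ℝ) / p) := by positivity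
    have h9 : 0 ≤ a⁻¹ := by positivity
    calc B * (1 + C * M / a) * (C ^ (1 / p) * a ^ ((n : ℝ) / p))
        ≤ B * ((1 + C * M) * a⁻¹) * (C ^ (1 / p) * a ^ ((n : ℝ) / p)) := by gcongr
      _ = 1 * ((B * (1 + C * M) * C ^ (1 / p)) * (a⁻¹ * a ^ ((n : ℝ) / p))) := by ring
      _ ≤ (1 + CH) * ((B * (1 + C * M) * C ^ (1 / p)) * (a⁻¹ * a ^ ((n : ℝ) / p))) := by
          gcongr
          linarith
      _ = _ := by ring
  have h6 : ENNReal.ofReal CH * nH p (fun x => A x * X x) ≤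
      ENNReal.ofReal K * ENNReal.ofReal (a ^ (1 - (1 - (n : ℝ) / p))) := by
    calc ENNReal.ofReal CH * nH p (fun x => A x * X x)
        ≤ ENNReal.ofReal CH * (ENNReal.ofReal B * ENNReal.ofReal ((C * a ^ n) ^ (1 / p))) := by
          gcongr
      _ = ENNReal.ofReal (CH * (B * (C * a ^ n) ^ (1 / p))) := by
          rw [← ENNReal.ofReal_mul hB, ← ENNReal.ofReal_mul hCH]
      _ ≤ _ := by
          rw [← ENNReal.ofReal_mul (by rw [hK]; positivity)]
          apply ENNReal.ofReal_le_ofReal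
          have e4 : a ^ (1 - (1 - (n : ℝ) / p)) = a ^ ((n : ℝ) / p) := by
            rw [sub_sub_cancel]
          rw [e3, e4, hK]
          have h8 : 0 ≤ a ^ ((n : ℝ) / p) := by positivity
          calc CH * (B * (C ^ (1 / p) * a ^ ((n : ℝ) / p)))
              = (CH * (B * 1)) * C ^ (1 / p) * a ^ ((n : ℝ) / p) := by ring
            _ ≤ ((1 + CH) * (B * (1 + C * M))) * C ^ (1 / p) * a ^ ((n : ℝ) / p) := by
                gcongr
                · linarith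
                · linarith
            _ = _ := by ring
  rw [← hK]
  refine h4.trans ?_
  rw [mul_add]
  refine add_le_add ?_ ?_
  · refine h1.trans ?_
    rw [← mul_assoc]
    gcongr
  · refine h2.trans ?_
    rw [← mul_assoc, ← mul_assoc]
    gcongr

/-- sums of the two sequences -/
private theorem cpt_hol {p Cs : ℝ} (hp : 1 < p) (hCs : 0 ≤ Cs) (J : ℕ) (a : ℕ → ℝ≥0∞)
    (h : ∑ j ∈ Finset.range J, a j ^ (p / (p - 1)) ≤ ENNReal.ofReal Cs) :
    ∑ j ∈ Finset.range J, a j ≤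
      ENNReal.ofReal ((J : ℝ) ^ (1 / p) * Cs ^ (1 / (p / (p - 1)))) := by
  have hq : p.HolderConjugate (p / (p - 1)) := Real.HolderConjugate.conjExponent hp
  have h1 := ENNReal.inner_le_Lp_mul_Lq (Finset.range J) (fun _ => (1 : ℝ≥0∞)) a hq
  simp only [one_mul, ENNReal.one_rpow, Finset.sum_const, Finset.card_range, nsmul_eq_mul,
    mul_one] at h1
  refine h1.trans ?_
  have hq0 : 0 < p / (p - 1) := hq.symm.pos
  rw [ENNReal.ofReal_mul (by positivity), ← ENNReal.ofReal_rpow_of_nonneg (by positivity)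
    (by positivity), ← ENNReal.ofReal_rpow_of_nonneg hCs (by positivity), ENNReal.ofReal_natCast]
  gcongr

theorem cap_t (hn : 0 < n) {p : ℝ} (hp : (n : ℝ) < p) (M : ℕ) (hM : 0 < M) (B ε : ℝ) (hε : 0 < ε) :
    ∃ η₀ : ℝ, 0 < η₀ ∧ ∀ η : ℝ, 0 < η → η ≤ η₀ → ∃ X : Eu (n + n) → ℝ, ContDiff ℝ ∞ X ∧ Per X ∧
      (∀ x ∈ RR M η, ∀ᶠ y in nhds x, X y = 1) ∧
      ∀ A : Eu (n + n) → ℝ, ContDiff ℝ ∞ A → Per A → (∀ x, |A x| ≤ B) →
        (∀ x, ‖fderiv ℝ A x‖ ≤ B) → wspP (-1 + n / p) p (sgr (fun x => A x * X x)) ≤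
          ENNReal.ofReal ε := by
  have hn1 : (1 : ℝ) ≤ n := by exact_mod_cast hn
  have hp1 : 1 < p := lt_of_le_of_lt hn1 hp
  have hp0 : 0 < p := by linarith
  have hnp : (n : ℝ) / p < 1 := by rwa [div_lt_one hp0]
  have hnp0 : 0 < (n : ℝ) / p := by positivity
  obtain ⟨C, hC, hgrid⟩ := grid (n := n)
  obtain ⟨CH, hCH, hH⟩ := pair_H (n := n) hp1
  have hq : p.HolderConjugate (p / (p - 1)) := Real.HolderConjugate.conjExponent hp1
  obtain ⟨Cs, hCs, hmol⟩ := mol_sum (m := n + n) (τ := 1 - (n : ℝ) / p) (q := p / (p - 1))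
    (by linarith) (by linarith) hq.symm.lt
  obtain ⟨K, hK⟩ : ∃ K, K = (1 + CH) * (|B| * (1 + C * M)) * C ^ (1 / p) := ⟨_, rfl⟩
  have hCp : 0 ≤ C ^ (1 / p) := Real.rpow_nonneg hC _
  have hK0 : 0 ≤ K := by rw [hK]; positivity
  have hCq : 0 ≤ Cs ^ (1 / (p / (p - 1))) := Real.rpow_nonneg hCs _
  -- the number of scales
  obtain ⟨J, hJ0, hJ⟩ : ∃ J : ℕ, 0 < J ∧
      (J : ℝ)⁻¹ * (K * (2 * ((J : ℝ) ^ (1 / p) * Cs ^ (1 / (p / (p - 1)))))) ≤ ε := by
    have h1 : Filter.Tendsto (fun J : ℕ => (2 * K * Cs ^ (1 / (p / (p - 1)))) *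
        ((J : ℝ) ^ (-(1 - 1 / p)))) Filter.atTop (nhds ((2 * K * Cs ^ (1 / (p / (p - 1)))) * 0)) :=
      ((tendsto_rpow_neg_atTop (by
        have : 1 / p < 1 := by rw [div_lt_one hp0]; exact hp1
        linarith)).comp tendsto_natCast_atTop_atTop).const_mul _
    rw [mul_zero] at h1
    obtain ⟨J, hJ1, hJ2⟩ := ((h1.eventually (gt_mem_nhds hε)).and
      (Filter.eventually_gt_atTop 0)).exists
    refine ⟨J, hJ2, le_of_eq_of_le ?_ hJ1.le⟩
    have hJ3 : (0 : ℝ) < J := by exact_mod_cast hJ2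
    rw [neg_sub, Real.rpow_sub hJ3, Real.rpow_one]
    field_simp
  have hJR : (0 : ℝ) < J := by exact_mod_cast hJ0
  refine ⟨1 / (32 * 2 ^ J), by positivity, ?_⟩
  intro η hη hη0
  have hJη : 2 ^ J * η ≤ 1 / 32 := by
    have h1 : (2 : ℝ) ^ J * η ≤ 2 ^ J * (1 / (32 * 2 ^ J)) := by gcongr
    refine h1.trans (le_of_eq ?_)
    field_simp
  have hjη : ∀ j ∈ Finset.range J, (0 : ℝ) < 2 ^ j * η ∧ 2 ^ j * η < 1 / 16 := by
    intro j hj
    have hj' : j ≤ J := (Finset.mem_range.1 hj).le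
    refine ⟨by positivity, ?_⟩
    have h1 : (2 : ℝ) ^ j * η ≤ 2 ^ J * η := by
      gcongr
      norm_num
    linarith
  have hg : ∀ j ∈ Finset.range J, ∃ (X : Eu (n + n) → ℝ) (S : Set (Eu (n + n))),
      ContDiff ℝ ∞ X ∧ Per X ∧
      (∀ x, 0 ≤ X x ∧ X x ≤ 1) ∧ (∀ x, ‖fderiv ℝ X x‖ ≤ C * M / (2 ^ j * η)) ∧
      (∀ x ∈ RR M (2 ^ j * η), ∀ᶠ y in nhds x, X y = 1) ∧ MeasurableSet S ∧
      (∀ x (k : Fin (n + n) → ℤ), x + iv k ∈ S ↔ x ∈ S) ∧
      (∀ x ∉ S, ∀ᶠ y in nhds x, X y = 0) ∧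
      volume (S ∩ cube (n + n)) ≤ ENNReal.ofReal (C * (2 ^ j * η) ^ n) := fun j hj =>
    hgrid M hM (2 ^ j * η) (hjη j hj).1 (hjη j hj).2
  choose! X S hX using hg
  refine ⟨fun x => (J : ℝ)⁻¹ * ∑ j ∈ Finset.range J, X j x, ?_, ?_, ?_, ?_⟩
  · exact contDiff_const.mul (ContDiff.sum fun j hj => (hX j hj).1)
  · intro x k
    show (J : ℝ)⁻¹ * ∑ j ∈ Finset.range J, X j (x + iv k) = (J : ℝ)⁻¹ * ∑ j ∈ Finset.range J, X j x
    congr 1
    exact Finset.sum_congr rfl fun j hj => (hX j hj).2.1 x k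
  · intro x hx
    have h1 : ∀ᶠ y in nhds x, ∀ j ∈ Finset.range J, X j y = 1 := by
      rw [Filter.eventually_all_finset]
      intro j hj
      refine (hX j hj).2.2.2.2.1 x fun i => ?_
      obtain ⟨m, hm⟩ := hx i
      refine ⟨m, hm.trans_le ?_⟩
      have h2 : (1 : ℝ) ≤ 2 ^ j := one_le_pow₀ (by norm_num)
      nlinarith
    refine h1.mono fun y hy => ?_
    show (J : ℝ)⁻¹ * ∑ j ∈ Finset.range J, X j y = 1
    rw [Finset.sum_congr rfl hy, Finset.sum_const, Finset.card_range, nsmul_eq_mul, mul_one,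
      inv_mul_cancel₀ hJR.ne']
  · intro A hA hAp hA1 hA2
    have hA1' : ∀ x, |A x| ≤ |B| := fun x => (hA1 x).trans (le_abs_self B)
    have hA2' : ∀ x, ‖fderiv ℝ A x‖ ≤ |B| := fun x => (hA2 x).trans (le_abs_self B)
    have hs : ¬ (0 : ℝ) ≤ -1 + n / p := by linarith
    rw [wspP, if_neg hs]
    refine iSup₂_le fun v hv => ?_
    obtain ⟨hv1, hv2, hv3⟩ := hv
    have e1 : -(-1 + (n : ℝ) / p) = 1 - n / p := by ring
    rw [e1] at hv3
    obtain ⟨w, hw, hs1, hs2⟩ := hmol v hv1 hv2 hv3 J η hη (by linarith)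
    have hAX : ∀ j ∈ Finset.range J, ContDiff ℝ ∞ (fun x => A x * X j x) := fun j hj =>
      hA.mul (hX j hj).1
    have e2 : (fun x => A x * ((J : ℝ)⁻¹ * ∑ j ∈ Finset.range J, X j x)) =
        fun x => (J : ℝ)⁻¹ * ∑ j ∈ Finset.range J, A x * X j x := by
      funext x
      rw [← Finset.mul_sum]
      ring
    have e3 : ∫ x in cube (n + n), inner ℝ
        (sgr (fun x => A x * ((J : ℝ)⁻¹ * ∑ j ∈ Finset.range J, X j x)) x) (v x) =
        (J : ℝ)⁻¹ * ∑ j ∈ Finset.range J,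
          ∫ x in cube (n + n), inner ℝ (sgr (fun x => A x * X j x) x) (v x) := by
      rw [e2, ← integral_finsetSum, ← integral_const_mul]
      · refine integral_congr_ae (Filter.Eventually.of_forall fun x => ?_)
        show inner ℝ (sgr (fun x => (J : ℝ)⁻¹ * ∑ j ∈ Finset.range J, A x * X j x) x) (v x) =
          (J : ℝ)⁻¹ * ∑ j ∈ Finset.range J, inner ℝ (sgr (fun x => A x * X j x) x) (v x)
        rw [cpt_sum (G := fun j x => A x * X j x) hAX, real_inner_smul_left, sum_inner]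
      · intro j hj
        exact HsA.int_cube ((cpt_cont (hAX j hj)).inner hv1.continuous)
    have h1 : ∀ j ∈ Finset.range J,
        ENNReal.ofReal |∫ x in cube (n + n), inner ℝ (sgr (fun x => A x * X j x) x) (v x)| ≤
        ENNReal.ofReal K *
          (ENNReal.ofReal ((2 ^ j * η) ^ (-(1 - (n : ℝ) / p))) *
            (∫⁻ x in cube (n + n), ‖v x - w j x‖ₑ ^ (p / (p - 1))) ^ (1 / (p / (p - 1))) +
          ENNReal.ofReal ((2 ^ j * η) ^ (1 - (1 - (n : ℝ) / p))) *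
            (∫⁻ x in cube (n + n), ‖fderiv ℝ (w j) x‖ₑ ^ (p / (p - 1))) ^ (1 / (p / (p - 1)))) := by
      intro j hj
      rw [hK]
      obtain ⟨g1, g2, g3, g4, -, g6, -, g8, g9⟩ := hX j hj
      exact cpt_one hp1 (abs_nonneg B) hC hCH hH (hjη j hj).1 (by linarith [(hjη j hj).2]) hA hAp
        g1 g2 hA1' hA2' g3 g4 g6 g8 g9 hv1 (hw j).1 (hw j).2
    rw [e3, abs_mul, abs_of_pos (inv_pos.2 hJR), ENNReal.ofReal_mul (inv_pos.2 hJR).le]
    calc ENNReal.ofReal (J : ℝ)⁻¹ * ENNReal.ofReal |∑ j ∈ Finset.range J,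
          ∫ x in cube (n + n), inner ℝ (sgr (fun x => A x * X j x) x) (v x)|
        ≤ ENNReal.ofReal (J : ℝ)⁻¹ * ∑ j ∈ Finset.range J,
          ENNReal.ofReal |∫ x in cube (n + n), inner ℝ (sgr (fun x => A x * X j x) x) (v x)| := by
          gcongr
          rw [← ENNReal.ofReal_sum_of_nonneg fun j _ => abs_nonneg _]
          exact ENNReal.ofReal_le_ofReal (Finset.abs_sum_le_sum_abs _ _)
      _ ≤ ENNReal.ofReal (J : ℝ)⁻¹ * (ENNReal.ofReal K *
            (ENNReal.ofReal ((J : ℝ) ^ (1 / p) * Cs ^ (1 / (p / (p - 1)))) +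
              ENNReal.ofReal ((J : ℝ) ^ (1 / p) * Cs ^ (1 / (p / (p - 1)))))) := by
          gcongr
          refine (Finset.sum_le_sum h1).trans ?_
          rw [← Finset.mul_sum, Finset.sum_add_distrib]
          gcongr
          · exact cpt_hol hp1 hCs J _ hs1
          · exact cpt_hol hp1 hCs J _ hs2
      _ = ENNReal.ofReal ((J : ℝ)⁻¹ * (K * (2 * ((J : ℝ) ^ (1 / p) *
            Cs ^ (1 / (p / (p - 1))))))) := by
          rw [← ENNReal.ofReal_add (by positivity) (by positivity), ← ENNReal.ofReal_mul hK0,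
            ← ENNReal.ofReal_mul (by positivity)]
          congr 1
          ring
      _ ≤ ENNReal.ofReal ε := ENNReal.ofReal_le_ofReal hJ

end

end FS
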