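import Pool.Agent.SVT.Defs

/-!
# Project FS: symplectic diffeomorphisms of closed flat symplectic manifolds (MP_b0bf68_gt)

A closed flat symplectic manifold is `Eu (n + n) / P`, where the deck group `P` (a set of maps) consists
of affine symplectic maps.
-/

set_option autoImplicit false

open MeasureTheory Set Pool.Agent.H68.VD TN
open scoped ENNReal ContDiff

namespace FS

noncomputable section

variable {n : ℕ}

/-! ### Definitions used in the statement -/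

/-- `P` is the deck group of a closed flat symplectic manifold: the deck group of a closed flat
manifold (in coordinates in which the lattice is the integer lattice) whose elements preserve the
standard symplectic form. -/
structure SpDeck (P : Set (Eu (n + n) → Eu (n + n))) : Prop where
  deck : FlatDeck P
  symp : ∀ g ∈ P, ∀ x v w, om (g (x + v) - g x) (g (x + w) - g x) = om v w

/-- A smooth path of symplectic diffeomorphisms of `Eu (n + n)` that commute with `P`. -/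
structure SPathP (P : Set (Eu (n + n) → Eu (n + n))) (φ : ℝ → Eu (n + n) → Eu (n + n)) : Prop where
  path : FPath P φ
  symp : ∀ t x v w, om (fderiv ℝ (φ t) x v) (fderiv ℝ (φ t) x w) = om v w

/-- `f` is a lift of an element of the identity component of the group of symplectic diffeomorphisms of
`Eu (n + n) / P`. -/
def SGP (P : Set (Eu (n + n) → Eu (n + n))) (f : Eu (n + n) → Eu (n + n)) : Prop :=
  ∃ φ : ℝ → Eu (n + n) → Eu (n + n), SPathP P φ ∧ φ 0 = id ∧ φ 1 = f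

/-- The geodesic distance of the symplectic diffeomorphisms of `Eu (n + n) / P` with lifts `f` and `g`
for the norm `N` on velocity fields: the infimum of the lengths of the paths that join `f` to a lift
`γ ∘ g` of the second one. -/
def sdistP (N : (Eu (n + n) → Eu (n + n)) → ℝ≥0∞) (P : Set (Eu (n + n) → Eu (n + n)))
    (f g : Eu (n + n) → Eu (n + n)) : ℝ≥0∞ :=
  ⨅ (φ : ℝ → Eu (n + n) → Eu (n + n)) (_ : SPathP P φ ∧ φ 0 = f ∧ ∃ γ ∈ P, φ 1 = γ ∘ g), len N φ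

/-- The diameter of the identity component of the group of symplectic diffeomorphisms. -/
def sdiamP (N : (Eu (n + n) → Eu (n + n)) → ℝ≥0∞) (P : Set (Eu (n + n) → Eu (n + n))) : ℝ≥0∞ :=
  ⨆ (f : Eu (n + n) → Eu (n + n)) (_ : SGP P f) (g : Eu (n + n) → Eu (n + n)) (_ : SGP P g),
    sdistP N P f g

/-- The distance is the distance of the flux classes. -/
def SpFlux (N : (Eu (n + n) → Eu (n + n)) → ℝ≥0∞) (P : Set (Eu (n + n) → Eu (n + n))) : Prop :=
  ∀ f g, SGP P f → SGP P g → sdistP N P f g =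
    ⨅ (w : Eu (n + n)) (_ : FCtr P w), ENNReal.ofReal ‖(∫ x in cube (n + n), (g x - f x)) + w‖

/-- Some momentum coordinate is preserved by `P` up to sign and translation. -/
def Split (P : Set (Eu (n + n) → Eu (n + n))) : Prop :=
  ∃ i : Fin n, ∀ g ∈ P, ∃ c : ℝ,
    (∀ x, g x (Fin.natAdd n i) = x (Fin.natAdd n i) + c) ∨
    (∀ x, g x (Fin.natAdd n i) = -x (Fin.natAdd n i) + c)

/-! ### Auxiliary definitions -/

/-- `G` is invariant under `P` -/
def PI (P : Set (Eu (n + n) → Eu (n + n))) (G : Eu (n + n) → ℝ) : Prop := ∀ g ∈ P, ∀ x, G (g x) = G x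

/-- a path of symplectic diffeomorphisms which commute with `P`, with a `P`-invariant Hamiltonian -/
structure HPP (P : Set (Eu (n + n) → Eu (n + n))) (φ : ℝ → Eu (n + n) → Eu (n + n))
    (H : ℝ → Eu (n + n) → ℝ) : Prop where
  hp : SVT.HP φ H
  equi : ∀ t, ∀ g ∈ P, ∀ x, φ t (g x) = g (φ t x)
  inv : ∀ t, PI P (H t)

/-- the cost of a Hamiltonian path, for the price functional `E` -/
def cstE (E : (Eu (n + n) → ℝ) → ℝ≥0∞) (H : ℝ → Eu (n + n) → ℝ) : ℝ≥0∞ :=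
  ∫⁻ t in Icc (0 : ℝ) 1, E (H t)

/-- the smallest cost of a Hamiltonian path from the identity to `f` -/
def rhoP (P : Set (Eu (n + n) → Eu (n + n))) (E : (Eu (n + n) → ℝ) → ℝ≥0∞)
    (f : Eu (n + n) → Eu (n + n)) : ℝ≥0∞ :=
  ⨅ (φ : ℝ → Eu (n + n) → Eu (n + n)) (H : ℝ → Eu (n + n) → ℝ)
    (_ : HPP P φ H ∧ φ 0 = id ∧ φ 1 = f), cstE E H

/-- the ball of centre `c` and radius `ρ` is disjoint from its translates -/
def SepP (P : Set (Eu (n + n) → Eu (n + n))) (c : Eu (n + n)) (ρ : ℝ) : Prop :=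
  0 < ρ ∧ ∀ g ∈ P, g ≠ id → ∀ x, dist x c < ρ → ¬ dist (g x) c < ρ

/-- the translates of the ball -/
def orb (P : Set (Eu (n + n) → Eu (n + n))) (c : Eu (n + n)) (r : ℝ) : Set (Eu (n + n)) :=
  {x | ∃ g ∈ P, dist (g x) c < r}

/-- the sum of the translates of a function -/
def sym (P : Set (Eu (n + n) → Eu (n + n))) (u : Eu (n + n) → ℝ) (x : Eu (n + n)) : ℝ :=
  ∑ᶠ g : P, u (g.1 x)

/-- `E` is a price functional for which grids of Lagrangian planes have capacity zero -/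
structure CF (P : Set (Eu (n + n) → Eu (n + n))) (E : (Eu (n + n) → ℝ) → ℝ≥0∞) : Prop where
  smul : ∀ (c : ℝ) (G : Eu (n + n) → ℝ), ContDiff ℝ ∞ G →
    E (fun x => c * G x) = ENNReal.ofReal |c| * E G
  meas : ∀ H : ℝ → Eu (n + n) → ℝ, ContDiff ℝ ∞ (fun z : ℝ × Eu (n + n) => H z.1 z.2) →
    Measurable (fun t => E (H t))
  comp : ∀ φ : ℝ → Eu (n + n) → Eu (n + n), SPathP P φ → φ 0 = id → ∃ C : ℝ, 1 ≤ C ∧
    ∀ t ∈ Icc (0 : ℝ) 1, ∀ G : Eu (n + n) → ℝ, ContDiff ℝ ∞ G → PI P G →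
      E (fun x => G (φ t x)) ≤ ENNReal.ofReal C * E G
  small : ∃ C : ℝ, 0 ≤ C ∧ ∀ G : Eu (n + n) → ℝ, ContDiff ℝ ∞ G → PI P G → ∀ a : ℝ, 0 ≤ a →
    (∀ x, |G x| ≤ a) → (∀ x, ‖fderiv ℝ G x‖ ≤ a) → E G ≤ ENNReal.ofReal (C * a)
  weak : ∀ B ε : ℝ, 0 < ε → ∃ δ : ℝ, 0 < δ ∧ ∀ G : Eu (n + n) → ℝ, ContDiff ℝ ∞ G → PI P G →
    (∀ x, |G x| ≤ δ) → (∀ x, ‖fderiv ℝ G x‖ ≤ B) → E G ≤ ENNReal.ofReal ε
  cap : ∀ (c : Eu (n + n)) (ρ r : ℝ), SepP P c ρ → r < ρ → ∀ M : ℕ, 0 < M → ∀ B ε : ℝ, 0 < ε →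
    ∃ η₀ : ℝ, 0 < η₀ ∧ ∀ η : ℝ, 0 < η → η ≤ η₀ → ∃ X : Eu (n + n) → ℝ, ContDiff ℝ ∞ X ∧
      (∀ x ∈ SVT.RR M η, ∀ᶠ y in nhds x, X y = 1) ∧
      ∀ A : Eu (n + n) → ℝ, ContDiff ℝ ∞ A → (∀ x, r ≤ dist x c → A x = 0) → (∀ x, |A x| ≤ B) →
        (∀ x, ‖fderiv ℝ A x‖ ≤ B) → E (sym P (fun x => A x * X x)) ≤ ENNReal.ofReal ε

/-- `G` is the initial Hamiltonian of a smooth family of maps of cost zero -/
def ZFP (P : Set (Eu (n + n) → Eu (n + n))) (E : (Eu (n + n) → ℝ) → ℝ≥0∞) (G : Eu (n + n) → ℝ) : Prop :=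
  ∃ (Q : ℝ → Eu (n + n) → Eu (n + n)) (K : ℝ → Eu (n + n) → ℝ),
    HPP P Q K ∧ Q 0 = id ∧ (∀ x, K 0 x = G x) ∧ ∀ θ, rhoP P E (Q θ) = 0

/-- the field with the Hamiltonian `G` -/
def sgr (G : Eu (n + n) → ℝ) (x : Eu (n + n)) : Eu (n + n) := -Jm (gradient G x)

end

end FS
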