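import Pool.Agent.FS.Dk
import Pool.Agent.SVT.Den

/-! # Project FS: density -/

set_option autoImplicit false

open MeasureTheory Set Pool.Agent.H68.VD TN SVT
open scoped ENNReal ContDiff

namespace FS

noncomputable section

variable {n : ℕ} {P : Set (Eu (n + n) → Eu (n + n))}

theorem denP_iv_one {m : ℕ} {k : Fin m → ℤ} (h : ‖(iv k : Eu m)‖ < 1) : k = 0 := by
  by_contra hk
  obtain ⟨i, hi⟩ := Function.ne_iff.1 hk
  have h1 : ‖(iv k : Eu m) i‖ ≤ ‖(iv k : Eu m)‖ := PiLp.norm_apply_le _ i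
  have h2 : (1 : ℝ) ≤ ‖(iv k : Eu m) i‖ := by
    have h3 : (1 : ℤ) ≤ |k i| := Int.one_le_abs hi
    have h4 : ‖(iv k : Eu m) i‖ = ((|k i| : ℤ) : ℝ) := by
      simp [iv]
    rw [h4]
    exact_mod_cast h3
  linarith

theorem denP_iv_sub {m : ℕ} (k l : Fin m → ℤ) : (iv (k - l) : Eu m) = iv k - iv l := by
  ext i; simp [iv]

theorem denP_uniq {m : ℕ} {y : Eu m} {k l : Fin m → ℤ} {r : ℝ} (hr : r ≤ 1 / 4)
    (hk : ‖y + iv k‖ ≤ r) (hl : ‖y + iv l‖ ≤ r) : k = l := by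
  have h : ‖(iv (k - l) : Eu m)‖ < 1 := by
    rw [denP_iv_sub]
    have h1 : iv k - iv l = (y + iv k) - (y + iv l) := by abel
    rw [h1]
    refine (norm_sub_le _ _).trans_lt ?_
    linarith
  exact sub_eq_zero.1 (denP_iv_one h)

/-- the part of a periodic bump near the origin -/
def denP_b (β : Eu (n + n) → ℝ) (x : Eu (n + n)) : ℝ :=
  haveI := Classical.propDecidable (‖x‖ < 1 / 2)
  if ‖x‖ < 1 / 2 then β x else 0

theorem denP_b_in {β : Eu (n + n) → ℝ} {x : Eu (n + n)} (h : ‖x‖ < 1 / 2) : denP_b β x = β x := by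
  unfold denP_b
  rw [if_pos h]

theorem denP_b_out {β : Eu (n + n) → ℝ} {r : ℝ} (hr : r ≤ 1 / 4) (hβ : Bmp r β) {x : Eu (n + n)}
    (h : r < ‖x‖) : denP_b β x = 0 := by
  unfold denP_b
  split_ifs with h1
  · refine hβ.supp x fun k => ?_
    by_cases hk : k = 0
    · have : (iv k : Eu (n + n)) = 0 := by rw [hk]; ext i; simp [iv]
      rw [this, add_zero]
      exact h
    · have h2 : 1 ≤ ‖(iv k : Eu (n + n))‖ := by
        by_contra h3
        exact hk (denP_iv_one (not_le.1 h3))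
      have h3 : ‖(iv k : Eu (n + n))‖ ≤ ‖x + iv k‖ + ‖x‖ := by
        have : (iv k : Eu (n + n)) = (x + iv k) - x := by abel
        calc ‖(iv k : Eu (n + n))‖ = ‖(x + iv k) - x‖ := by rw [← this]
          _ ≤ _ := norm_sub_le _ _
      linarith
  · rfl

theorem denP_b_smooth {β : Eu (n + n) → ℝ} {r : ℝ} (hr : r ≤ 1 / 4) (hβ : Bmp r β) :
    ContDiff ℝ ∞ (denP_b β) := by
  rw [contDiff_iff_contDiffAt]
  intro x
  by_cases h : ‖x‖ < 1 / 2
  · have h1 : denP_b β =ᶠ[nhds x] β := by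
      filter_upwards [(isOpen_lt continuous_norm continuous_const).mem_nhds h] with y hy
      exact denP_b_in hy
    exact hβ.smooth.contDiffAt.congr_of_eventuallyEq h1
  · have h0 : r < ‖x‖ := by linarith [not_lt.1 h]
    have h1 : denP_b β =ᶠ[nhds x] fun _ => 0 := by
      filter_upwards [(isOpen_lt continuous_const continuous_norm).mem_nhds h0] with y hy
      exact denP_b_out hr hβ hy
    exact contDiffAt_const.congr_of_eventuallyEq h1

/-- the sum of the translates of the bump -/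
theorem denP_sym (hP : SpDeck P) {R : Finset (Eu (n + n) → Eu (n + n))} (hR : ∀ r ∈ R, r ∈ P)
    (hR2 : ∀ g ∈ P, ∃ r ∈ R, ∃ k : Fin (n + n) → ℤ, ∀ x, g x = r x + iv k)
    (hR3 : ∀ r ∈ R, ∀ r' ∈ R, ∀ k : Fin (n + n) → ℤ, (∀ x, r x = r' x + iv k) → r = r')
    {β : Eu (n + n) → ℝ} {r : ℝ} (hr : r ≤ 1 / 4) (hβ : Bmp r β) (z x : Eu (n + n)) :
    sym P (fun y => denP_b β (y - z)) x = ∑ g ∈ R, β (g x - z) := by
  classical
  have hex : ∀ g : Eu (n + n) → Eu (n + n), ∃ k : Fin (n + n) → ℤ,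
      (∃ l : Fin (n + n) → ℤ, ‖(g x - z) + iv l‖ ≤ r) → ‖(g x - z) + iv k‖ ≤ r := by
    intro g
    by_cases h : ∃ l : Fin (n + n) → ℤ, ‖(g x - z) + iv l‖ ≤ r
    · obtain ⟨l, hl⟩ := h
      exact ⟨l, fun _ => hl⟩
    · exact ⟨0, fun h' => absurd h' h⟩
  choose κ hκ using hex
  have hmem : ∀ g ∈ R, (fun y => g y + iv (κ g)) ∈ P := fun g hg =>
    hP.deck.mul _ (hP.deck.trans (κ g)) g (hR g hg)
  let T : R → P := fun g => ⟨fun y => g.1 y + iv (κ g.1), hmem g.1 g.2⟩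
  have hT : Function.Injective T := by
    intro g g' h
    have h1 : ∀ y, g.1 y + iv (κ g.1) = g'.1 y + iv (κ g'.1) := fun y =>
      congrFun (congrArg Subtype.val h) y
    refine Subtype.ext (hR3 g.1 g.2 g'.1 g'.2 (κ g'.1 - κ g.1) fun y => ?_)
    rw [denP_iv_sub]
    have := h1 y
    rw [← add_sub_assoc, ← this]
    abel
  have hsupp : Function.support (fun g : P => denP_b β (g.1 x - z)) ⊆
      ((Finset.univ : Finset R).map ⟨T, hT⟩ : Finset P) := by
    intro g hg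
    rw [Function.mem_support] at hg
    obtain ⟨ρ, hρ, k, hk⟩ := hR2 g.1 g.2
    have h1 : ‖(ρ x - z) + iv k‖ ≤ r := by
      by_contra h
      refine hg (denP_b_out hr hβ ?_)
      rw [hk x]
      have : ρ x + iv k - z = (ρ x - z) + iv k := by abel
      rw [this]
      exact not_le.1 h
    have h2 := hκ ρ ⟨k, h1⟩
    have h3 : k = κ ρ := denP_uniq hr h1 h2
    rw [Finset.coe_map, Set.mem_image]
    refine ⟨⟨ρ, hρ⟩, Finset.mem_coe.2 (Finset.mem_univ _), Subtype.ext (funext fun y => ?_)⟩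
    change ρ y + iv (κ ρ) = g.1 y
    rw [hk y, h3]
  unfold sym
  rw [finsum_eq_sum_of_support_subset _ hsupp, Finset.sum_map, ← Finset.sum_coe_sort R]
  refine Finset.sum_congr rfl fun g _ => ?_
  change denP_b β (g.1 x + iv (κ g.1) - z) = β (g.1 x - z)
  have e1 : g.1 x + iv (κ g.1) - z = (g.1 x - z) + iv (κ g.1) := by abel
  rw [e1]
  by_cases h : ∃ l : Fin (n + n) → ℤ, ‖(g.1 x - z) + iv l‖ ≤ r
  · have h1 := hκ g.1 h
    rw [denP_b_in (by linarith), hβ.per]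
  · have h0 : β (g.1 x - z) = 0 := hβ.supp _ fun k => by
      by_contra h1
      exact h ⟨k, not_lt.1 h1⟩
    rw [h0]
    unfold denP_b
    split_ifs
    · rw [hβ.per, h0]
    · rfl

/-! ## FS-12 (DenP.lean): density -/

theorem densP (hP : SpDeck P) {r : ℝ} (hr : 0 < r) {H : Eu (n + n) → ℝ} (hH : ContDiff ℝ ∞ H)
    (hI : PI P H) (hm : ∫ x in cube (n + n), H x = 0) {ε : ℝ} (hε : 0 < ε) :
    ∃ (b : Eu (n + n) → ℝ) (N : ℕ) (z z' : Fin N → Eu (n + n)) (a : Fin N → ℝ), ContDiff ℝ ∞ b ∧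
      (∀ x, r ≤ ‖x‖ → b x = 0) ∧ ∀ x,
        |H x - ∑ j, a j * (sym P (fun y => b (y - z j)) x - sym P (fun y => b (y - z' j)) x)| ≤ ε ∧
        ‖fderiv ℝ (fun x => H x - ∑ j, a j * (sym P (fun y => b (y - z j)) x -
          sym P (fun y => b (y - z' j)) x)) x‖ ≤ ε := by
  obtain ⟨R, hR, hR2, hR3⟩ := dk_fin hP
  have hex : ∀ g : R, ∃ L : Eu (n + n) →L[ℝ] Eu (n + n), ∀ x v, g.1 (x + v) = g.1 x + L v :=
    fun g => by
      obtain ⟨L, hL, _⟩ := dk_aff hP (hR g.1 g.2)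
      exact ⟨L, hL⟩
  choose L hL using hex
  set Λ : ℝ := 1 + ∑ g : R, ‖L g‖ with hΛ
  have hΛ1 : ∀ g : R, ‖L g‖ ≤ Λ := fun g => by
    have h1 : ‖L g‖ ≤ ∑ g : R, ‖L g‖ :=
      Finset.single_le_sum (f := fun g : R => ‖L g‖) (fun _ _ => norm_nonneg _) (Finset.mem_univ g)
    rw [hΛ]; linarith
  have hΛ0 : 1 ≤ Λ := by
    have : 0 ≤ ∑ g : R, ‖L g‖ := Finset.sum_nonneg fun _ _ => norm_nonneg _
    rw [hΛ]; linarith
  have hε' : 0 < ε / Λ := by positivity
  set r' : ℝ := min (r / 2) (1 / 4) with hr'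
  have hr'0 : 0 < r' := by rw [hr']; positivity
  have hr'4 : r' ≤ 1 / 4 := min_le_right _ _
  have hr'r : r' < r := by
    have : r' ≤ r / 2 := min_le_left _ _
    linarith
  obtain ⟨β, N, z, c, hβ, hG⟩ := dens hr'0 hH (pi_per hP hI) hm hε'
  set G : Eu (n + n) → ℝ := fun x => H x - ∑ j, c j * (β (x - z j) - β x) with hGdef
  have hGs : Differentiable ℝ G := by
    have hβd : Differentiable ℝ β := hβ.smooth.differentiable (by simp)
    have hHd : Differentiable ℝ H := hH.differentiable (by simp)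
    rw [hGdef]
    fun_prop
  have hRne : R.Nonempty := by
    obtain ⟨ρ, hρ, _⟩ := hR2 id hP.deck.one
    exact ⟨ρ, hρ⟩
  have hcard : (0 : ℝ) < R.card := by exact_mod_cast hRne.card_pos
  have key : ∀ x, H x - ∑ j, (c j / R.card) * (sym P (fun y => denP_b β (y - z j)) x -
      sym P (fun y => denP_b β (y - (0 : Eu (n + n)))) x) = (R.card : ℝ)⁻¹ * ∑ g : R, G (g.1 x) := by
    intro x
    have h0 : sym P (fun y => denP_b β (y - (0 : Eu (n + n)))) x = ∑ g ∈ R, β (g x) := by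
      rw [denP_sym hP hR hR2 hR3 hr'4 hβ]
      simp only [sub_zero]
    rw [h0]
    simp only [denP_sym hP hR hR2 hR3 hr'4 hβ]
    have h1 : ∑ g : R, G (g.1 x) =
        R.card * H x - ∑ j, c j * (∑ g ∈ R, β (g x - z j) - ∑ g ∈ R, β (g x)) := by
      rw [Finset.sum_coe_sort R (fun g => G (g x)), hGdef]
      simp only
      rw [Finset.sum_sub_distrib, Finset.sum_comm]
      congr 1
      · rw [Finset.sum_congr rfl fun g hg => hI g (hR g hg) x, Finset.sum_const, nsmul_eq_mul]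
      · refine Finset.sum_congr rfl fun j _ => ?_
        rw [← Finset.mul_sum, Finset.sum_sub_distrib]
    rw [h1, mul_sub, inv_mul_cancel_left₀ hcard.ne', Finset.mul_sum]
    congr 1
    refine Finset.sum_congr rfl fun j _ => ?_
    field_simp
  refine ⟨denP_b β, N, z, fun _ => 0, fun j => c j / R.card, denP_b_smooth hr'4 hβ,
    fun x hx => denP_b_out hr'4 hβ (lt_of_lt_of_le hr'r hx), ?_⟩
  simp only [key]
  intro x
  constructor
  · rw [abs_mul, abs_of_pos (inv_pos.2 hcard)]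
    have h1 : |∑ g : R, G (g.1 x)| ≤ R.card * ε := by
      refine (Finset.abs_sum_le_sum_abs _ _).trans ?_
      have h2 : ∑ g : R, |G (g.1 x)| ≤ ∑ _g : R, ε := Finset.sum_le_sum fun g _ => by
        refine (hG (g.1 x)).1.trans ?_
        exact div_le_self hε.le hΛ0
      simpa using h2
    calc (R.card : ℝ)⁻¹ * |∑ g : R, G (g.1 x)| ≤ (R.card : ℝ)⁻¹ * (R.card * ε) :=
          mul_le_mul_of_nonneg_left h1 (inv_pos.2 hcard).le
      _ = ε := inv_mul_cancel_left₀ hcard.ne' ε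
  · have haff : ∀ g : R, HasFDerivAt g.1 (L g) x := by
      intro g
      have h1 : g.1 = fun y => g.1 0 + L g y := funext fun y => by
        have := hL g 0 y
        rwa [zero_add] at this
      have h2 : HasFDerivAt (fun y => g.1 0 + L g y) (L g) x := (L g).hasFDerivAt.const_add _
      rw [← h1] at h2
      exact h2
    have hd : ∀ g : R, HasFDerivAt (fun y => G (g.1 y)) ((fderiv ℝ G (g.1 x)).comp (L g)) x :=
      fun g => (hGs (g.1 x)).hasFDerivAt.comp x (haff g)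
    have hs := (HasFDerivAt.fun_sum (u := Finset.univ) fun g _ => hd g).const_mul (R.card : ℝ)⁻¹
    rw [hs.fderiv, norm_smul, Real.norm_eq_abs, abs_of_pos (inv_pos.2 hcard)]
    have h1 : ‖∑ g : R, (fderiv ℝ G (g.1 x)).comp (L g)‖ ≤ R.card * ε := by
      refine (norm_sum_le _ _).trans ?_
      have h2 : ∑ g : R, ‖(fderiv ℝ G (g.1 x)).comp (L g)‖ ≤ ∑ _g : R, ε :=
        Finset.sum_le_sum fun g _ => by
          refine (ContinuousLinearMap.opNorm_comp_le _ _).trans ?_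
          have h3 := (hG (g.1 x)).2
          calc ‖fderiv ℝ G (g.1 x)‖ * ‖L g‖ ≤ ε / Λ * Λ :=
                mul_le_mul h3 (hΛ1 g) (norm_nonneg _) hε'.le
            _ = ε := by field_simp
      simpa using h2
    calc (R.card : ℝ)⁻¹ * ‖∑ g : R, (fderiv ℝ G (g.1 x)).comp (L g)‖
        ≤ (R.card : ℝ)⁻¹ * (R.card * ε) := mul_le_mul_of_nonneg_left h1 (inv_pos.2 hcard).le
      _ = ε := inv_mul_cancel_left₀ hcard.ne' ε

end

end FS
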