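import Pool.Agent.FS.Defs
import Pool.Agent.H68.VD.Tr

/-! # Project FS, row FS-19: the diameter of the flux distance -/

set_option autoImplicit false

open MeasureTheory Set Pool.Agent.H68.VD TN SVT
open scoped ENNReal ContDiff

namespace FS

noncomputable section

variable {n : ℕ} {P : Set (Eu (n + n) → Eu (n + n))}

private theorem diaP_ing (hP : SpDeck P) {f : Eu (n + n) → Eu (n + n)} (hf : SGP P f) :
    InG (TrA.sub hP.deck) f := by
  obtain ⟨φ, h, h0, h1⟩ := hf
  exact ⟨φ, (TrA.path_iff hP.deck φ).mp h.path, h0, h1⟩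

private theorem diaP_fderiv (v x : Eu (n + n)) :
    fderiv ℝ (fun y : Eu (n + n) => y + v) x = ContinuousLinearMap.id ℝ (Eu (n + n)) := by
  rw [fderiv_add_const]
  exact fderiv_fun_id

private theorem diaP_tr (hP : SpDeck P) {w : Eu (n + n)} (hw : FInv P w) :
    SGP P (fun x => x + w) := by
  refine ⟨fun t x => x + t • w, ⟨(TrA.path_iff hP.deck _).mpr
    (DiamWA.tr_path ((TrA.finv_iff hP.deck w).mp hw)), ?_⟩, ?_, ?_⟩
  · intro t x v u
    rw [diaP_fderiv]
    rfl
  · funext x
    simp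
  · funext x
    simp

private theorem diaP_inv0 (P : Set (Eu (n + n) → Eu (n + n))) : FInv P (0 : Eu (n + n)) := by
  intro g _ x
  simp

private theorem diaP_id (hP : SpDeck P) : SGP P (id : Eu (n + n) → Eu (n + n)) := by
  have h := diaP_tr hP (diaP_inv0 P)
  have h2 : (fun x : Eu (n + n) => x + 0) = id := by
    funext x
    simp
  rwa [h2] at h

private theorem diaP_ctr0 (hP : SpDeck P) : FCtr P (0 : Eu (n + n)) :=
  (TrA.fctr_iff hP.deck 0).mpr (DiamWA.ctr_zero _)

private theorem diaP_mean (hP : SpDeck P) {f g : Eu (n + n) → Eu (n + n)} (hf : SGP P f)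
    (hg : SGP P g) : FInv P (∫ x in cube (n + n), (g x - f x)) := by
  rw [TrA.finv_iff hP.deck]
  exact DiamWA.mean_inv (fluxKit famKit) (TrA.deck hP.deck) (diaP_ing hP hf) (diaP_ing hP hg)

theorem diamP_lt (hP : SpDeck P) {N : (Eu (n + n) → Eu (n + n)) → ℝ≥0∞} (hF : SpFlux N P) :
    sdiamP N P < ⊤ := by
  obtain ⟨C, hC⟩ := latFix (n + n) (TrA.sub hP.deck) (TrA.deck hP.deck)
  refine lt_of_le_of_lt ?_ (ENNReal.ofReal_lt_top (r := C))
  refine iSup₂_le fun f hf => iSup₂_le fun g hg => ?_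
  rw [hF f g hf hg]
  obtain ⟨w, hw, hwC⟩ := hC _ ((TrA.finv_iff hP.deck _).mp (diaP_mean hP hf hg))
  exact (iInf₂_le w ((TrA.fctr_iff hP.deck w).mpr hw)).trans (ENNReal.ofReal_le_ofReal hwC)

theorem diamP_zero (hP : SpDeck P) {N : (Eu (n + n) → Eu (n + n)) → ℝ≥0∞} (hF : SpFlux N P) :
    sdiamP N P = 0 ↔ ∀ m, FInv P m → m = 0 := by
  constructor
  · intro hd m hm
    by_contra hm0
    obtain ⟨r, hr, hS⟩ := sepU (n + n) (TrA.sub hP.deck) (TrA.deck hP.deck)
    have hmn : 0 < ‖m‖ := norm_pos_iff.mpr hm0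
    have hml := (TrA.finv_iff hP.deck m).mp hm
    set m' : Eu (n + n) := (r / 2 / ‖m‖) • m with hm'
    have hinv : FInv P m' := by
      rw [TrA.finv_iff hP.deck]
      intro g hg
      rw [hm', map_smul, hml g hg]
    have hnorm : ‖m'‖ = r / 2 := by
      rw [hm', norm_smul, Real.norm_of_nonneg (by positivity)]
      field_simp
    have h1 : ENNReal.ofReal (r / 2) ≤ sdistP N P id (fun x : Eu (n + n) => x + m') := by
      rw [hF _ _ (diaP_id hP) (diaP_tr hP hinv)]
      have h2 : ∫ x in cube (n + n), ((fun x : Eu (n + n) => x + m') x - id x) = m' := by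
        have : (fun x : Eu (n + n) => (fun x : Eu (n + n) => x + m') x - id x) = fun _ => m' := by
          ext1 x
          simp
        rw [this]
        exact DiamWA.intCube_const m'
      rw [h2]
      refine le_iInf₂ fun w hw => ENNReal.ofReal_le_ofReal ?_
      by_cases hw0 : w = 0
      · rw [hw0, add_zero, hnorm]
      · have h3 := DiamWA.ctr_large (hS 0) ((TrA.fctr_iff hP.deck w).mp hw) hw0
        have h4 : ‖w‖ ≤ ‖m' + w‖ + ‖m'‖ := by
          have := norm_sub_le (m' + w) m'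
          simpa using this
        rw [hnorm] at h4
        linarith
    have h2 : sdistP N P id (fun x : Eu (n + n) => x + m') ≤ sdiamP N P :=
      le_iSup₂_of_le id (diaP_id hP) (le_iSup₂_of_le _ (diaP_tr hP hinv) le_rfl)
    rw [hd] at h2
    have h3 := h1.trans h2
    rw [nonpos_iff_eq_zero, ENNReal.ofReal_eq_zero] at h3
    linarith
  · intro h0
    rw [← nonpos_iff_eq_zero]
    refine iSup₂_le fun f hf => iSup₂_le fun g hg => ?_
    rw [hF f g hf hg]
    refine (iInf₂_le 0 (diaP_ctr0 hP)).trans ?_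
    rw [h0 _ (diaP_mean hP hf hg)]
    simp

end

end FS
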