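import Pool.Agent.FS.Defs
import Pool.Agent.TN.Bas
import Pool.Agent.TN.MnN
import Pool.Agent.H68.VD.Exact

/-! # FS-17: the flux bound from below -/

set_option autoImplicit false

open MeasureTheory Set Pool.Agent.H68.VD TN SVT
open scoped ENNReal ContDiff

namespace FS

noncomputable section

variable {n : ℕ} {P : Set (Eu (n + n) → Eu (n + n))}

private theorem lowP_sp (hP : SpDeck P) {φ : ℝ → Eu (n + n) → Eu (n + n)} (h : SPathP P φ) :
    SPath φ := by
  refine ⟨⟨h.path.smooth, h.path.bij, h.path.det, ?_⟩, h.symp⟩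
  rintro t _ ⟨k, rfl⟩ x
  exact h.path.equi t _ (hP.deck.trans k) x

private theorem lowP_equi {f : Eu (n + n) → Eu (n + n)} (hf : SGP P f) {g : Eu (n + n) → Eu (n + n)}
    (hg : g ∈ P) (x : Eu (n + n)) : f (g x) = g (f x) := by
  obtain ⟨φ, h, -, rfl⟩ := hf
  exact h.path.equi 1 g hg x

private theorem lowP_surj {f : Eu (n + n) → Eu (n + n)} (hf : SGP P f) :
    Function.Surjective f := by
  obtain ⟨φ, h, -, rfl⟩ := hf
  exact (h.path.bij 1).2

private theorem lowP_cont {f : Eu (n + n) → Eu (n + n)} (hf : SGP P f) : Continuous f := by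
  obtain ⟨φ, h, -, rfl⟩ := hf
  exact (h.path.smooth.comp (contDiff_const.prodMk contDiff_id)).continuous

/-- the end of a path from `f` to a lift of `g`: the deck transformation is a central translation -/
theorem end_central (hP : SpDeck P) {f g : Eu (n + n) → Eu (n + n)} (hf : SGP P f) (hg : SGP P g)
    {φ : ℝ → Eu (n + n) → Eu (n + n)} (h : SPathP P φ) (h0 : φ 0 = f) {γ : Eu (n + n) → Eu (n + n)}
    (hγ : γ ∈ P) (h1 : φ 1 = γ ∘ g) : ∃ w, FCtr P w ∧ γ = fun x => x + w := by
  obtain ⟨a, rfl⟩ := TrA.exists_aff hP.deck hγ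
  have hcomm : ∀ q ∈ TrA.sub hP.deck, ∀ y, a (q y) = q (a y) := by
    intro q hq y
    obtain ⟨x, rfl⟩ := lowP_surj hg y
    have h2 := h.path.equi 1 _ ((TrA.mem_sub hP.deck q).1 hq) x
    rw [h1] at h2
    simp only [Function.comp] at h2
    rw [lowP_equi hg ((TrA.mem_sub hP.deck q).1 hq) x] at h2
    exact h2
  obtain ⟨w, hw, h3⟩ := ExactA.eq_trans (TrA.deck hP.deck) ((TrA.mem_sub hP.deck a).2 hγ) hcomm
  exact ⟨w, (TrA.fctr_iff hP.deck w).2 hw, funext h3⟩

/-- the change of the mean displacement along a path is at most the length -/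
private theorem lowP_path {N : (Eu (n + n) → Eu (n + n)) → ℝ≥0∞}
    (hN : ∀ u : Eu (n + n) → Eu (n + n), Continuous u → Per u → ENNReal.ofReal ‖mn u‖ ≤ N u)
    {φ : ℝ → Eu (n + n) → Eu (n + n)} (h : SPath φ) :
    ENNReal.ofReal ‖dsp (φ 1) - dsp (φ 0)‖ ≤ len N φ := by
  have hpath : IsPath (TrA.sub (lat_deck (n + n))) φ :=
    (TrA.path_iff (lat_deck (n + n)) φ).1 h.path
  have hc : Continuous fun t => mn (vel φ t) := ExactA.cont_mean famKit hpath
  have h1 : ∫ t in (0 : ℝ)..1, mn (vel φ t) = dsp (φ 1) - dsp (φ 0) :=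
    intervalIntegral.integral_eq_sub_of_hasDerivAt (f := fun t => dsp (φ t))
      (fun t _ => dsp_deriv h t) (hc.intervalIntegrable 0 1)
  rw [← h1]
  have h2 : ‖∫ t in (0 : ℝ)..1, mn (vel φ t)‖ ≤ ∫ t in Icc (0 : ℝ) 1, ‖mn (vel φ t)‖ := by
    rw [intervalIntegral.integral_of_le zero_le_one, ← integral_Icc_eq_integral_Ioc]
    exact norm_integral_le_integral_norm _
  refine (ENNReal.ofReal_le_ofReal h2).trans ?_
  rw [ofReal_integral_eq_lintegral_ofReal
    (hc.norm.continuousOn.integrableOn_compact isCompact_Icc)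
    (Filter.Eventually.of_forall fun t => norm_nonneg _)]
  unfold len
  refine lintegral_mono fun t => ?_
  have hs : Continuous (vel φ t) :=
    ((vel_smooth h).comp (contDiff_const.prodMk contDiff_id)).continuous
  exact hN _ hs (vel_per h t)

theorem flux_lowP (hP : SpDeck P) {N : (Eu (n + n) → Eu (n + n)) → ℝ≥0∞}
    (hN : ∀ u : Eu (n + n) → Eu (n + n), Continuous u → Per u → ENNReal.ofReal ‖mn u‖ ≤ N u)
    {f g : Eu (n + n) → Eu (n + n)} (hf : SGP P f) (hg : SGP P g) :
    (⨅ (w : Eu (n + n)) (_ : FCtr P w), ENNReal.ofReal ‖(∫ x in cube (n + n), (g x - f x)) + w‖) ≤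
      sdistP N P f g := by
  have hfc := lowP_cont hf
  have hgc := lowP_cont hg
  unfold sdistP
  refine le_iInf₂ fun φ hφ => ?_
  obtain ⟨h, h0, γ, hγ, h1⟩ := hφ
  obtain ⟨w, hw, rfl⟩ := end_central hP hf hg h h0 hγ h1
  refine (iInf₂_le w hw).trans ?_
  refine le_trans (le_of_eq ?_) (lowP_path hN (lowP_sp hP h))
  congr 2
  rw [h0, h1]
  unfold dsp
  have i1 : IntegrableOn (fun x : Eu (n + n) => g x - f x) (cube (n + n)) volume :=
    HsA.int_cube (hgc.sub hfc)
  have i2 : IntegrableOn (fun _ : Eu (n + n) => w) (cube (n + n)) volume :=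
    HsA.int_cube continuous_const
  have i3 : IntegrableOn (fun x : Eu (n + n) => f x - x) (cube (n + n)) volume :=
    HsA.int_cube (hfc.sub continuous_id)
  have i4 : IntegrableOn (fun x : Eu (n + n) => g x + w - x) (cube (n + n)) volume :=
    HsA.int_cube ((hgc.add continuous_const).sub continuous_id)
  have e1 : (∫ x in cube (n + n), ((fun x => x + w) ∘ g) x - x) =
      ∫ x in cube (n + n), (g x + w - x) := rfl
  rw [e1, ← integral_sub i4 i3]
  have e2 : ∀ x : Eu (n + n), g x + w - x - (f x - x) = (g x - f x) + w := fun x => by abel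
  simp only [e2]
  rw [integral_add i1 i2, setIntegral_const, Measure.real, HsA.vol_cube, ENNReal.toReal_one,
    one_smul]

end

end FS
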