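import Pool.Agent.FS.Sym
import Pool.Agent.FS.Hpp

/-! # Project FS (MP_b0bf68_gt), row FS-10: a path which is a translation on a small ball -/

set_option autoImplicit false

open MeasureTheory Set Pool.Agent.H68.VD TN SVT
open scoped ENNReal ContDiff

namespace FS

noncomputable section

variable {n : ℕ} {P : Set (Eu (n + n) → Eu (n + n))}

/-- a function which is linear on a ball and zero off a larger one -/
private theorem trlP_fun (c w : Eu (n + n)) {r : ℝ} (hr : 0 < r) :
    ∃ u : Eu (n + n) → ℝ, ContDiff ℝ ∞ u ∧ (∀ x, 4 * r ≤ dist x c → u x = 0) ∧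
      ∀ x, dist x c < 3 * r → u x = innerSL ℝ w x - innerSL ℝ w c := by
  let b : ContDiffBump c := ⟨3 * r, 4 * r, by positivity, by linarith⟩
  refine ⟨fun x => b x * (innerSL ℝ w x - innerSL ℝ w c), ?_, ?_, ?_⟩
  · exact b.contDiff.mul ((innerSL ℝ w).contDiff.sub contDiff_const)
  · intro x hx
    have h : b x = 0 := b.zero_of_le_dist hx
    show b x * _ = 0
    rw [h, zero_mul]
  · intro x hx
    have h : b x = 1 := b.one_of_mem_closedBall (Metric.mem_closedBall.2 hx.le)
    show b x * _ = _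
    rw [h, one_mul]

theorem trlP (hP : SpDeck P) : ∃ Λ : ℝ, 1 ≤ Λ ∧ ∀ (c : Eu (n + n)) (ρ r : ℝ),
    SepP P c ρ → 0 < r → Λ * r ≤ ρ → ∀ v : Eu (n + n), ‖v‖ ≤ r →
    ∃ (g : ℝ → Eu (n + n) → Eu (n + n)) (G : ℝ → Eu (n + n) → ℝ), HPP P g G ∧ g 0 = id ∧
      (∀ t x, x ∉ orb P c (4 * r) → G t x = 0) ∧ ∀ x, dist x c ≤ r → g 1 x = x + v := by
  refine ⟨5, by norm_num, fun c ρ r hs hr hρ v hv => ?_⟩
  have hr4 : 4 * r < ρ := by linarith
  obtain ⟨u, hu, hu0, hu1⟩ := trlP_fun c (Jm v) hr
  have hsm : ContDiff ℝ ∞ (fun z : ℝ × Eu (n + n) => sym P u z.2) :=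
    sym_smooth (E := ℝ) (u := fun _ => u) hP hs hr4 (hu.comp contDiff_snd) (fun _ => hu0)
  obtain ⟨g, hg, hg0⟩ := exists_hpp (H := fun _ => sym P u) hP hsm (fun _ => sym_inv hP u)
  refine ⟨g, fun _ => sym P u, hg, hg0, fun _ x hx => sym_out hu0 hx, fun x hx => ?_⟩
  have h := HP.orbit hg.hp (T := 3 / 2) (γ := fun t => x + t • v) (γ' := fun _ => v) (x := x)
    (by rw [hg0]; simp)
    (fun t _ => by
      have h1 := ((hasDerivAt_id t).smul_const v).const_add x
      simpa using h1)
    (fun t ht => by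
      have hn : dist (x + t • v) c < 3 * r := by
        have h1 : ‖t • v‖ ≤ 3 / 2 * r := by
          rw [norm_smul, Real.norm_eq_abs]
          exact mul_le_mul (abs_lt.2 ht).le hv (norm_nonneg _) (by norm_num)
        have h2 : dist (x + t • v) c ≤ dist (x + t • v) x + dist x c := dist_triangle _ _ _
        have h3 : dist (x + t • v) x = ‖t • v‖ := by
          rw [dist_eq_norm, add_sub_cancel_left]
        linarith
      have h3 : HasFDerivAt (fun y => innerSL ℝ (Jm v) y - innerSL ℝ (Jm v) c) (innerSL ℝ (Jm v))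
          (x + t • v) :=
        (innerSL ℝ (Jm v)).hasFDerivAt.sub_const _
      refine h3.congr_of_eventuallyEq ?_
      have h4 : ∀ᶠ y in nhds (x + t • v), dist y c < 3 * r :=
        ((continuous_id.dist continuous_const).isOpen_preimage _ isOpen_Iio).mem_nhds hn
      filter_upwards [h4] with y hy
      rw [sym_at hP hs (fun z hz => hu0 z (by linarith)) (by linarith : dist y c < ρ)]
      exact hu1 y hy)
    1 (by constructor <;> norm_num)
  rw [h, one_smul]

end

end FS
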