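import Pool.Agent.FS.Defs
import Pool.Agent.FS.Sgp
import Pool.Agent.FS.Sym
import Pool.Agent.FS.Hpp
import Pool.Agent.FS.TrlP
import Pool.Agent.FS.LowP
import Pool.Agent.TN.Dom
import Pool.Agent.H68.VD.Tr
import Pool.Agent.H68.VD.SepU

/-! # Project FS, row FS-21: infinite diameter for norms above the norm of `L^1` -/

set_option autoImplicit false

open MeasureTheory Set Pool.Agent.H68.VD TN SVT
open scoped ENNReal ContDiff

namespace FS

noncomputable section

variable {n : ℕ} {P : Set (Eu (n + n) → Eu (n + n))}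

private theorem domP_sep (hP : SpDeck P) : ∃ ρ : ℝ, 0 < ρ ∧ ∀ c, SepP P c ρ := by
  obtain ⟨ρ, hρ, h⟩ := sepU (n + n) (TrA.sub hP.deck) (TrA.deck hP.deck)
  refine ⟨ρ, hρ, fun c => ⟨hρ, ?_⟩⟩
  intro g hg hne x hx hgx
  obtain ⟨a, rfl⟩ := TrA.exists_aff hP.deck hg
  have ha : a ∈ TrA.sub hP.deck := (TrA.mem_sub hP.deck a).2 hg
  have ha1 : a ≠ 1 := by
    rintro rfl
    exact hne rfl
  exact (h c).2 a ha ha1 x hx hgx

private theorem domP_cont (hP : SpDeck P) {g : Eu (n + n) → Eu (n + n)} (hg : g ∈ P) :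
    Continuous g := by
  obtain ⟨a, rfl⟩ := TrA.exists_aff hP.deck hg
  exact a.continuous_of_finiteDimensional

/-- the open box around a segment -/
private def dbox (i₀ : Fin (n + n)) (r : ℝ) : Set (Eu (n + n)) :=
  {x | ∀ j, x j ∈ Ioo (1 / 2 - 4 * r) (if j = i₀ then 3 / 2 + 4 * r else 1 / 2 + 4 * r)}

private theorem dbox_eq (i₀ : Fin (n + n)) (r : ℝ) : dbox i₀ r =
    (MeasurableEquiv.toLp 2 (Fin (n + n) → ℝ)).symm ⁻¹' (Set.pi Set.univ fun j : Fin (n + n) =>
      Ioo (1 / 2 - 4 * r) (if j = i₀ then 3 / 2 + 4 * r else 1 / 2 + 4 * r)) := by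
  ext x
  simp [dbox]

private theorem dbox_open (i₀ : Fin (n + n)) (r : ℝ) : IsOpen (dbox i₀ r) := by
  have h : dbox i₀ r = ⋂ j : Fin (n + n), (fun x : Eu (n + n) => x j) ⁻¹'
      Ioo (1 / 2 - 4 * r) (if j = i₀ then 3 / 2 + 4 * r else 1 / 2 + 4 * r) := by
    ext x
    simp [dbox]
  rw [h]
  refine isOpen_iInter_of_finite fun j => isOpen_Ioo.preimage ?_
  exact (EuclideanSpace.proj j : Eu (n + n) →L[ℝ] ℝ).continuous

private theorem dbox_vol (hn : 0 < n) (i₀ : Fin (n + n)) {r : ℝ} (hr : 0 < r) (hr8 : 8 * r ≤ 1) :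
    volume (dbox i₀ r) ≤ ENNReal.ofReal (16 * r) := by
  rw [dbox_eq, (EuclideanSpace.volume_preserving_symm_measurableEquiv_toLp
    (Fin (n + n))).measure_preimage_equiv, volume_pi_pi]
  simp only [Real.volume_Ioo]
  rw [← Finset.mul_prod_erase Finset.univ _ (Finset.mem_univ i₀), if_pos rfl]
  have h1 : ∏ j ∈ Finset.univ.erase i₀, ENNReal.ofReal
      ((if j = i₀ then 3 / 2 + 4 * r else 1 / 2 + 4 * r) - (1 / 2 - 4 * r)) ≤
      ENNReal.ofReal (8 * r) := by
    have h2 : ∀ j ∈ Finset.univ.erase i₀, ENNReal.ofReal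
        ((if j = i₀ then 3 / 2 + 4 * r else 1 / 2 + 4 * r) - (1 / 2 - 4 * r)) =
        ENNReal.ofReal (8 * r) := by
      intro j hj
      rw [if_neg (Finset.ne_of_mem_erase hj)]
      congr 1
      ring
    rw [Finset.prod_congr rfl h2, Finset.prod_const, Finset.card_erase_of_mem (Finset.mem_univ _),
      Finset.card_univ, Fintype.card_fin]
    have h3 : ENNReal.ofReal (8 * r) ≤ 1 := by
      rw [← ENNReal.ofReal_one]
      exact ENNReal.ofReal_le_ofReal hr8
    exact pow_le_of_le_one zero_le h3 (by omega)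
  refine (mul_le_mul' le_rfl h1).trans ?_
  rw [← ENNReal.ofReal_mul (by linarith)]
  refine ENNReal.ofReal_le_ofReal ?_
  nlinarith

/-- the orbit of the box -/
private def dT (P : Set (Eu (n + n) → Eu (n + n))) (i₀ : Fin (n + n)) (r : ℝ) : Set (Eu (n + n)) :=
  {x | ∃ g ∈ P, g x ∈ dbox i₀ r}

private theorem dT_open (hP : SpDeck P) (i₀ : Fin (n + n)) (r : ℝ) : IsOpen (dT P i₀ r) := by
  have h : dT P i₀ r = ⋃ g ∈ P, g ⁻¹' dbox i₀ r := by
    ext x
    simp [dT]
  rw [h]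
  exact isOpen_biUnion fun g hg => (dbox_open i₀ r).preimage (domP_cont hP hg)

/-- the centre of the cube -/
private def dc (n : ℕ) : Eu (n + n) := WithLp.toLp 2 (fun _ => (1 / 2 : ℝ))

private theorem dc_apply (j : Fin (n + n)) : dc n j = 1 / 2 := rfl

private theorem ev_apply (i j : Fin (n + n)) : (ev i : Eu (n + n)) j = if j = i then 1 else 0 := by
  simp [ev, eq_comm]

/-- the orbits of the balls on the line are in the orbit of the box -/
private theorem orb_sub (hP : SpDeck P) (i₀ : Fin (n + n)) {r : ℝ} (s : ℝ) :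
    orb P (dc n + s • ev i₀) (4 * r) ⊆ dT P i₀ r := by
  rintro x ⟨g, hg, hx⟩
  refine ⟨(fun y => y + iv (-(⌊s⌋ • Pi.single i₀ 1))) ∘ g,
    hP.deck.mul _ (hP.deck.trans _) _ hg, ?_⟩
  intro j
  have h1 : |(g x - (dc n + s • ev i₀)) j| ≤ dist (g x) (dc n + s • ev i₀) := by
    rw [dist_eq_norm, ← Real.norm_eq_abs]
    exact PiLp.norm_apply_le _ j
  have h2 : |(g x) j - (1 / 2 + s * (if j = i₀ then 1 else 0))| < 4 * r := by
    refine lt_of_le_of_lt ?_ hx
    refine le_trans (le_of_eq ?_) h1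
    rw [PiLp.sub_apply, PiLp.add_apply, PiLp.smul_apply, dc_apply, ev_apply, smul_eq_mul]
  rw [abs_lt] at h2
  have h3 : ((fun y => y + iv (-(⌊s⌋ • Pi.single i₀ 1))) ∘ g) x j =
      (g x) j - (⌊s⌋ : ℝ) * (if j = i₀ then 1 else 0) := by
    simp only [Function.comp, PiLp.add_apply, iv]
    simp only [Pi.neg_apply, Pi.smul_apply, smul_eq_mul, Int.cast_neg, Int.cast_mul]
    rw [Pi.single_apply]
    split_ifs <;> simp <;> ring
  rw [h3]
  have h4 := Int.floor_le s
  have h5 := Int.lt_floor_add_one s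
  by_cases hj : j = i₀
  · simp only [hj, if_true, mul_one] at h2 ⊢
    constructor <;> linarith [h2.1, h2.2]
  · simp only [hj, if_false, mul_zero, add_zero, sub_zero] at h2 ⊢
    constructor <;> linarith [h2.1, h2.2]

/-- the maps which move a ball far away and fix the points outside the orbit of the box -/
private theorem domP_map (hP : SpDeck P) {ρ Λ r : ℝ} (hsep : ∀ c, SepP P c ρ)
    (hΛ : ∀ (c : Eu (n + n)) (ρ r : ℝ), SepP P c ρ → 0 < r → Λ * r ≤ ρ → ∀ v : Eu (n + n), ‖v‖ ≤ r →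
      ∃ (g : ℝ → Eu (n + n) → Eu (n + n)) (G : ℝ → Eu (n + n) → ℝ), HPP P g G ∧ g 0 = id ∧
      (∀ t x, x ∉ orb P c (4 * r) → G t x = 0) ∧ ∀ x, dist x c ≤ r → g 1 x = x + v)
    (hr : 0 < r) (hr1 : Λ * r ≤ ρ) (hr2 : 4 * r < ρ) (i₀ : Fin (n + n)) (N : ℕ) :
    ∃ f : Eu (n + n) → Eu (n + n), SGP P f ∧ (∀ x, x ∉ dT P i₀ r → f x = x) ∧
      ∀ x, dist x (dc n) ≤ r → f x = x + (N * r : ℝ) • ev i₀ := by
  induction N with
  | zero =>
    refine ⟨id, sgp_id hP, fun x _ => rfl, fun x _ => ?_⟩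
    simp
  | succ N ih =>
    obtain ⟨f, hf, hf1, hf2⟩ := ih
    have hnorm : ‖r • (ev i₀ : Eu (n + n))‖ ≤ r := by
      rw [norm_smul]
      have : ‖(ev i₀ : Eu (n + n))‖ = 1 := by simp [ev]
      rw [this, mul_one, Real.norm_eq_abs, abs_of_pos hr]
    obtain ⟨g, G, hg, hg0, hG, hg1⟩ := hΛ (dc n + (N * r : ℝ) • ev i₀) ρ r (hsep _) hr hr1 _ hnorm
    have hfix := HPP.fix hg hP hg0 (hsep (dc n + (N * r : ℝ) • ev i₀)) hr2 hG
    refine ⟨fun x => g 1 (f x), sgp_comp hP (HPP.sgp hg hg0 1) hf, ?_, ?_⟩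
    · intro x hx
      show g 1 (f x) = x
      rw [hf1 x hx]
      exact hfix 1 x fun h => hx (orb_sub hP i₀ _ h)
    · intro x hx
      show g 1 (f x) = _
      rw [hf2 x hx, hg1]
      · rw [add_assoc, ← add_smul]
        congr 2
        push_cast
        ring
      · rw [dist_add_right]
        exact hx

theorem diam_domP (hn : 0 < n) (hP : SpDeck P) {N : (Eu (n + n) → Eu (n + n)) → ℝ≥0∞}
    (hN : Lnc N) : sdiamP N P = ⊤ := by
  obtain ⟨C, hC0, hC⟩ := hN
  obtain ⟨ρ, hρ, hsep⟩ := domP_sep hP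
  obtain ⟨Λ, hΛ1, hΛ⟩ := trlP hP
  obtain ⟨K, hK0, hK⟩ := sym_vol hP
  set i₀ : Fin (n + n) := ⟨0, by omega⟩ with hi₀
  -- the radius
  obtain ⟨r, hr, hr1, hr2, hr8, hr3⟩ : ∃ r : ℝ, 0 < r ∧ Λ * r ≤ ρ ∧ 4 * r < ρ ∧ 8 * r ≤ 1 ∧
      K * (16 * r) ≤ 1 / 2 := by
    refine ⟨min (min (ρ / (8 * Λ)) (1 / 16)) (1 / (32 * (K + 1))), by positivity, ?_, ?_, ?_, ?_⟩
    · have h1 : min (min (ρ / (8 * Λ)) (1 / 16)) (1 / (32 * (K + 1))) ≤ ρ / (8 * Λ) :=
        (min_le_left _ _).trans (min_le_left _ _)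
      have h2 : Λ * (ρ / (8 * Λ)) = ρ / 8 := by field_simp
      have h3 := mul_le_mul_of_nonneg_left h1 (by linarith : 0 ≤ Λ)
      linarith
    · have h1 : min (min (ρ / (8 * Λ)) (1 / 16)) (1 / (32 * (K + 1))) ≤ ρ / (8 * Λ) :=
        (min_le_left _ _).trans (min_le_left _ _)
      have h2 : ρ / (8 * Λ) ≤ ρ / 8 := by
        apply div_le_div_of_nonneg_left hρ.le (by norm_num)
        linarith
      linarith
    · have h1 : min (min (ρ / (8 * Λ)) (1 / 16)) (1 / (32 * (K + 1))) ≤ 1 / 16 :=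
        (min_le_left _ _).trans (min_le_right _ _)
      linarith
    · have h1 : min (min (ρ / (8 * Λ)) (1 / 16)) (1 / (32 * (K + 1))) ≤ 1 / (32 * (K + 1)) :=
        min_le_right _ _
      have h2 : K * (16 * (1 / (32 * (K + 1)))) ≤ 1 / 2 := by
        have : K * (16 * (1 / (32 * (K + 1)))) = K / (K + 1) * (1 / 2) := by field_simp; ring
        rw [this]
        have h3 : K / (K + 1) ≤ 1 := by
          rw [div_le_one (by linarith)]
          linarith
        linarith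
      have h3 := mul_le_mul_of_nonneg_left h1 (by linarith : 0 ≤ K * 16)
      linarith
  -- the fixed set
  set T := dT P i₀ r with hT
  have hTo : IsOpen T := dT_open hP i₀ r
  set F : Set (Eu (n + n)) := cube (n + n) \ T with hF
  set B : Set (Eu (n + n)) := Metric.ball (dc n) r with hB
  have hcm : MeasurableSet (cube (n + n)) := by
    have h1 : cube (n + n) = (MeasurableEquiv.toLp 2 (Fin (n + n) → ℝ)).symm ⁻¹'
        (Set.pi Set.univ fun _ : Fin (n + n) => Set.Ico (0 : ℝ) 1) := by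
      ext x
      simp [cube]
    rw [h1]
    exact (MeasurableEquiv.measurable _) (MeasurableSet.univ_pi fun _ => measurableSet_Ico)
  have hFm : MeasurableSet F := hcm.diff hTo.measurableSet
  have hBm : MeasurableSet B := measurableSet_ball
  have hBc : B ⊆ cube (n + n) := by
    intro x hx j
    have h1 : |x j - 1 / 2| ≤ dist x (dc n) := by
      rw [dist_eq_norm, ← Real.norm_eq_abs]
      have := PiLp.norm_apply_le (x - dc n) j
      rwa [PiLp.sub_apply, dc_apply] at this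
    have h2 : |x j - 1 / 2| < r := lt_of_le_of_lt h1 hx
    rw [abs_lt] at h2
    constructor <;> linarith [h2.1, h2.2]
  have hBT : B ⊆ T := by
    intro x hx
    refine orb_sub hP i₀ (r := r) 0 ⟨id, hP.deck.one, ?_⟩
    rw [zero_smul, add_zero]
    exact lt_of_lt_of_le (Metric.mem_ball.1 hx) (by linarith)
  have hdisj : Disjoint F B := by
    rw [Set.disjoint_left]
    intro x hx hxB
    exact hx.2 (hBT hxB)
  have hvF : ENNReal.ofReal (1 / 2) ≤ volume F := by
    have h1 : volume (T ∩ cube (n + n)) ≤ ENNReal.ofReal (1 / 2) := by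
      refine (hK (dbox i₀ r) (dbox_open i₀ r).measurableSet).trans ?_
      refine (mul_le_mul' le_rfl (dbox_vol hn i₀ hr hr8)).trans ?_
      rw [← ENNReal.ofReal_mul hK0]
      exact ENNReal.ofReal_le_ofReal hr3
    have h2 : volume (cube (n + n)) ≤ volume F + volume (T ∩ cube (n + n)) := by
      refine (measure_mono (t := F ∪ (T ∩ cube (n + n))) ?_).trans (measure_union_le _ _)
      intro x hx
      by_cases hxT : x ∈ T
      · exact Or.inr ⟨hxT, hx⟩
      · exact Or.inl ⟨hx, hxT⟩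
    rw [HsA.vol_cube] at h2
    have h3 : (1 : ℝ≥0∞) ≤ volume F + ENNReal.ofReal (1 / 2) := h2.trans (add_le_add le_rfl h1)
    have h4 : (1 : ℝ≥0∞) = ENNReal.ofReal (1 / 2) + ENNReal.ofReal (1 / 2) := by
      rw [← ENNReal.ofReal_add (by norm_num) (by norm_num)]
      norm_num
    rw [h4] at h3
    exact (ENNReal.add_le_add_iff_right ENNReal.ofReal_ne_top).1 h3
  have hvB : 0 < volume B := Metric.measure_ball_pos _ _ hr
  set κ : ℝ≥0∞ := min (ENNReal.ofReal (1 / 2)) (volume B) with hκ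
  have hκ0 : κ ≠ 0 := (lt_min (by simp) hvB).ne'
  have hκt : κ ≠ ⊤ := ne_top_of_le_ne_top ENNReal.ofReal_ne_top (min_le_left _ _)
  -- the main estimate
  have key : ∀ M : ℕ, κ * ENNReal.ofReal (M * r) ≤ ENNReal.ofReal (C + 1) * sdiamP N P := by
    intro M
    obtain ⟨f, hf, hf1, hf2⟩ := domP_map hP hsep hΛ hr hr1 hr2 i₀ M
    have hCne : ENNReal.ofReal (C + 1) ≠ 0 := by
      rw [Ne, ENNReal.ofReal_eq_zero]; linarith
    have h1 : κ * ENNReal.ofReal (M * r) ≤ ENNReal.ofReal (C + 1) * sdistP N P id f := by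
      rw [mul_comm (ENNReal.ofReal (C + 1)), ← ENNReal.div_le_iff hCne ENNReal.ofReal_ne_top]
      refine le_iInf fun ψ => le_iInf fun hψ => ?_
      obtain ⟨hp, h0, γ, hγ, h2⟩ := hψ
      rw [ENNReal.div_le_iff hCne ENNReal.ofReal_ne_top]
      obtain ⟨w, -, rfl⟩ := end_central hP (sgp_id hP) hf hp h0 hγ h2
      have h3 := dom_disp hC (spp_sp hP hp)
      rw [h2, h0] at h3
      have h4 : κ * ENNReal.ofReal (M * r) ≤
          ∫⁻ x in cube (n + n), ‖((fun x => x + w) ∘ f) x - id x‖ₑ := by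
        have h5 : (∫⁻ x in F, ‖((fun x => x + w) ∘ f) x - id x‖ₑ) +
            (∫⁻ x in B, ‖((fun x => x + w) ∘ f) x - id x‖ₑ) ≤
            ∫⁻ x in cube (n + n), ‖((fun x => x + w) ∘ f) x - id x‖ₑ := by
          rw [← lintegral_union hBm hdisj]
          exact lintegral_mono_set (Set.union_subset Set.sdiff_subset hBc)
        refine le_trans ?_ h5
        have h6 : (∫⁻ x in F, ‖((fun x => x + w) ∘ f) x - id x‖ₑ) = ‖w‖ₑ * volume F := by
          rw [← setLIntegral_const]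
          refine setLIntegral_congr_fun hFm fun x hx => ?_
          simp only [Function.comp, id]
          rw [hf1 x hx.2, add_sub_cancel_left]
        have h7 : (∫⁻ x in B, ‖((fun x => x + w) ∘ f) x - id x‖ₑ) =
            ‖(M * r : ℝ) • (ev i₀ : Eu (n + n)) + w‖ₑ * volume B := by
          rw [← setLIntegral_const]
          refine setLIntegral_congr_fun hBm fun x hx => ?_
          simp only [Function.comp, id]
          rw [hf2 x (Metric.mem_ball.1 hx).le]
          congr 1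
          abel
        rw [h6, h7]
        have h8 : ENNReal.ofReal (M * r) ≤ ‖w‖ₑ + ‖(M * r : ℝ) • (ev i₀ : Eu (n + n)) + w‖ₑ := by
          have h9 : (M * r : ℝ) • (ev i₀ : Eu (n + n)) =
              ((M * r : ℝ) • (ev i₀ : Eu (n + n)) + w) - w := by abel
          have h10 : ENNReal.ofReal (M * r) = ‖(M * r : ℝ) • (ev i₀ : Eu (n + n))‖ₑ := by
            rw [← ofReal_norm, norm_smul]
            have h11 : ‖(ev i₀ : Eu (n + n))‖ = 1 := by simp [ev]
            rw [h11, mul_one, Real.norm_eq_abs, abs_of_nonneg (by positivity)]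
          have h12 : ‖((M * r : ℝ) • (ev i₀ : Eu (n + n)) + w) - w‖ₑ ≤
              ‖(M * r : ℝ) • (ev i₀ : Eu (n + n)) + w‖ₑ + ‖w‖ₑ := enorm_sub_le
          rw [← h9] at h12
          rw [h10]
          exact h12.trans (le_of_eq (add_comm _ _))
        calc κ * ENNReal.ofReal (M * r)
            ≤ κ * (‖w‖ₑ + ‖(M * r : ℝ) • (ev i₀ : Eu (n + n)) + w‖ₑ) := mul_le_mul' le_rfl h8
          _ = ‖w‖ₑ * κ + ‖(M * r : ℝ) • (ev i₀ : Eu (n + n)) + w‖ₑ * κ := by ring
          _ ≤ _ := add_le_add (mul_le_mul' le_rfl ((min_le_left _ _).trans hvF))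
              (mul_le_mul' le_rfl (min_le_right _ _))
      refine (h4.trans h3).trans ?_
      rw [mul_comm]
      exact mul_le_mul' le_rfl (ENNReal.ofReal_le_ofReal (by linarith))
    refine h1.trans ?_
    gcongr
    exact le_iSup₂_of_le id (sgp_id hP) (le_iSup₂_of_le f hf le_rfl)
  by_contra hne
  have h2 : ENNReal.ofReal (C + 1) * sdiamP N P ≠ ⊤ := ENNReal.mul_ne_top ENNReal.ofReal_ne_top hne
  have h4 : ENNReal.ofReal (C + 1) * sdiamP N P / κ ≠ ⊤ := ENNReal.div_ne_top h2 hκ0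
  obtain ⟨M, hM⟩ := exists_nat_gt ((ENNReal.ofReal (C + 1) * sdiamP N P / κ).toReal / r)
  have h5 : ENNReal.ofReal (M * r) ≤ ENNReal.ofReal (C + 1) * sdiamP N P / κ := by
    rw [ENNReal.le_div_iff_mul_le (Or.inl hκ0) (Or.inl hκt), mul_comm]
    exact key M
  have h6 := (ENNReal.ofReal_le_iff_le_toReal h4).1 h5
  rw [div_lt_iff₀ hr] at hM
  linarith

end

end FS
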