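import Pool.Agent.FS.Defs
import Pool.Agent.FS.RhoP
import Pool.Agent.SVT.Sg
import Pool.Agent.SVT.Hp

/-!
# Project FS (MP_b0bf68_gt), FS-14: all Hamiltonian paths cost nothing
-/

set_option autoImplicit false

open MeasureTheory Set Pool.Agent.H68.VD TN SVT
open scoped ENNReal ContDiff

namespace FS

noncomputable section

variable {n : ℕ} {P : Set (Eu (n + n) → Eu (n + n))} {E : (Eu (n + n) → ℝ) → ℝ≥0∞}

/-- a uniform radius on the unit interval -/
private theorem gloP_unif {Q : ℝ → ℝ → Prop}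
    (hl : ∀ t₀ : ℝ, ∃ r > (0 : ℝ), ∀ t s : ℝ, |t - t₀| < r → 0 ≤ s → s < r → Q t s) :
    ∃ δ > (0 : ℝ), ∀ t ∈ Icc (0 : ℝ) 1, ∀ s : ℝ, 0 ≤ s → s < δ → Q t s := by
  choose r hr hQ using hl
  obtain ⟨T, hT⟩ := (isCompact_Icc (a := (0 : ℝ)) (b := 1)).elim_finite_subcover
    (fun t₀ : ℝ => Metric.ball t₀ (r t₀)) (fun _ => Metric.isOpen_ball)
    (fun t _ => mem_iUnion.2 ⟨t, Metric.mem_ball_self (hr t)⟩)
  have hmin : ∀ S : Finset ℝ, ∃ δ > (0 : ℝ), ∀ t₀ ∈ S, δ ≤ r t₀ := by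
    intro S
    classical
    induction S using Finset.induction_on with
    | empty => exact ⟨1, one_pos, fun t₀ h => absurd h (Finset.notMem_empty _)⟩
    | insert a S _ ih =>
      obtain ⟨δ, hδ, h⟩ := ih
      refine ⟨min δ (r a), lt_min hδ (hr a), ?_⟩
      intro t₀ ht₀
      rcases Finset.mem_insert.1 ht₀ with h1 | h1
      · rw [h1]; exact min_le_right _ _
      · exact le_trans (min_le_left _ _) (h t₀ h1)
  obtain ⟨δ, hδ, h⟩ := hmin T
  refine ⟨δ, hδ, ?_⟩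
  intro t ht s hs hsδ
  obtain ⟨t₀, h1⟩ := mem_iUnion.1 (hT ht)
  obtain ⟨h2, h3⟩ := mem_iUnion.1 h1
  rw [Metric.mem_ball, Real.dist_eq] at h3
  exact hQ t₀ t s h3 hs (lt_of_lt_of_le hsδ (h t₀ h2))

theorem gloP (hP : SpDeck P) (hE : CF P E) {φ : ℝ → Eu (n + n) → Eu (n + n)}
    {H : ℝ → Eu (n + n) → ℝ} (h : HPP P φ H) (h0 : φ 0 = id)
    (hl : ∀ (t₀ : ℝ) (ε : ℝ), 0 < ε → ∃ r > (0 : ℝ), ∀ t s : ℝ, |t - t₀| < r → 0 ≤ s → s < r →
      rhoP P E (fun x => φ (t + s) (Function.invFun (φ t) x)) ≤ ENNReal.ofReal (ε * s)) :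
    rhoP P E (φ 1) = 0 := by
  have hb : ∀ t, Function.Bijective (φ t) := fun t => sg_bij (h.hp.sg h0 t)
  set p : ℝ → Equiv.Perm (Eu (n + n)) := fun t => Equiv.ofBijective (φ t) (hb t) with hp
  have hPc : ∀ t, ⇑(p t) = φ t := fun t => rfl
  have hPi : ∀ t s, ⇑(p (t + s) * (p t)⁻¹) = fun x => φ (t + s) (Function.invFun (φ t) x) := by
    intro t s
    funext x
    obtain ⟨y, rfl⟩ := (hb t).2 x
    have e1 : (p t)⁻¹ (φ t y) = y := by
      rw [Equiv.Perm.inv_eq_iff_eq]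
      rfl
    have e2 : Function.invFun (φ t) (φ t y) = y := Function.leftInverse_invFun (hb t).1 y
    rw [Equiv.Perm.mul_apply, e1, e2]
    rfl
  refine le_antisymm ?_ zero_le
  refine le_of_forall_pos_le_add ?_
  intro ε' hε'
  rcases eq_or_ne ε' ⊤ with htop | htop
  · rw [htop]; simp
  set ε : ℝ := ε'.toReal with hε
  have hεpos : 0 < ε := ENNReal.toReal_pos hε'.ne' htop
  obtain ⟨δ, hδ, hu⟩ := gloP_unif (fun t₀ => hl t₀ ε hεpos)
  obtain ⟨N, hN⟩ := exists_nat_gt (1 / δ)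
  have hN0 : (0 : ℝ) < N := lt_trans (by positivity) hN
  have hNδ : 1 / (N : ℝ) < δ := by
    rw [div_lt_iff₀ hN0]
    rw [div_lt_iff₀ hδ] at hN
    linarith
  have key : ∀ j : ℕ, j ≤ N → rhoP P E (φ (j / N)) ≤ ENNReal.ofReal (ε * (j / N)) := by
    intro j
    induction j with
    | zero =>
      intro _
      rw [Nat.cast_zero, zero_div, h0, rhoP_id hP hE]
      exact zero_le
    | succ j ih =>
      intro hj
      have ih' := ih (by omega)
      have hjN : (j : ℝ) / N ≤ 1 := by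
        rw [div_le_one hN0]
        exact_mod_cast (by omega : j ≤ N)
      have h1 := hu ((j : ℝ) / N) ⟨by positivity, hjN⟩ (1 / N) (by positivity) hNδ
      have e1 : ((j + 1 : ℕ) : ℝ) / N = j / N + 1 / N := by push_cast; ring
      rw [e1]
      have e2 : p ((j : ℝ) / N + 1 / N) = p ((j : ℝ) / N + 1 / N) * (p ((j : ℝ) / N))⁻¹ *
          p ((j : ℝ) / N) := by rw [inv_mul_cancel_right]
      have h2 := rhoP_mul hP hE (p ((j : ℝ) / N + 1 / N) * (p ((j : ℝ) / N))⁻¹)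
        (p ((j : ℝ) / N))
      rw [← e2, hPi, hPc, hPc] at h2
      refine le_trans h2 (le_trans (add_le_add h1 ih') ?_)
      rw [← ENNReal.ofReal_add (by positivity) (by positivity)]
      refine ENNReal.ofReal_le_ofReal (le_of_eq ?_)
      ring
  have h1 := key N le_rfl
  rw [div_self hN0.ne', mul_one, hε, ENNReal.ofReal_toReal htop] at h1
  rw [zero_add]
  exact h1

end

end FS
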