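import Pool.Agent.FS.Defs

/-! # FS-23: a six-dimensional closed flat symplectic manifold with first Betti number zero -/

set_option autoImplicit false

open MeasureTheory Set Pool.Agent.H68.VD TN
open scoped ENNReal ContDiff

namespace FS

noncomputable section

/-- the signs of the linear parts -/
private def hwS : Fin 4 → Fin (3 + 3) → ℤ :=
  ![![1, 1, 1, 1, 1, 1], ![1, -1, -1, 1, -1, -1], ![-1, 1, -1, -1, 1, -1], ![-1, -1, 1, -1, -1, 1]]

/-- twice the translation parts -/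
private def hwT : Fin 4 → Fin (3 + 3) → ℤ :=
  ![![0, 0, 0, 0, 0, 0], ![1, 1, 0, 0, 0, 0], ![0, 1, 1, 0, 0, 0], ![1, 0, 1, 0, 0, 0]]

/-- the multiplication of the holonomy group -/
private def hwM : Fin 4 → Fin 4 → Fin 4 :=
  ![![0, 1, 2, 3], ![1, 0, 3, 2], ![2, 3, 0, 1], ![3, 2, 1, 0]]

private theorem hw_sq : ∀ (a : Fin 4) (j : Fin (3 + 3)), hwS a j * hwS a j = 1 := by decide

private theorem hw_mul1 : ∀ (a b : Fin 4) (j : Fin (3 + 3)),
    hwS a j * hwS b j = hwS (hwM a b) j := by decide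

private theorem hw_mul2 : ∀ (a b : Fin 4) (j : Fin (3 + 3)),
    2 * ((hwS a j * hwT b j + hwT a j - hwT (hwM a b) j) / 2) =
      hwS a j * hwT b j + hwT a j - hwT (hwM a b) j := by decide

private theorem hw_inv : ∀ (a : Fin 4) (j : Fin (3 + 3)),
    2 * (((1 + hwS a j) * hwT a j) / 2) = (1 + hwS a j) * hwT a j := by decide

private theorem hw_zero : ∀ j : Fin (3 + 3), hwS 0 j = 1 ∧ hwT 0 j = 0 := by decide

private theorem hw_free : ∀ a : Fin 4, a ≠ 0 → ∃ j : Fin (3 + 3), hwS a j = 1 ∧ hwT a j = 1 := by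
  decide

private theorem hw_neg : ∀ j : Fin (3 + 3), ∃ a : Fin 4, hwS a j = -1 := by decide

private theorem hw_symp : ∀ (a : Fin 4) (i : Fin 3),
    hwS a (Fin.castAdd 3 i) * hwS a (Fin.natAdd 3 i) = 1 := by decide

/-- the affine maps -/
private def hwG (a : Fin 4) (k : Fin (3 + 3) → ℤ) (x : Eu (3 + 3)) : Eu (3 + 3) :=
  WithLp.toLp 2 (fun j => (hwS a j : ℝ) * x j + (hwT a j : ℝ) / 2 + (k j : ℝ))

private theorem hwG_apply (a : Fin 4) (k : Fin (3 + 3) → ℤ) (x : Eu (3 + 3)) (j : Fin (3 + 3)) :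
    hwG a k x j = (hwS a j : ℝ) * x j + (hwT a j : ℝ) / 2 + (k j : ℝ) := rfl

private theorem hw_iv (k : Fin (3 + 3) → ℤ) (j : Fin (3 + 3)) : (iv k : Eu (3 + 3)) j = (k j : ℝ) :=
  rfl

/-- the deck group -/
private def hwP : Set (Eu (3 + 3) → Eu (3 + 3)) := {g | ∃ a k, g = hwG a k}

private theorem hw_comp (a b : Fin 4) (k l : Fin (3 + 3) → ℤ) :
    hwG a k ∘ hwG b l = hwG (hwM a b)
      (fun j => (hwS a j * hwT b j + hwT a j - hwT (hwM a b) j) / 2 + hwS a j * l j + k j) := by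
  funext x
  ext j
  show hwG a k (hwG b l x) j = _
  rw [hwG_apply, hwG_apply, hwG_apply]
  have h1 : (hwS a j : ℝ) * hwS b j = hwS (hwM a b) j := by exact_mod_cast hw_mul1 a b j
  have h2 : (2 : ℝ) * (((hwS a j * hwT b j + hwT a j - hwT (hwM a b) j) / 2 : ℤ) : ℝ) =
      hwS a j * hwT b j + hwT a j - hwT (hwM a b) j := by exact_mod_cast hw_mul2 a b j
  push_cast at h2 ⊢
  rw [← h1]
  linear_combination (-1 / 2 : ℝ) * h2

private theorem hw_id : (hwG 0 (fun _ => 0) : Eu (3 + 3) → Eu (3 + 3)) = id := by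
  funext x
  ext j
  rw [hwG_apply, (hw_zero j).1, (hw_zero j).2]
  simp

private theorem hw_inv_comp (a : Fin 4) (k : Fin (3 + 3) → ℤ) :
    hwG a k ∘ hwG a (fun j => -(hwS a j * k j) - ((1 + hwS a j) * hwT a j) / 2) = id ∧
    hwG a (fun j => -(hwS a j * k j) - ((1 + hwS a j) * hwT a j) / 2) ∘ hwG a k = id := by
  have h2 : ∀ j : Fin (3 + 3), (2 : ℝ) * ((((1 + hwS a j) * hwT a j) / 2 : ℤ) : ℝ) =
      (1 + hwS a j) * hwT a j := fun j => by exact_mod_cast hw_inv a j
  have h1 : ∀ j : Fin (3 + 3), (hwS a j : ℝ) * hwS a j = 1 := fun j => by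
    exact_mod_cast hw_sq a j
  constructor
  · funext x
    ext j
    show hwG a k (hwG a _ x) j = x j
    rw [hwG_apply, hwG_apply]
    have h3 := h2 j
    have h4 := h1 j
    push_cast at h3 ⊢
    linear_combination (x j - k j - (hwT a j : ℝ) / 2) * h4 - (hwS a j / 2 : ℝ) * h3
  · funext x
    ext j
    show hwG a _ (hwG a k x) j = x j
    rw [hwG_apply, hwG_apply]
    have h3 := h2 j
    have h4 := h1 j
    push_cast at h3 ⊢
    linear_combination (x j) * h4 - (1 / 2 : ℝ) * h3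

/-- the linear parts -/
private def hwL (a : Fin 4) (v : Eu (3 + 3)) : Eu (3 + 3) :=
  WithLp.toLp 2 (fun j => (hwS a j : ℝ) * v j)

private theorem hwL_apply (a : Fin 4) (v : Eu (3 + 3)) (j : Fin (3 + 3)) :
    hwL a v j = (hwS a j : ℝ) * v j := rfl

private theorem hw_aff (a : Fin 4) (k : Fin (3 + 3) → ℤ) (x v : Eu (3 + 3)) :
    hwG a k (x + v) = hwG a k x + hwL a v := by
  ext j
  rw [PiLp.add_apply, hwG_apply, hwG_apply, hwL_apply, PiLp.add_apply]
  ring

private theorem hw_deck : FlatDeck hwP := by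
  refine ⟨⟨0, fun _ => 0, hw_id.symm⟩, ?_, ?_, ?_, ?_, ?_, ?_⟩
  · rintro _ ⟨a, k, rfl⟩ _ ⟨b, l, rfl⟩
    exact ⟨_, _, hw_comp a b k l⟩
  · rintro _ ⟨a, k, rfl⟩
    exact ⟨_, ⟨a, _, rfl⟩, hw_inv_comp a k⟩
  · intro k
    refine ⟨0, k, ?_⟩
    funext x
    ext j
    rw [PiLp.add_apply, hwG_apply, (hw_zero j).1, (hw_zero j).2, hw_iv]
    simp
  · refine ⟨Set.range (fun a => hwG a (fun _ => 0)), Set.finite_range _, ?_⟩
    rintro _ ⟨a, k, rfl⟩
    refine ⟨_, ⟨a, rfl⟩, k, fun x => ?_⟩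
    ext j
    rw [PiLp.add_apply, hwG_apply, hwG_apply, hw_iv]
    simp
  · rintro _ ⟨a, k, rfl⟩
    refine ⟨hwL a, hw_aff a k, ?_, ?_⟩
    · intro c v
      ext j
      rw [PiLp.smul_apply, hwL_apply, hwL_apply, PiLp.smul_apply, smul_eq_mul, smul_eq_mul]
      ring
    · intro l
      refine ⟨fun j => hwS a j * l j, ?_⟩
      ext j
      rw [hwL_apply, hw_iv, hw_iv]
      push_cast
      ring
  · rintro _ ⟨a, k, rfl⟩ hne x hx
    apply hne
    by_cases ha : a = 0
    · subst ha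
      have hk : k = fun _ => 0 := by
        funext j
        have h1 := congrArg (fun y : Eu (3 + 3) => y j) hx
        simp only at h1
        rw [hwG_apply, (hw_zero j).1, (hw_zero j).2] at h1
        have h2 : (k j : ℝ) = 0 := by
          push_cast at h1
          linarith
        exact_mod_cast h2
      rw [hk, hw_id]
    · exfalso
      obtain ⟨j, h1, h2⟩ := hw_free a ha
      have h3 := congrArg (fun y : Eu (3 + 3) => y j) hx
      simp only at h3
      rw [hwG_apply, h1, h2] at h3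
      have h4 : ((2 * k j + 1 : ℤ) : ℝ) = ((0 : ℤ) : ℝ) := by
        push_cast at h3 ⊢
        linarith
      have h5 : 2 * k j + 1 = 0 := by exact_mod_cast h4
      omega

theorem exists_hw : ∃ P : Set (Eu (3 + 3) → Eu (3 + 3)), SpDeck P ∧ Split P ∧
    ∀ m, FInv P m → m = 0 := by
  refine ⟨hwP, ⟨hw_deck, ?_⟩, ?_, ?_⟩
  · rintro _ ⟨a, k, rfl⟩ x v w
    rw [hw_aff, hw_aff, add_sub_cancel_left, add_sub_cancel_left]
    unfold om
    refine Finset.sum_congr rfl fun i _ => ?_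
    rw [hwL_apply, hwL_apply, hwL_apply, hwL_apply]
    have h1 : (hwS a (Fin.castAdd 3 i) : ℝ) * hwS a (Fin.natAdd 3 i) = 1 := by
      exact_mod_cast hw_symp a i
    linear_combination (v (Fin.castAdd 3 i) * w (Fin.natAdd 3 i) -
      v (Fin.natAdd 3 i) * w (Fin.castAdd 3 i)) * h1
  · refine ⟨0, ?_⟩
    rintro _ ⟨a, k, rfl⟩
    refine ⟨(hwT a (Fin.natAdd 3 0) : ℝ) / 2 + (k (Fin.natAdd 3 0) : ℝ), ?_⟩
    have h1 : hwS a (Fin.natAdd 3 0) = 1 ∨ hwS a (Fin.natAdd 3 0) = -1 := by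
      revert a
      decide
    rcases h1 with h1 | h1
    · left
      intro x
      rw [hwG_apply, h1]
      push_cast
      ring
    · right
      intro x
      rw [hwG_apply, h1]
      push_cast
      ring
  · intro m hm
    ext j
    obtain ⟨a, ha⟩ := hw_neg j
    have h1 := hm (hwG a (fun _ => 0)) ⟨a, _, rfl⟩ 0
    rw [hw_aff] at h1
    have h2 := congrArg (fun y : Eu (3 + 3) => y j) (add_left_cancel h1)
    simp only at h2
    rw [hwL_apply, ha] at h2
    rw [PiLp.zero_apply]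
    push_cast at h2
    linarith

end

end FS
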