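import Pool.Agent.FS.Dk
import Pool.Agent.FS.Sgp
import Pool.Agent.TN.Ham

/-!
# Project FS, row FS-5: paths with mean zero velocities are Hamiltonian
-/

set_option autoImplicit false

open MeasureTheory Set Pool.Agent.H68.VD TN SVT
open scoped ENNReal ContDiff

namespace FS

noncomputable section

variable {n : ℕ} {P : Set (Eu (n + n) → Eu (n + n))}

/-- an affine map is differentiable -/
private theorem Hop_hasFDerivAt {g : Eu (n + n) → Eu (n + n)} {L : Eu (n + n) →L[ℝ] Eu (n + n)}
    (hL : ∀ x v, g (x + v) = g x + L v) (x : Eu (n + n)) : HasFDerivAt g L x := by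
  have h1 : g = fun y => g 0 + L y := by
    funext y
    have := hL 0 y
    rwa [zero_add] at this
  rw [h1]
  exact (L.hasFDerivAt).const_add (g 0)

/-- the velocity field is equivariant -/
private theorem Hop_vel {φ : ℝ → Eu (n + n) → Eu (n + n)} (hs : SPath φ)
    {g : Eu (n + n) → Eu (n + n)} {L : Eu (n + n) →L[ℝ] Eu (n + n)}
    (hL : ∀ x v, g (x + v) = g x + L v) (he : ∀ t x, φ t (g x) = g (φ t x)) (t : ℝ)
    (x : Eu (n + n)) : vel φ t (g x) = L (vel φ t x) := by
  obtain ⟨y, rfl⟩ := (hs.path.bij t).2 x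
  have h1 : HasDerivAt (fun τ => φ τ (g y)) (vel φ t (φ t (g y))) t := vel_eq hs t (g y)
  have h2 : HasDerivAt (fun τ => g (φ τ y)) (L (vel φ t (φ t y))) t :=
    (Hop_hasFDerivAt hL (φ t y)).comp_hasDerivAt t (vel_eq hs t y)
  have h3 : (fun τ => φ τ (g y)) = fun τ => g (φ τ y) := funext fun τ => he τ y
  rw [h3] at h1
  have h4 := h1.unique h2
  rwa [he t y] at h4

theorem hpp_of_path (hP : SpDeck P) {φ : ℝ → Eu (n + n) → Eu (n + n)} (h : SPathP P φ)
    (h0 : φ 0 = id) (hm : ∀ t, mn (vel φ t) = 0) : ∃ H : ℝ → Eu (n + n) → ℝ, HPP P φ H := by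
  have hs : SPath φ := spp_sp hP h
  obtain ⟨H, hH, -⟩ := exists_ham hs h0 hm 0
  refine ⟨H, ⟨hs, hH.Hs, hH.Hp, hH.Hd⟩, fun t g hg x => h.path.equi t g hg x, fun t g hg x => ?_⟩
  obtain ⟨L, hL, hLs⟩ := dk_aff hP hg
  have hHc : Continuous (H t) := by
    have h1 : Differentiable ℝ (H t) := fun y => (hH.Hd t y).differentiableAt
    exact h1.continuous
  have hgc : Continuous g := by
    have h1 : Differentiable ℝ g := fun y => (Hop_hasFDerivAt hL y).differentiableAt
    exact h1.continuous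
  have hd : ∀ y, HasFDerivAt (fun y => H t (g y) - H t y) (0 : Eu (n + n) →L[ℝ] ℝ) y := by
    intro y
    have h1 : HasFDerivAt (fun y => H t (g y)) ((innerSL ℝ (Jm (vel φ t (g y)))).comp L) y :=
      (hH.Hd t (g y)).comp y (Hop_hasFDerivAt hL y)
    have h2 := h1.sub (hH.Hd t y)
    have h3 : (innerSL ℝ (Jm (vel φ t (g y)))).comp L - innerSL ℝ (Jm (vel φ t y)) = 0 := by
      ext v
      rw [Hop_vel hs hL (fun t x => h.path.equi t g hg x)]
      show inner ℝ (Jm (L (vel φ t y))) (L v) - inner ℝ (Jm (vel φ t y)) v = 0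
      rw [← om_J, ← om_J, hLs, sub_self]
    rw [h3] at h2
    exact h2
  have hc : ∀ y, H t (g y) - H t y = H t (g x) - H t x := by
    intro y
    exact is_const_of_fderiv_eq_zero (𝕜 := ℝ) (f := fun y => H t (g y) - H t y)
      (fun z => (hd z).differentiableAt) (fun z => (hd z).fderiv) y x
  have hi := dk_intR hP hg hHc (hH.Hp t)
  have hint : ∀ {F : Eu (n + n) → ℝ}, Continuous F → IntegrableOn F (cube (n + n)) := fun hF =>
    (hF.continuousOn.integrableOn_compact DiamWA.compact_ccube).mono_set DiamWA.cube_sub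
  have h5 : ∫ y in cube (n + n), (H t (g y) - H t y) = 0 := by
    have h7 : ∫ y in cube (n + n), (H t (g y) - H t y) =
        (∫ y in cube (n + n), H t (g y)) - ∫ y in cube (n + n), H t y :=
      integral_sub (hint (hHc.comp hgc)) (hint hHc)
    rw [h7]
    exact sub_eq_zero.2 hi
  have h6 : ∫ y in cube (n + n), (H t (g y) - H t y) = H t (g x) - H t x := by
    rw [integral_congr_ae (Filter.Eventually.of_forall hc)]
    simp [Measure.real, DiamWA.volume_cube]
  rw [h5] at h6
  exact (sub_eq_zero.1 h6.symm)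

end

end FS
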