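import Pool.Agent.FS.Defs
import Pool.Agent.H68.VD.HsS

/-!
# Project FS, row EP-6: the norm of `H^s` is bounded by the dual Slobodeckij norm, `-1 < s < 0`, `p = 2`
-/

set_option autoImplicit false
set_option linter.all false

open MeasureTheory Set Pool.Agent.H68.VD TN
open scoped ENNReal ContDiff

namespace FS

noncomputable section

/-! ### Trigonometric polynomials -/

/-- the scalar trigonometric polynomial -/
def hsw_T {m : ℕ} (S : Finset (Fin m → ℤ)) (c : (Fin m → ℤ) → ℂ) (x : Eu m) : ℂ :=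
  ∑ k ∈ S, c k * HsA.ex (-k) x

theorem hsw_T_cont {m : ℕ} (S : Finset (Fin m → ℤ)) (c : (Fin m → ℤ) → ℂ) :
    Continuous (hsw_T S c) :=
  continuous_finset_sum _ fun k _ => continuous_const.mul (HsA.ex_cont (-k))

theorem hsw_T_l2 {m : ℕ} (S : Finset (Fin m → ℤ)) (c : (Fin m → ℤ) → ℂ) :
    ∫ x in cube m, ‖hsw_T S c x‖ ^ 2 = ∑ k ∈ S, ‖c k‖ ^ 2 := by
  have h1 : ((∫ x in cube m, ‖hsw_T S c x‖ ^ 2 : ℝ) : ℂ) = ((∑ k ∈ S, ‖c k‖ ^ 2 : ℝ) : ℂ) := by
    rw [← integral_complex_ofReal]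
    have h2 : ∀ x, ((‖hsw_T S c x‖ ^ 2 : ℝ) : ℂ) =
        ∑ k ∈ S, ∑ l ∈ S, c k * (starRingEnd ℂ) (c l) * HsA.ex (l - k) x := by
      intro x
      rw [Complex.ofReal_pow, ← Complex.mul_conj']
      unfold hsw_T
      rw [map_sum, Finset.sum_mul_sum]
      refine Finset.sum_congr rfl fun k _ => Finset.sum_congr rfl fun l _ => ?_
      rw [map_mul, HsA.ex_conj, neg_neg]
      have h3 : HsA.ex (l - k) x = HsA.ex (-k) x * HsA.ex l x := by
        rw [HsA.ex_mul]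
        congr 1
        abel
      rw [h3]
      ring
    simp only [h2]
    rw [integral_finset_sum]
    · push_cast
      refine Finset.sum_congr rfl fun k hk => ?_
      rw [integral_finset_sum]
      · rw [Finset.sum_eq_single k]
        · rw [integral_const_mul, HsA.ex_int, if_pos (sub_self k), mul_one, Complex.mul_conj']
        · intro l _ hl
          rw [integral_const_mul, HsA.ex_int, if_neg (sub_ne_zero.2 hl), mul_zero]
        · intro h
          exact absurd hk h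
      · exact fun l _ => HsA.int_cube (continuous_const.mul (HsA.ex_cont _))
    · exact fun k _ => HsA.int_cube
        (continuous_finset_sum _ fun l _ => continuous_const.mul (HsA.ex_cont _))
  exact_mod_cast h1

/-- the real field with the coefficients `a` -/
def hsw_V {m : ℕ} (S : Finset (Fin m → ℤ)) (a : (Fin m → ℤ) → EuclideanSpace ℂ (Fin m))
    (x : Eu m) : Eu m := WithLp.toLp 2 (fun i => (hsw_T S (fun k => a k i) x).re)

theorem hsw_V_apply {m : ℕ} (S : Finset (Fin m → ℤ)) (a : (Fin m → ℤ) → EuclideanSpace ℂ (Fin m))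
    (x : Eu m) (i : Fin m) : hsw_V S a x i = (hsw_T S (fun k => a k i) x).re := rfl

theorem hsw_V_smooth {m : ℕ} (S : Finset (Fin m → ℤ))
    (a : (Fin m → ℤ) → EuclideanSpace ℂ (Fin m)) : ContDiff ℝ ∞ (hsw_V S a) := by
  rw [contDiff_euclidean]
  intro i
  have h1 : ContDiff ℝ ∞ (hsw_T S (fun k => a k i)) :=
    ContDiff.sum fun k _ => contDiff_const.mul (HsA.ex_smooth (-k))
  exact Complex.reCLM.contDiff.comp h1

theorem hsw_V_per {m : ℕ} (S : Finset (Fin m → ℤ))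
    (a : (Fin m → ℤ) → EuclideanSpace ℂ (Fin m)) : Per (hsw_V S a) := by
  intro x k
  ext i
  rw [hsw_V_apply, hsw_V_apply]
  unfold hsw_T
  congr 1
  refine Finset.sum_congr rfl fun l _ => ?_
  rw [HsA.ex_per (-l) x k]

theorem hsw_V_l2 {m : ℕ} (S : Finset (Fin m → ℤ))
    (a : (Fin m → ℤ) → EuclideanSpace ℂ (Fin m)) :
    ∫ x in cube m, ‖hsw_V S a x‖ ^ 2 ≤ ∑ k ∈ S, ‖a k‖ ^ 2 := by
  have h1 : ∀ x, ‖hsw_V S a x‖ ^ 2 ≤ ∑ i, ‖hsw_T S (fun k => a k i) x‖ ^ 2 := by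
    intro x
    rw [EuclideanSpace.norm_sq_eq]
    refine Finset.sum_le_sum fun i _ => ?_
    rw [hsw_V_apply, Real.norm_eq_abs]
    exact pow_le_pow_left₀ (abs_nonneg _) (Complex.abs_re_le_norm _) 2
  have h2 : ∀ i : Fin m, Continuous fun x => ‖hsw_T S (fun k => a k i) x‖ ^ 2 := fun i =>
    (hsw_T_cont S _).norm.pow 2
  calc ∫ x in cube m, ‖hsw_V S a x‖ ^ 2
      ≤ ∫ x in cube m, ∑ i, ‖hsw_T S (fun k => a k i) x‖ ^ 2 :=
        integral_mono (HsA.int_cube ((hsw_V_smooth S a).continuous.norm.pow 2))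
          (HsA.int_cube (continuous_finset_sum _ fun i _ => h2 i)) h1
    _ = ∑ i, ∑ k ∈ S, ‖a k i‖ ^ 2 := by
        rw [integral_finset_sum _ fun i _ => HsA.int_cube (h2 i)]
        exact Finset.sum_congr rfl fun i _ => hsw_T_l2 S _
    _ = ∑ k ∈ S, ‖a k‖ ^ 2 := by
        rw [Finset.sum_comm]
        exact Finset.sum_congr rfl fun k _ => (EuclideanSpace.norm_sq_eq _).symm

theorem hsw_V_l2e {m : ℕ} (S : Finset (Fin m → ℤ))
    (a : (Fin m → ℤ) → EuclideanSpace ℂ (Fin m)) :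
    ∫⁻ x in cube m, ‖hsw_V S a x‖ₑ ^ (2 : ℝ) ≤ ENNReal.ofReal (∑ k ∈ S, ‖a k‖ ^ 2) := by
  rw [← HsA.ofReal_int (hsw_V_smooth S a).continuous]
  exact ENNReal.ofReal_le_ofReal (hsw_V_l2 S a)

theorem hsw_V_diff {m : ℕ} (S : Finset (Fin m → ℤ))
    (a : (Fin m → ℤ) → EuclideanSpace ℂ (Fin m)) (x h : Eu m) :
    hsw_V S a (x + h) - hsw_V S a x = hsw_V S (fun k => (HsA.ex (-k) h - 1) • a k) x := by
  ext i
  rw [PiLp.sub_apply, hsw_V_apply, hsw_V_apply, hsw_V_apply, ← Complex.sub_re]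
  congr 1
  unfold hsw_T
  rw [← Finset.sum_sub_distrib]
  refine Finset.sum_congr rfl fun k _ => ?_
  show a k i * HsA.ex (-k) (x + h) - a k i * HsA.ex (-k) x =
    ((HsA.ex (-k) h - 1) * a k i) * HsA.ex (-k) x
  rw [HsA.ex_add]
  ring

/-- the pairing -/
theorem hsw_pair {m : ℕ} (S : Finset (Fin m → ℤ)) (w : (Fin m → ℤ) → ℝ) {u : Eu m → Eu m}
    (hu : Continuous u) :
    ∫ x in cube m, inner ℝ (u x) (hsw_V S (fun k => (w k : ℂ) • fc u k) x) =
      ∑ k ∈ S, w k * ‖fc u k‖ ^ 2 := by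
  have h1 : ∀ x, inner ℝ (u x) (hsw_V S (fun k => (w k : ℂ) • fc u k) x) =
      (∑ i, ∑ k ∈ S, ((w k : ℂ) * fc u k i) * (((u x i : ℝ) : ℂ) * HsA.ex (-k) x)).re := by
    intro x
    rw [PiLp.inner_apply, Complex.re_sum]
    refine Finset.sum_congr rfl fun i _ => ?_
    rw [hsw_V_apply]
    have h2 : (inner ℝ (u x i) (hsw_T S (fun k => ((w k : ℂ) • fc u k) i) x).re : ℝ) =
        (((u x i : ℝ) : ℂ) * hsw_T S (fun k => ((w k : ℂ) • fc u k) i) x).re := by
      rw [Complex.re_ofReal_mul]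
      simp [mul_comm]
    rw [h2]
    congr 1
    unfold hsw_T
    rw [Finset.mul_sum]
    refine Finset.sum_congr rfl fun k _ => ?_
    show ((u x i : ℝ) : ℂ) * (((w k : ℂ) * fc u k i) * HsA.ex (-k) x) = _
    ring
  have hc : ∀ (i : Fin m) (k : Fin m → ℤ),
      Continuous fun x => (((u x i : ℝ) : ℂ) * HsA.ex (-k) x) := fun i k =>
    (Complex.continuous_ofReal.comp (HsA.coord_cont hu i)).mul (HsA.ex_cont _)
  have hconj : ∀ (i : Fin m) (k : Fin m → ℤ),
      ∫ x in cube m, (((u x i : ℝ) : ℂ) * HsA.ex (-k) x) = (starRingEnd ℂ) (fc u k i) := by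
    intro i k
    rw [HsA.fc_apply, ← integral_conj]
    refine integral_congr_ae (Filter.Eventually.of_forall fun x => ?_)
    simp only [map_mul, Complex.conj_ofReal, HsA.ex_conj]
  have hc2 : ∀ i : Fin m, Continuous fun x => ∑ k ∈ S, ((w k : ℂ) * fc u k i) *
      (((u x i : ℝ) : ℂ) * HsA.ex (-k) x) := fun i =>
    continuous_finset_sum _ fun k _ => continuous_const.mul (hc i k)
  simp only [h1]
  have h3 : ∫ x in cube m, (∑ i, ∑ k ∈ S, ((w k : ℂ) * fc u k i) *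
      (((u x i : ℝ) : ℂ) * HsA.ex (-k) x)).re =
      (∫ x in cube m, ∑ i, ∑ k ∈ S, ((w k : ℂ) * fc u k i) *
      (((u x i : ℝ) : ℂ) * HsA.ex (-k) x)).re := by
    have h4 : Integrable (fun x => ∑ i, ∑ k ∈ S, ((w k : ℂ) * fc u k i) *
      (((u x i : ℝ) : ℂ) * HsA.ex (-k) x)) (volume.restrict (cube m)) :=
      HsA.int_cube (continuous_finset_sum _ fun i _ => continuous_finset_sum _ fun k _ =>
        continuous_const.mul (hc i k))
    exact (Complex.reCLM.integral_comp_comm h4)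
  rw [h3, integral_finset_sum _ fun i _ => HsA.int_cube (hc2 i)]
  have h5 : ∀ i : Fin m, ∫ x in cube m, ∑ k ∈ S, ((w k : ℂ) * fc u k i) *
      (((u x i : ℝ) : ℂ) * HsA.ex (-k) x) = ∑ k ∈ S, ((w k * ‖fc u k i‖ ^ 2 : ℝ) : ℂ) := by
    intro i
    have hc3 : ∀ k, Continuous fun x => ((w k : ℂ) * fc u k i) *
        (((u x i : ℝ) : ℂ) * HsA.ex (-k) x) := fun k => continuous_const.mul (hc i k)
    rw [integral_finset_sum _ fun k _ => HsA.int_cube (hc3 k)]
    refine Finset.sum_congr rfl fun k _ => ?_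
    rw [integral_const_mul, hconj, mul_assoc, Complex.mul_conj']
    push_cast
    ring
  simp only [h5]
  simp only [Complex.re_sum, Complex.ofReal_re]
  rw [Finset.sum_comm]
  refine Finset.sum_congr rfl fun k _ => ?_
  rw [← Finset.mul_sum, EuclideanSpace.norm_sq_eq]

/-! ### The kernel -/

/-- the profile of the kernel -/
def hsw_f (m : ℕ) (θ y : ℝ) : ℝ := min 2 (2 * Real.pi * y) ^ 2 * y ^ (-((m : ℝ) + θ * 2))

theorem hsw_f_int {m : ℕ} (hm : 1 ≤ m) {θ : ℝ} (h0 : 0 < θ) (h1 : θ < 1) :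
    Integrable (fun x : Eu m => hsw_f m θ ‖x‖) volume := by
  haveI : Nontrivial (Eu m) := by
    haveI : Nonempty (Fin m) := ⟨⟨0, hm⟩⟩
    infer_instance
  rw [integrable_fun_norm_addHaar (volume : Measure (Eu m)) (f := fun y => hsw_f m θ y)]
  have hd : Module.finrank ℝ (Eu m) = m := by simp
  rw [hd, ← Ioc_union_Ioi_eq_Ioi zero_le_one]
  have hf : Measurable fun y : ℝ => y ^ (m - 1) • hsw_f m θ y := by
    unfold hsw_f
    fun_prop
  refine IntegrableOn.union ?_ ?_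
  · have h2 : IntegrableOn (fun y : ℝ => (2 * Real.pi) ^ 2 * y ^ (1 - 2 * θ)) (Ioc 0 1) volume := by
      refine Integrable.const_mul ?_ _
      exact (intervalIntegrable_iff_integrableOn_Ioc_of_le zero_le_one).1
        (intervalIntegral.intervalIntegrable_rpow' (by linarith))
    refine Integrable.mono' h2 hf.aestronglyMeasurable ?_
    filter_upwards [ae_restrict_mem measurableSet_Ioc] with y hy
    have hy0 : 0 < y := hy.1
    have hp : 0 < 2 * Real.pi * y := by positivity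
    have e1 : y ^ (m - 1) * y ^ (-((m : ℝ) + θ * 2)) = y ^ (-1 - 2 * θ) := by
      rw [← Real.rpow_natCast, ← Real.rpow_add hy0]
      congr 1
      rw [Nat.cast_sub hm]
      push_cast
      ring
    have e2 : (2 * Real.pi * y) ^ 2 * y ^ (-1 - 2 * θ) = (2 * Real.pi) ^ 2 * y ^ (1 - 2 * θ) := by
      rw [mul_pow, mul_assoc, ← Real.rpow_natCast y, ← Real.rpow_add hy0]
      congr 2
      push_cast
      ring
    rw [smul_eq_mul, Real.norm_of_nonneg (by unfold hsw_f; positivity), ← e2]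
    unfold hsw_f
    calc y ^ (m - 1) * (min 2 (2 * Real.pi * y) ^ 2 * y ^ (-((m : ℝ) + θ * 2)))
        = min 2 (2 * Real.pi * y) ^ 2 * (y ^ (m - 1) * y ^ (-((m : ℝ) + θ * 2))) := by ring
      _ ≤ (2 * Real.pi * y) ^ 2 * y ^ (-1 - 2 * θ) := by
          rw [e1]
          refine mul_le_mul_of_nonneg_right (pow_le_pow_left₀ (le_min zero_le_two hp.le)
            (min_le_right _ _) 2) (Real.rpow_nonneg hy0.le _)
  · have h2 : IntegrableOn (fun y : ℝ => 4 * y ^ (-1 - 2 * θ)) (Ioi 1) volume :=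
      Integrable.const_mul (integrableOn_Ioi_rpow_of_lt (by linarith) one_pos) _
    refine Integrable.mono' h2 hf.aestronglyMeasurable ?_
    filter_upwards [ae_restrict_mem measurableSet_Ioi] with y hy
    have hy0 : 0 < y := one_pos.trans hy
    have hp : 0 < 2 * Real.pi * y := by positivity
    have e1 : y ^ (m - 1) * y ^ (-((m : ℝ) + θ * 2)) = y ^ (-1 - 2 * θ) := by
      rw [← Real.rpow_natCast, ← Real.rpow_add hy0]
      congr 1
      rw [Nat.cast_sub hm]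
      push_cast
      ring
    rw [smul_eq_mul, Real.norm_of_nonneg (by unfold hsw_f; positivity)]
    unfold hsw_f
    calc y ^ (m - 1) * (min 2 (2 * Real.pi * y) ^ 2 * y ^ (-((m : ℝ) + θ * 2)))
        = min 2 (2 * Real.pi * y) ^ 2 * (y ^ (m - 1) * y ^ (-((m : ℝ) + θ * 2))) := by ring
      _ ≤ 4 * y ^ (-1 - 2 * θ) := by
          rw [e1]
          refine mul_le_mul_of_nonneg_right ?_ (Real.rpow_nonneg hy0.le _)
          calc min 2 (2 * Real.pi * y) ^ 2 ≤ 2 ^ 2 :=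
                pow_le_pow_left₀ (le_min zero_le_two hp.le) (min_le_left _ _) 2
            _ = 4 := by norm_num

/-- the Gagliardo kernel integrated against a plane wave -/
def hsw_G {m : ℕ} (θ : ℝ) (k : Fin m → ℤ) : ℝ≥0∞ :=
  ∫⁻ h in Metric.ball (0 : Eu m) 1,
    ENNReal.ofReal (‖HsA.ex (-k) h - 1‖ ^ 2) / ‖h‖ₑ ^ ((m : ℝ) + θ * 2)

theorem hsw_ex_le {m : ℕ} (k : Fin m → ℤ) (h : Eu m) :
    ‖HsA.ex (-k) h - 1‖ ≤ min 2 (2 * Real.pi * (Real.sqrt (1 + ∑ j, (k j : ℝ) ^ 2) * ‖h‖)) := by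
  refine le_min ?_ ?_
  · calc ‖HsA.ex (-k) h - 1‖ ≤ ‖HsA.ex (-k) h‖ + ‖(1 : ℂ)‖ := norm_sub_le _ _
      _ = 2 := by rw [HsA.ex_norm, norm_one]; norm_num
  · have h1 : HsA.ex (-k) h = Complex.exp (((2 * Real.pi * ∑ j, (k j : ℝ) * h j : ℝ) : ℂ) *
        Complex.I) := by
      unfold HsA.ex
      congr 1
      push_cast
      simp only [Pi.neg_apply, Int.cast_neg, neg_mul, Finset.sum_neg_distrib, mul_neg, neg_neg]
      ring
    rw [h1]
    have h2 := Real.norm_exp_I_mul_ofReal_sub_one_le (x := 2 * Real.pi * ∑ j, (k j : ℝ) * h j)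
    rw [mul_comm Complex.I] at h2
    refine h2.trans ?_
    rw [Real.norm_eq_abs, abs_mul, abs_of_nonneg (by positivity : (0 : ℝ) ≤ 2 * Real.pi)]
    refine mul_le_mul_of_nonneg_left ?_ (by positivity)
    have h3 : |∑ j, (k j : ℝ) * h j| ≤ Real.sqrt (∑ j, (k j : ℝ) ^ 2) * ‖h‖ := by
      rw [EuclideanSpace.norm_eq, ← Real.sqrt_mul (Finset.sum_nonneg fun j _ => sq_nonneg _)]
      refine Real.abs_le_sqrt ?_
      simp only [Real.norm_eq_abs, sq_abs]
      exact Finset.sum_mul_sq_le_sq_mul_sq _ _ _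
    refine h3.trans (mul_le_mul_of_nonneg_right (Real.sqrt_le_sqrt (by linarith)) (norm_nonneg _))

theorem hsw_pt {m : ℕ} {θ : ℝ} (k : Fin m → ℤ) (h : Eu m) :
    ENNReal.ofReal (‖HsA.ex (-k) h - 1‖ ^ 2) / ‖h‖ₑ ^ ((m : ℝ) + θ * 2) ≤
      ENNReal.ofReal (Real.sqrt (1 + ∑ j, (k j : ℝ) ^ 2) ^ ((m : ℝ) + θ * 2)) *
        ENNReal.ofReal (hsw_f m θ ‖Real.sqrt (1 + ∑ j, (k j : ℝ) ^ 2) • h‖) := by
  have hl := hsw_ex_le k h
  set l := Real.sqrt (1 + ∑ j, (k j : ℝ) ^ 2) with hldef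
  have hl0 : 0 < l := Real.sqrt_pos.2 (lt_of_lt_of_le one_pos (HsA.one_le_base k))
  rcases eq_or_ne h 0 with rfl | hh
  · have h1 : HsA.ex (-k) (0 : Eu m) = 1 := by
      unfold HsA.ex
      simp
    rw [h1]
    simp
  · have hn : 0 < ‖h‖ := norm_pos_iff.2 hh
    rw [← ENNReal.ofReal_mul (Real.rpow_nonneg hl0.le _), ← ofReal_norm h,
      ENNReal.ofReal_rpow_of_pos hn, ← ENNReal.ofReal_div_of_pos (Real.rpow_pos_of_pos hn _)]
    refine ENNReal.ofReal_le_ofReal ?_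
    unfold hsw_f
    rw [norm_smul, Real.norm_of_nonneg hl0.le, Real.mul_rpow hl0.le hn.le, Real.rpow_neg hl0.le,
      Real.rpow_neg hn.le, div_eq_mul_inv]
    have e1 : l ^ ((m : ℝ) + θ * 2) * (min 2 (2 * Real.pi * (l * ‖h‖)) ^ 2 *
        ((l ^ ((m : ℝ) + θ * 2))⁻¹ * (‖h‖ ^ ((m : ℝ) + θ * 2))⁻¹)) =
        min 2 (2 * Real.pi * (l * ‖h‖)) ^ 2 * (‖h‖ ^ ((m : ℝ) + θ * 2))⁻¹ := by
      have : l ^ ((m : ℝ) + θ * 2) ≠ 0 := (Real.rpow_pos_of_pos hl0 _).ne'
      field_simp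
    rw [e1]
    exact mul_le_mul_of_nonneg_right (pow_le_pow_left₀ (norm_nonneg _) hl 2)
      (inv_nonneg.2 (Real.rpow_nonneg hn.le _))

theorem hsw_G_le {m : ℕ} (hm : 1 ≤ m) {θ : ℝ} (h0 : 0 < θ) (h1 : θ < 1) : ∃ C : ℝ, 0 ≤ C ∧
    ∀ k : Fin m → ℤ, hsw_G θ k ≤ ENNReal.ofReal (C * (1 + ∑ j, (k j : ℝ) ^ 2) ^ θ) := by
  have hi := hsw_f_int hm h0 h1
  have hf0 : ∀ x : Eu m, 0 ≤ hsw_f m θ ‖x‖ := fun x => by
    unfold hsw_f
    positivity
  refine ⟨∫ x : Eu m, hsw_f m θ ‖x‖, integral_nonneg hf0, fun k => ?_⟩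
  set b := 1 + ∑ j, (k j : ℝ) ^ 2 with hb
  have hb1 : 1 ≤ b := HsA.one_le_base k
  set l := Real.sqrt b with hl
  have hl0 : 0 < l := Real.sqrt_pos.2 (by linarith)
  have hmeas : Measurable fun y : Eu m => ENNReal.ofReal (hsw_f m θ ‖y‖) := by
    unfold hsw_f
    fun_prop
  have h2 : ∫⁻ h : Eu m, ENNReal.ofReal (hsw_f m θ ‖l • h‖) =
      ENNReal.ofReal ((l ^ m)⁻¹) * ENNReal.ofReal (∫ x : Eu m, hsw_f m θ ‖x‖) := by
    have h3 := lintegral_map (μ := (volume : Measure (Eu m))) hmeas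
      (measurable_const_smul l : Measurable fun y : Eu m => l • y)
    rw [Measure.map_addHaar_smul (volume : Measure (Eu m)) hl0.ne', lintegral_smul_measure] at h3
    rw [← h3, ofReal_integral_eq_lintegral_ofReal hi (Filter.Eventually.of_forall hf0)]
    have hd : Module.finrank ℝ (Eu m) = m := by simp
    rw [hd, abs_of_nonneg (inv_nonneg.2 (pow_nonneg hl0.le _)), smul_eq_mul]
  calc hsw_G θ k ≤ ∫⁻ h : Eu m, ENNReal.ofReal (‖HsA.ex (-k) h - 1‖ ^ 2) /
        ‖h‖ₑ ^ ((m : ℝ) + θ * 2) := setLIntegral_le_lintegral _ _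
    _ ≤ ∫⁻ h : Eu m, ENNReal.ofReal (l ^ ((m : ℝ) + θ * 2)) *
        ENNReal.ofReal (hsw_f m θ ‖l • h‖) := lintegral_mono fun h => hsw_pt k h
    _ = ENNReal.ofReal (l ^ ((m : ℝ) + θ * 2)) *
        ∫⁻ h : Eu m, ENNReal.ofReal (hsw_f m θ ‖l • h‖) :=
        lintegral_const_mul _ (hmeas.comp (measurable_const_smul l))
    _ = ENNReal.ofReal ((∫ x : Eu m, hsw_f m θ ‖x‖) * b ^ θ) := by
        rw [h2, ← ENNReal.ofReal_mul (inv_nonneg.2 (pow_nonneg hl0.le _)),
          ← ENNReal.ofReal_mul (Real.rpow_nonneg hl0.le _)]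
        congr 1
        have e1 : l ^ ((m : ℝ) + θ * 2) = l ^ m * b ^ θ := by
          rw [Real.rpow_add hl0, Real.rpow_natCast, mul_comm θ 2, Real.rpow_mul hl0.le]
          congr 2
          rw [hl, Real.rpow_ofNat, Real.sq_sqrt (by linarith)]
        rw [e1]
        have : l ^ m ≠ 0 := (pow_pos hl0 _).ne'
        field_simp

theorem hsw_dnorm {m : ℕ} (v : Eu m → Eu m) (x : Eu m) : dnorm 0 v x = ‖v x‖ₑ := by
  unfold dnorm
  rw [norm_iteratedFDeriv_zero, ofReal_norm]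

theorem hsw_gag {m : ℕ} (θ : ℝ) (S : Finset (Fin m → ℤ))
    (a : (Fin m → ℤ) → EuclideanSpace ℂ (Fin m)) :
    gag 0 θ 2 (hsw_V S a) ≤ ∑ k ∈ S, ENNReal.ofReal (‖a k‖ ^ 2) * hsw_G θ k := by
  have hc := (hsw_V_smooth S a).continuous
  unfold gag
  simp only [hsw_dnorm]
  have hmeas : Measurable (Function.uncurry fun (x h : Eu m) =>
      ‖hsw_V S a (x + h) - hsw_V S a x‖ₑ ^ (2 : ℝ) / ‖h‖ₑ ^ ((m : ℝ) + θ * 2)) := by
    have h1 : Continuous fun z : Eu m × Eu m => hsw_V S a (z.1 + z.2) - hsw_V S a z.1 :=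
      (hc.comp (continuous_fst.add continuous_snd)).sub (hc.comp continuous_fst)
    exact (h1.measurable.enorm.pow_const _).div (measurable_snd.enorm.pow_const _)
  rw [lintegral_lintegral_swap hmeas.aemeasurable]
  calc ∫⁻ h in Metric.ball (0 : Eu m) 1, ∫⁻ x in cube m,
        ‖hsw_V S a (x + h) - hsw_V S a x‖ₑ ^ (2 : ℝ) / ‖h‖ₑ ^ ((m : ℝ) + θ * 2)
      ≤ ∫⁻ h in Metric.ball (0 : Eu m) 1, ∑ k ∈ S, ENNReal.ofReal (‖a k‖ ^ 2) *
          (ENNReal.ofReal (‖HsA.ex (-k) h - 1‖ ^ 2) / ‖h‖ₑ ^ ((m : ℝ) + θ * 2)) := by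
        refine lintegral_mono fun h => ?_
        simp only [hsw_V_diff, div_eq_mul_inv]
        have h2 : Continuous (hsw_V S (fun k => (HsA.ex (-k) h - 1) • a k)) :=
          (hsw_V_smooth S _).continuous
        rw [lintegral_mul_const _ (h2.measurable.enorm.pow_const _)]
        calc (∫⁻ x in cube m, ‖hsw_V S (fun k => (HsA.ex (-k) h - 1) • a k) x‖ₑ ^ (2 : ℝ)) *
              (‖h‖ₑ ^ ((m : ℝ) + θ * 2))⁻¹
            ≤ ENNReal.ofReal (∑ k ∈ S, ‖(HsA.ex (-k) h - 1) • a k‖ ^ 2) *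
              (‖h‖ₑ ^ ((m : ℝ) + θ * 2))⁻¹ := mul_le_mul_left (hsw_V_l2e S _) _
          _ = _ := by
              rw [ENNReal.ofReal_sum_of_nonneg fun k _ => sq_nonneg _, Finset.sum_mul]
              refine Finset.sum_congr rfl fun k _ => ?_
              rw [norm_smul, mul_pow, mul_comm (‖HsA.ex (-k) h - 1‖ ^ 2),
                ENNReal.ofReal_mul (sq_nonneg _), mul_assoc]
    _ = ∑ k ∈ S, ENNReal.ofReal (‖a k‖ ^ 2) * hsw_G θ k := by
        have h3 : ∀ k : Fin m → ℤ, Measurable fun h : Eu m =>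
            ENNReal.ofReal (‖HsA.ex (-k) h - 1‖ ^ 2) / ‖h‖ₑ ^ ((m : ℝ) + θ * 2) := fun k => by
          have h4 : Continuous fun h : Eu m => ‖HsA.ex (-k) h - 1‖ ^ 2 :=
            ((HsA.ex_cont (-k)).sub continuous_const).norm.pow 2
          exact h4.measurable.ennreal_ofReal.div (measurable_id.enorm.pow_const _)
        rw [lintegral_finset_sum _ fun k _ => (h3 k).const_mul _]
        refine Finset.sum_congr rfl fun k _ => ?_
        rw [lintegral_const_mul _ (h3 k)]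
        rfl

theorem hsw_slob {m : ℕ} {s : ℝ} (hs : -1 < s) (hs0 : s < 0) (v : Eu m → Eu m) :
    slobP (-s) (2 / (2 - 1)) v = (∫⁻ x in cube m, ‖v x‖ₑ ^ (2 : ℝ)) + gag 0 (-s) 2 v := by
  have h1 : ⌊-s⌋₊ = 0 := Nat.floor_eq_zero.2 (by linarith)
  have h2 : (2 : ℝ) / (2 - 1) = 2 := by norm_num
  unfold slobP
  rw [h1, h2, if_pos (by simpa using hs0)]
  simp [hsw_dnorm]

theorem hs_le_w {m : ℕ} {s : ℝ} (hs : -1 < s) (hs0 : s < 0) : ∃ C : ℝ, 0 ≤ C ∧
    ∀ u : Eu m → Eu m, Continuous u → Per u → hsNorm s u ≤ ENNReal.ofReal C * wspP s 2 u := by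
  rcases Nat.eq_zero_or_pos m with rfl | hm
  · refine ⟨0, le_rfl, fun u hu hp => ?_⟩
    have h1 : ∀ k : Fin 0 → ℤ, fc u k = 0 := fun k => Subsingleton.elim _ _
    rw [HsA.hsNorm_eq]
    simp [h1]
  · obtain ⟨C, hC, hG⟩ := hsw_G_le hm (θ := -s) (by linarith) (by linarith)
    have hC1 : 0 < 1 + C := by linarith
    refine ⟨Real.sqrt (1 + C), Real.sqrt_nonneg _, fun u hu hp => ?_⟩
    rw [HsA.hsNorm_eq]
    have key : ∀ S : Finset (Fin m → ℤ), ∑ k ∈ S, ENNReal.ofReal (HsA.wt s k) * ‖fc u k‖ₑ ^ 2 ≤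
        (ENNReal.ofReal (Real.sqrt (1 + C)) * wspP s 2 u) ^ 2 := by
      intro S
      set A := ∑ k ∈ S, HsA.wt s k * ‖fc u k‖ ^ 2 with hA
      have hwt : ∀ k : Fin m → ℤ, 0 < HsA.wt s k := fun k =>
        Real.rpow_pos_of_pos (lt_of_lt_of_le one_pos (HsA.one_le_base k)) _
      have hA0 : 0 ≤ A := Finset.sum_nonneg fun k _ => mul_nonneg (hwt k).le (sq_nonneg _)
      have e1 : ∑ k ∈ S, ENNReal.ofReal (HsA.wt s k) * ‖fc u k‖ₑ ^ 2 = ENNReal.ofReal A := by
        rw [hA, ENNReal.ofReal_sum_of_nonneg fun k _ => mul_nonneg (hwt k).le (sq_nonneg _)]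
        refine Finset.sum_congr rfl fun k _ => ?_
        rw [ENNReal.ofReal_mul (hwt k).le, ENNReal.ofReal_pow (norm_nonneg _), ofReal_norm]
      rw [e1]
      rcases hA0.eq_or_lt with h0 | hApos
      · rw [← h0]
        simp
      · set c := (Real.sqrt ((1 + C) * A))⁻¹ with hc
        have hq : 0 < (1 + C) * A := mul_pos hC1 hApos
        have hc0 : 0 < c := inv_pos.2 (Real.sqrt_pos.2 hq)
        have hc2 : c ^ 2 * ((1 + C) * A) = 1 := by
          rw [hc, inv_pow, Real.sq_sqrt hq.le, inv_mul_cancel₀ hq.ne']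
        set v := hsw_V S (fun k => ((c * HsA.wt s k : ℝ) : ℂ) • fc u k) with hv
        have hn : ∀ k : Fin m → ℤ, ‖((c * HsA.wt s k : ℝ) : ℂ) • fc u k‖ ^ 2 =
            c ^ 2 * (HsA.wt s k * (HsA.wt s k * ‖fc u k‖ ^ 2)) := fun k => by
          rw [norm_smul, Complex.norm_real, Real.norm_of_nonneg (mul_pos hc0 (hwt k)).le]
          ring
        have hw1 : ∀ k : Fin m → ℤ, HsA.wt s k * (1 + ∑ j, (k j : ℝ) ^ 2) ^ (-s) = 1 := fun k => by
          have hb : 0 < 1 + ∑ j, (k j : ℝ) ^ 2 := lt_of_lt_of_le one_pos (HsA.one_le_base k)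
          unfold HsA.wt
          rw [← Real.rpow_add hb, add_neg_cancel, Real.rpow_zero]
        have hslob : slobP (-s) (2 / (2 - 1)) v ≤ 1 := by
          rw [hsw_slob hs hs0]
          have h1 := hsw_V_l2e S (fun k => ((c * HsA.wt s k : ℝ) : ℂ) • fc u k)
          have h2 := hsw_gag (-s) S (fun k => ((c * HsA.wt s k : ℝ) : ℂ) • fc u k)
          have h3 : ∑ k ∈ S, ENNReal.ofReal (‖((c * HsA.wt s k : ℝ) : ℂ) • fc u k‖ ^ 2) *
              hsw_G (-s) k ≤ ENNReal.ofReal (c ^ 2 * (C * A)) := by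
            calc ∑ k ∈ S, ENNReal.ofReal (‖((c * HsA.wt s k : ℝ) : ℂ) • fc u k‖ ^ 2) *
                  hsw_G (-s) k
                ≤ ∑ k ∈ S, ENNReal.ofReal (‖((c * HsA.wt s k : ℝ) : ℂ) • fc u k‖ ^ 2) *
                  ENNReal.ofReal (C * (1 + ∑ j, (k j : ℝ) ^ 2) ^ (-s)) :=
                  Finset.sum_le_sum fun k _ => mul_le_mul_right (hG k) _
              _ = ∑ k ∈ S, ENNReal.ofReal (c ^ 2 * (C * (HsA.wt s k * ‖fc u k‖ ^ 2))) := by
                  refine Finset.sum_congr rfl fun k _ => ?_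
                  rw [← ENNReal.ofReal_mul (sq_nonneg _), hn k]
                  congr 1
                  linear_combination (c ^ 2 * (HsA.wt s k * ‖fc u k‖ ^ 2) * C) * hw1 k
              _ = ENNReal.ofReal (c ^ 2 * (C * A)) := by
                  rw [← ENNReal.ofReal_sum_of_nonneg fun k _ => mul_nonneg (sq_nonneg _)
                    (mul_nonneg hC (mul_nonneg (hwt k).le (sq_nonneg _))), hA, Finset.mul_sum,
                    Finset.mul_sum]
          have h4 : ∑ k ∈ S, ‖((c * HsA.wt s k : ℝ) : ℂ) • fc u k‖ ^ 2 ≤ c ^ 2 * A := by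
            rw [hA, Finset.mul_sum]
            refine Finset.sum_le_sum fun k _ => ?_
            rw [hn k]
            refine mul_le_mul_of_nonneg_left ?_ (sq_nonneg _)
            exact mul_le_of_le_one_left (mul_nonneg (hwt k).le (sq_nonneg _))
              (HsA.wt_le_one hs0 k)
          calc (∫⁻ x in cube m, ‖v x‖ₑ ^ (2 : ℝ)) + gag 0 (-s) 2 v
              ≤ ENNReal.ofReal (c ^ 2 * A) + ENNReal.ofReal (c ^ 2 * (C * A)) :=
                add_le_add (h1.trans (ENNReal.ofReal_le_ofReal h4)) (h2.trans h3)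
            _ = ENNReal.ofReal (c ^ 2 * ((1 + C) * A)) := by
                rw [← ENNReal.ofReal_add (mul_nonneg (sq_nonneg _) hA0)
                  (mul_nonneg (sq_nonneg _) (mul_nonneg hC hA0))]
                congr 1
                ring
            _ = 1 := by rw [hc2, ENNReal.ofReal_one]
        have hpair : ∫ x in cube m, inner ℝ (u x) (v x) = c * A := by
          rw [hv, hsw_pair S (fun k => c * HsA.wt s k) hu, hA, Finset.mul_sum]
          exact Finset.sum_congr rfl fun k _ => by ring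
        have hle : ENNReal.ofReal (c * A) ≤ wspP s 2 u := by
          unfold wspP
          rw [if_neg (not_le.2 hs0)]
          refine le_trans (le_of_eq ?_) (le_iSup₂ (f := fun (v : Eu m → Eu m)
            (_ : ContDiff ℝ ∞ v ∧ Per v ∧ slobP (-s) (2 / (2 - 1)) v ≤ 1) =>
            ENNReal.ofReal |∫ x in cube m, inner ℝ (u x) (v x)|) v
            ⟨hsw_V_smooth S _, hsw_V_per S _, hslob⟩)
          rw [hpair, abs_of_nonneg (mul_nonneg hc0.le hA0)]
        have e2 : A = (Real.sqrt (1 + C) * (c * A)) ^ 2 := by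
          rw [mul_pow, mul_pow, Real.sq_sqrt hC1.le]
          linear_combination (-A) * hc2
        calc ENNReal.ofReal A = (ENNReal.ofReal (Real.sqrt (1 + C)) * ENNReal.ofReal (c * A)) ^ 2 := by
              rw [← ENNReal.ofReal_mul (Real.sqrt_nonneg _), ← ENNReal.ofReal_pow
                (mul_nonneg (Real.sqrt_nonneg _) (mul_nonneg hc0.le hA0)), ← e2]
          _ ≤ _ := by gcongr
    calc (∑' k : Fin m → ℤ, ENNReal.ofReal (HsA.wt s k) * ‖fc u k‖ₑ ^ 2) ^ (1 / 2 : ℝ)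
        ≤ ((ENNReal.ofReal (Real.sqrt (1 + C)) * wspP s 2 u) ^ 2) ^ (1 / 2 : ℝ) := by
          refine ENNReal.rpow_le_rpow ?_ (by norm_num)
          rw [ENNReal.tsum_eq_iSup_sum]
          exact iSup_le key
      _ = ENNReal.ofReal (Real.sqrt (1 + C)) * wspP s 2 u := HsA.rpow_half_sq _

end

end FS
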