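import Pool.Agent.FS.Defs
import Pool.Agent.FS.Dk
import Pool.Agent.FS.Sgp
import Pool.Agent.FS.Hpp
import Pool.Agent.FS.RhoP
import Pool.Agent.SVT.Loc

/-!
# Project FS: short times (FS-13)
-/

set_option autoImplicit false
set_option linter.all false

open MeasureTheory Set Pool.Agent.H68.VD TN SVT
open scoped ENNReal ContDiff Topology

namespace FS

noncomputable section

variable {n : ℕ} {P : Set (Eu (n + n) → Eu (n + n))} {E : (Eu (n + n) → ℝ) → ℝ≥0∞}

theorem locP_rho {a : ℝ} {φ : ℝ → Eu (n + n) → Eu (n + n)} {H : ℝ → Eu (n + n) → ℝ}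
    (h : HPP P φ H) (h0 : φ 0 = id) (hH : ∀ t ∈ Icc (0 : ℝ) 1, E (H t) ≤ ENNReal.ofReal a) :
    rhoP P E (φ 1) ≤ ENNReal.ofReal a := by
  refine iInf_le_of_le φ (iInf_le_of_le H (iInf_le_of_le ⟨h, h0, rfl⟩ ?_))
  calc cstE E H ≤ ∫⁻ t in Icc (0 : ℝ) 1, ENNReal.ofReal a :=
        setLIntegral_mono' measurableSet_Icc hH
    _ = ENNReal.ofReal a := by
        rw [setLIntegral_const, Real.volume_Icc]
        simp

theorem locP (hP : SpDeck P) (hE : CF P E)
    (hZ : ∀ H : Eu (n + n) → ℝ, ContDiff ℝ ∞ H → PI P H → ∫ x in cube (n + n), H x = 0 → ∀ ε > 0,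
      ∃ G : Eu (n + n) → ℝ, ZFP P E G ∧ ∀ x, |H x - G x| ≤ ε ∧ ‖fderiv ℝ (fun x => H x - G x) x‖ ≤ ε)
    {φ : ℝ → Eu (n + n) → Eu (n + n)} {H : ℝ → Eu (n + n) → ℝ} (h : HPP P φ H) (h0 : φ 0 = id)
    (t₀ : ℝ) {ε : ℝ} (hε : 0 < ε) : ∃ r > (0 : ℝ), ∀ t s : ℝ, |t - t₀| < r → 0 ≤ s → s < r →
      rhoP P E (fun x => φ (t + s) (Function.invFun (φ t) x)) ≤ ENNReal.ofReal (ε * s) := by
  obtain ⟨C, hC0, hC⟩ := hE.small
  -- the small constant
  set δ : ℝ := ε / (4 * (C + 1)) with hδ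
  have hδ0 : 0 < δ := by positivity
  -- the mean
  have hHt : ∀ t, ContDiff ℝ ∞ (H t) := fun t =>
    h.hp.Hs.comp (contDiff_const.prodMk contDiff_id)
  set m : ℝ := ∫ x in cube (n + n), H t₀ x with hm
  have hvol : volume (cube (n + n)) = 1 := WPosA.cube_vol (n + n)
  have hint : IntegrableOn (H t₀) (cube (n + n)) := by
    have h1 : IntegrableOn (H t₀) {x : Eu (n + n) | ∀ j, x j ∈ Icc (0 : ℝ) 1} :=
      (hHt t₀).continuous.continuousOn.integrableOn_compact (loc_cpt (n + n))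
    refine h1.mono_set fun x hx j => ?_
    exact Ico_subset_Icc_self (hx j)
  have hmean : ∫ x in cube (n + n), (H t₀ x - m) = 0 := by
    rw [integral_sub hint (integrableOn_const (by rw [hvol]; exact ENNReal.one_ne_top)),
      setIntegral_const, Measure.real, hvol]
    simp [hm]
  obtain ⟨G, ⟨Q, K, hQ, hQ0, hK0, hQr⟩, hG⟩ := hZ (fun x => H t₀ x - m)
    ((hHt t₀).sub contDiff_const) (fun g hg x => by simp only [h.inv t₀ g hg x]) hmean δ hδ0
  -- the Hamiltonian of the error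
  let Λ : ℝ × ℝ → Eu (n + n) → ℝ := fun a x => H (a.1 + a.2) (Q a.2 x) - K a.2 (Q a.2 x) - m
  have hΛ : ContDiff ℝ ∞ (fun z : (ℝ × ℝ) × Eu (n + n) => Λ z.1 z.2) := by
    have p1 : ContDiff ℝ ∞ (fun z : (ℝ × ℝ) × Eu (n + n) => Q z.1.2 z.2) :=
      hQ.hp.sp.path.smooth.comp ((contDiff_snd.comp contDiff_fst).prodMk contDiff_snd)
    have p2 : ContDiff ℝ ∞ (fun z : (ℝ × ℝ) × Eu (n + n) => H (z.1.1 + z.1.2) (Q z.1.2 z.2)) :=
      h.hp.Hs.comp (((contDiff_fst.comp contDiff_fst).add (contDiff_snd.comp contDiff_fst)).prodMk p1)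
    have p3 : ContDiff ℝ ∞ (fun z : (ℝ × ℝ) × Eu (n + n) => K z.1.2 (Q z.1.2 z.2)) :=
      hQ.hp.Hs.comp ((contDiff_snd.comp contDiff_fst).prodMk p1)
    exact (p2.sub p3).sub contDiff_const
  have hΛI : ∀ a, PI P (Λ a) := by
    intro a g hg x
    simp only [Λ]
    rw [hQ.equi a.2 g hg x, h.inv _ g hg, hQ.inv _ g hg]
  have hΛp : ∀ a, Per (Λ a) := fun a => pi_per hP (hΛI a)
  have hΛD : Continuous (fun z : (ℝ × ℝ) × Eu (n + n) => fderiv ℝ (Λ z.1) z.2) := by
    have h1 : ContDiff ℝ 0 (fun z : (ℝ × ℝ) × Eu (n + n) => fderiv ℝ (Λ z.1) z.2) := by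
      have h2 : ContDiff ℝ ∞ (Function.uncurry
          (fun (z : (ℝ × ℝ) × Eu (n + n)) (x : Eu (n + n)) => Λ z.1 x)) :=
        hΛ.comp ((contDiff_fst.comp contDiff_fst).prodMk contDiff_snd)
      exact ContDiff.fderiv h2 (contDiff_snd (n := 0)) (by simp)
    exact h1.continuous
  have hΛ0 : Λ (t₀, 0) = fun x => (H t₀ x - m) - G x := by
    funext x
    change H (t₀ + 0) (Q 0 x) - K 0 (Q 0 x) - m = (H t₀ x - m) - G x
    rw [hQ0, add_zero, ← hK0 x]
    simp only [id]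
    ring
  have u1 : ∀ᶠ a in 𝓝 (t₀, (0 : ℝ)), ∀ x, ‖Λ a x‖ ≤ 2 * δ := by
    refine loc_unif hΛ.continuous hΛp (c := δ) (by linarith) fun x => ?_
    rw [hΛ0, Real.norm_eq_abs]
    exact (hG x).1
  have u2 : ∀ᶠ a in 𝓝 (t₀, (0 : ℝ)), ∀ x, ‖fderiv ℝ (Λ a) x‖ ≤ 2 * δ := by
    refine loc_unif (F := fun a x => fderiv ℝ (Λ a) x) hΛD (fun a => loc_perD (hΛp a))
      (c := δ) (by linarith) fun x => ?_
    simp only [hΛ0]
    exact (hG x).2
  obtain ⟨r, hr, hball⟩ := Metric.eventually_nhds_iff.1 (u1.and u2)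
  refine ⟨r, hr, fun t s ht hs hsr => ?_⟩
  -- the error path
  have e1 := hQ.inverse
  have e2 := h.time (τ := fun θ => t + θ) (contDiff_const.add contDiff_id)
  have e3 := HPP.cst hP (sgp_inv hP (h.sgp h0 t))
  have e4 := e2.comp e3
  have e5 := e1.comp e4
  have e6 := e5.addc (c := fun _ => -m) contDiff_const
  have e7 := e6.time (τ := fun τ => s * τ) (contDiff_const.mul contDiff_id)
  have hd1 : ∀ θ : ℝ, deriv (fun θ => t + θ) θ = 1 := fun θ => by
    simpa using ((hasDerivAt_id θ).const_add t).deriv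
  have hd2 : ∀ τ : ℝ, deriv (fun τ => s * τ) τ = s := fun τ => by
    simpa using ((hasDerivAt_id τ).const_mul s).deriv
  have hbij := hQ.hp.sp.path.bij
  set D : ℝ → Eu (n + n) → Eu (n + n) := fun θ x =>
    Function.invFun (Q θ) (φ (t + θ) (Function.invFun (φ t) x)) with hD
  have hD0 : D 0 = id := by
    funext x
    simp only [hD, hQ0, add_zero, id]
    rw [Function.rightInverse_invFun (h.hp.sp.path.bij t).surjective x]
    exact Function.leftInverse_invFun (f := (id : Eu (n + n) → Eu (n + n)))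
      Function.injective_id x
  have hrD : rhoP P E (D s) ≤ ENNReal.ofReal (s * (C * (2 * δ))) := by
    have h1 := locP_rho (P := P) (E := E) (a := s * (C * (2 * δ))) e7 (by
      have h8 := hD0
      simp only [hD, add_zero] at h8
      simpa using h8) (by
      intro τ hτ
      have h2 : (fun x => deriv (fun τ => s * τ) τ *
          ((-K (s * τ) (Q (s * τ) x) + (deriv (fun θ => t + θ) (s * τ) *
            H (t + s * τ) (Function.invFun (Function.invFun (Q (s * τ))) x) + 0)) + -m)) =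
          fun x => s * Λ (t, s * τ) x := by
        funext x
        rw [hd1, hd2, loc_invinv (hbij _)]
        simp only [Λ]
        ring
      have h3 : dist (t, s * τ) (t₀, (0 : ℝ)) < r := by
        rw [Prod.dist_eq, max_lt_iff]
        refine ⟨by rwa [Real.dist_eq], ?_⟩
        rw [Real.dist_eq, sub_zero, abs_of_nonneg (mul_nonneg hs hτ.1)]
        exact lt_of_le_of_lt (mul_le_of_le_one_right hs hτ.2) hsr
      have h4 := hball h3
      have h5 : ContDiff ℝ ∞ (Λ (t, s * τ)) := hΛ.comp (contDiff_const.prodMk contDiff_id)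
      refine le_trans (le_of_eq (congrArg E h2)) ?_
      rw [hE.smul s _ h5, abs_of_nonneg hs, ENNReal.ofReal_mul hs]
      gcongr
      exact hC _ h5 (hΛI _) (2 * δ) (by positivity) (fun x => by
        have := h4.1 x
        rwa [Real.norm_eq_abs] at this) h4.2)
    simpa using h1
  -- composition
  have hbD : Function.Bijective (D s) := e6.hp.sp.path.bij s
  have hfun : (fun x => φ (t + s) (Function.invFun (φ t) x)) =
      ⇑(Equiv.ofBijective (Q s) (hbij s) * Equiv.ofBijective (D s) hbD) := by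
    funext x
    rw [Equiv.Perm.mul_apply, Equiv.ofBijective_apply, Equiv.ofBijective_apply]
    simp only [hD]
    rw [Function.rightInverse_invFun (hbij s).surjective]
  rw [hfun]
  refine (rhoP_mul hP hE _ _).trans ?_
  have h6 : rhoP P E ⇑(Equiv.ofBijective (Q s) (hbij s)) = 0 := hQr s
  have h7 : rhoP P E ⇑(Equiv.ofBijective (D s) hbD) ≤ ENNReal.ofReal (s * (C * (2 * δ))) := hrD
  rw [h6, zero_add]
  refine h7.trans (ENNReal.ofReal_le_ofReal ?_)
  have h8 : C * (2 * δ) ≤ ε := by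
    have h9 : 4 * (C + 1) * δ = ε := by
      rw [hδ]
      field_simp
    nlinarith
  calc s * (C * (2 * δ)) ≤ s * ε := mul_le_mul_of_nonneg_left h8 hs
    _ = ε * s := by ring

end

end FS
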