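import Pool.Agent.FS.Defs

/-!
# Project FS, row FS-20: the distance is not degenerate
-/

set_option autoImplicit false
set_option linter.all false

open MeasureTheory Set Pool.Agent.H68.VD TN SVT
open scoped ENNReal ContDiff

namespace FS

noncomputable section

variable {n : ℕ} {P : Set (Eu (n + n) → Eu (n + n))}

/-- an affine map with the linear part `L`, whose linear part fixes the lattice, is a translation -/
theorem nonP_lin {m : ℕ} {L : Eu m → Eu m} {γ : Eu m → Eu m} (h1 : ∀ x v, γ (x + v) = γ x + L v)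
    (h2 : ∀ (c : ℝ) (v : Eu m), L (c • v) = c • L v) (h3 : ∀ k : Fin m → ℤ, L (iv k) = iv k) :
    ∀ v, L v = v := by
  have hadd : ∀ x y, L (x + y) = L x + L y := by
    intro x y
    have h3 := h1 0 (x + y)
    have h4 := h1 (0 + x) y
    rw [h1 0 x] at h4
    rw [zero_add] at h3 h4
    rw [h3, add_assoc] at h4
    exact add_left_cancel h4
  let Lm : Eu m →ₗ[ℝ] Eu m := { toFun := L, map_add' := hadd, map_smul' := h2 }
  have key : Lm = LinearMap.id := by
    refine (EuclideanSpace.basisFun (Fin m) ℝ).toBasis.ext fun i => ?_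
    have h4 : (EuclideanSpace.basisFun (Fin m) ℝ).toBasis i = (iv (Pi.single i 1) : Eu m) := by
      ext j
      by_cases hj : j = i
      · subst hj
        simp [iv]
      · simp [iv, hj]
    rw [h4]
    exact h3 _
  intro v
  have := congrArg (fun F : Eu m →ₗ[ℝ] Eu m => F v) key
  exact this

/-- the end of a path: the deck transformation is a central translation -/
theorem nonP_cent (hP : SpDeck P) {g : Eu (n + n) → Eu (n + n)} (hg : SGP P g)
    {φ : ℝ → Eu (n + n) → Eu (n + n)} (h : SPathP P φ) {γ : Eu (n + n) → Eu (n + n)}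
    (hγ : γ ∈ P) (h1 : φ 1 = γ ∘ g) : ∃ w, γ = fun x => x + w := by
  obtain ⟨ψ, hψ, -, rfl⟩ := hg
  have hcomm : ∀ a ∈ P, ∀ y, γ (a y) = a (γ y) := by
    intro a ha y
    obtain ⟨x, rfl⟩ := (hψ.path.bij 1).2 y
    rw [← hψ.path.equi 1 a ha x]
    have h2 := h.path.equi 1 a ha x
    rw [h1] at h2
    exact h2
  obtain ⟨L, h2, h3, -⟩ := hP.deck.aff γ hγ
  have h4 : ∀ k : Fin (n + n) → ℤ, L (iv k) = iv k := by
    intro k
    have h5 : γ (0 + iv k) = γ 0 + iv k := hcomm _ (hP.deck.trans k) 0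
    rw [h2] at h5
    exact add_left_cancel h5
  have h5 := nonP_lin h2 h3 h4
  refine ⟨γ 0, ?_⟩
  funext x
  have h6 := h2 0 x
  rw [zero_add, h5 x] at h6
  rw [h6]
  exact add_comm _ _

theorem nonP_sp (hP : SpDeck P) {φ : ℝ → Eu (n + n) → Eu (n + n)} (h : SPathP P φ) : SPath φ :=
  ⟨⟨h.path.smooth, h.path.bij, h.path.det, fun t g hg x => by
    obtain ⟨k, rfl⟩ := hg
    exact h.path.equi t _ (hP.deck.trans k) x⟩, h.symp⟩

theorem nonP_sg (hP : SpDeck P) {g : Eu (n + n) → Eu (n + n)} (hg : SGP P g) (w : Eu (n + n)) :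
    SG (fun x => g x + w) := by
  obtain ⟨φ, h, h0, rfl⟩ := hg
  have h2 := nonP_sp hP h
  have hfd : ∀ t x, fderiv ℝ (fun y => φ t y + t • w) x = fderiv ℝ (φ t) x := by
    intro t x
    exact fderiv_add_const (t • w)
  refine ⟨fun t x => φ t x + t • w, ⟨⟨?_, ?_, ?_, ?_⟩, ?_⟩, ?_, ?_⟩
  · exact h.path.smooth.add (contDiff_fst.smul contDiff_const)
  · intro t
    exact (Equiv.addRight (t • w)).bijective.comp (h.path.bij t)
  · intro t x
    rw [hfd]
    exact h.path.det t x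
  · intro t g hg x
    have h3 := h2.path.equi t g hg x
    obtain ⟨k, rfl⟩ := hg
    simp only at h3 ⊢
    rw [h3]
    abel
  · intro t x v u
    rw [hfd]
    exact h.symp t x v u
  · funext x
    simp [h0]
  · funext x
    simp

theorem nonP (hP : SpDeck P) {N : (Eu (n + n) → Eu (n + n)) → ℝ≥0∞}
    (hS : ∀ f g : Eu (n + n) → Eu (n + n), SG f → SG g → sdist N f g = 0 →
      ∃ γ ∈ lat (n + n), g = γ ∘ f) {f g : Eu (n + n) → Eu (n + n)} (hf : SGP P f) (hg : SGP P g)
    (h : sdistP N P f g = 0) : ∃ γ ∈ P, g = γ ∘ f := by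
  classical
  obtain ⟨R, hR, hfin⟩ := hP.deck.fin
  have hlat : ∀ γ ∈ lat (n + n), γ ∈ P := by
    rintro _ ⟨k, rfl⟩
    exact hP.deck.trans k
  by_contra hcon
  -- for the translations in `R ∩ P` the distance is positive
  have hpos : ∀ r ∈ hR.toFinset.filter (fun r => r ∈ P ∧ ∃ w : Eu (n + n), r = fun x => x + w),
      0 < sdist N f (r ∘ g) := by
    intro r hr
    rw [Finset.mem_filter] at hr
    obtain ⟨-, hrP, w, hw⟩ := hr
    rw [pos_iff_ne_zero]
    intro h0
    have hfS : SG f := by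
      obtain ⟨φ, h1, h2, h3⟩ := hf
      exact ⟨φ, nonP_sp hP h1, h2, h3⟩
    have hgS : SG (r ∘ g) := by
      have := nonP_sg hP hg w
      rw [hw]
      exact this
    obtain ⟨γ, hγ, h1⟩ := hS f (r ∘ g) hfS hgS h0
    obtain ⟨r', hr', h2, h3⟩ := hP.deck.inv r hrP
    refine hcon ⟨r' ∘ γ, hP.deck.mul _ hr' _ (hlat γ hγ), ?_⟩
    calc g = (r' ∘ r) ∘ g := by rw [h3]; rfl
      _ = r' ∘ (r ∘ g) := rfl
      _ = r' ∘ (γ ∘ f) := by rw [h1]
      _ = (r' ∘ γ) ∘ f := rfl
  -- a positive lower bound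
  obtain ⟨ε, hε, hb⟩ : ∃ ε : ℝ≥0∞, 0 < ε ∧
      ∀ r ∈ hR.toFinset.filter (fun r => r ∈ P ∧ ∃ w : Eu (n + n), r = fun x => x + w),
        ε ≤ sdist N f (r ∘ g) := by
    refine ⟨(hR.toFinset.filter (fun r => r ∈ P ∧ ∃ w : Eu (n + n), r = fun x => x + w)).inf
      (fun r => sdist N f (r ∘ g)), ?_, fun r hr => Finset.inf_le hr⟩
    rw [Finset.lt_inf_iff ENNReal.zero_lt_top]
    exact hpos
  have hle : ε ≤ sdistP N P f g := by
    unfold sdistP
    refine le_iInf fun φ => le_iInf fun hφ => ?_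
    obtain ⟨h1, h2, γ, hγ, h3⟩ := hφ
    obtain ⟨w, hw⟩ := nonP_cent hP hg h1 hγ h3
    obtain ⟨r, hr, k, hk⟩ := hfin γ hγ
    have hrw : r = fun x => x + (w - iv k) := by
      funext x
      have h4 := hk x
      rw [hw] at h4
      simp only at h4
      rw [← add_sub_assoc, h4, add_sub_cancel_right]
    have hrP : r ∈ P := by
      have h4 : r = (fun x => x + iv (-k)) ∘ γ := by
        funext x
        have h5 : (iv (-k) : Eu (n + n)) = - iv k := by
          ext i
          simp [iv]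
        simp only [Function.comp, hk x, h5]
        abel
      rw [h4]
      exact hP.deck.mul _ (hP.deck.trans (-k)) _ hγ
    have hrm : r ∈ hR.toFinset.filter (fun r => r ∈ P ∧ ∃ w : Eu (n + n), r = fun x => x + w) := by
      rw [Finset.mem_filter]
      exact ⟨by simpa using hr, hrP, _, hrw⟩
    refine (hb r hrm).trans ?_
    unfold sdist
    refine iInf₂_le φ ⟨nonP_sp hP h1, h2, fun x => x + iv k, ⟨k, rfl⟩, ?_⟩
    rw [h3]
    funext x
    simp only [Function.comp]
    exact hk (g x)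
  rw [h] at hle
  exact absurd hle (not_le.mpr hε)

theorem zeroPP (hP : SpDeck P) {N : (Eu (n + n) → Eu (n + n)) → ℝ≥0∞} (hZ : N (fun _ => 0) = 0)
    {f g : Eu (n + n) → Eu (n + n)} (hf : SGP P f) {γ : Eu (n + n) → Eu (n + n)} (hγ : γ ∈ P)
    (h : g = γ ∘ f) : sdistP N P f g = 0 := by
  obtain ⟨ψ, hψ, -, rfl⟩ := hf
  have hpath : SPathP P (fun _ : ℝ => ψ 1) := by
    refine ⟨⟨?_, fun t => hψ.path.bij 1, fun t x => hψ.path.det 1 x,
      fun t a ha x => hψ.path.equi 1 a ha x⟩, fun t x v w => hψ.symp 1 x v w⟩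
    exact hψ.path.smooth.comp (contDiff_const.prodMk contDiff_snd)
  obtain ⟨γ', hγ', h2, h3⟩ := hP.deck.inv γ hγ
  have hlen : len N (fun _ : ℝ => ψ 1) = 0 := by
    unfold len
    have : ∀ t : ℝ, vel (fun _ : ℝ => ψ 1) t = fun _ => 0 := by
      intro t
      funext x
      unfold vel
      simp
    simp only [this, hZ]
    simp
  have hle : sdistP N P (ψ 1) g ≤ len N (fun _ : ℝ => ψ 1) := by
    unfold sdistP
    refine iInf₂_le (fun _ : ℝ => ψ 1) ⟨hpath, rfl, γ', hγ', ?_⟩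
    rw [h]
    show ψ 1 = (γ' ∘ γ) ∘ ψ 1
    rw [h3]
    rfl
  rw [hlen] at hle
  exact le_antisymm hle zero_le

end

end FS
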