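import Pool.Agent.FS.Defs
import Pool.Agent.TN.Frt
import Pool.Agent.TN.Avg
import Pool.Agent.H68.VD.Flux
import Pool.Agent.H68.VD.InfD

/-!
Project FS, row FS-22: shears, the diameter is infinite if a momentum coordinate splits.
-/

set_option autoImplicit false

open MeasureTheory Set Pool.Agent.H68.VD TN SVT
open scoped ENNReal ContDiff

namespace FS

noncomputable section

variable {n : ℕ} {P : Set (Eu (n + n) → Eu (n + n))}

/-! ### The profile -/

/-- the derivative of the profile -/
private def kap (m : ℕ) (b M r : ℝ) : ℝ := -(M * (2 * Real.pi * m)) * Real.sin (2 * Real.pi * m * (r - b))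

private theorem kap_smooth (m : ℕ) (b M : ℝ) : ContDiff ℝ ∞ (kap m b M) := by
  unfold kap
  fun_prop

private theorem kap_plus (m : ℕ) (b M : ℝ) {r c : ℝ} {l : ℤ} (hc : (m : ℝ) * c = l) :
    kap m b M (r + c) = kap m b M r := by
  unfold kap
  rw [show 2 * Real.pi * m * (r + c - b) = 2 * Real.pi * m * (r - b) + l * (2 * Real.pi) by
    rw [← hc]; ring, Real.sin_add_int_mul_two_pi]

private theorem kap_minus (m : ℕ) (b M : ℝ) {r c : ℝ} {l : ℤ} (hc : (m : ℝ) * (c - 2 * b) = l) :
    kap m b M (-r + c) = -kap m b M r := by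
  unfold kap
  rw [show 2 * Real.pi * m * (-r + c - b) = -(2 * Real.pi * m * (r - b)) + l * (2 * Real.pi) by
    rw [← hc]; ring, Real.sin_add_int_mul_two_pi, Real.sin_neg]
  ring

private theorem kap_int (m : ℕ) (b M r : ℝ) (k : ℤ) : kap m b M (r + k) = kap m b M r :=
  kap_plus m b M (l := m * k) (by push_cast; ring)

private theorem kap_half {m : ℕ} (hm : 0 < m) (b M r : ℝ) :
    kap m b M (r + 1 / (2 * m)) = -kap m b M r := by
  unfold kap
  have h : (m : ℝ) ≠ 0 := by positivity
  rw [show 2 * Real.pi * m * (r + 1 / (2 * m) - b) = 2 * Real.pi * m * (r - b) + Real.pi by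
    field_simp
    ring, Real.sin_add_pi]
  ring

/-! ### The deck group -/

private theorem inner_ev (i : Fin n) (v : Eu n) : inner ℝ (ev i) v = v i := by
  simp [ev, EuclideanSpace.inner_single_left]

private theorem om_zero {x : Eu (n + n)} (h : ∀ y, om x y = 0) : x = 0 := by
  have h1 := h (Jm x)
  rw [om_J, real_inner_self_eq_norm_sq, norm_Jm] at h1
  simpa using h1

private theorem om_iQ (r : ℝ) (i : Fin n) (y : Eu (n + n)) : om (r • iQ n (ev i)) y = r * pp y i := by
  rw [om_eq]
  simp [inner_smul_left, inner_ev]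

/-- the element `g` of `P` acts by `σ` on the position that belongs to the momentum `i` -/
private theorem q_act (hP : SpDeck P) {g : Eu (n + n) → Eu (n + n)} (hg : g ∈ P) {i : Fin n}
    {σ c : ℝ} (hσ : σ * σ = 1) (h : ∀ x, pp (g x) i = σ * pp x i + c) (x : Eu (n + n)) (r : ℝ) :
    g (x + r • iQ n (ev i)) = g x + (σ * r) • iQ n (ev i) := by
  obtain ⟨k, hk, hgk, hkg⟩ := hP.deck.inv g hg
  rw [← sub_eq_zero]
  refine om_zero fun w' => ?_
  have h1 := hP.symp g hg x (r • iQ n (ev i)) (k (g x + w') - x)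
  have h2 : g (x + (k (g x + w') - x)) = g x + w' := by
    rw [add_sub_cancel]
    exact congrFun hgk _
  have h3 := h (x + (k (g x + w') - x))
  rw [h2] at h1 h3
  rw [add_sub_cancel_left, om_iQ] at h1
  rw [pp_add, pp_add] at h3
  have h4 := h x
  have h5 : pp w' i = σ * pp (k (g x + w') - x) i := by
    have h6 : pp (g x) i + pp w' i = σ * (pp x i + pp (k (g x + w') - x) i) + c := h3
    rw [h4] at h6
    linarith
  have h7 : om (g (x + r • iQ n (ev i)) - (g x + (σ * r) • iQ n (ev i))) w' =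
      om (g (x + r • iQ n (ev i)) - g x) w' - om ((σ * r) • iQ n (ev i)) w' := by
    rw [om_eq, om_eq, om_eq]
    simp only [qq_add, qq_sub, pp_add, pp_sub, inner_sub_left, inner_add_left]
    ring
  rw [h7, h1, om_iQ, h5]
  calc r * pp (k (g x + w') - x) i - σ * r * (σ * pp (k (g x + w') - x) i)
      = r * pp (k (g x + w') - x) i * (1 - σ * σ) := by ring
    _ = 0 := by rw [hσ]; ring

private theorem iter_mem (hP : FlatDeck P) {g : Eu (n + n) → Eu (n + n)} (hg : g ∈ P) (a : ℕ) :
    g^[a] ∈ P := by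
  induction a with
  | zero => exact hP.one
  | succ a ih => exact hP.mul _ ih g hg

private theorem iter_pp {g : Eu (n + n) → Eu (n + n)} {i : Fin n} {c : ℝ}
    (h : ∀ x, pp (g x) i = pp x i + c) (a : ℕ) (x : Eu (n + n)) :
    pp (g^[a] x) i = pp x i + a * c := by
  induction a with
  | zero => simp
  | succ a ih =>
    rw [Function.iterate_succ_apply', h, ih]
    push_cast
    ring

private theorem pp_iv' (k : Fin (n + n) → ℤ) (i : Fin n) :
    pp (iv k : Eu (n + n)) i = (k (Fin.natAdd n i) : ℤ) := by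
  rw [pp_iv]
  rfl

/-- the translation parts of the momentum `i` are rational, with a common denominator -/
private theorem denom (hP : FlatDeck P) (i : Fin n) : ∃ m : ℕ, 0 < m ∧ ∀ g ∈ P, ∀ c : ℝ,
    (∀ x, pp (g x) i = pp x i + c) → ∃ l : ℤ, (m : ℝ) * c = l := by
  obtain ⟨R, hR, hPR⟩ := hP.fin
  refine ⟨(hR.toFinset.card).factorial, Nat.factorial_pos _, fun g hg c hc => ?_⟩
  have h1 : ∀ a : ℕ, ∃ r ∈ R, ∃ k : Fin (n + n) → ℤ, ∀ x, g^[a] x = r x + iv k := fun a =>
    hPR _ (iter_mem hP hg a)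
  choose r hr k hk using h1
  obtain ⟨a, ha, b, hb, hab, hrab⟩ := Finset.exists_ne_map_eq_of_card_lt_of_maps_to
    (s := Finset.range (hR.toFinset.card + 1)) (t := hR.toFinset) (by simp) (f := r)
    (fun a _ => by simpa using hr a)
  have key : ∀ a b : ℕ, a < b → b ≤ hR.toFinset.card → r a = r b →
      ∃ l : ℤ, ((hR.toFinset.card).factorial : ℝ) * c = l := by
    intro a b hab hb hr
    have h2 := iter_pp hc a 0
    have h3 := iter_pp hc b 0
    rw [hk, pp_add] at h2 h3
    have h4 : pp (r a 0) i + pp (iv (k a) : Eu (n + n)) i = pp 0 i + a * c := h2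
    have h5 : pp (r b 0) i + pp (iv (k b) : Eu (n + n)) i = pp 0 i + b * c := h3
    rw [pp_iv'] at h4 h5
    rw [hr] at h4
    have h6 : ((b - a : ℕ) : ℝ) * c = ((k b (Fin.natAdd n i) - k a (Fin.natAdd n i) : ℤ) : ℝ) := by
      rw [Nat.cast_sub hab.le]
      push_cast
      linarith
    obtain ⟨q, hq⟩ := Nat.dvd_factorial (Nat.sub_pos_of_lt hab) ((Nat.sub_le b a).trans hb)
    refine ⟨q * (k b (Fin.natAdd n i) - k a (Fin.natAdd n i)), ?_⟩
    rw [hq]
    push_cast at h6 ⊢
    calc ((b - a : ℕ) : ℝ) * q * c = q * (((b - a : ℕ) : ℝ) * c) := by ring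
      _ = _ := by rw [h6]
  rw [Finset.mem_range] at ha hb
  rcases lt_or_gt_of_ne hab with h | h
  · exact key a b h (by omega) hrab
  · exact key b a h (by omega) hrab.symm

/-- the symmetries of the momentum `i` -/
private theorem symm_data (hP : FlatDeck P) {i : Fin n} (hs : ∀ g ∈ P, ∃ c : ℝ,
    (∀ x, g x (Fin.natAdd n i) = x (Fin.natAdd n i) + c) ∨
    (∀ x, g x (Fin.natAdd n i) = -x (Fin.natAdd n i) + c)) :
    ∃ (m : ℕ) (b : ℝ), 0 < m ∧ ∀ g ∈ P, ∃ (c : ℝ) (l : ℤ),
      ((∀ x, pp (g x) i = pp x i + c) ∧ (m : ℝ) * c = l) ∨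
      ((∀ x, pp (g x) i = -pp x i + c) ∧ (m : ℝ) * (c - 2 * b) = l) := by
  obtain ⟨m, hm, hd⟩ := denom hP i
  by_cases hex : ∃ g₀ ∈ P, ∃ c₀ : ℝ, ∀ x, pp (g₀ x) i = -pp x i + c₀
  · obtain ⟨g₀, hg₀, c₀, h₀⟩ := hex
    refine ⟨m, c₀ / 2, hm, fun g hg => ?_⟩
    obtain ⟨c, hc | hc⟩ := hs g hg
    · obtain ⟨l, hl⟩ := hd g hg c hc
      exact ⟨c, l, Or.inl ⟨hc, hl⟩⟩
    · have hc' : ∀ x, pp (g x) i = -pp x i + c := hc
      obtain ⟨l, hl⟩ := hd (g ∘ g₀) (hP.mul g hg g₀ hg₀) (c - c₀) (fun x => by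
        rw [Function.comp_apply, hc', h₀]
        ring)
      refine ⟨c, l, Or.inr ⟨hc', ?_⟩⟩
      rw [← hl]
      ring
  · refine ⟨m, 0, hm, fun g hg => ?_⟩
    obtain ⟨c, hc | hc⟩ := hs g hg
    · obtain ⟨l, hl⟩ := hd g hg c hc
      exact ⟨c, l, Or.inl ⟨hc, hl⟩⟩
    · exact absurd ⟨g, hg, c, hc⟩ hex

/-- an element of `P` that commutes with the integer translations is a translation -/
private theorem is_trans (hP : FlatDeck P) {γ : Eu (n + n) → Eu (n + n)} (hγ : γ ∈ P)
    (h : ∀ (x : Eu (n + n)) (k : Fin (n + n) → ℤ), γ (x + iv k) = γ x + iv k) (x : Eu (n + n)) :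
    γ x = x + γ 0 := by
  obtain ⟨L, h1, h2, -⟩ := hP.aff γ hγ
  have hadd : ∀ v w, L (v + w) = L v + L w := by
    intro v w
    have h3 := h1 0 (v + w)
    rw [← add_assoc, h1 (0 + v) w, h1 0 v, add_assoc] at h3
    exact (add_left_cancel h3).symm
  let Λ : Eu (n + n) →ₗ[ℝ] Eu (n + n) := { toFun := L, map_add' := hadd, map_smul' := h2 }
  have h4 : Λ = LinearMap.id := by
    refine (EuclideanSpace.basisFun (Fin (n + n)) ℝ).toBasis.ext fun j => ?_
    have h5 : ((EuclideanSpace.basisFun (Fin (n + n)) ℝ).toBasis j) = iv (Pi.single j 1) := by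
      ext l
      by_cases hl : l = j
      · subst hl
        simp [iv]
      · simp [iv, hl]
    rw [h5]
    show L _ = iv _
    have h6 := h1 0 (iv (Pi.single j 1))
    rw [h 0] at h6
    exact (add_left_cancel h6).symm
  have h7 := h1 0 x
  have h8 : L x = x := by
    have := congrArg (fun F => F x) h4
    simpa [Λ] using this
  rw [zero_add, h8] at h7
  rw [h7]
  exact add_comm _ _

/-! ### The shears -/

/-- the path of shears -/
private def shr (m : ℕ) (b : ℝ) (i : Fin n) (M t : ℝ) (x : Eu (n + n)) : Eu (n + n) :=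
  pt (qq x + (t * kap m b M (pp x i)) • ev i) (pp x)

/-- the momentum coordinate `i`, as a continuous linear form -/
private def pi' (i : Fin n) : Eu (n + n) →L[ℝ] ℝ := (EuclideanSpace.proj i : Eu n →L[ℝ] ℝ).comp (pL n)

private theorem pi'_apply (i : Fin n) (x : Eu (n + n)) : pi' i x = pp x i := rfl

private theorem kp_smooth (m : ℕ) (b : ℝ) (i : Fin n) (M : ℝ) :
    ContDiff ℝ ∞ (fun x : Eu (n + n) => kap m b M (pp x i)) :=
  (kap_smooth m b M).comp (pi' i).contDiff

private theorem shr_eq (m : ℕ) (b : ℝ) (i : Fin n) (M t : ℝ) (x : Eu (n + n)) :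
    shr m b i M t x = x + (t * kap m b M (pp x i)) • iQ n (ev i) := by
  refine ext_qp ?_ ?_ <;> simp [shr]

private theorem shr_smooth (m : ℕ) (b : ℝ) (i : Fin n) (M : ℝ) :
    ContDiff ℝ ∞ (fun q : ℝ × Eu (n + n) => shr m b i M q.1 q.2) := by
  simp only [shr_eq]
  exact contDiff_snd.add
    ((contDiff_fst.mul ((kp_smooth m b i M).comp contDiff_snd)).smul contDiff_const)

private theorem shr_bij (m : ℕ) (b : ℝ) (i : Fin n) (M t : ℝ) :
    Function.Bijective (shr m b i M t) := by
  refine Function.bijective_iff_has_inverse.2 ⟨shr m b i M (-t), fun x => ?_, fun x => ?_⟩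
  · refine ext_qp ?_ ?_ <;> simp [shr, add_assoc]
  · refine ext_qp ?_ ?_ <;> simp [shr, add_assoc]

private theorem shr_hasFDerivAt (m : ℕ) (b : ℝ) (i : Fin n) (M t : ℝ) (x : Eu (n + n)) :
    HasFDerivAt (shr m b i M t) (ContinuousLinearMap.id ℝ (Eu (n + n)) +
      ((t * deriv (kap m b M) (pp x i)) • pi' i).smulRight (iQ n (ev i))) x := by
  have h2 : HasDerivAt (kap m b M) (deriv (kap m b M) (pi' i x)) (pi' i x) :=
    ((kap_smooth m b M).differentiable (by simp) (pi' i x)).hasDerivAt
  have h4 := (h2.comp_hasFDerivAt x (pi' i).hasFDerivAt).const_mul t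
  have h5 := (hasFDerivAt_id x).add (h4.smul_const (iQ n (ev i)))
  have h6 : shr m b i M t = fun y : Eu (n + n) => id y + (t * (kap m b M ∘ pi' i) y) • iQ n (ev i) := by
    funext y
    rw [shr_eq]
    rfl
  rw [h6]
  refine h5.congr_fderiv ?_
  ext v
  simp only [add_apply, ContinuousLinearMap.smulRight_apply,
    smul_apply, smul_eq_mul, pi'_apply, mul_assoc]

private theorem shr_fderiv (m : ℕ) (b : ℝ) (i : Fin n) (M t : ℝ) (x v : Eu (n + n)) :
    fderiv ℝ (shr m b i M t) x v =
      v + ((t * deriv (kap m b M) (pp x i)) * pp v i) • pt (ev i) 0 := by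
  rw [(shr_hasFDerivAt m b i M t x).fderiv]
  simp [pi'_apply]

private theorem shr_det (m : ℕ) (b : ℝ) (i : Fin n) (M t : ℝ) (x : Eu (n + n)) :
    (fderiv ℝ (shr m b i M t) x).det = 1 := by
  rw [(shr_hasFDerivAt m b i M t x).fderiv, ContinuousLinearMap.det]
  have h : (↑(ContinuousLinearMap.id ℝ (Eu (n + n)) +
      ((t * deriv (kap m b M) (pp x i)) • pi' i).smulRight (iQ n (ev i))) :
        Eu (n + n) →ₗ[ℝ] Eu (n + n)) =
      LinearMap.transvection (((t * deriv (kap m b M) (pp x i)) • pi' i : Eu (n + n) →L[ℝ] ℝ) :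
        Eu (n + n) →ₗ[ℝ] ℝ) (iQ n (ev i)) := by
    ext v
    rfl
  rw [h, LinearMap.transvection.det]
  simp [pi'_apply]

private theorem shr_symp (m : ℕ) (b : ℝ) (i : Fin n) (M t : ℝ) (x v w : Eu (n + n)) :
    om (fderiv ℝ (shr m b i M t) x v) (fderiv ℝ (shr m b i M t) x w) = om v w := by
  rw [shr_fderiv, shr_fderiv, om_eq, om_eq]
  simp only [qq_add, qq_smul, pp_add, pp_smul, qq_pt, pp_pt, smul_zero, add_zero, inner_add_left,
    inner_add_right, inner_smul_left, inner_smul_right, inner_ev, real_inner_comm (ev i),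
    RCLike.conj_to_real]
  ring

private theorem shr_zero (m : ℕ) (b : ℝ) (i : Fin n) (M : ℝ) : shr m b i M 0 = id := by
  funext x
  rw [shr_eq]
  simp

private theorem shr_zero' (m : ℕ) (b : ℝ) (i : Fin n) (t : ℝ) : shr m b i 0 t = id := by
  funext x
  rw [shr_eq]
  simp [kap]

private theorem int_zero {m : ℕ} (hm : 0 < m) (b : ℝ) (i : Fin n) (M : ℝ) :
    ∫ x in cube (n + n), kap m b M (pp x i) • pt (ev i) 0 = 0 := by
  have h1 := FluxA.cov_gen (fun x : Eu (n + n) => x + pt 0 ((1 / (2 * m) : ℝ) • ev i)) (by fun_prop)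
    (Equiv.addRight (pt 0 ((1 / (2 * m) : ℝ) • ev i))).bijective
    (fun x => by
      rw [fderiv_add_const, fderiv_fun_id]
      have : (ContinuousLinearMap.id ℝ (Eu (n + n))).det = 1 := LinearMap.det_id
      rw [this, abs_one]) (Equiv.refl _)
    (fun x k => by rw [add_right_comm]; rfl) (fun x => kap m b M (pp x i) • pt (ev i) 0)
    (by
      intro x k
      show kap m b M (pp (x + iv k) i) • pt (ev i) 0 = _
      have h : pp (x + iv k) i = pp x i + (k (Fin.natAdd n i) : ℤ) := by
        rw [pp_add, pp_iv]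
        rfl
      rw [h, kap_int])
  have h2 : (fun x : Eu (n + n) =>
      kap m b M (pp (x + pt 0 ((1 / (2 * m) : ℝ) • ev i)) i) • pt (ev i) 0) =
      fun x : Eu (n + n) => - (kap m b M (pp x i) • pt (ev i) 0) := by
    funext x
    have h : pp (x + pt 0 ((1 / (2 * m) : ℝ) • ev i)) i = pp x i + 1 / (2 * m) := by
      rw [pp_add, pp_pt]
      simp [ev]
    rw [h, kap_half hm, neg_smul]
  rw [h2, integral_neg] at h1
  have h3 : (2 : ℝ) • (∫ x in cube (n + n), kap m b M (pp x i) • pt (ev i) 0) = 0 := by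
    rw [two_smul]
    nth_rewrite 1 [← h1]
    exact neg_add_cancel _
  exact (smul_eq_zero.1 h3).resolve_left two_ne_zero

/-- the mean displacement of a lift of the shear -/
private theorem dsp_shr {m : ℕ} (hm : 0 < m) (b : ℝ) (i : Fin n) (M : ℝ) (w : Eu (n + n)) :
    dsp (fun x => shr m b i M 1 x + w) = w := by
  unfold dsp
  have h1 : (fun x : Eu (n + n) => shr m b i M 1 x + w - x) =
      fun x : Eu (n + n) => kap m b M (pp x i) • pt (ev i) 0 + w := by
    funext x
    rw [shr_eq, one_mul, iQ_apply]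
    abel
  have hc : Continuous fun x : Eu (n + n) => kap m b M (pp x i) • (pt (ev i) 0 : Eu (n + n)) :=
    (kp_smooth m b i M).continuous.smul continuous_const
  rw [h1, integral_add (InfDA.intOn hc) (InfDA.intOn continuous_const), int_zero hm, zero_add]
  simp [Measure.real, HsA.vol_cube]

/-! ### The diameter -/

theorem diam_splitP (hP : SpDeck P) (hs : Split P) {N : (Eu (n + n) → Eu (n + n)) → ℝ≥0∞}
    (hN : Slc N) : sdiamP N P = ⊤ := by
  obtain ⟨C, hC, hN⟩ := avg hN
  obtain ⟨i, hs⟩ := hs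
  obtain ⟨m, b, hm, hmb⟩ := symm_data hP.deck hs
  have hm' : (m : ℝ) ≠ 0 := by positivity
  have shr_equi : ∀ M t : ℝ, ∀ g ∈ P, ∀ x, shr m b i M t (g x) = g (shr m b i M t x) := by
    intro M t g hg x
    obtain ⟨c, l, ⟨h1, h2⟩ | ⟨h1, h2⟩⟩ := hmb g hg
    · rw [shr_eq, shr_eq, q_act hP hg (σ := 1) (c := c) (by norm_num) (fun x => by rw [h1]; ring), h1,
        kap_plus m b M h2, one_mul]
    · rw [shr_eq, shr_eq, q_act hP hg (σ := -1) (c := c) (by norm_num) (fun x => by rw [h1]; ring),
        h1, kap_minus m b M h2]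
      congr 2
      ring
  have shr_path : ∀ M : ℝ, SPathP P (shr m b i M) := fun M =>
    { path :=
        { smooth := shr_smooth m b i M
          bij := shr_bij m b i M
          det := shr_det m b i M
          equi := shr_equi M }
      symp := shr_symp m b i M }
  have sg_id : SGP P id := ⟨shr m b i 0, shr_path 0, shr_zero m b i 0, shr_zero' m b i 1⟩
  have sg_shr : ∀ M : ℝ, SGP P (shr m b i M 1) := fun M =>
    ⟨shr m b i M, shr_path M, shr_zero m b i M, rfl⟩
  have key : ∀ M : ℝ, 0 ≤ M →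
      ENNReal.ofReal M ≤ ENNReal.ofReal (C + 1) * sdistP N P id (shr m b i M 1) := by
    intro M hM
    have h1 : ENNReal.ofReal (C + 1) ≠ 0 := by
      rw [Ne, ENNReal.ofReal_eq_zero]; linarith
    rw [mul_comm, ← ENNReal.div_le_iff h1 ENNReal.ofReal_ne_top]
    refine le_iInf fun ψ => le_iInf fun hψ => ?_
    obtain ⟨hp, h0, γ, hγ, h2⟩ := hψ
    rw [ENNReal.div_le_iff h1 ENNReal.ofReal_ne_top]
    have hlat : ∀ t (x : Eu (n + n)) (k : Fin (n + n) → ℤ), ψ t (x + iv k) = ψ t x + iv k :=
      fun t x k => hp.path.equi t _ (hP.deck.trans k) x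
    have hsp : SPath ψ :=
      { path :=
          { smooth := hp.path.smooth
            bij := hp.path.bij
            det := hp.path.det
            equi := by
              rintro t g ⟨k, rfl⟩ x
              exact hlat t x k }
        symp := hp.symp }
    have hγt : ∀ x, γ x = x + γ 0 := by
      refine is_trans hP.deck hγ fun x k => ?_
      obtain ⟨y, rfl⟩ := (shr_bij m b i M 1).surjective x
      have h3 := hlat 1 y k
      rw [h2, Function.comp_apply, Function.comp_apply] at h3
      have h4 : shr m b i M 1 (y + iv k) = shr m b i M 1 y + iv k :=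
        shr_equi M 1 _ (hP.deck.trans k) y
      rw [h4] at h3
      exact h3
    have h3 : ψ 1 = fun x => shr m b i M 1 x + γ 0 := by
      rw [h2]
      funext x
      exact hγt _
    have h4 : ∀ x, nrm (ψ 1) x = shr m b i M 1 x := by
      intro x
      unfold nrm
      rw [h3, dsp_shr hm, add_sub_cancel_right]
    have h5 : ∀ a, M ≤ Ebd 0 ψ a := by
      intro a
      obtain ⟨A, hA, hy⟩ := front0 hsp h0 a
      have hpp : ∀ r, pp (nrm (ψ 1) (pt a r)) = r := fun r => by
        rw [h4]
        simp [shr]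
      have h6 : ∀ s, HasFDerivAt A
          (kap m b M (s i) • (EuclideanSpace.proj i : Eu n →L[ℝ] ℝ)) s := by
        intro s
        have h7 := hA s
        have h8 : (fun r => pp (nrm (ψ 1) (pt a r))) = fun r => r := funext hpp
        have h9 : qq (nrm (ψ 1) (pt a s)) - a = kap m b M (s i) • ev i := by
          rw [h4]
          simp [shr]
        rw [h8, h9] at h7
        refine h7.congr_fderiv ?_
        ext v
        simp [inner_ev]
      have h10 : ∀ s : Eu n, HasFDerivAt
          (fun s : Eu n => M * Real.cos (2 * Real.pi * m * (s i - b)))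
          (kap m b M (s i) • (EuclideanSpace.proj i : Eu n →L[ℝ] ℝ)) s := by
        intro s
        have h11 : HasDerivAt (fun r : ℝ => M * Real.cos (2 * Real.pi * m * (r - b)))
            (kap m b M (s i)) (s i) := by
          have := ((((hasDerivAt_id (s i)).sub_const b).const_mul (2 * Real.pi * m)).cos).const_mul M
          refine this.congr_deriv ?_
          simp [kap]
          ring
        exact HasDerivAt.comp_hasFDerivAt
          (h₂ := fun r : ℝ => M * Real.cos (2 * Real.pi * m * (r - b))) s h11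
          (EuclideanSpace.proj i : Eu n →L[ℝ] ℝ).hasFDerivAt
      have h11 : ∀ s : Eu n, A s - M * Real.cos (2 * Real.pi * m * (s i - b)) =
          A 0 - M * Real.cos (2 * Real.pi * m * ((0 : Eu n) i - b)) := by
        intro s
        have h12 : ∀ s, HasFDerivAt (fun s => A s - M * Real.cos (2 * Real.pi * m * (s i - b)))
            (0 : Eu n →L[ℝ] ℝ) s := by
          intro s
          have h18 := (h6 s).sub (h10 s)
          rw [sub_self] at h18
          exact h18
        exact is_const_of_fderiv_eq_zero (𝕜 := ℝ) (fun s => (h12 s).differentiableAt)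
          (fun s => (h12 s).fderiv) s 0
      obtain ⟨s, hs, hs'⟩ := hy (b • ev i)
      obtain ⟨t, ht, ht'⟩ := hy ((b + 1 / (2 * m)) • ev i)
      rw [hpp] at hs ht
      have e1 : s i = b := by rw [hs]; simp [ev]
      have e2 : t i = b + 1 / (2 * m) := by rw [ht]; simp [ev]
      have h14 := (h11 s).trans (h11 t).symm
      rw [e1, e2, sub_self, mul_zero, Real.cos_zero,
        show 2 * Real.pi * m * (b + 1 / (2 * m) - b) = Real.pi by field_simp; ring,
        Real.cos_pi] at h14
      have h16 := abs_le.1 hs'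
      have h17 := abs_le.1 ht'
      linarith [h16.2, h17.1]
    calc ENNReal.ofReal M = ∫⁻ a in cube n, ENNReal.ofReal M := by
          simp [HsA.vol_cube]
      _ ≤ ∫⁻ a in cube n, ENNReal.ofReal (Ebd 0 ψ a) :=
          lintegral_mono fun a => ENNReal.ofReal_le_ofReal (h5 a)
      _ ≤ ENNReal.ofReal C * len N ψ := hN 0 ψ hsp
      _ ≤ ENNReal.ofReal (C + 1) * len N ψ := by gcongr; linarith
      _ = len N ψ * ENNReal.ofReal (C + 1) := mul_comm _ _
  have h1 : ∀ M : ℝ, 0 ≤ M → ENNReal.ofReal M ≤ ENNReal.ofReal (C + 1) * sdiamP N P := by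
    intro M hM
    refine (key M hM).trans ?_
    gcongr
    exact le_iSup₂_of_le id sg_id (le_iSup₂_of_le (shr m b i M 1) (sg_shr M) le_rfl)
  by_contra hne
  have h2 : ENNReal.ofReal (C + 1) * sdiamP N P ≠ ⊤ := ENNReal.mul_ne_top ENNReal.ofReal_ne_top hne
  have h3 := h1 ((ENNReal.ofReal (C + 1) * sdiamP N P).toReal + 1) (by positivity)
  rw [ENNReal.ofReal_add (by positivity) zero_le_one, ENNReal.ofReal_toReal h2, ENNReal.ofReal_one] at h3
  exact absurd h3 (not_le.2 (ENNReal.lt_add_right h2 one_ne_zero))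

end

end FS
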