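import Pool.Agent.FS.Defs
import Pool.Agent.FS.Dk
import Pool.Agent.FS.Sgp
import Pool.Agent.FS.Hpp
import Pool.Agent.FS.Hop
import Pool.Agent.SVT.Sg
import Pool.Agent.SVT.Stp
import Pool.Agent.TN.Bas

/-!
# Project FS, row FS-18: the flux bound from above
-/

set_option autoImplicit false

open MeasureTheory Set Pool.Agent.H68.VD TN SVT
open scoped ENNReal ContDiff

namespace FS

noncomputable section

variable {n : ℕ} {P : Set (Eu (n + n) → Eu (n + n))} {E : (Eu (n + n) → ℝ) → ℝ≥0∞}

/-- adding a smooth curve of invariant vectors to a path -/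
private theorem UppP_shift {φ : ℝ → Eu (n + n) → Eu (n + n)} (h : SPathP P φ) {c : ℝ → Eu (n + n)}
    (hc : ContDiff ℝ ∞ c) (hi : ∀ t, FInv P (c t)) : SPathP P (fun t x => φ t x + c t) := by
  have hfd : ∀ t x, fderiv ℝ (fun x => φ t x + c t) x = fderiv ℝ (φ t) x := by
    intro t x
    rw [fderiv_add_const]
  refine ⟨⟨?_, ?_, ?_, ?_⟩, ?_⟩
  · exact h.path.smooth.add (hc.comp contDiff_fst)
  · intro t
    constructor
    · intro x y hxy
      exact (h.path.bij t).1 (add_right_cancel hxy)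
    · intro y
      obtain ⟨x, hx⟩ := (h.path.bij t).2 (y - c t)
      exact ⟨x, by show φ t x + c t = y; rw [hx]; abel⟩
  · intro t x
    rw [hfd]
    exact h.path.det t x
  · intro t g hg x
    show φ t (g x) + c t = g (φ t x + c t)
    rw [h.path.equi t g hg x, hi t g hg]
  · intro t x v w
    rw [hfd]
    exact h.symp t x v w

/-- the velocity of the shifted path -/
private theorem UppP_vel {χ : ℝ → Eu (n + n) → Eu (n + n)} (h : SPath χ)
    {f : Eu (n + n) → Eu (n + n)} {a b : ℝ → ℝ} (ha : ContDiff ℝ ∞ a) (hb : ContDiff ℝ ∞ b)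
    (w : Eu (n + n)) (hp : SPath (fun t x => χ (b t) (f x) + a t • w)) (t : ℝ) (y : Eu (n + n)) :
    vel (fun t x => χ (b t) (f x) + a t • w) t y =
      deriv b t • vel χ (b t) (y - a t • w) + deriv a t • w := by
  obtain ⟨x, hx⟩ := (hp.path.bij t).2 y
  have hx' : χ (b t) (f x) + a t • w = y := hx
  have h1 := vel_eq hp t x
  have hb1 : HasDerivAt b (deriv b t) t := (hb.differentiable (by simp) t).hasDerivAt
  have ha1 : HasDerivAt a (deriv a t) t := (ha.differentiable (by simp) t).hasDerivAt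
  have h2 : HasDerivAt (fun τ => χ (b τ) (f x)) (deriv b t • vel χ (b t) (χ (b t) (f x))) t :=
    (vel_eq h (b t) (f x)).scomp t hb1
  have h3 : HasDerivAt (fun τ => χ (b τ) (f x) + a τ • w)
      (deriv b t • vel χ (b t) (χ (b t) (f x)) + deriv a t • w) t := h2.add (ha1.smul_const w)
  have h4 := h1.unique h3
  have h5 : χ (b t) (f x) = y - a t • w := by rw [← hx']; abel
  have h6 : vel (fun t x => χ (b t) (f x) + a t • w) t (χ (b t) (f x) + a t • w) =
    deriv b t • vel χ (b t) (χ (b t) (f x)) + deriv a t • w := h4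
  rw [hx', h5] at h6
  exact h6

/-- the mean displacement -/
private theorem UppP_dsp {f g k' : Eu (n + n) → Eu (n + n)} (hf : SG f) (hg : SG g) (hk : SG k')
    (hfk : ∀ x, f (k' x) = x) (w : Eu (n + n)) :
    dsp (fun x => g (k' x) + w) = (∫ x in cube (n + n), (g x - f x)) + w := by
  obtain ⟨φ, hφ, h0, h1⟩ := hk
  have hs : ContDiff ℝ ∞ k' := sg_smooth ⟨φ, hφ, h0, h1⟩
  have hcov := (fluxKit famKit).cov (n + n) k' hs (h1 ▸ hφ.path.bij 1)
    (fun x => h1 ▸ hφ.path.det 1 x) (fun x k => sg_equi ⟨φ, hφ, h0, h1⟩ x k)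
    (fun x => g x - f x) ((sg_smooth hg).continuous.sub (sg_smooth hf).continuous)
    (fun x k => by
      show g (x + iv k) - f (x + iv k) = g x - f x
      rw [sg_equi hg, sg_equi hf]
      abel)
  have e1 : ∀ x, g (k' x) + w - x = (g (k' x) - f (k' x)) + w := fun x => by
    rw [hfk]
    abel
  show ∫ x in cube (n + n), (g (k' x) + w - x) = _
  simp only [e1]
  have hi : IntegrableOn (fun x => g (k' x) - f (k' x)) (cube (n + n)) volume :=
    HsA.int_cube (((sg_smooth hg).continuous.comp hs.continuous).sub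
      ((sg_smooth hf).continuous.comp hs.continuous))
  rw [integral_add hi (integrable_const _), setIntegral_const, Measure.real, HsA.vol_cube]
  simp only [ENNReal.toReal_one, one_smul]
  rw [← hcov]

/-- a smooth map at a time -/
private theorem UppP_at {F : Type} [NormedAddCommGroup F] [NormedSpace ℝ F]
    {H : ℝ → Eu (n + n) → F}
    (hH : ContDiff ℝ ∞ (fun z : ℝ × Eu (n + n) => H z.1 z.2)) (t : ℝ) : ContDiff ℝ ∞ (H t) := by
  have h2 : ContDiff ℝ ∞ (fun x : Eu (n + n) => ((t, x) : ℝ × Eu (n + n))) :=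
    contDiff_const.prodMk contDiff_id
  exact hH.comp h2

private theorem UppP_Jm_smul (c : ℝ) (x : Eu (n + n)) : Jm (c • x) = c • Jm x :=
  (JL n).map_smul c x

private theorem UppP_neg {m : Eu (n + n)} (hm : FInv P m) : FInv P (-m) := by
  intro g hg x
  have h := hm g hg (x + -m)
  rw [neg_add_cancel_right] at h
  rw [h, add_neg_cancel_right]

private theorem UppP_smul (hP : SpDeck P) {m : Eu (n + n)} (hm : FInv P m) (c : ℝ) :
    FInv P (c • m) := by
  intro g hg x
  obtain ⟨L, hL, -⟩ := dk_aff hP hg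
  have h := hm g hg x
  rw [hL] at h
  have h1 : L m = m := add_left_cancel h
  rw [hL, map_smul, h1]

/-- the length of the path -/
private theorem UppP_len (hP : SpDeck P) (hE : CF P E)
    {N : (Eu (n + n) → Eu (n + n)) → ℝ≥0∞} (hc : ∀ w : Eu (n + n), N (fun _ => w) ≤ ENNReal.ofReal ‖w‖)
    {C : ℝ} (hI : ∀ (H : Eu (n + n) → ℝ) (V : Eu (n + n) → Eu (n + n)), ContDiff ℝ ∞ H →
      Per H → Continuous V → (∀ x, HasFDerivAt H (innerSL ℝ (Jm (V x))) x) →
      N V ≤ ENNReal.ofReal C * E H)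
    {χ : ℝ → Eu (n + n) → Eu (n + n)} {K : ℝ → Eu (n + n) → ℝ} (hχ : HPP P χ K)
    {f : Eu (n + n) → Eu (n + n)} (hf : SGP P f) {w : Eu (n + n)} (hw : FInv P w) (h0 : χ 0 = id) :
    ∃ Φ : ℝ → Eu (n + n) → Eu (n + n), SPathP P Φ ∧ Φ 0 = f ∧ (∀ x, Φ 1 x = χ 1 (f x) + w) ∧
      len N Φ ≤ ENNReal.ofReal C * cstE E K + ENNReal.ofReal ‖w‖ := by
  obtain ⟨a, b, ha, hb, a0, a1, b0, b1, da, db, hal, hbr, hF⟩ := steps
  have hsp : SPathP P (fun t x => χ (b t) (f x)) :=
    spp_comp hP (spp_time hχ.path hb) (spp_const hP hf)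
  have hcw : ContDiff ℝ ∞ (fun t => a t • w) := ha.smul contDiff_const
  have hPP : SPathP P (fun t x => χ (b t) (f x) + a t • w) :=
    UppP_shift hsp hcw fun t => UppP_smul hP hw (a t)
  have hPS : SPath (fun t x => χ (b t) (f x) + a t • w) := spp_sp hP hPP
  refine ⟨fun t x => χ (b t) (f x) + a t • w, hPP, ?_, ?_, ?_⟩
  · funext x
    show χ (b 0) (f x) + a 0 • w = f x
    rw [a0, b0, h0, zero_smul, add_zero]
    rfl
  · intro x
    show χ (b 1) (f x) + a 1 • w = _
    rw [a1, b1, one_smul]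
  · have hm : Measurable (fun t => E (K t)) := hE.meas K hχ.hp.Hs
    have hpt : ∀ t, N (vel (fun t x => χ (b t) (f x) + a t • w) t) ≤
        ENNReal.ofReal C * (ENNReal.ofReal (deriv b t) * E (K (b t))) +
          ENNReal.ofReal ‖w‖ * (ENNReal.ofReal (deriv a t) * 1) := by
      intro t
      have hv : vel (fun t x => χ (b t) (f x) + a t • w) t =
          fun y => deriv b t • vel χ (b t) (y - a t • w) + deriv a t • w :=
        funext (UppP_vel hχ.hp.sp ha hb w hPS t)
      rw [hv]
      rcases le_total t (1 / 2) with ht | ht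
      · obtain ⟨e1, e2⟩ := hal t ht
        have e3 : (fun y => deriv b t • vel χ (b t) (y - a t • w) + deriv a t • w) =
            fun y => deriv b t • vel χ (b t) y := by
          funext y
          rw [e1, e2, zero_smul, sub_zero, add_zero]
        rw [e3]
        have hK : ContDiff ℝ ∞ (K (b t)) := UppP_at hχ.hp.Hs (b t)
        have hvc : Continuous fun y => deriv b t • vel χ (b t) y := by
          have h5 : Continuous (vel χ (b t)) :=
            (UppP_at (H := fun t x => vel χ t x) (vel_smooth hχ.hp.sp) (b t)).continuous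
          exact Continuous.smul (continuous_const (y := deriv b t)) h5
        have h1 := hI (fun x => deriv b t * K (b t) x) (fun y => deriv b t • vel χ (b t) y)
          (contDiff_const.mul hK) (fun x k => by
            show deriv b t * K (b t) (x + iv k) = deriv b t * K (b t) x
            rw [hχ.hp.Hp (b t) x k])
          hvc
          (fun x => by
            have h2 := (hχ.hp.Hd (b t) x).const_mul (deriv b t)
            rw [UppP_Jm_smul, map_smul]
            exact h2)
        rw [hE.smul _ _ hK, abs_of_nonneg (db t)] at h1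
        exact h1.trans le_self_add
      · obtain ⟨e1, e2⟩ := hbr t ht
        have e3 : (fun y => deriv b t • vel χ (b t) (y - a t • w) + deriv a t • w) =
            fun _ => deriv a t • w := by
          funext y
          rw [e2, zero_smul, zero_add]
        rw [e3]
        refine (hc _).trans ?_
        rw [norm_smul, Real.norm_eq_abs, abs_of_nonneg (da t), ENNReal.ofReal_mul (da t), mul_one,
          mul_comm]
        exact le_add_self
    have hda : Measurable (fun t => ENNReal.ofReal ‖w‖ * (ENNReal.ofReal (deriv a t) * 1)) :=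
      ((measurable_deriv a).ennreal_ofReal.mul_const _).const_mul _
    have hdb : Measurable (fun t => ENNReal.ofReal (deriv b t) * E (K (b t))) :=
      (measurable_deriv b).ennreal_ofReal.mul (hm.comp hb.continuous.measurable)
    have hda' : Measurable (fun t => ENNReal.ofReal (deriv a t) * (1 : ℝ≥0∞)) :=
      (measurable_deriv a).ennreal_ofReal.mul_const _
    have i1 := (hF (fun t => E (K t)) hm).2
    have i2 := (hF (fun _ => 1) measurable_const).1
    calc len N (fun t x => χ (b t) (f x) + a t • w)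
        ≤ ∫⁻ t in Icc (0 : ℝ) 1, (ENNReal.ofReal C * (ENNReal.ofReal (deriv b t) * E (K (b t))) +
          ENNReal.ofReal ‖w‖ * (ENNReal.ofReal (deriv a t) * 1)) := lintegral_mono (fun t => hpt t)
      _ = ENNReal.ofReal C * cstE E K + ENNReal.ofReal ‖w‖ := by
          rw [lintegral_add_right _ hda, lintegral_const_mul _ hdb, lintegral_const_mul _ hda', i1, i2]
          simp [cstE]

theorem flux_uppP (hP : SpDeck P) (hE : CF P E)
    {N : (Eu (n + n) → Eu (n + n)) → ℝ≥0∞} (hc : ∀ w : Eu (n + n), N (fun _ => w) ≤ ENNReal.ofReal ‖w‖)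
    (hI : ∃ C : ℝ, 0 ≤ C ∧ ∀ (H : Eu (n + n) → ℝ) (V : Eu (n + n) → Eu (n + n)), ContDiff ℝ ∞ H →
      Per H → Continuous V → (∀ x, HasFDerivAt H (innerSL ℝ (Jm (V x))) x) →
      N V ≤ ENNReal.ofReal C * E H)
    (hR : ∀ (φ : ℝ → Eu (n + n) → Eu (n + n)) (H : ℝ → Eu (n + n) → ℝ), HPP P φ H → φ 0 = id →
      rhoP P E (φ 1) = 0) {f g : Eu (n + n) → Eu (n + n)} (hf : SGP P f) (hg : SGP P g) :
    sdistP N P f g ≤
      ⨅ (w : Eu (n + n)) (_ : FCtr P w), ENNReal.ofReal ‖(∫ x in cube (n + n), (g x - f x)) + w‖ := by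
  refine le_iInf fun w => le_iInf fun hw => ?_
  obtain ⟨C, hC, hI⟩ := hI
  have hfs : SG f := sgp_sg hP hf
  have hgs : SG g := sgp_sg hP hg
  have hk : SGP P (Function.invFun f) := sgp_inv hP hf
  have hks : SG (Function.invFun f) := sgp_sg hP hk
  have hkf : ∀ x, Function.invFun f (f x) = x := Function.leftInverse_invFun (sg_bij hfs).1
  have hfk : ∀ x, f (Function.invFun f x) = x := Function.rightInverse_invFun (sg_bij hfs).2
  have htr : SGP P (fun x => x + w) := by
    refine ⟨fun t x => x + t • w, spp_trans hP hw.2, ?_, ?_⟩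
    · funext x
      show x + (0 : ℝ) • w = x
      rw [zero_smul, add_zero]
    · funext x
      show x + (1 : ℝ) • w = x + w
      rw [one_smul]
  have hh : SGP P (fun x => g (Function.invFun f x) + w) :=
    sgp_comp hP htr (sgp_comp hP hg hk)
  have hd := UppP_dsp hfs hgs hks hfk w
  have hfi : FInv P (dsp (fun x => g (Function.invFun f x) + w)) := finv_flux hP hh
  rw [hd] at hfi
  set v : Eu (n + n) := (∫ x in cube (n + n), (g x - f x)) + w with hv
  obtain ⟨φ, hφ, h0, h1⟩ := hh
  have hφs : SPath φ := spp_sp hP hφ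
  obtain ⟨hψ, ψ0, ψm, -⟩ := frame hφs h0
  have hψP : SPathP P (fun t => nrm (φ t)) := by
    refine ⟨⟨hψ.path.smooth, hψ.path.bij, hψ.path.det, ?_⟩, hψ.symp⟩
    intro t g' hg' x
    have h2 : FInv P (dsp (φ t)) := finv_flux hP (spp_sgp hφ h0 t)
    have h3 := UppP_neg h2 g' hg' (φ t x)
    show φ t (g' x) - dsp (φ t) = g' (φ t x - dsp (φ t))
    rw [hφ.path.equi t g' hg' x, sub_eq_add_neg, sub_eq_add_neg, h3]
  obtain ⟨H, hH⟩ := hpp_of_path hP hψP ψ0 ψm
  have hr := hR _ _ hH ψ0
  have he : ∀ x, nrm (φ 1) x = g (Function.invFun f x) + w - v := by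
    intro x
    show φ 1 x - dsp (φ 1) = _
    rw [h1, hd]
  refine ENNReal.le_of_forall_pos_le_add fun δ hδ _ => ?_
  have hε : (0 : ℝ≥0∞) < ENNReal.ofReal (δ / (C + 1)) := by
    rw [ENNReal.ofReal_pos]
    positivity
  have hlt : rhoP P E (nrm (φ 1)) < ENNReal.ofReal (δ / (C + 1)) := by
    have : rhoP P E ((fun t => nrm (φ t)) 1) = 0 := hr
    rw [show rhoP P E (nrm (φ 1)) = 0 from this]
    exact hε
  unfold rhoP at hlt
  obtain ⟨χ, hlt⟩ := iInf_lt_iff.1 hlt
  obtain ⟨K, hlt⟩ := iInf_lt_iff.1 hlt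
  obtain ⟨⟨hχ, χ0, χ1⟩, hlt⟩ := iInf_lt_iff.1 hlt
  obtain ⟨Φ, hΦ, Φ0, Φ1, hL⟩ := UppP_len hP hE hc hI hχ hf hfi χ0
  have hle : sdistP N P f g ≤ len N Φ := by
    refine iInf_le_of_le Φ (iInf_le_of_le ⟨hΦ, Φ0, fun x => x + w, hw.1, ?_⟩ le_rfl)
    funext x
    show Φ 1 x = g x + w
    rw [Φ1, χ1, he, hkf]
    abel
  refine hle.trans (hL.trans ?_)
  rw [add_comm]
  refine add_le_add le_rfl ?_
  calc ENNReal.ofReal C * cstE E K ≤ ENNReal.ofReal C * ENNReal.ofReal (δ / (C + 1)) := by gcongr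
    _ = ENNReal.ofReal (C * (δ / (C + 1))) := (ENNReal.ofReal_mul hC).symm
    _ ≤ ENNReal.ofReal δ := by
        apply ENNReal.ofReal_le_ofReal
        rw [mul_div_assoc', div_le_iff₀ (by positivity)]
        nlinarith [δ.2]
    _ = δ := ENNReal.ofReal_coe_nnreal

end

end FS
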