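import Pool.Agent.FS.ZeroP
import Pool.Agent.FS.CfE
import Pool.Agent.FS.CfN
import Pool.Agent.FS.HsW
import Pool.Agent.FS.LowP
import Pool.Agent.FS.UppP
import Pool.Agent.FS.DiaP
import Pool.Agent.FS.NonP
import Pool.Agent.FS.DomP
import Pool.Agent.FS.ShrP
import Pool.Agent.FS.HW
import Pool.Agent.SVT.Low
import Pool.Agent.SVT.IntW
import Pool.Agent.SVT.IntH
import Pool.Agent.TN.Main

/-! # Project FS: assembly (MP_b0bf68_gt) -/

set_option autoImplicit false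

open MeasureTheory Set Pool.Agent.H68.VD TN SVT
open scoped ENNReal ContDiff

namespace FS

noncomputable section

variable {n : ℕ} {P : Set (Eu (n + n) → Eu (n + n))}

theorem sgr_eq {H : Eu (n + n) → ℝ} {V : Eu (n + n) → Eu (n + n)}
    (hd : ∀ x, HasFDerivAt H (innerSL ℝ (Jm (V x))) x) : V = sgr H := by
  funext x
  have h1 : gradient H x = Jm (V x) := by
    refine HasGradientAt.gradient ?_
    rw [hasGradientAt_iff_hasFDerivAt]
    exact hd x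
  unfold sgr
  rw [h1]
  refine ext_qp ?_ ?_ <;> simp [Jm]

theorem mean_all {p : ℝ} {N : ℝ → (Eu (n + n) → Eu (n + n)) → ℝ≥0∞}
    (hN : (p = 2 ∧ N = fun s => hsNorm s) ∨ (1 < p ∧ N = fun s => wspP s p)) {s : ℝ} (h0 : s < 0)
    (u : Eu (n + n) → Eu (n + n)) (hu : Continuous u) (hp : Per u) :
    ENNReal.ofReal ‖mn u‖ ≤ N s u := by
  rcases hN with ⟨rfl, rfl⟩ | ⟨h, rfl⟩
  · exact mean_hs s hu hp
  · exact mean_w h0 h hu hp

theorem const_all {p : ℝ} {N : ℝ → (Eu (n + n) → Eu (n + n)) → ℝ≥0∞}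
    (hN : (p = 2 ∧ N = fun s => hsNorm s) ∨ (1 < p ∧ N = fun s => wspP s p)) {s : ℝ} (h0 : s < 0)
    (w : Eu (n + n)) : N s (fun _ => w) ≤ ENNReal.ofReal ‖w‖ := by
  rcases hN with ⟨rfl, rfl⟩ | ⟨h, rfl⟩
  · exact const_hs s w
  · exact const_w h0 h w

theorem interp_all {p : ℝ} {N : ℝ → (Eu (n + n) → Eu (n + n)) → ℝ≥0∞}
    (hN : (p = 2 ∧ N = fun s => hsNorm s) ∨ (1 < p ∧ N = fun s => wspP s p)) {s : ℝ} (h0 : s < 0) :
    ∃ C : ℝ, 0 ≤ C ∧ ∀ (H : Eu (n + n) → ℝ) (V : Eu (n + n) → Eu (n + n)), ContDiff ℝ ∞ H → Per H →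
      Continuous V → (∀ x, HasFDerivAt H (innerSL ℝ (Jm (V x))) x) →
      N s V ≤ ENNReal.ofReal C * EE p (max (s + 1) 0) H := by
  rcases hN with ⟨rfl, rfl⟩ | ⟨h, rfl⟩
  · exact interp_hs h0
  · exact interp_w h h0

/-- the flux formula -/
theorem fluxP (hn : 0 < n) (hP : SpDeck P) {p : ℝ} {N : ℝ → (Eu (n + n) → Eu (n + n)) → ℝ≥0∞}
    (hN : (p = 2 ∧ N = fun s => hsNorm s) ∨ (1 < p ∧ N = fun s => wspP s p)) {s : ℝ} (h0 : s < 0)
    (hs : s ≤ -1 + n / p) : SpFlux (N s) P := by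
  intro f g hf hg
  have hp : 1 < p := by
    rcases hN with ⟨rfl, -⟩ | ⟨h, -⟩
    · norm_num
    · exact h
  have hn' : (0 : ℝ) < n := by exact_mod_cast hn
  have hp0 : 0 < p := by linarith
  refine le_antisymm ?_ (flux_lowP hP (fun u hu hup => mean_all hN h0 u hu hup) hf hg)
  rcases lt_or_eq_of_le hs with hlt | heq
  · have hσ : 0 ≤ max (s + 1) 0 := le_max_right _ _
    have hσ1 : max (s + 1) 0 < 1 := max_lt (by linarith) one_pos
    have hσn : max (s + 1) 0 < n / p := max_lt (by linarith) (by positivity)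
    have hE := cf_ee hn hP hp hσ hσ1 hσn
    exact flux_uppP hP hE (const_all hN h0) (interp_all hN h0)
      (fun φ H h h1 => zeroP hP hE h h1) hf hg
  · have hnp : (n : ℝ) < p := by
      have h1 : (n : ℝ) / p < 1 := by linarith
      rwa [div_lt_one hp0] at h1
    have hE := cf_w hn hP hnp
    refine flux_uppP hP hE (const_all hN h0) ?_ (fun φ H h h1 => zeroP hP hE h h1) hf hg
    have hs1 : -1 < s := by rw [heq]; have : (0 : ℝ) < n / p := by positivity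
                            linarith
    rcases hN with ⟨h2, rfl⟩ | ⟨-, rfl⟩
    · obtain ⟨C, hC, h⟩ := hs_le_w (m := n + n) hs1 h0
      refine ⟨C, hC, fun H V hH hHp hV hd => ?_⟩
      have h3 := sgr_eq hd
      have h4 : Per V := by
        intro x k
        have h5 : fderiv ℝ H (x + iv k) = fderiv ℝ H x := by
          have h6 : (fun y => H (y + iv k)) = H := by funext y; exact hHp y k
          have h7 : fderiv ℝ (fun y => H (y + iv k)) x = fderiv ℝ H (x + iv k) :=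
            fderiv_comp_add_right (iv k)
          rw [← h7, h6]
        rw [h3]
        show -Jm (gradient H (x + iv k)) = -Jm (gradient H x)
        unfold gradient
        rw [h5]
      subst h2
      refine (h V hV h4).trans ?_
      rw [← heq, ← h3]
    · refine ⟨1, zero_le_one, fun H V hH hHp hV hd => ?_⟩
      rw [ENNReal.ofReal_one, one_mul, ← heq, ← sgr_eq hd]

/-- a non-zero invariant vector gives a positive distance -/
theorem diam_pos_of_inv (hP : SpDeck P) {N : (Eu (n + n) → Eu (n + n)) → ℝ≥0∞}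
    (hN : ∀ f g, SGP P f → SGP P g → sdistP N P f g = 0 → ∃ γ ∈ P, g = γ ∘ f)
    {m : Eu (n + n)} (hm : FInv P m) (h0 : m ≠ 0) : 0 < sdiamP N P := by
  obtain ⟨ρ, hρ, hs⟩ := dk_sep hP
  have hm0 : 0 < ‖m‖ := norm_pos_iff.2 h0
  set t : ℝ := ρ / (2 * ‖m‖) with ht
  have ht0 : 0 < t := by positivity
  have hT : SGP P (fun x => x + t • m) := by
    have h1 := spp_trans hP hm
    have h2 := spp_sgp h1 (by funext x; simp) t
    exact h2
  have h3 : sdistP N P id (fun x => x + t • m) ≠ 0 := by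
    intro h
    obtain ⟨γ, hγ, h4⟩ := hN _ _ (sgp_id hP) hT h
    have h5 : γ = fun x => x + t • m := by
      rw [h4]
      rfl
    have h6 : γ ≠ id := by
      intro h7
      have h8 := congrFun (h5.symm.trans h7) 0
      simp only [zero_add, id] at h8
      exact (smul_ne_zero ht0.ne' h0) h8
    have h9 := (hs 0).2 γ hγ h6 0 (by simpa using hρ)
    apply h9
    rw [h5]
    simp only [zero_add, dist_zero_right, norm_smul, Real.norm_eq_abs, abs_of_pos ht0]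
    rw [ht]
    have : ρ / (2 * ‖m‖) * ‖m‖ = ρ / 2 := by field_simp
    rw [this]
    linarith
  have h4 : sdistP N P id (fun x => x + t • m) ≤ sdiamP N P := by
    unfold sdiamP
    exact le_iSup_of_le id (le_iSup_of_le (sgp_id hP) (le_iSup_of_le _ (le_iSup_of_le hT le_rfl)))
  exact lt_of_lt_of_le (pos_iff_ne_zero.2 h3) h4

/-- all orders -/
theorem classification (hn : 0 < n) (hP : SpDeck P) (p : ℝ) (N : ℝ → (Eu (n + n) → Eu (n + n)) → ℝ≥0∞)
    (hN : (p = 2 ∧ N = fun s => hsNorm s) ∨ (1 < p ∧ N = fun s => wspP s p)) :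
    (∀ s, s < 0 → s ≤ -1 + n / p → SpFlux (N s) P ∧ sdiamP (N s) P < ⊤ ∧
      (sdiamP (N s) P = 0 ↔ ∀ m, FInv P m → m = 0)) ∧
    (∀ s, (0 ≤ s ∨ -1 + n / p < s) → ∀ f g, SGP P f → SGP P g →
      (sdistP (N s) P f g = 0 ↔ ∃ γ ∈ P, g = γ ∘ f)) ∧
    (∀ s, (0 ≤ s ∨ (Split P ∧ -1 + n / p < s)) → sdiamP (N s) P = ⊤) ∧
    (((∃ m, FInv P m ∧ m ≠ 0) ∨ Split P ∨ p ≤ n) → ¬ Transition (fun s => sdiamP (N s) P)) := by
  have hp : 1 < p := by
    rcases hN with ⟨rfl, -⟩ | ⟨h, -⟩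
    · norm_num
    · exact h
  have hn' : (0 : ℝ) < n := by exact_mod_cast hn
  have hp0 : 0 < p := by linarith
  have h1 : ∀ s, s < 0 → s ≤ -1 + n / p → SpFlux (N s) P ∧ sdiamP (N s) P < ⊤ ∧
      (sdiamP (N s) P = 0 ↔ ∀ m, FInv P m → m = 0) := by
    intro s h0 hs
    have h2 := fluxP hn hP hN h0 hs
    exact ⟨h2, diamP_lt hP h2, diamP_zero hP h2⟩
  have h2 : ∀ s, (0 ≤ s ∨ -1 + n / p < s) → ∀ f g, SGP P f → SGP P g →
      (sdistP (N s) P f g = 0 ↔ ∃ γ ∈ P, g = γ ∘ f) := by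
    intro s hs f g hf hg
    constructor
    · exact fun h => nonP hP (fun f g hf hg h => ((TN.rigid hn hN hs).1 f g hf hg).1 h) hf hg h
    · rintro ⟨γ, hγ, h⟩
      exact zeroPP hP (TN.zero_all hN s) hf hγ h
  have h3 : ∀ s, (0 ≤ s ∨ (Split P ∧ -1 + n / p < s)) → sdiamP (N s) P = ⊤ := by
    rintro s (hs | ⟨hS, hs⟩)
    · exact diam_domP hn hP (TN.lnc_all hN hs)
    · rcases lt_or_ge s 0 with h0 | h0
      · exact diam_splitP hP hS (TN.slc_all hn hN h0 hs)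
      · exact diam_domP hn hP (TN.lnc_all hN h0)
  refine ⟨h1, h2, h3, ?_⟩
  rintro hS ⟨s₁, s₂, s₃, h12, -, hz, ⟨hpos, hfin⟩, -⟩
  simp only at hz hpos hfin
  have h4 : ∀ s, (0 ≤ s ∨ -1 + n / p < s) ∨ (s < 0 ∧ s ≤ -1 + n / p) := by
    intro s
    rcases lt_or_ge s 0 with h | h
    · rcases lt_or_ge (-1 + n / p) s with h' | h'
      · exact Or.inl (Or.inr h')
      · exact Or.inr ⟨h, h'⟩
    · exact Or.inl (Or.inl h)
  rcases hS with ⟨m, hm, hm0⟩ | hS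
  · rcases h4 s₁ with hs | ⟨hs, hs'⟩
    · exact (diam_pos_of_inv hP (fun f g hf hg h => (h2 s₁ hs f g hf hg).1 h) hm hm0).ne' hz
    · exact hm0 ((h1 s₁ hs hs').2.2.1 hz m hm)
  · have h5 : ∀ s, (0 ≤ s ∨ -1 + n / p < s) → sdiamP (N s) P = ⊤ := by
      intro s hs
      rcases hS with hS | hpn
      · exact h3 s (hs.imp_right fun h => ⟨hS, h⟩)
      · refine h3 s (Or.inl ?_)
        rcases hs with h | h
        · exact h
        · have : (1 : ℝ) ≤ n / p := by rwa [le_div_iff₀ hp0, one_mul]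
          linarith
    rcases h4 s₂ with hs | ⟨ha, hb⟩
    · rw [h5 s₂ hs] at hfin
      exact lt_irrefl _ hfin
    rcases h4 s₁ with hs | ⟨hc, hd⟩
    · rw [h5 s₁ hs] at hz
      exact ENNReal.top_ne_zero hz
    exact hpos.ne' ((h1 s₂ ha hb).2.2.2 ((h1 s₁ hc hd).2.2.1 hz))

/-- a manifold of dimension six with first Betti number zero -/
theorem example_hw : ∃ P : Set (Eu (3 + 3) → Eu (3 + 3)), SpDeck P ∧ Split P ∧
    (∀ m, FInv P m → m = 0) ∧
    ∀ (p : ℝ) (N : ℝ → (Eu (3 + 3) → Eu (3 + 3)) → ℝ≥0∞),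
      (p = 2 ∧ N = fun s => hsNorm s) ∨ (1 < p ∧ N = fun s => wspP s p) →
      (∀ s, s < 0 → s ≤ -1 + 3 / p → sdiamP (N s) P = 0) ∧
      ∀ s, (0 ≤ s ∨ -1 + 3 / p < s) → sdiamP (N s) P = ⊤ := by
  obtain ⟨P, hP, hS, hI⟩ := exists_hw
  refine ⟨P, hP, hS, hI, fun p N hN => ?_⟩
  obtain ⟨h1, -, h3, -⟩ := classification (n := 3) (by norm_num) hP p N hN
  constructor
  · intro s h0 hs
    exact (h1 s h0 (by exact_mod_cast hs)).2.2.2 hI
  · rintro s (hs | hs)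
    · exact h3 s (Or.inl hs)
    · exact h3 s (Or.inr ⟨hS, by exact_mod_cast hs⟩)

/-- the tori -/
theorem tori (hn : 0 < n) : SpDeck (lat (n + n)) ∧ Split (lat (n + n)) ∧
    ∀ m : Eu (n + n), FInv (lat (n + n)) m := by
  refine ⟨CfN_lat n, ⟨⟨0, hn⟩, ?_⟩, ?_⟩
  · rintro g ⟨k, rfl⟩
    exact ⟨iv k (Fin.natAdd n ⟨0, hn⟩), Or.inl fun x => by simp⟩
  · rintro m g ⟨k, rfl⟩ x
    show x + m + iv k = x + iv k + m
    abel

/-- the result -/
theorem main :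
    (∀ n : ℕ, 0 < n → ∀ P : Set (Eu (n + n) → Eu (n + n)), SpDeck P →
      ∀ (p : ℝ) (N : ℝ → (Eu (n + n) → Eu (n + n)) → ℝ≥0∞),
        (p = 2 ∧ N = fun s => hsNorm s) ∨ (1 < p ∧ N = fun s => wspP s p) →
        (∀ s, s < 0 → s ≤ -1 + n / p → SpFlux (N s) P ∧ sdiamP (N s) P < ⊤ ∧
          (sdiamP (N s) P = 0 ↔ ∀ m, FInv P m → m = 0)) ∧
        (∀ s, (0 ≤ s ∨ -1 + n / p < s) → ∀ f g, SGP P f → SGP P g →
          (sdistP (N s) P f g = 0 ↔ ∃ γ ∈ P, g = γ ∘ f)) ∧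
        (∀ s, (0 ≤ s ∨ (Split P ∧ -1 + n / p < s)) → sdiamP (N s) P = ⊤) ∧
        (((∃ m, FInv P m ∧ m ≠ 0) ∨ Split P ∨ p ≤ n) →
          ¬ Transition (fun s => sdiamP (N s) P))) ∧
    (∀ n : ℕ, 0 < n → SpDeck (lat (n + n)) ∧ Split (lat (n + n)) ∧
      ∀ m : Eu (n + n), FInv (lat (n + n)) m) ∧
    ∃ P : Set (Eu (3 + 3) → Eu (3 + 3)), SpDeck P ∧ Split P ∧ (∀ m, FInv P m → m = 0) ∧
      ∀ (p : ℝ) (N : ℝ → (Eu (3 + 3) → Eu (3 + 3)) → ℝ≥0∞),
        (p = 2 ∧ N = fun s => hsNorm s) ∨ (1 < p ∧ N = fun s => wspP s p) →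
        (∀ s, s < 0 → s ≤ -1 + 3 / p → sdiamP (N s) P = 0) ∧
        ∀ s, (0 ≤ s ∨ -1 + 3 / p < s) → sdiamP (N s) P = ⊤ :=
  ⟨fun _ hn _ hP p N hN => classification hn hP p N hN, fun _ hn => tori hn, example_hw⟩

end

end FS
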