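import Pool.Agent.FS.ZfP
import Pool.Agent.FS.DenP
import Pool.Agent.FS.LocP
import Pool.Agent.FS.GloP

/-! # Project FS: ends of Hamiltonian paths have cost zero (MP_b0bf68_gt) -/

set_option autoImplicit false

open MeasureTheory Set Pool.Agent.H68.VD TN SVT
open scoped ENNReal ContDiff

namespace FS

noncomputable section

variable {n : ℕ} {P : Set (Eu (n + n) → Eu (n + n))} {E : (Eu (n + n) → ℝ) → ℝ≥0∞}

theorem zeroP (hP : SpDeck P) (hE : CF P E) {φ : ℝ → Eu (n + n) → Eu (n + n)}
    {H : ℝ → Eu (n + n) → ℝ} (h : HPP P φ H) (h0 : φ 0 = id) : rhoP P E (φ 1) = 0 := by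
  refine gloP hP hE h h0 fun t₀ ε hε => locP hP hE ?_ h h0 t₀ hε
  intro G hG hGI hGm δ hδ
  obtain ⟨r₀, hr₀, hz⟩ := zfP_all hP hE
  obtain ⟨b, N', z, z', a, hb, hb0, hd⟩ := densP hP hr₀ hG hGI hGm hδ
  refine ⟨fun x => ∑ j, a j * (sym P (fun y => b (y - z j)) x - sym P (fun y => b (y - z' j)) x),
    ?_, hd⟩
  have key : ∀ S : Finset (Fin N'), ZFP P E (fun x => ∑ j ∈ S, a j *
      (sym P (fun y => b (y - z j)) x - sym P (fun y => b (y - z' j)) x)) := by
    intro S
    classical
    induction S using Finset.induction_on with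
    | empty =>
      have := hz b hb hb0 0 0 0
      simpa using this
    | insert i S hi ih =>
      have h1 := zfP_add hP hE (hz b hb hb0 (z i) (z' i) (a i)) ih
      simpa [Finset.sum_insert hi] using h1
  exact key Finset.univ

end

end FS
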