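import Pool.Agent.FS.Dk
import Pool.Agent.FS.Sgp
import Pool.Agent.FS.Sym
import Pool.Agent.FS.Hpp
import Pool.Agent.FS.RhoP
import Pool.Agent.FS.ComP
import Pool.Agent.FS.TrlP
import Pool.Agent.SVT.Sg

/-!
# FS-11: Hamiltonians of families of cost zero
-/

set_option autoImplicit false
set_option maxHeartbeats 400000

open MeasureTheory Set Pool.Agent.H68.VD TN SVT
open scoped ENNReal ContDiff

namespace FS

noncomputable section

variable {n : ℕ} {P : Set (Eu (n + n) → Eu (n + n))} {E : (Eu (n + n) → ℝ) → ℝ≥0∞}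

lemma zfP_bij (hP : SpDeck P) {φ : ℝ → Eu (n + n) → Eu (n + n)} {H : ℝ → Eu (n + n) → ℝ}
    (h : HPP P φ H) (h0 : φ 0 = id) (t : ℝ) : Function.Bijective (φ t) :=
  SVT.sg_bij (sgp_sg hP (h.sgp h0 t))

theorem zfP_add (hP : SpDeck P) (hE : CF P E) {G G' : Eu (n + n) → ℝ} (h : ZFP P E G)
    (h' : ZFP P E G') : ZFP P E (fun x => G x + G' x) := by
  obtain ⟨Q, K, hQ, Q0, hK, hr⟩ := h
  obtain ⟨Q', K', hQ', Q0', hK', hr'⟩ := h'
  refine ⟨_, _, hQ.comp hQ', ?_, ?_, ?_⟩
  · funext x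
    simp [Q0, Q0']
  · intro x
    have h1 : Function.invFun (Q 0) x = x := by
      rw [Q0]
      exact Function.leftInverse_invFun Function.injective_id x
    simp only [h1, hK, hK']
  · intro θ
    have h1 := rhoP_mul hP hE (Equiv.ofBijective (Q θ) (zfP_bij hP hQ Q0 θ))
      (Equiv.ofBijective (Q' θ) (zfP_bij hP hQ' Q0' θ))
    have h2 : (⇑(Equiv.ofBijective (Q θ) (zfP_bij hP hQ Q0 θ) *
        Equiv.ofBijective (Q' θ) (zfP_bij hP hQ' Q0' θ)) : Eu (n + n) → Eu (n + n)) =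
        fun x => Q θ (Q' θ x) := rfl
    rw [h2] at h1
    simp only [Equiv.coe_ofBijective] at h1
    rw [hr θ, hr' θ, add_zero] at h1
    exact le_antisymm h1 zero_le

lemma zfP_step (hP : SpDeck P) {Λ₁ Λ₂ : ℝ}
    (hC : ∀ (c : Eu (n + n)) (ρ r : ℝ),
      SepP P c ρ → 0 < r → Λ₁ * r ≤ ρ → ∀ (f h : ℝ → Eu (n + n) → Eu (n + n))
      (F H : ℝ → Eu (n + n) → ℝ), HPP P f F → f 0 = id → (∀ t x, x ∉ orb P c r → F t x = 0) →
      HPP P h H → h 0 = id → (∀ t x, x ∉ orb P c r → H t x = 0) →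
      rhoP P E (fun x => f 1 (h 1 (Function.invFun (f 1) (Function.invFun (h 1) x)))) = 0)
    (hT : ∀ (c : Eu (n + n)) (ρ r : ℝ),
      SepP P c ρ → 0 < r → Λ₂ * r ≤ ρ → ∀ v : Eu (n + n), ‖v‖ ≤ r →
      ∃ (g : ℝ → Eu (n + n) → Eu (n + n)) (G : ℝ → Eu (n + n) → ℝ), HPP P g G ∧ g 0 = id ∧
        (∀ t x, x ∉ orb P c (4 * r) → G t x = 0) ∧ ∀ x, dist x c ≤ r → g 1 x = x + v)
    {ρ r : ℝ} (hs : ∀ c, SepP P c ρ) (hr : 0 < r) (h1 : Λ₁ * (4 * r) ≤ ρ) (h2 : Λ₂ * r ≤ ρ)
    (h3 : r < ρ) {b : Eu (n + n) → ℝ} (hb : ContDiff ℝ ∞ b) (hb0 : ∀ x, r ≤ ‖x‖ → b x = 0)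
    (z v : Eu (n + n)) (hv : ‖v‖ ≤ r) (a : ℝ) :
    ZFP P E (fun x => a * (sym P (fun y => b (y - (z + v))) x - sym P (fun y => b (y - z)) x)) := by
  obtain ⟨g, G, hg, g0, hG, hgv⟩ := hT z ρ r (hs z) hr h2 v hv
  have hgb : Function.Bijective (g 1) := zfP_bij hP hg g0 1
  have hu0 : ∀ x, r ≤ dist x z → b (x - z) = 0 := by
    intro x hx
    rw [dist_eq_norm] at hx
    exact hb0 _ hx
  have hSI : PI P (sym P (fun y => b (y - z))) := sym_inv hP _
  have hSs : ContDiff ℝ ∞ (fun q : ℝ × Eu (n + n) => sym P (fun y => b (y - z)) q.2) :=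
    sym_smooth hP (hs z) h3 (E := ℝ) (u := fun _ y => b (y - z))
      (hb.comp (contDiff_snd.sub contDiff_const)) (fun _ x hx => hu0 x hx)
  obtain ⟨B, hB, B0⟩ := exists_hpp hP (H := fun _ => sym P (fun y => b (y - z))) hSs
    (fun _ => hSI)
  have hτ : ∀ c : ℝ, ContDiff ℝ ∞ (fun t : ℝ => c * t) := fun c => contDiff_const.mul contDiff_id
  have hdτ : ∀ c t : ℝ, deriv (fun t : ℝ => c * t) t = c := by
    intro c t
    have h := ((hasDerivAt_id t).const_mul c).deriv
    rw [mul_one] at h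
    exact h
  -- the sum of the translates is moved by the translation
  have hmove : ∀ x, sym P (fun y => b (y - z)) (Function.invFun (g 1) x) =
      sym P (fun y => b (y - (z + v))) x := by
    intro x
    obtain ⟨y, rfl⟩ := hgb.2 x
    rw [Function.leftInverse_invFun hgb.1 y]
    unfold sym
    refine finsum_congr (fun γ => ?_)
    have e1 : γ.1 (g 1 y) = g 1 (γ.1 y) := (hg.equi 1 γ.1 γ.2 y).symm
    simp only [e1]
    set w : Eu (n + n) := γ.1 y with hw
    by_cases hwz : dist w z ≤ r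
    · rw [hgv w hwz]
      congr 1
      abel
    · have e2 : b (w - z) = 0 := hu0 w (not_le.1 hwz).le
      rw [e2]
      by_contra h4
      have h5 : ¬ r ≤ ‖g 1 w - (z + v)‖ := fun h => h4 (hb0 _ h).symm
      have h6 : dist (g 1 w - v) z < r := by
        rw [dist_eq_norm]
        have : g 1 w - v - z = g 1 w - (z + v) := by abel
        rw [this]
        exact not_le.1 h5
      have h7 : g 1 (g 1 w - v) = g 1 w := by
        rw [hgv _ h6.le]
        abel
      have h8 : g 1 w - v = w := hgb.1 h7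
      rw [h8] at h6
      exact hwz h6.le
  have hg1 : SGP P (g 1) := hg.sgp g0 1
  have k1 := (hB.time (hτ a)).left hP hg1
  have k2 := (hB.time (hτ a)).inverse
  have B00 : B (a * 0) = id := by rw [mul_zero, B0]
  have hid : ∀ x : Eu (n + n), Function.invFun (id : Eu (n + n) → Eu (n + n)) x = x := fun x =>
    Function.leftInverse_invFun Function.injective_id x
  have hgr : ∀ x, g 1 (Function.invFun (g 1) x) = x := fun x => Function.rightInverse_invFun hgb.2 x
  have hA : (fun x => g 1 (B (a * 0) (Function.invFun (g 1) x))) = id := by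
    funext x
    rw [B00]
    exact hgr x
  refine ⟨_, _, k1.comp k2, ?_, ?_, ?_⟩
  · funext x
    simp only [B00, hid, id]
    exact hgr x
  · intro x
    simp only [hdτ, hA, hid, hmove]
    rw [B00]
    simp only [id]
    ring
  · intro θ
    have k3 := hB.time (hτ (a * θ))
    have k4 := hC z ρ (4 * r) (hs z) (by linarith) h1 g (fun t => B (a * θ * t)) G _ hg g0 hG k3
      (by simp only [mul_zero, B0]) (by
        intro t x hx
        rw [hdτ, sym_out (fun y hy => hu0 y (by linarith)) hx, mul_zero])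
    simp only [mul_one] at k4
    exact k4

theorem zfP_all (hP : SpDeck P) (hE : CF P E) : ∃ r₀ : ℝ, 0 < r₀ ∧ ∀ b : Eu (n + n) → ℝ,
    ContDiff ℝ ∞ b → (∀ x, r₀ ≤ ‖x‖ → b x = 0) → ∀ (z z' : Eu (n + n)) (a : ℝ),
      ZFP P E (fun x => a * (sym P (fun y => b (y - z)) x - sym P (fun y => b (y - z')) x)) := by
  obtain ⟨Λ₁, hΛ₁, hC⟩ := comP hP hE
  obtain ⟨Λ₂, hΛ₂, hT⟩ := trlP hP
  obtain ⟨ρ, hρ, hs⟩ := dk_sep hP
  set r : ℝ := ρ / (4 * Λ₁ + Λ₂) with hr
  have hd : 0 < 4 * Λ₁ + Λ₂ := by linarith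
  have hr0 : 0 < r := by positivity
  have hrd : r * (4 * Λ₁ + Λ₂) = ρ := by rw [hr]; field_simp
  have h1 : Λ₁ * (4 * r) ≤ ρ := by nlinarith
  have h2 : Λ₂ * r ≤ ρ := by nlinarith
  have h3 : r < ρ := by nlinarith
  refine ⟨r, hr0, ?_⟩
  intro b hb hb0 z z' a
  have step : ∀ z v : Eu (n + n), ‖v‖ ≤ r → ZFP P E (fun x =>
      a * (sym P (fun y => b (y - (z + v))) x - sym P (fun y => b (y - z)) x)) :=
    fun z v hv => zfP_step hP hC hT hs hr0 h1 h2 h3 hb hb0 z v hv a
  have key : ∀ N : ℕ, ∀ z z' : Eu (n + n), ‖z - z'‖ ≤ N * r → ZFP P E (fun x =>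
      a * (sym P (fun y => b (y - z)) x - sym P (fun y => b (y - z')) x)) := by
    intro N
    induction N with
    | zero =>
      intro z z' h
      have h4 : z - z' = 0 := by
        rw [← norm_le_zero_iff]
        simpa using h
      have h5 := step z' (z - z') (by rw [h4, norm_zero]; exact hr0.le)
      simpa using h5
    | succ N ih =>
      intro z z' h
      have hN : (0 : ℝ) < (N : ℝ) + 1 := by positivity
      push_cast at h
      set v : Eu (n + n) := ((N : ℝ) + 1)⁻¹ • (z - z') with hv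
      have h4 : ‖v‖ ≤ r := by
        rw [hv, norm_smul, norm_inv, Real.norm_eq_abs, abs_of_pos hN, inv_mul_le_iff₀ hN]
        exact h
      have h5 : ‖z - (z' + v)‖ ≤ N * r := by
        have e1 : z - (z' + v) = ((N : ℝ) * ((N : ℝ) + 1)⁻¹) • (z - z') := by
          have e2 : ((N : ℝ) * ((N : ℝ) + 1)⁻¹) = 1 - ((N : ℝ) + 1)⁻¹ := by
            field_simp
            ring
          rw [e2, sub_smul, one_smul, hv]
          abel
        rw [e1, norm_smul, Real.norm_eq_abs, abs_of_nonneg (by positivity), mul_assoc]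
        refine mul_le_mul_of_nonneg_left ?_ (by positivity)
        rw [inv_mul_le_iff₀ hN]
        exact h
      have h6 := zfP_add hP hE (ih z (z' + v) h5) (step z' v h4)
      refine (by
        have e : (fun x => a * (sym P (fun y => b (y - z)) x -
            sym P (fun y => b (y - (z' + v))) x) +
            a * (sym P (fun y => b (y - (z' + v))) x - sym P (fun y => b (y - z')) x)) =
            fun x => a * (sym P (fun y => b (y - z)) x - sym P (fun y => b (y - z')) x) := by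
          funext x
          ring
        rw [e] at h6
        exact h6)
  obtain ⟨N, hN⟩ := exists_nat_ge (‖z - z'‖ / r)
  exact key N z z' ((div_le_iff₀ hr0).1 hN)

end

end FS
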